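import Pool.Agent.L3S.Norms

set_option autoImplicit false

/-! Package T6: the third vertex of a triangle with two sides `exp (s A)`, `exp (s B)`, near `s = 0`. -/

namespace Pool.Agent.L3S

open Real Complex

/-- `4 q₁ - (1 + q₁ - q₂)²` for `q₁ = exp (2 s A)`, `q₂ = exp (2 s B)`: sixteen times the square of the
area of the triangle with sides `1, √q₁, √q₂`. -/
noncomputable def DD (A B s : ℝ) : ℝ :=
  4 * Real.exp (2 * s * A) - (1 + Real.exp (2 * s * A) - Real.exp (2 * s * B)) ^ 2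

/-- The numerator of the derivative of the argument of `x ^ ρ (1 - x) ^ σ`. -/
noncomputable def RR (ρ σ A B s : ℝ) : ℝ :=
  (ρ * A - σ * B) - (ρ * A + σ * (2 * A - B)) * Real.exp (2 * s * A) +
    (ρ * (2 * B - A) + σ * B) * Real.exp (2 * s * B)

/-- The third vertex. -/
noncomputable def vx (A B s : ℝ) : ℂ :=
  ((1 + Real.exp (2 * s * A) - Real.exp (2 * s * B) : ℝ) + Real.sqrt (DD A B s) * I) / 2

private theorem arc_sq (A B s : ℝ) (h : 0 ≤ DD A B s) :
    ((Real.sqrt (DD A B s) : ℝ) : ℂ) ^ 2 = 4 * ((Real.exp (2 * s * A) : ℝ) : ℂ) -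
      (1 + ((Real.exp (2 * s * A) : ℝ) : ℂ) - ((Real.exp (2 * s * B) : ℝ) : ℂ)) ^ 2 := by
  have h1 : (Real.sqrt (DD A B s)) ^ 2 = 4 * Real.exp (2 * s * A) -
      (1 + Real.exp (2 * s * A) - Real.exp (2 * s * B)) ^ 2 := Real.sq_sqrt h
  exact_mod_cast congrArg (fun x : ℝ => (x : ℂ)) h1

private theorem arc_conj (A B s : ℝ) : (starRingEnd ℂ) (vx A B s) =
    (((1 + Real.exp (2 * s * A) - Real.exp (2 * s * B) : ℝ) : ℂ) -
      ((Real.sqrt (DD A B s) : ℝ) : ℂ) * I) / 2 := by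
  unfold vx
  rw [map_div₀, map_add, map_mul, Complex.conj_ofReal, Complex.conj_ofReal, Complex.conj_I,
    Complex.conj_ofNat]
  ring

/-- Where `DD ≥ 0`: `x x̄ = q₁`. -/
theorem vx_mul_conj (A B s : ℝ) (h : 0 ≤ DD A B s) :
    vx A B s * (starRingEnd ℂ) (vx A B s) = Real.exp (2 * s * A) := by
  rw [arc_conj]
  unfold vx
  have h1 := arc_sq A B s h
  have h2 := Complex.I_sq
  rw [Complex.ofReal_sub, Complex.ofReal_add, Complex.ofReal_one]
  linear_combination (1 / 4 : ℂ) * h1 - ((Real.sqrt (DD A B s) : ℝ) : ℂ) ^ 2 / 4 * h2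

/-- Where `DD ≥ 0`: `(1 - x) (1 - x̄) = q₂`. -/
theorem one_sub_vx_mul_conj (A B s : ℝ) (h : 0 ≤ DD A B s) :
    (1 - vx A B s) * (1 - (starRingEnd ℂ) (vx A B s)) = Real.exp (2 * s * B) := by
  rw [arc_conj]
  unfold vx
  have h1 := arc_sq A B s h
  have h2 := Complex.I_sq
  rw [Complex.ofReal_sub, Complex.ofReal_add, Complex.ofReal_one]
  linear_combination (1 / 4 : ℂ) * h1 - ((Real.sqrt (DD A B s) : ℝ) : ℂ) ^ 2 / 4 * h2

private theorem arc_cont (A B : ℝ) : Continuous (DD A B) := by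
  unfold DD
  fun_prop

/-- `DD A B 0 = 3`, so `DD > 0` near `0`. -/
theorem DD_pos (A B : ℝ) : ∀ᶠ s in nhds (0 : ℝ), 0 < DD A B s := by
  have h0 : 0 < DD A B 0 := by
    unfold DD
    norm_num
  exact (arc_cont A B).continuousAt.eventually (lt_mem_nhds h0)

private theorem arc_exp (A s : ℝ) : AnalyticAt ℝ (fun s : ℝ => Real.exp (2 * s * A)) s := by
  have h1 : AnalyticAt ℝ (fun s : ℝ => 2 * s * A) s := by fun_prop
  exact h1.rexp

private theorem arc_DD (A B s : ℝ) : AnalyticAt ℝ (DD A B) s := by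
  have h1 := arc_exp A s
  have h2 := arc_exp B s
  have h3 : AnalyticAt ℝ (fun s : ℝ => 4 * Real.exp (2 * s * A) -
      (1 + Real.exp (2 * s * A) - Real.exp (2 * s * B)) ^ 2) s :=
    (analyticAt_const.mul h1).sub (((analyticAt_const.add h1).sub h2).pow 2)
  exact h3

private theorem arc_sqrt (A B s : ℝ) (h : 0 < DD A B s) :
    AnalyticAt ℝ (fun s => Real.sqrt (DD A B s)) s := by
  have h1 : AnalyticAt ℝ (fun s => Real.log (DD A B s) / 2) s := ((arc_DD A B s).log h).div_const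
  have h2 : AnalyticAt ℝ (fun s => Real.exp (Real.log (DD A B s) / 2)) s := h1.rexp
  refine h2.congr ?_
  have h3 : ∀ᶠ u in nhds s, 0 < DD A B u :=
    (arc_cont A B).continuousAt.eventually (lt_mem_nhds h)
  filter_upwards [h3] with u hu
  rw [← Real.log_sqrt hu.le, Real.exp_log (Real.sqrt_pos.2 hu)]

private theorem arc_ofReal {f : ℝ → ℝ} {s : ℝ} (hf : AnalyticAt ℝ f s) :
    AnalyticAt ℝ (fun s => ((f s : ℝ) : ℂ)) s :=
  (Complex.ofRealCLM.analyticAt (f s)).comp hf

/-- The function `vx` is real analytic where `DD > 0`. -/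
theorem analyticAt_vx (A B s : ℝ) (h : 0 < DD A B s) : AnalyticAt ℝ (vx A B) s := by
  have h1 := arc_ofReal ((analyticAt_const (v := (1 : ℝ)) (x := s)).add (arc_exp A s) |>.sub
    (arc_exp B s))
  have h2 := arc_ofReal (arc_sqrt A B s h)
  exact (h1.add (h2.mul analyticAt_const)).div_const

private theorem arc_hasDeriv (A B s : ℝ) (h : 0 < DD A B s) :
    HasDerivAt (vx A B) ((((2 * A * Real.exp (2 * s * A) - 2 * B * Real.exp (2 * s * B) : ℝ) : ℂ) +
      (((8 * A * Real.exp (2 * s * A) -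
        2 * (1 + Real.exp (2 * s * A) - Real.exp (2 * s * B)) *
          (2 * A * Real.exp (2 * s * A) - 2 * B * Real.exp (2 * s * B))) /
            (2 * Real.sqrt (DD A B s)) : ℝ) : ℂ) * I) / 2) s := by
  have hl : ∀ C : ℝ, HasDerivAt (fun s : ℝ => Real.exp (2 * s * C))
      (2 * C * Real.exp (2 * s * C)) s := by
    intro C
    have h1 : HasDerivAt (fun s : ℝ => 2 * s * C) (2 * C) s := by
      simpa using ((hasDerivAt_id s).const_mul 2).mul_const C
    have h2 := h1.exp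
    rwa [mul_comm] at h2
  have hS : HasDerivAt (fun s : ℝ => 1 + Real.exp (2 * s * A) - Real.exp (2 * s * B))
      (2 * A * Real.exp (2 * s * A) - 2 * B * Real.exp (2 * s * B)) s :=
    ((hl A).const_add 1).sub (hl B)
  have hD : HasDerivAt (DD A B) (8 * A * Real.exp (2 * s * A) -
        2 * (1 + Real.exp (2 * s * A) - Real.exp (2 * s * B)) *
          (2 * A * Real.exp (2 * s * A) - 2 * B * Real.exp (2 * s * B))) s := by
    have h1 := ((hl A).const_mul 4).sub (hS.pow 2)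
    refine h1.congr_deriv ?_
    push_cast
    ring
  exact (hS.ofReal_comp.add ((hD.sqrt h.ne').ofReal_comp.mul_const I)).div_const 2

private theorem arc_alg1 (a b r A B : ℂ) (hr : r ≠ 0) (h1 : r ^ 2 = 4 * a - (1 + a - b) ^ 2) :
    ((2 * A * a - 2 * B * b) + ((8 * A * a - 2 * (1 + a - b) * (2 * A * a - 2 * B * b)) /
      (2 * r)) * I) / 2 =
    ((1 + a - b) + r * I) / 2 * (A + (A - A * a + (2 * B - A) * b) / r * I) := by
  have e1 : ((8 * A * a - 2 * (1 + a - b) * (2 * A * a - 2 * B * b)) / (2 * r)) =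
      A * r + (1 + a - b) * ((A - A * a + (2 * B - A) * b) / r) := by
    field_simp
    linear_combination (-2 * A) * h1
  rw [e1]
  have e2 : r * ((A - A * a + (2 * B - A) * b) / r) = (A - A * a + (2 * B - A) * b) := by
    field_simp
  linear_combination (-(1 / 2) * (I ^ 2)) * e2 - (1 / 2) * (A - A * a + (2 * B - A) * b) * I_sq

private theorem arc_alg2 (a b r A B : ℂ) (hr : r ≠ 0) (h1 : r ^ 2 = 4 * a - (1 + a - b) ^ 2) :
    ((2 * A * a - 2 * B * b) + ((8 * A * a - 2 * (1 + a - b) * (2 * A * a - 2 * B * b)) /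
      (2 * r)) * I) / 2 =
    -((1 - ((1 + a - b) + r * I) / 2) * (B - (B - B * b + (2 * A - B) * a) / r * I)) := by
  have e1 : ((8 * A * a - 2 * (1 + a - b) * (2 * A * a - 2 * B * b)) / (2 * r)) =
      B * r + (1 - a + b) * ((B - B * b + (2 * A - B) * a) / r) := by
    field_simp
    linear_combination (-2 * B) * h1
  rw [e1]
  have e2 : r * ((B - B * b + (2 * A - B) * a) / r) = (B - B * b + (2 * A - B) * a) := by
    field_simp
  linear_combination ((1 / 2) * (I ^ 2)) * e2 + (1 / 2) * (B - B * b + (2 * A - B) * a) * I_sq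

/-- The derivative: `x' = x (A + i (A S - S') / √DD)` with `S = 1 + q₁ - q₂`, `S' = 2 A q₁ - 2 B q₂`,
and `A S - S' = A - A q₁ + (2 B - A) q₂`. -/
theorem hasDerivAt_vx (A B s : ℝ) (h : 0 < DD A B s) :
    HasDerivAt (vx A B) (vx A B s * (A + (A - A * Real.exp (2 * s * A) +
      (2 * B - A) * Real.exp (2 * s * B) : ℝ) / Real.sqrt (DD A B s) * I)) s := by
  refine (arc_hasDeriv A B s h).congr_deriv ?_
  have h3 : ((Real.sqrt (DD A B s) : ℝ) : ℂ) ≠ 0 := by
    exact_mod_cast (Real.sqrt_pos.2 h).ne'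
  have h4 := arc_alg1 ((Real.exp (2 * s * A) : ℝ) : ℂ) ((Real.exp (2 * s * B) : ℝ) : ℂ)
    ((Real.sqrt (DD A B s) : ℝ) : ℂ) A B h3 (arc_sq A B s h.le)
  unfold vx
  generalize Real.exp (2 * s * A) = a at *
  generalize Real.exp (2 * s * B) = b at *
  generalize Real.sqrt (DD A B s) = r at *
  push_cast
  exact h4

/-- The same derivative, expressed with `1 - x`:
`x' = -(1 - x) (B - i (B - B q₂ + (2 A - B) q₁) / √DD)`. -/
theorem hasDerivAt_vx' (A B s : ℝ) (h : 0 < DD A B s) :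
    HasDerivAt (vx A B) (-((1 - vx A B s) * (B - (B - B * Real.exp (2 * s * B) +
      (2 * A - B) * Real.exp (2 * s * A) : ℝ) / Real.sqrt (DD A B s) * I))) s := by
  refine (arc_hasDeriv A B s h).congr_deriv ?_
  have h3 : ((Real.sqrt (DD A B s) : ℝ) : ℂ) ≠ 0 := by
    exact_mod_cast (Real.sqrt_pos.2 h).ne'
  have h4 := arc_alg2 ((Real.exp (2 * s * A) : ℝ) : ℂ) ((Real.exp (2 * s * B) : ℝ) : ℂ)
    ((Real.sqrt (DD A B s) : ℝ) : ℂ) A B h3 (arc_sq A B s h.le)
  unfold vx
  generalize Real.exp (2 * s * A) = a at *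
  generalize Real.exp (2 * s * B) = b at *
  generalize Real.sqrt (DD A B s) = r at *
  push_cast
  exact h4

end Pool.Agent.L3S
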