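import Pool.Agent.L3S.Cfg
import Pool.Agent.LThree.North
import Pool.Agent.MinHt.ThmA
import Pool.Agent.Leh2.HtExt

set_option autoImplicit false

/-! Package T11: configurations of bounded degree. -/

namespace Pool.Agent.L3S

open NumberField Height Real Module Pool.Agent.LThree

private theorem bdd_mo {K : Type} [Field K] (x y : K) (u : Fin 4 → ℤ) :
    mo x y u = ∏ k, fo x y k ^ u k := by
  rw [Fin.prod_univ_four]
  simp [mo, fo, mul_assoc]

private theorem bdd_zpow {K : Type} [Field K] {z w : K} {N : ℕ} (hz : z ≠ 0) (hw : w ≠ 0)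
    (f : Fin 4 → K) (a b u : Fin 4 → ℤ) (ex : ∀ k, f k ^ N = z ^ a k * w ^ b k)
    (h1 : ∑ k, u k * a k = 0) (h2 : ∑ k, u k * b k = 0) :
    ∏ k, f k ^ ((N : ℤ) * u k) = 1 := by
  have h3 : ∀ k, f k ^ ((N : ℤ) * u k) = z ^ (u k * a k) * w ^ (u k * b k) := by
    intro k
    rw [zpow_mul, zpow_natCast, ex, mul_zpow, ← zpow_mul, ← zpow_mul, mul_comm (a k),
      mul_comm (b k)]
  have h4 : ∀ (g : Fin 4 → ℤ) (t : K), t ≠ 0 → ∏ k, t ^ g k = t ^ ∑ k, g k := by
    intro g t ht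
    rw [Fin.prod_univ_four, Fin.sum_univ_four, zpow_add₀ ht, zpow_add₀ ht, zpow_add₀ ht]
  rw [Finset.prod_congr rfl fun k _ => h3 k, Finset.prod_mul_distrib, h4 _ z hz, h4 _ w hw, h1, h2,
    zpow_zero, zpow_zero, mul_one]

/-- The vectors `(a k, b k)` span the plane: otherwise all `2 × 2` minors vanish, the map
`u ↦ (∑ u_k a_k, ∑ u_k b_k)` on `ℤ^4` has rank at most one, its kernel contains three independent
vectors `u`, with `(mo x y u) ^ N = 1` by `ex`, so `mo x y (N • u) = 1`, against `rank`. -/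
theorem cfg_det (M H : ℝ) (K : Type) [Field K] [NumberField K] (x y z : K) (N : ℕ)
    (a b r : Fin 4 → ℤ) (h : Cfg M H K x y z N a b r) : ∃ k l, a k * b l - a l * b k ≠ 0 := by
  classical
  by_contra hcon
  push Not at hcon
  have hc : ∃ (c : Fin 4 → ℤ) (k : Fin 4), c k ≠ 0 ∧
      ∀ l, c k * a l = c l * a k ∧ c k * b l = c l * b k := by
    by_cases ha : ∃ k, a k ≠ 0
    · obtain ⟨k, hk⟩ := ha
      exact ⟨a, k, hk, fun l => ⟨mul_comm _ _, by have := hcon k l; linarith⟩⟩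
    by_cases hb : ∃ k, b k ≠ 0
    · obtain ⟨k, hk⟩ := hb
      exact ⟨b, k, hk, fun l => ⟨by have := hcon k l; linarith, mul_comm _ _⟩⟩
    push Not at ha hb
    exact ⟨fun _ => 1, 0, one_ne_zero, fun l => by simp [ha, hb]⟩
  obtain ⟨c, k, hck, hcl⟩ := hc
  have hN : (N : ℤ) ≠ 0 := by exact_mod_cast h.N0.ne'
  obtain ⟨w, hw⟩ : ∃ w : Fin 3 → Fin 4 → ℤ, w = fun t =>
      Pi.single (k.succAbove t) (c k) - Pi.single k (c (k.succAbove t)) := ⟨_, rfl⟩
  have hsum : ∀ (g : Fin 4 → ℤ) (t : Fin 3), ∑ j, w t j * g j =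
      c k * g (k.succAbove t) - c (k.succAbove t) * g k := by
    intro g t
    simp only [hw, Pi.sub_apply, sub_mul, Finset.sum_sub_distrib, Pi.single_apply, ite_mul,
      zero_mul, Finset.sum_ite_eq', Finset.mem_univ, if_true]
  refine h.rank (fun t j => (N : ℤ) * w t j) ?_ ?_
  · rw [Fintype.linearIndependent_iff]
    intro g hg t
    have h1 := congrFun hg (k.succAbove t)
    simp only [Finset.sum_apply, Pi.smul_apply, smul_eq_mul, Pi.zero_apply] at h1
    rw [Finset.sum_eq_single t] at h1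
    · have h2 : w t (k.succAbove t) = c k := by
        rw [hw]
        simp [Fin.succAbove_ne]
      rw [h2] at h1
      rcases mul_eq_zero.1 h1 with h3 | h3
      · exact h3
      · exact absurd h3 (mul_ne_zero hN hck)
    · intro s _ hs
      have h2 : w s (k.succAbove t) = 0 := by
        rw [hw]
        have h3 : k.succAbove t ≠ k.succAbove s := fun he =>
          hs (Fin.succAbove_right_injective he).symm
        simp [h3, Fin.succAbove_ne]
      rw [h2, mul_zero, mul_zero]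
    · intro ht
      exact absurd (Finset.mem_univ t) ht
  · intro t
    rw [bdd_mo]
    refine bdd_zpow h.z0 (sub_ne_zero.2 h.z1.symm) (fo x y) a b (w t) h.ex ?_ ?_
    · rw [hsum, (hcl _).1, sub_self]
    · rw [hsum, (hcl _).2, sub_self]

/-- two fields generated by the same pair of complex numbers are isomorphic -/
private theorem bdd_iso {K L : Type} [Field K] [NumberField K] [Field L] [NumberField L]
    {x y : K} {x' y' : L} (hg : IntermediateField.adjoin ℚ {x, y} = ⊤)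
    (hg' : IntermediateField.adjoin ℚ {x', y'} = ⊤) (φ : K →+* ℂ) (ψ : L →+* ℂ)
    (hx : φ x = ψ x') (hy : φ y = ψ y') : ∃ e : K ≃ₐ[ℚ] L, e x = x' ∧ e y = y' := by
  obtain ⟨f, hf⟩ : ∃ f : K →ₐ[ℚ] ℂ, f = φ.toRatAlgHom := ⟨_, rfl⟩
  obtain ⟨g, hg0⟩ : ∃ g : L →ₐ[ℚ] ℂ, g = ψ.toRatAlgHom := ⟨_, rfl⟩
  have hfx : f x = g x' := by rw [hf, hg0]; exact hx
  have hfy : f y = g y' := by rw [hf, hg0]; exact hy
  have hfg : f.fieldRange = g.fieldRange := by
    rw [AlgHom.fieldRange_eq_map, AlgHom.fieldRange_eq_map, ← hg, ← hg',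
      IntermediateField.adjoin_map, IntermediateField.adjoin_map, Set.image_pair, Set.image_pair,
      hfx, hfy]
  have hr : f.range = g.range := by
    have h1 := congrArg IntermediateField.toSubalgebra hfg
    simpa using h1
  let e1 : K ≃ₐ[ℚ] f.range := AlgEquiv.ofInjective f f.injective
  let e2 : L ≃ₐ[ℚ] g.range := AlgEquiv.ofInjective g g.injective
  let e3 : f.range ≃ₐ[ℚ] g.range := Subalgebra.equivOfEq _ _ hr
  have key : ∀ (s : K) (t : L), f s = g t → ((e1.trans e3).trans e2.symm) s = t := by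
    intro s t hst
    rw [AlgEquiv.trans_apply, AlgEquiv.symm_apply_eq]
    exact Subtype.ext hst
  exact ⟨(e1.trans e3).trans e2.symm, key x x' hfx, key y y' hfy⟩

/-- the height of `z` is large -/
private theorem bdd_large {M H : ℝ} (hM : 1 ≤ M) (hH : 0 ≤ H) {K : Type} [Field K] [NumberField K]
    {x y z : K} {N : ℕ} {a b r : Fin 4 → ℤ} (h : Cfg M H K x y z N a b r) :
    H / M ^ 2 * finrank ℚ K ≤ logHeight₁ z := by
  have hM0 : 0 < M := by linarith
  have h1 := height_ge_mass K z h.z0 (H / M) (by positivity)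
  have h2 : mass K (Pl M H z) ≤ mass K fun v => v z ≤ exp (-(H / M)) :=
    mass_mono K _ _ fun v hv => hv.2
  have h3 : (finrank ℚ K : ℝ) ≤ M * mass K fun v => v z ≤ exp (-(H / M)) :=
    h.pl.trans (mul_le_mul_of_nonneg_left h2 hM0.le)
  calc H / M ^ 2 * finrank ℚ K ≤ H / M ^ 2 * (M * mass K fun v => v z ≤ exp (-(H / M))) :=
        mul_le_mul_of_nonneg_left h3 (by positivity)
    _ = (mass K fun v => v z ≤ exp (-(H / M))) * (H / M) := by field_simp
    _ ≤ logHeight₁ z := h1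

/-- heights in an orbit of the six symmetries -/
private theorem bdd_eqv {K : Type} [Field K] [NumberField K] {z w : K} (hz : z ≠ 0)
    (h : CITNF.Eqv z w) : logHeight₁ z ≤ logHeight₁ w + finrank ℚ K * log 2 := by
  have hp : (0 : ℝ) ≤ finrank ℚ K * log 2 :=
    mul_nonneg (Nat.cast_nonneg _) (Real.log_nonneg (by norm_num))
  have h1 := CITNF.height_le_one_sub z
  have h2 := CITNF.height_le_one_sub z⁻¹
  rw [logHeight₁_inv] at h2
  have e : 1 - z⁻¹ = (z - 1) / z := by field_simp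
  rw [e] at h2
  rcases h with h | h | h | h | h | h
  · rw [h]
    linarith
  · rw [h]
    exact h1
  · rw [h, logHeight₁_inv]
    linarith
  · rw [h, logHeight₁_inv]
    exact h1
  · rw [h, ← logHeight₁_inv (z / (z - 1)), inv_div]
    exact h2
  · rw [h]
    exact h2

/-- two configurations over the same pair -/
private theorem bdd_two {M H H' H0 : ℝ} (hM : 1 ≤ M) (h0 : 0 < H0)
    (hmin : ∀ (K : Type) [Field K] [NumberField K] (x y : K),
      x ≠ 0 → x ≠ 1 → y ≠ 0 → y ≠ 1 → CITNF.Rel2 x y → ¬ CITNF.Eqv x y →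
      min (logHeight₁ x) (logHeight₁ y) ≤ H0 * finrank ℚ K)
    (hH : M ^ 2 * (H0 + 1) ≤ H) (hH' : M ^ 2 * (H0 + 1) ≤ H')
    {K L : Type} [Field K] [NumberField K] [Field L] [NumberField L]
    {x y z : K} {N : ℕ} {a b r : Fin 4 → ℤ} (h : Cfg M H K x y z N a b r)
    {x' y' z' : L} {N' : ℕ} {a' b' r' : Fin 4 → ℤ} (h' : Cfg M H' L x' y' z' N' a' b' r')
    (φ : K →+* ℂ) (ψ : L →+* ℂ) (hx : φ x = ψ x') (hy : φ y = ψ y') :
    Leh2.nh z ≤ Leh2.nh z' + log 2 := by
  obtain ⟨e, hex, hey⟩ := bdd_iso h'.gen h.gen ψ φ hx.symm hy.symm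
  obtain ⟨w, hw⟩ : ∃ w : K, w = e z' := ⟨_, rfl⟩
  have hw0 : w ≠ 0 := by
    rw [hw]
    exact (map_ne_zero_iff e e.injective).2 h'.z0
  have hw1 : w ≠ 1 := by
    intro hc
    rw [hw] at hc
    exact h'.z1 (e.injective (hc.trans (map_one e).symm))
  have hnh : Leh2.nh w = Leh2.nh z' := by
    let : Algebra L K := (e : L →+* K).toAlgebra
    have h1 := Leh2.nh_algebraMap (K := L) (L := K) z'
    rw [← h1, hw]
    rfl
  have hd : (0 : ℝ) < finrank ℚ K := Nat.cast_pos.2 finrank_pos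
  have hd' : (0 : ℝ) < finrank ℚ L := Nat.cast_pos.2 finrank_pos
  have hM0 : 0 < M := by linarith
  have hbig : ∀ {G : ℝ}, M ^ 2 * (H0 + 1) ≤ G → H0 + 1 ≤ G / M ^ 2 := by
    intro G hG
    rw [le_div_iff₀ (by positivity), mul_comm]
    exact hG
  have hHpos : 0 ≤ H := by
    have : 0 ≤ M ^ 2 * (H0 + 1) := by positivity
    linarith
  have hHpos' : 0 ≤ H' := by
    have : 0 ≤ M ^ 2 * (H0 + 1) := by positivity
    linarith
  have hzl : H0 * finrank ℚ K < logHeight₁ z := by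
    have h1 := bdd_large hM hHpos h
    have h2 := mul_le_mul_of_nonneg_right (hbig hH) hd.le
    nlinarith
  have hwl : H0 * finrank ℚ K < logHeight₁ w := by
    have h1 := bdd_large hM hHpos' h'
    have h2 := hbig hH'
    have h3 : H0 + 1 ≤ Leh2.nh z' := by
      unfold Leh2.nh
      rw [le_div_iff₀ hd']
      exact (mul_le_mul_of_nonneg_right h2 hd'.le).trans h1
    rw [← hnh] at h3
    unfold Leh2.nh at h3
    rw [le_div_iff₀ hd] at h3
    linarith
  -- the relations
  have hfo : ∀ k, e (fo x' y' k) = fo x y k := by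
    intro k
    fin_cases k <;> simp [fo, hex, hey]
  have hex' : ∀ k, fo x y k ^ N' = w ^ a' k * (1 - w) ^ b' k := by
    intro k
    rw [← hfo, ← map_pow, h'.ex, map_mul, map_zpow₀, map_zpow₀, map_sub, map_one, hw]
  have hz1 : 1 - z ≠ 0 := sub_ne_zero.2 h.z1.symm
  have hw1' : 1 - w ≠ 0 := sub_ne_zero.2 hw1.symm
  have hrel : ∀ k, CITNF.R z w ![N' * a k, N' * b k, -(N * a' k), -(N * b' k)] = 1 := by
    intro k
    have e1 : z ^ ((N' : ℤ) * a k) * (1 - z) ^ ((N' : ℤ) * b k) = (fo x y k ^ N) ^ N' := by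
      rw [h.ex, mul_pow, ← zpow_natCast (z ^ a k), ← zpow_natCast ((1 - z) ^ b k), ← zpow_mul,
        ← zpow_mul, mul_comm (a k), mul_comm (b k)]
    have e2 : w ^ ((N : ℤ) * a' k) * (1 - w) ^ ((N : ℤ) * b' k) = (fo x y k ^ N') ^ N := by
      rw [hex', mul_pow, ← zpow_natCast (w ^ a' k), ← zpow_natCast ((1 - w) ^ b' k), ← zpow_mul,
        ← zpow_mul, mul_comm (a' k), mul_comm (b' k)]
    have e3 : (fo x y k ^ N') ^ N ≠ 0 := by
      rw [← e2]
      exact mul_ne_zero (zpow_ne_zero _ hw0) (zpow_ne_zero _ hw1')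
    simp only [CITNF.R, Matrix.cons_val_zero, Matrix.cons_val_one, Matrix.cons_val]
    rw [zpow_neg, zpow_neg, ← mul_inv, e1, e2, pow_right_comm, mul_inv_cancel₀ e3]
  obtain ⟨k, l, hkl⟩ := cfg_det M H K x y z N a b r h
  have hR2 : CITNF.Rel2 z w := by
    refine ⟨_, _, ?_, hrel k, hrel l⟩
    intro s t hst
    have g0 := congrFun hst 0
    have g1 := congrFun hst 1
    simp only [Pi.add_apply, Pi.smul_apply, smul_eq_mul, Matrix.cons_val_zero,
      Matrix.cons_val_one, Pi.zero_apply] at g0 g1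
    have hN : (N' : ℤ) ≠ 0 := by exact_mod_cast h'.N0.ne'
    have g2 : s * a k + t * a l = 0 := by
      have : (N' : ℤ) * (s * a k + t * a l) = 0 := by linarith
      rcases mul_eq_zero.1 this with h5 | h5
      · exact absurd h5 hN
      · exact h5
    have g3 : s * b k + t * b l = 0 := by
      have : (N' : ℤ) * (s * b k + t * b l) = 0 := by linarith
      rcases mul_eq_zero.1 this with h5 | h5
      · exact absurd h5 hN
      · exact h5
    have g4 : s * (a k * b l - a l * b k) = 0 := by linear_combination b l * g2 - a l * g3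
    have g5 : t * (a k * b l - a l * b k) = 0 := by linear_combination a k * g3 - b k * g2
    exact ⟨(mul_eq_zero.1 g4).resolve_right hkl, (mul_eq_zero.1 g5).resolve_right hkl⟩
  have hE : CITNF.Eqv z w := by
    by_contra hne
    have h1 := hmin K z w h.z0 h.z1 hw0 hw1 hR2 hne
    exact absurd h1 (not_le.2 (lt_min hzl hwl))
  have h1 := bdd_eqv h.z0 hE
  rw [← hnh]
  unfold Leh2.nh
  rw [div_add' _ _ _ hd.ne', div_le_div_iff_of_pos_right hd]
  linarith

/-- **Configurations of bounded degree have bounded height.**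

Proof. If `Cfg M H K x y z ..` with degree `D ≤ D1` then by `pl` (`height_ge_mass`) `logHeight₁ z
≥ (D / M) (H / M)`. Let `H0` be from `MinHt.min_height`. By `northcott_set` (`LThree/North.lean`;
degree `≤ D1`, heights `≤ M D`) there is a finite `Z ⊂ ℂ` containing all `φ x, φ y`. For every
`(α, β) ∈ Z × Z` for which there is a configuration (with `M`, degree `≤ D1`) with `H ≥ M² (|H0|
+ 1)` and an embedding `φ` with `φ x = α`, `φ y = β` choose one of them, `(K₁, x₁, y₁, z₁)`.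
Given any other configuration `(K, x, y, z)` with the same `(α, β)` and `H ≥ M² (|H0| + 1)`: both
fields are generated by the pair (`gen`), so `K₁ ≅ ℚ(α, β) ≅ K` with `x₁ ↦ x`, `y₁ ↦ y`; let `w`
be the image of `z₁`. With `k, l` from `cfg_det` for `(K, ..)` and `(K₁, ..)`: `f_k^N = z^(a k)
(1-z)^(b k)`, `f_k^N₁ = w^(a₁ k) (1-w)^(b₁ k)`, so for each `k` the vector `(N₁ a k, N₁ b k, -N
a₁ k, -N b₁ k)` is a relation of `z, 1-z, w, 1-w`, and two of these four vectors are independent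
(`cfg_det`): `CITNF.Rel2 z w`. As both heights are `> H0 D`, `MinHt.min_height` gives `CITNF.Eqv
z w`, so `logHeight₁ z ≤ logHeight₁ w + 2 D` and `logHeight₁ w / D = logHeight₁ z₁ / D₁` (the
height is invariant under isomorphisms; compare `LThree.exists_generated` in `LThree/Ext.lean`).
So `H ≤ M² (max over the chosen ones of logHeight₁ z₁ / D₁ + 2)`. -/
theorem cfg_bounded (M : ℝ) (hM : 1 ≤ M) (D1 : ℕ) : ∃ H2 : ℝ, ∀ (H : ℝ), H2 ≤ H →
    ∀ (K : Type) [Field K] [NumberField K] (x y z : K) (N : ℕ) (a b r : Fin 4 → ℤ),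
      Cfg M H K x y z N a b r → finrank ℚ K ≤ D1 → False := by
  classical
  obtain ⟨H0, h0, hmin⟩ := MinHt.min_height
  obtain ⟨Z, hZ, hZK⟩ := northcott_set D1 (M * D1)
  have hM0 : 0 < M := by linarith
  have key : ∀ p : ℂ × ℂ, ∃ B : ℝ, ∀ (H : ℝ) (K : Type) (_ : Field K) (_ : NumberField K)
      (x y z : K) (N : ℕ) (a b r : Fin 4 → ℤ) (φ : K →+* ℂ), M ^ 2 * (H0 + 1) ≤ H →
      Cfg M H K x y z N a b r → φ x = p.1 → φ y = p.2 → Leh2.nh z ≤ B := by
    intro p
    by_cases hex : ∃ (H : ℝ) (K : Type) (_ : Field K) (_ : NumberField K)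
      (x y z : K) (N : ℕ) (a b r : Fin 4 → ℤ) (φ : K →+* ℂ), M ^ 2 * (H0 + 1) ≤ H ∧
      Cfg M H K x y z N a b r ∧ φ x = p.1 ∧ φ y = p.2
    · obtain ⟨H', L, _, _, x', y', z', N', a', b', r', ψ, hH', h', hx', hy'⟩ := hex
      refine ⟨Leh2.nh z' + log 2, ?_⟩
      intro H K _ _ x y z N a b r φ hH h hx hy
      exact bdd_two hM h0 hmin hH hH' h h' φ ψ (hx.trans hx'.symm) (hy.trans hy'.symm)
    · refine ⟨0, ?_⟩
      intro H K _ _ x y z N a b r φ hH h hx hy
      exact absurd ⟨H, K, _, _, x, y, z, N, a, b, r, φ, hH, h, hx, hy⟩ hex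
  choose B hB using key
  obtain ⟨Bm, hBm⟩ := ((hZ.prod hZ).image B).bddAbove
  refine ⟨max (M ^ 2 * (H0 + 1)) (M ^ 2 * Bm + 1), ?_⟩
  intro H hH K _ _ x y z N a b r h hD
  have hH1 := (le_max_left _ _).trans hH
  have hH2 := (le_max_right _ _).trans hH
  obtain ⟨φ⟩ : Nonempty (K →+* ℂ) := inferInstance
  have hd : (0 : ℝ) < finrank ℚ K := Nat.cast_pos.2 finrank_pos
  have hD' : (finrank ℚ K : ℝ) ≤ D1 := by exact_mod_cast hD
  have hMD : M * finrank ℚ K ≤ M * D1 := mul_le_mul_of_nonneg_left hD' hM0.le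
  have hxZ := hZK K hD x (h.hx.trans hMD) φ
  have hyZ := hZK K hD y (h.hy.trans hMD) φ
  have h1 := hB (φ x, φ y) H K _ _ x y z N a b r φ hH1 h rfl rfl
  have h2 : B (φ x, φ y) ≤ Bm := hBm (Set.mem_image_of_mem B ⟨hxZ, hyZ⟩)
  have hHpos : 0 ≤ H := by
    have : 0 ≤ M ^ 2 * (H0 + 1) := by positivity
    linarith
  have h3 := bdd_large hM hHpos h
  have h4 : H / M ^ 2 ≤ Leh2.nh z := by
    unfold Leh2.nh
    rw [le_div_iff₀ hd]
    exact h3
  have h5 : H ≤ M ^ 2 * Bm := by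
    have h6 : H / M ^ 2 ≤ Bm := h4.trans (h1.trans h2)
    rw [div_le_iff₀ (by positivity)] at h6
    linarith
  linarith

end Pool.Agent.L3S
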