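import Pool.Agent.L3S.Defs
import Pool.Agent.LThreeC.CaseA
import Pool.Agent.LThreeC.TrMono
import Pool.Agent.LThreeC.PairRel
import Pool.Agent.LThreeC.SymRel
import Pool.Agent.LThreeC.Sixth

set_option autoImplicit false

/-! Package S2: one or two transcendental coordinates, two relations. -/

namespace Pool.Agent.L3S

open Pool.Agent.LThree Pool.Agent.LThreeC

variable {F : Type} [Field F] [CharZero F]

/-- A primitive sixth root of unity from two roots of unity with sum `1`
(`LThreeC.sixth` gives `x ^ 6 = 1 = (1 - x) ^ 6`; polynomial identities: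
`X^6 - 1 = (X-1)(X+1)(X^2+X+1)(X^2-X+1)`, and `x = 1`, `x = -1`, `x^2 + x + 1 = 0` contradict
`(1 - x) ^ 6 = 1` in characteristic zero). -/
theorem sixth_eq (x : F) (h : x ^ 6 = 1) (h' : (1 - x) ^ 6 = 1) : x ^ 2 - x + 1 = 0 := by
  have hf : (x - 1) * ((x + 1) * ((x ^ 2 + x + 1) * (x ^ 2 - x + 1))) = 0 := by
    linear_combination h
  rcases mul_eq_zero.1 hf with h1 | h1
  · exfalso
    have h2 : x = 1 := sub_eq_zero.1 h1
    rw [h2, sub_self] at h'
    norm_num at h'
  rcases mul_eq_zero.1 h1 with h2 | h2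
  · exfalso
    have h3 : x = -1 := by linear_combination h2
    rw [h3] at h'
    norm_num at h'
  rcases mul_eq_zero.1 h2 with h3 | h3
  · exfalso
    have h4 : (28 : F) = 0 := by
      linear_combination (-1) * h' + (x ^ 4 - 7 * x ^ 3 + 21 * x ^ 2 - 34 * x + 28) * h3
    norm_num at h4
  · exact h3

/-- One transcendental coordinate: as `LThreeC.caseA` (`LThreeC/CaseA.lean`), but from `hB` (two
relations for pairs over number fields): the two relations of the pair `(x j, x k)` extended by zero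
are independent. -/
theorem caseA_two (B : ℕ)
    (hB : ∀ (K : Type) [Field K] [NumberField K] (x : Fin 2 → K), (∀ i, x i ≠ 0) →
      (∀ i, x i ≠ 1) → RankLe 1 (co x) → Two B x)
    (x : Fin 3 → F) (h0 : ∀ i, x i ≠ 0) (h1 : ∀ i, x i ≠ 1) (i j k : Fin 3)
    (hij : i ≠ j) (hik : i ≠ k) (hjk : j ≠ k) (hi : Transcendental ℚ (x i))
    (hj : IsAlgebraic ℚ (x j)) (hk : IsAlgebraic ℚ (x k))
    (u : Fin 3 → (Fin 3 ⊕ Fin 3 → ℤ)) (hu : LinearIndependent ℤ u)
    (hrel : ∀ t, mono (co x) (u t) = 1) : Two B x := by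
  classical
  have hsub : ∀ a, (1 : F) - x a ≠ 0 := fun a h => h1 a (sub_eq_zero.1 h).symm
  have hco : ∀ s, co x s ≠ 0 := by
    rintro (s | s)
    · exact h0 s
    · exact hsub s
  -- the exponents at `i` vanish
  have halg : ∀ a, IsAlgebraic ℚ (x a) → ∀ n : ℤ, IsAlgebraic ℚ (x a ^ n) := by
    intro a ha n
    rcases Int.eq_nat_or_neg n with ⟨m, rfl | rfl⟩
    · rw [zpow_natCast]; exact ha.pow m
    · rw [zpow_neg, zpow_natCast]; exact (ha.pow m).inv
  have halg' : ∀ a, IsAlgebraic ℚ (x a) → ∀ n : ℤ, IsAlgebraic ℚ ((1 - x a) ^ n) := by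
    intro a ha n
    have hb : IsAlgebraic ℚ (1 - x a) := isAlgebraic_one.sub ha
    rcases Int.eq_nat_or_neg n with ⟨m, rfl | rfl⟩
    · rw [zpow_natCast]; exact hb.pow m
    · rw [zpow_neg, zpow_natCast]; exact (hb.pow m).inv
  have hvan : ∀ t, u t (Sum.inl i) = 0 ∧ u t (Sum.inr i) = 0 := by
    intro t
    apply tr_mono (x i) hi
    have h2 := hrel t
    rw [mono, Fintype.prod_sum_type, caseA_prod3 _ i j k hij hik hjk,
      caseA_prod3 (fun a => co x (Sum.inr a) ^ u t (Sum.inr a)) i j k hij hik hjk] at h2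
    simp only [co, Sum.elim_inl, Sum.elim_inr] at h2
    set A : F := x j ^ u t (Sum.inl j) * x k ^ u t (Sum.inl k) *
      ((1 - x j) ^ u t (Sum.inr j) * (1 - x k) ^ u t (Sum.inr k)) with hA
    have hAalg : IsAlgebraic ℚ A :=
      ((halg j hj _).mul (halg k hk _)).mul ((halg' j hj _).mul (halg' k hk _))
    have h3 : (x i ^ u t (Sum.inl i) * (1 - x i) ^ u t (Sum.inr i)) * A = 1 := by
      refine Eq.trans ?_ h2
      rw [hA]; ring
    have h4 : x i ^ u t (Sum.inl i) * (1 - x i) ^ u t (Sum.inr i) = A⁻¹ :=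
      eq_inv_of_mul_eq_one_left h3
    rw [h4]
    exact hAalg.inv
  -- the embedding of the coordinates
  set σ : Fin 2 → Fin 3 := ![j, k] with hσ
  have hσi : Function.Injective σ := by
    intro a b h
    fin_cases a <;> fin_cases b <;> simp_all [Ne.symm hjk]
  set φ : Fin 2 ⊕ Fin 2 → Fin 3 ⊕ Fin 3 := Sum.map σ σ with hφ
  have hφi : Function.Injective φ := hσi.sumMap hσi
  have hrange : ∀ s, s ∉ Set.range φ → s = Sum.inl i ∨ s = Sum.inr i := by
    intro s hs
    have hcase : ∀ a : Fin 3, a = i ∨ a = j ∨ a = k := by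
      clear_value φ σ
      revert hij hik hjk
      clear * -
      revert i j k
      decide
    rcases s with a | a
    · left
      rcases hcase a with h | h | h
      · rw [h]
      · exact absurd ⟨Sum.inl 0, by simp [hφ, hσ, h]⟩ hs
      · exact absurd ⟨Sum.inl 1, by simp [hφ, hσ, h]⟩ hs
    · right
      rcases hcase a with h | h | h
      · rw [h]
      · exact absurd ⟨Sum.inr 0, by simp [hφ, hσ, h]⟩ hs
      · exact absurd ⟨Sum.inr 1, by simp [hφ, hσ, h]⟩ hs
  have hmono : ∀ m : Fin 3 ⊕ Fin 3 → ℤ, (∀ s, s ∉ Set.range φ → m s = 0) →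
      mono (co x) m = mono (co (x ∘ σ)) (m ∘ φ) := by
    intro m hm
    rw [mono, mono]
    symm
    refine Fintype.prod_of_injective φ hφi _ _ ?_ ?_
    · intro s hs
      rw [hm s hs, zpow_zero]
    · rintro (s | s) <;> simp [hφ, co]
  -- the number field
  have hfin : FiniteDimensional ℚ (IntermediateField.adjoin ℚ ({x j, x k} : Set F)) := by
    apply IntermediateField.finiteDimensional_adjoin
    rintro y (rfl | rfl)
    · exact hj.isIntegral
    · exact hk.isIntegral
  set K := IntermediateField.adjoin ℚ ({x j, x k} : Set F) with hK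
  have : NumberField K := { to_charZero := inferInstance, to_finiteDimensional := hfin }
  have hxj : x j ∈ K := IntermediateField.subset_adjoin _ _ (by simp)
  have hxk : x k ∈ K := IntermediateField.subset_adjoin _ _ (by simp)
  have hmem : ∀ a, (x ∘ σ) a ∈ K := by
    intro a
    fin_cases a
    · exact hxj
    · exact hxk
  set y : Fin 2 → K := fun a => ⟨(x ∘ σ) a, hmem a⟩ with hy
  have hyval : ∀ e : Fin 2 ⊕ Fin 2 → ℤ, ((mono (co y) e : K) : F) = mono (co (x ∘ σ)) e := by
    intro e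
    rw [mono, mono]
    rw [show ((∏ s, co y s ^ e s : K) : F) = K.val (∏ s, co y s ^ e s) from rfl, map_prod]
    refine Finset.prod_congr rfl fun s _ => ?_
    rw [map_zpow₀]
    rcases s with s | s
    · rfl
    · simp only [co, Sum.elim_inr, map_sub, map_one]
      rfl
  have hy0 : ∀ a, y a ≠ 0 := by
    intro a h
    have := congrArg (fun z : K => (z : F)) h
    exact h0 (σ a) this
  have hy1 : ∀ a, y a ≠ 1 := by
    intro a h
    have := congrArg (fun z : K => (z : F)) h
    exact h1 (σ a) this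
  have hcoy : ∀ s, co y s ≠ 0 := by
    rintro (s | s)
    · exact hy0 s
    · exact fun h => hy1 s (sub_eq_zero.1 h).symm
  have hsupp : ∀ t s, s ∉ Set.range φ → u t s = 0 := by
    intro t s hs
    rcases hrange s hs with h | h
    · rw [h]; exact (hvan t).1
    · rw [h]; exact (hvan t).2
  have hrank : RankLe 1 (co y) := by
    refine caseA_rank (co y) hcoy (fun t => u t ∘ φ) ?_ (by simp) ?_
    · rw [Fintype.linearIndependent_iff] at hu ⊢
      intro g hg
      apply hu g
      ext s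
      by_cases hs : s ∈ Set.range φ
      · obtain ⟨s', rfl⟩ := hs
        have := congrFun hg s'
        simpa using this
      · simp [hsupp _ s hs]
    · intro t
      have h2 : ((mono (co y) (u t ∘ φ) : K) : F) = ((1 : K) : F) := by
        rw [hyval, ← hmono (u t) (hsupp t), hrel t]
        rfl
      exact Subtype.ext h2
  obtain ⟨v, w, hli, hv, hw, hv1, hw1⟩ := hB K y hy0 hy1 hrank
  have hnrm : ∀ e : Fin 2 ⊕ Fin 2 → ℤ, nrm e ≤ B → nrm (Function.extend φ e 0) ≤ B := by
    intro e he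
    refine le_trans ?_ he
    rw [nrm]
    refine Finset.sup_le fun s _ => ?_
    by_cases hs : ∃ a, φ a = s
    · obtain ⟨a, rfl⟩ := hs
      rw [hφi.extend_apply]
      exact Finset.le_sup (f := fun b => (e b).natAbs) (Finset.mem_univ a)
    · rw [Function.extend_apply' _ _ _ hs]; simp
  have hone : ∀ e : Fin 2 ⊕ Fin 2 → ℤ, mono (co y) e = 1 →
      mono (co x) (Function.extend φ e 0) = 1 := by
    intro e he
    rw [hmono _ (fun s hs => by
      rw [Function.extend_apply' _ _ _ hs]; rfl)]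
    have h2 : Function.extend φ e 0 ∘ φ = e := by
      ext s
      simp [hφi.extend_apply]
    rw [h2, ← hyval, he]
    rfl
  refine ⟨Function.extend φ v 0, Function.extend φ w 0, ?_, hnrm v hv, hnrm w hw, hone v hv1,
    hone w hw1⟩
  rw [LinearIndependent.pair_iff] at hli ⊢
  intro a b hab
  apply hli
  ext s
  have h2 := congrFun hab (φ s)
  simpa only [Pi.add_apply, Pi.smul_apply, hφi.extend_apply, Pi.zero_apply] using h2

private theorem prod_three {M : Type} [CommMonoid M] (i j k : Fin 3) (hij : i ≠ j) (hik : i ≠ k)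
    (hjk : j ≠ k) (f : Fin 3 → M) : ∏ t, f t = f i * f j * f k := by
  have h : (Finset.univ : Finset (Fin 3)) = {i, j, k} := by
    revert i j k
    decide
  rw [h, Finset.prod_insert (by simp [hij, hik]), Finset.prod_insert (by simp [hjk]),
    Finset.prod_singleton, mul_assoc]

private theorem cover_three (i j k : Fin 3) (hij : i ≠ j) (hik : i ≠ k) (hjk : j ≠ k) :
    ∀ t : Fin 3, t = i ∨ t = j ∨ t = k := by
  revert i j k
  decide

private theorem two_others (t0 : Fin 3) : ∃ t1 t2 : Fin 3, t0 ≠ t1 ∧ t0 ≠ t2 ∧ t1 ≠ t2 := by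
  revert t0
  decide

private theorem sum_three {M : Type} [AddCommMonoid M] (i j k : Fin 3) (hij : i ≠ j)
    (hik : i ≠ k) (hjk : j ≠ k) (f : Fin 3 → M) : ∑ t, f t = f i + f j + f k := by
  have h : (Finset.univ : Finset (Fin 3)) = {i, j, k} := by
    revert i j k
    decide
  rw [h, Finset.sum_insert (by simp [hij, hik]), Finset.sum_insert (by simp [hjk]),
    Finset.sum_singleton, add_assoc]

/-- restriction to the coordinates of `i` and `j` -/
private def rs (i j : Fin 3) (w : Fin 3 ⊕ Fin 3 → ℤ) : Fin 2 ⊕ Fin 2 → ℤ :=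
  Sum.elim ![w (Sum.inl i), w (Sum.inl j)] ![w (Sum.inr i), w (Sum.inr j)]

private theorem rs_comb (i j : Fin 3) (v w : Fin 3 ⊕ Fin 3 → ℤ) (a b : ℤ) :
    rs i j (a • v + b • w) = a • rs i j v + b • rs i j w := by
  funext t
  rcases t with t | t <;> fin_cases t <;> simp [rs]

private theorem rs_zero {i j : Fin 3} {w : Fin 3 ⊕ Fin 3 → ℤ} (h : rs i j w = 0) :
    w (Sum.inl i) = 0 ∧ w (Sum.inl j) = 0 ∧ w (Sum.inr i) = 0 ∧ w (Sum.inr j) = 0 := by
  refine ⟨?_, ?_, ?_, ?_⟩
  · simpa [rs] using congrFun h (Sum.inl 0)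
  · simpa [rs] using congrFun h (Sum.inl 1)
  · simpa [rs] using congrFun h (Sum.inr 0)
  · simpa [rs] using congrFun h (Sum.inr 1)

omit [CharZero F] in
private theorem mono_split (x : Fin 3 → F) (i j k : Fin 3) (hij : i ≠ j) (hik : i ≠ k)
    (hjk : j ≠ k) (w : Fin 3 ⊕ Fin 3 → ℤ) :
    mono (co x) w = mono (co ![x i, x j]) (rs i j w) *
      (x k ^ w (Sum.inl k) * (1 - x k) ^ w (Sum.inr k)) := by
  unfold mono co
  rw [Fintype.prod_sum_type, Fintype.prod_sum_type, prod_three i j k hij hik hjk,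
    prod_three i j k hij hik hjk]
  simp only [Sum.elim_inl, Sum.elim_inr, Fin.prod_univ_two, rs, Matrix.cons_val_zero,
    Matrix.cons_val_one, Matrix.cons_val_fin_one]
  ring

omit [CharZero F] in
private theorem mono_comb (z : Fin 3 ⊕ Fin 3 → F) (hz : ∀ i, z i ≠ 0) (v w : Fin 3 ⊕ Fin 3 → ℤ)
    (a b : ℤ) : mono z (a • v + b • w) = mono z v ^ a * mono z w ^ b := by
  unfold mono
  rw [← Finset.prod_zpow, ← Finset.prod_zpow, ← Finset.prod_mul_distrib]
  refine Finset.prod_congr rfl fun i _ => ?_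
  rw [← zpow_mul, ← zpow_mul, ← zpow_add₀ (hz i)]
  congr 1
  simp only [Pi.add_apply, Pi.smul_apply, smul_eq_mul]
  ring

omit [CharZero F] in
private theorem co_ne (x : Fin 3 → F) (h0 : ∀ i, x i ≠ 0) (h1 : ∀ i, x i ≠ 1) (i) :
    co x i ≠ 0 := by
  rcases i with i | i
  · exact h0 i
  · exact sub_ne_zero.2 (h1 i).symm

/-- two independent relations between `x k` and `1 - x k` -/
private theorem fin_case (x : Fin 3 → F) (h0 : ∀ i, x i ≠ 0) (h1 : ∀ i, x i ≠ 1)
    (i j k : Fin 3) (hij : i ≠ j) (hik : i ≠ k) (hjk : j ≠ k) (v w : Fin 3 ⊕ Fin 3 → ℤ)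
    (hli : ∀ a b : ℤ, a • v + b • w = 0 → a = 0 ∧ b = 0) (hv : rs i j v = 0)
    (hw : rs i j w = 0) (ev : mono (co x) v = 1) (ew : mono (co x) w = 1) :
    x k ^ 2 - x k + 1 = 0 := by
  have cov := cover_three i j k hij hik hjk
  obtain ⟨v1, v2, v3, v4⟩ := rs_zero hv
  obtain ⟨w1, w2, w3, w4⟩ := rs_zero hw
  have hcomb : ∀ a b : ℤ, a * v (Sum.inl k) + b * w (Sum.inl k) = 0 →
      a * v (Sum.inr k) + b * w (Sum.inr k) = 0 → a = 0 ∧ b = 0 := by
    intro a b e1 e2
    apply hli
    funext t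
    rcases t with t | t <;> rcases cov t with rfl | rfl | rfl <;>
      simp [v1, v2, v3, v4, w1, w2, w3, w4, e1, e2]
  have hdet : v (Sum.inl k) * w (Sum.inr k) - v (Sum.inr k) * w (Sum.inl k) ≠ 0 := by
    intro hd
    obtain ⟨q2, q1⟩ := hcomb (w (Sum.inr k)) (-v (Sum.inr k)) (by linarith) (by ring)
    obtain ⟨p2, p1⟩ := hcomb (w (Sum.inl k)) (-v (Sum.inl k)) (by ring) (by linarith)
    have q1' : v (Sum.inr k) = 0 := by linarith
    have p1' : v (Sum.inl k) = 0 := by linarith
    have := (hcomb 1 0 (by rw [p1', p2]; ring) (by rw [q1', q2]; ring)).1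
    exact one_ne_zero this
  have key : ∀ u : Fin 3 ⊕ Fin 3 → ℤ, rs i j u = 0 → mono (co x) u = 1 →
      x k ^ u (Sum.inl k) * (1 - x k) ^ u (Sum.inr k) = 1 := by
    intro u hu e
    rw [mono_split x i j k hij hik hjk, hu] at e
    have h2 : mono (co ![x i, x j]) (0 : Fin 2 ⊕ Fin 2 → ℤ) = 1 := by
      unfold mono
      exact Finset.prod_eq_one fun t _ => by rw [Pi.zero_apply, zpow_zero]
    rw [h2, one_mul] at e
    exact e
  have h6 := two_rel_one (x k) (h0 k) (h1 k) _ _ _ _ hdet (key v hv ev) (key w hw ew)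
  have hone : (1 : F) - (1 - x k) = x k := by ring
  have h6' := two_rel_one (1 - x k) (sub_ne_zero.2 (h1 k).symm)
    (fun h => h0 k (by rw [← hone, h, sub_self])) (v (Sum.inr k)) (v (Sum.inl k))
    (w (Sum.inr k)) (w (Sum.inl k)) (fun h => hdet (by linarith))
    (by rw [hone, mul_comm]; exact key v hv ev) (by rw [hone, mul_comm]; exact key w hw ew)
  exact sixth_eq (x k) h6 h6'

/-- Two transcendental coordinates: the proof of `LThreeC.caseB` (`LThreeC/CaseB.lean`) gives this:
either `Eqv (x i) (x j)`, or two independent relations of `x k, 1 - x k`, so `x k ^ 6 = 1` by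
`two_rel_one` and also `(1 - x k) ^ 6 = 1` (`two_rel_one` for `1 - x k`), then `sixth_eq`. -/
theorem caseB_spec (x : Fin 3 → F) (h0 : ∀ i, x i ≠ 0) (h1 : ∀ i, x i ≠ 1) (i j k : Fin 3)
    (hij : i ≠ j) (hik : i ≠ k) (hjk : j ≠ k) (hi : Transcendental ℚ (x i))
    (hj : Transcendental ℚ (x j)) (hk : IsAlgebraic ℚ (x k))
    (u : Fin 3 → (Fin 3 ⊕ Fin 3 → ℤ)) (hu : LinearIndependent ℤ u)
    (hrel : ∀ t, mono (co x) (u t) = 1) : Spec x := by
  have hz := co_ne x h0 h1
  -- the restrictions have algebraic monomials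
  have halg : ∀ t, IsAlgebraic ℚ (mono (co ![x i, x j]) (rs i j (u t))) := by
    intro t
    have e := hrel t
    rw [mono_split x i j k hij hik hjk] at e
    have hc : IsAlgebraic ℚ (x k ^ u t (Sum.inl k) * (1 - x k) ^ u t (Sum.inr k)) := by
      have e1 : IsAlgebraic ℚ (1 - x k) := isAlgebraic_one.sub hk
      have hzp : ∀ (y : F) (n : ℤ), IsAlgebraic ℚ y → IsAlgebraic ℚ (y ^ n) := by
        intro y n hy
        cases n with
        | ofNat n => rw [Int.ofNat_eq_natCast, zpow_natCast]; exact hy.pow n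
        | negSucc n => rw [zpow_negSucc]; exact (hy.pow (n + 1)).inv
      exact (hzp _ _ hk).mul (hzp _ _ e1)
    rw [eq_inv_of_mul_eq_one_left e]
    exact hc.inv
  by_cases hind : ∃ t t', LinearIndependent ℤ ![rs i j (u t), rs i j (u t')]
  · obtain ⟨t, t', hli⟩ := hind
    have h2 : Eqv ((![x i, x j] : Fin 2 → F) 0) ((![x i, x j] : Fin 2 → F) 1) := by
      apply pair_eqv_gen ![x i, x j] _ _ _ _ _ hli (halg t) (halg t')
      · intro s
        fin_cases s
        · exact h0 i
        · exact h0 j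
      · intro s
        fin_cases s
        · exact h1 i
        · exact h1 j
      · intro s
        fin_cases s
        · exact hi
        · exact hj
    exact Or.inl ⟨i, j, hij, h2⟩
  push Not at hind
  -- linear independence of `u` in terms of three distinct indices
  have hli3 : ∀ t0 t1 t2 : Fin 3, t0 ≠ t1 → t0 ≠ t2 → t1 ≠ t2 → ∀ a b c : ℤ,
      a • u t0 + b • u t1 + c • u t2 = 0 → a = 0 ∧ b = 0 ∧ c = 0 := by
    intro t0 t1 t2 h01 h02 h12 a b c h
    rw [Fintype.linearIndependent_iff] at hu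
    have h3 := hu (fun t => if t = t0 then a else if t = t1 then b else c) (by
      rw [sum_three t0 t1 t2 h01 h02 h12]
      rw [if_pos rfl, if_neg h01.symm, if_pos rfl, if_neg h02.symm, if_neg h12.symm]
      exact h)
    refine ⟨?_, ?_, ?_⟩
    · simpa using h3 t0
    · simpa [h01.symm] using h3 t1
    · simpa [h02.symm, h12.symm] using h3 t2
  by_cases hall : ∀ t, rs i j (u t) = 0
  · refine Or.inr ⟨k, ?_⟩
    refine fin_case x h0 h1 i j k hij hik hjk (u 0) (u 1) (fun a b h => ?_) (hall 0) (hall 1)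
      (hrel 0) (hrel 1)
    obtain ⟨e1, e2, -⟩ := hli3 0 1 2 (by decide) (by decide) (by decide) a b 0 (by
      rw [h, zero_smul, add_zero])
    exact ⟨e1, e2⟩
  push Not at hall
  obtain ⟨t0, ht0⟩ := hall
  have hex : ∀ t, ∃ a b : ℤ, b ≠ 0 ∧ rs i j (a • u t0 + b • u t) = 0 := by
    intro t
    have h2 := hind t0 t
    rw [LinearIndependent.pair_iff] at h2
    push Not at h2
    obtain ⟨a, b, h3, h4⟩ := h2
    refine ⟨a, b, fun hb => ?_, by rw [rs_comb, h3]⟩
    rw [hb, zero_smul, add_zero] at h3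
    rcases smul_eq_zero.1 h3 with ha | ha
    · exact h4 ha hb
    · exact ht0 ha
  obtain ⟨t1, t2, h01, h02, h12⟩ := two_others t0
  obtain ⟨a1, b1, hb1, e1⟩ := hex t1
  obtain ⟨a2, b2, hb2, e2⟩ := hex t2
  refine Or.inr ⟨k, ?_⟩
  refine fin_case x h0 h1 i j k hij hik hjk (a1 • u t0 + b1 • u t1) (a2 • u t0 + b2 • u t2)
    (fun a b h => ?_) e1 e2 ?_ ?_
  · obtain ⟨-, f1, f2⟩ := hli3 t0 t1 t2 h01 h02 h12 (a * a1 + b * a2) (a * b1) (b * b2) (by
      rw [← h]
      simp only [smul_add, smul_smul, add_smul]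
      abel)
    exact ⟨(mul_eq_zero.1 f1).resolve_right hb1, (mul_eq_zero.1 f2).resolve_right hb2⟩
  · rw [mono_comb _ hz, hrel, hrel, one_zpow, one_zpow, one_mul]
  · rw [mono_comb _ hz, hrel, hrel, one_zpow, one_zpow, one_mul]

end Pool.Agent.L3S
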