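import Pool.Agent.L3S.SmallTwo
import Pool.Agent.L3S.Surf2

set_option autoImplicit false

/-! Package S5: three transcendental coordinates in transcendence degree one, two relations. -/

namespace Pool.Agent.L3S

open Pool.Agent.LThree Pool.Agent.LThreeC IntermediateField

variable {F : Type} [Field F] [CharZero F]

omit [CharZero F] in
/-- Two independent monomials whose `n`-th powers are one. -/
private theorem two_of_pow (x : Fin 3 → F) (m m' : Fin 3 ⊕ Fin 3 → ℤ)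
    (hm : LinearIndependent ℤ ![m, m']) (B n : ℕ) (hn : 0 < n) (hB : nrm m ≤ B)
    (hB' : nrm m' ≤ B) (h : mono (co x) m ^ n = 1) (h' : mono (co x) m' ^ n = 1) :
    Two (n * B) x := by
  have hpow : ∀ v : Fin 3 ⊕ Fin 3 → ℤ, nrm v ≤ B → mono (co x) v ^ n = 1 →
      nrm (fun s => (n : ℤ) * v s) ≤ n * B ∧ mono (co x) (fun s => (n : ℤ) * v s) = 1 := by
    intro v hv hv1
    constructor
    · unfold nrm
      refine Finset.sup_le fun s _ => ?_
      have h2 : (v s).natAbs ≤ B := (Finset.le_sup (f := fun s => (v s).natAbs)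
        (Finset.mem_univ s)).trans hv
      rw [Int.natAbs_mul, Int.natAbs_natCast]
      exact Nat.mul_le_mul_left _ h2
    · rw [← hv1]
      unfold mono
      rw [← Finset.prod_pow]
      refine Finset.prod_congr rfl fun s _ => ?_
      rw [← zpow_natCast, ← zpow_mul, mul_comm]
  refine ⟨fun s => (n : ℤ) * m s, fun s => (n : ℤ) * m' s, ?_, (hpow m hB h).1, (hpow m' hB' h').1,
    (hpow m hB h).2, (hpow m' hB' h').2⟩
  rw [LinearIndependent.pair_iff] at hm ⊢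
  intro s t hst
  have hn' : (n : ℤ) ≠ 0 := by exact_mod_cast hn.ne'
  have h2 := hm (n * s) (n * t) (by
    funext r
    have h3 := congrFun hst r
    simp only [Pi.add_apply, Pi.smul_apply, smul_eq_mul, Pi.zero_apply] at h3 ⊢
    linear_combination h3)
  exact ⟨(mul_eq_zero.1 h2.1).resolve_left hn', (mul_eq_zero.1 h2.2).resolve_left hn'⟩

/-- The endgame. -/
private theorem two_of_deg4 (x : Fin 3 → F) (h0 : ∀ i, x i ≠ 0) (h1 : ∀ i, x i ≠ 1)
    (htr : ∀ i, Transcendental ℚ (x i)) (hgen : adjoin ℚ (Set.range x) = ⊤)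
    (halg : Algebra.IsAlgebraic (adjoin ℚ {x 0}) F) (hne : ¬ Eqv (x 0) (x 1))
    (u : Fin 3 → (Fin 3 ⊕ Fin 3 → ℤ)) (hu : LinearIndependent ℤ u)
    (hrel : ∀ j, mono (co x) (u j) = 1) (hdeg : ∀ i, Deg4 (x i)) : Two 69120 x := by
  obtain ⟨m, m', hli, hm, hm', ha, ha'⟩ := small_rel_two (co x) (co_ne x h0 h1)
    (fun f hf => exists_ord x hgen (x 0) halg f hf)
    (fun w hw s => by
      rcases s with i | i
      · exact (ord_bound w hw (x i) (htr i) (hdeg i)).1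
      · exact (ord_bound w hw (x i) (htr i) (hdeg i)).2) u hu
    (fun j => by rw [hrel j]; exact isAlgebraic_one)
  obtain ⟨n, hn, hmn⟩ := tors x h0 h1 htr hne u hu hrel m ha
  obtain ⟨n', hn', hmn'⟩ := tors x h0 h1 htr hne u hu hrel m' ha'
  have h120 := root_bound (x 0) (htr 0) (hdeg 0) _ n hn hmn
  have h120' := root_bound (x 0) (htr 0) (hdeg 0) _ n' hn' hmn'
  exact Two.mono_le (by norm_num) (two_of_pow x m m' hli 576 120 (by norm_num) hm hm' h120 h120')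

/-- Two relations from a chain of three symmetric coordinates. -/
private theorem two_of_sy (x : Fin 3 → F) (h0 : ∀ i, x i ≠ 0) (h1 : ∀ i, x i ≠ 1)
    (k0 k1 k1' k2 : Fin 6) (h : (sy k1 (x 1) / (1 - sy k0 (x 0))) ^ 6 = 1)
    (h' : (sy k2 (x 2) / (1 - sy k1' (x 1))) ^ 6 = 1) : Two 6 x := by
  have e1 := sy_div_sq x h0 h1 0 1 (by decide) k0 k1 3
  have e2 := sy_div_sq x h0 h1 1 2 (by decide) k1' k2 3
  have h3 : 2 * 3 = 6 := rfl
  rw [h3, h] at e1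
  rw [h3, h'] at e2
  have hbd : ∀ (i j : Fin 3) (k k' : Fin 6), nrm (symV i j (-(2 * (3 : ℕ) * (ex' k).1))
      (-(2 * (3 : ℕ) * (ex' k).2)) (2 * (3 : ℕ) * (ex k').1) (2 * (3 : ℕ) * (ex k').2)) ≤ 6 := by
    intro i j k k'
    obtain ⟨a1, a2, -, -⟩ := ex_abs k'
    obtain ⟨-, -, a3, a4⟩ := ex_abs k
    refine symV_nrm i j _ _ _ _ 6 ?_ ?_ ?_ ?_ <;> push_cast <;> omega
  refine ⟨_, _, ?_, hbd 0 1 k0 k1, hbd 1 2 k1' k2, e1.symm, e2.symm⟩
  have hex : ∀ k : Fin 6, (ex k).1 ≠ 0 ∨ (ex k).2 ≠ 0 := by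
    intro k
    fin_cases k <;> decide
  have hex' : ∀ k : Fin 6, (ex' k).1 ≠ 0 ∨ (ex' k).2 ≠ 0 := by
    intro k
    fin_cases k <;> decide
  rw [LinearIndependent.pair_iff]
  intro s t hst
  have i0 := congrFun hst (Sum.inl 0)
  have i0' := congrFun hst (Sum.inr 0)
  have i2 := congrFun hst (Sum.inl 2)
  have i2' := congrFun hst (Sum.inr 2)
  simp only [symV, Pi.add_apply, Pi.smul_apply, smul_eq_mul, Sum.elim_inl, Sum.elim_inr,
    Pi.zero_apply] at i0 i0' i2 i2'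
  simp at i0 i0' i2 i2'
  constructor
  · rcases hex' k0 with h4 | h4
    · tauto
    · tauto
  · rcases hex k2 with h4 | h4
    · tauto
    · tauto

/-- The symmetric case. -/
private theorem two_of_frames (D : Derivation ℚ F F) (hD : ∀ f, D f = 0 ↔ IsAlgebraic ℚ f)
    (x : Fin 3 → F) (h0 : ∀ i, x i ≠ 0) (h1 : ∀ i, x i ≠ 1)
    (htr : ∀ i, Transcendental ℚ (x i)) (hne : ¬ Eqv (x 0) (x 1))
    (u : Fin 3 → (Fin 3 ⊕ Fin 3 → ℤ)) (hu : LinearIndependent ℤ u)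
    (hrel : ∀ j, mono (co x) (u j) = 1) (G : Fin 3 → F) (l l' : Fin 3 → Fin 3 → ℚ)
    (hl : ∀ i, LD D (x i) = ev (l i) G) (hl' : ∀ i, LD D (1 - x i) = ev (l' i) G)
    (k : Fin 3 → Fin 6)
    (hk0 : (fr (k 0) (l 0) (l' 0)).1 = (fr (k 2) (l 2) (l' 2)).2)
    (hk1 : (fr (k 1) (l 1) (l' 1)).1 = (fr (k 0) (l 0) (l' 0)).2)
    (hk2 : (fr (k 2) (l 2) (l' 2)).1 = (fr (k 1) (l 1) (l' 1)).2) : Two 6 x := by
  have hs : ∀ i, sy (k i) (x i) ≠ 0 ∧ sy (k i) (x i) ≠ 1 ∧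
      LD D (sy (k i) (x i)) = ev (fr (k i) (l i) (l' i)).1 G ∧
      LD D (1 - sy (k i) (x i)) = ev (fr (k i) (l i) (l' i)).2 G := fun i =>
    LD_sy D (x i) (h0 i) (h1 i) G (l i) (l' i) (hl i) (hl' i) (k i)
  have hs1 : ∀ i, 1 - sy (k i) (x i) ≠ 0 := fun i => sub_ne_zero.2 (hs i).2.1.symm
  have ht := tors x h0 h1 htr hne u hu hrel
  have c0 : IsAlgebraic ℚ (sy (k 0) (x 0) / (1 - sy (k 2) (x 2))) :=
    alg_of_LD_eq D hD _ _ (hs 0).1 (hs1 2) (by rw [(hs 0).2.2.1, (hs 2).2.2.2, hk0])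
  have c1 : IsAlgebraic ℚ (sy (k 1) (x 1) / (1 - sy (k 0) (x 0))) :=
    alg_of_LD_eq D hD _ _ (hs 1).1 (hs1 0) (by rw [(hs 1).2.2.1, (hs 0).2.2.2, hk1])
  have c2 : IsAlgebraic ℚ (sy (k 2) (x 2) / (1 - sy (k 1) (x 1))) :=
    alg_of_LD_eq D hD _ _ (hs 2).1 (hs1 1) (by rw [(hs 2).2.2.1, (hs 1).2.2.2, hk2])
  obtain ⟨n0, hn0, e0⟩ := tors_of_sy x h0 h1 ht 2 0 (k 2) (k 0) c0
  obtain ⟨n1, hn1, e1⟩ := tors_of_sy x h0 h1 ht 0 1 (k 0) (k 1) c1
  obtain ⟨n2, hn2, e2⟩ := tors_of_sy x h0 h1 ht 1 2 (k 1) (k 2) c2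
  have p1 : (sy (k 1) (x 1) / (1 - sy (k 0) (x 0))) ^ (n0 * n1 * n2) = 1 := by
    rw [mul_comm n0 n1, mul_assoc, pow_mul, e1, one_pow]
  have p2 : (sy (k 2) (x 2) / (1 - sy (k 1) (x 1))) ^ (n0 * n1 * n2) = 1 := by
    rw [mul_comm, pow_mul, e2, one_pow]
  have p0 : (sy (k 0) (x 0) / (1 - sy (k 2) (x 2))) ^ (n0 * n1 * n2) = 1 := by
    rw [mul_assoc, pow_mul, e0, one_pow]
  have q1 : sy (k 1) (x 1) = sy (k 1) (x 1) / (1 - sy (k 0) (x 0)) * (1 - sy (k 0) (x 0)) := by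
    rw [div_mul_cancel₀ _ (hs1 0)]
  have q2 : sy (k 2) (x 2) = sy (k 2) (x 2) / (1 - sy (k 1) (x 1)) * (1 - sy (k 1) (x 1)) := by
    rw [div_mul_cancel₀ _ (hs1 1)]
  have q0 : sy (k 0) (x 0) = sy (k 0) (x 0) / (1 - sy (k 2) (x 2)) * (1 - sy (k 2) (x 2)) := by
    rw [div_mul_cancel₀ _ (hs1 2)]
  exact two_of_sy x h0 h1 (k 0) (k 1) (k 1) (k 2)
    (sym_case (sy (k 0) (x 0)) (sy (k 1) (x 1)) (sy (k 2) (x 2)) _ _ _
      (sy_transc _ (h0 0) (h1 0) (htr 0) _) (n0 * n1 * n2) (by positivity) p1 p2 p0 q1 q2 q0)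
    (sym_case (sy (k 1) (x 1)) (sy (k 2) (x 2)) (sy (k 0) (x 0)) _ _ _
      (sy_transc _ (h0 1) (h1 1) (htr 1) _) (n0 * n1 * n2) (by positivity) p2 p0 p1 q2 q0 q1)

/-- **Three transcendental coordinates in transcendence degree one, two relations.** The proof of
`LThreeC.caseC` (`LThreeC/CaseC.lean`) with two relations:
* an equivalent pair: `two_of_spec`;
* the deg4 cases (`small_of_deg4`): `small_rel_two` instead of `small_rel`, then `tors` and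
  `root_bound` for both monomials: the exponents multiplied by `120` (sizes `≤ 576 * 120 = 69120`);
* the frames case (`small_of_frames`): `sym_case` gives `c₁ ^ 6 = 1` for
  `c₁ = sy (k 1) (x 1) / (1 - sy (k 0) (x 0))`; by the cyclic symmetry of the situation (apply
  `sym_case` to `Y, Z, X` with `c₂, c₃, c₁`; `Y` is transcendental too) also `c₂ ^ 6 = 1` for
  `c₂ = sy (k 2) (x 2) / (1 - sy (k 1) (x 1))`. By `sy_div_sq` (`N = 3`) these are two relations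
  `symV 0 1 ..` and `symV 1 2 ..` of size `≤ 6`; they are independent: the first is supported on the
  coordinates `0, 1` with nonzero part at `0`, the second on `1, 2` with nonzero part at `2`
  (`ex_ne` and the same for `ex'`). -/
theorem caseC_two (x : Fin 3 → F) (h0 : ∀ i, x i ≠ 0) (h1 : ∀ i, x i ≠ 1)
    (htr : ∀ i, Transcendental ℚ (x i)) (hgen : adjoin ℚ (Set.range x) = ⊤)
    (halg : Algebra.IsAlgebraic (adjoin ℚ {x 0}) F)
    (u : Fin 3 → (Fin 3 ⊕ Fin 3 → ℤ)) (hu : LinearIndependent ℤ u)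
    (hrel : ∀ j, mono (co x) (u j) = 1) : Two 69120 x := by
  by_cases hE : ∃ i j, i ≠ j ∧ Eqv (x i) (x j)
  · exact (two_of_spec x h0 h1 (Or.inl hE)).mono_le (by norm_num)
  have hE' : ∀ i j, i ≠ j → ¬ Eqv (x i) (x j) := fun i j hij h => hE ⟨i, j, hij, h⟩
  have hne : ¬ Eqv (x 0) (x 1) := hE' 0 1 (by decide)
  obtain ⟨D, hDt, hD⟩ := exists_deriv (k := ℚ) (x 0) (htr 0) halg
  have hDx : ∀ i, D (x i) ≠ 0 := fun i h => htr i ((hD _).1 h)
  obtain ⟨G, c, hc⟩ := exists_triple D (co x) u hu (fun j => by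
    rw [← mono_alg_iff D hD (co x) (co_ne x h0 h1), hrel j]; exact isAlgebraic_one)
  obtain ⟨l, hl⟩ : ∃ l : Fin 3 → Fin 3 → ℚ, ∀ i, LD D (x i) = ev (l i) G :=
    ⟨fun i => c (Sum.inl i), fun i => hc (Sum.inl i)⟩
  obtain ⟨l', hl'⟩ : ∃ l' : Fin 3 → Fin 3 → ℚ, ∀ i, LD D (1 - x i) = ev (l' i) G :=
    ⟨fun i => c (Sum.inr i), fun i => hc (Sum.inr i)⟩
  obtain ⟨hq, hqq⟩ := pairwise_cross D x h0 h1 htr hDx G l l' hl hl'
  have hq' : ∀ i j, i ≠ j →
      crossProduct (crossProduct (l i) (l' i)) (crossProduct (l j) (l' j)) ≠ 0 :=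
    fun i j hij h => hE' i j hij (hqq i j h)
  have hx : ∀ i, ev (l' i) G - ev (l i) G ≠ 0 ∧
      x i = ev (l' i) G / (ev (l' i) G - ev (l i) G) := by
    intro i
    have := x_eq D (x i) (h0 i) (h1 i) (hDx i)
    rwa [hl i, hl' i] at this
  rcases dual_or_rel (fun i => crossProduct (l i) (l' i)) with ⟨α, hα⟩ | ⟨c', hc'0, hc'⟩
  · by_cases hv : ∃ v : Fin 3 → ℚ,
      ∑ i, (α i ⬝ᵥ v) * (l i ⬝ᵥ v) * (l' i ⬝ᵥ v) * ((l i - l' i) ⬝ᵥ v) ≠ 0
    · obtain ⟨R, hRh, hR0, hRG⟩ := poly4 (F := F) l l' α hv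
      have hz : MvPolynomial.aeval G R = 0 := by
        rw [hRG G]; exact eq4 D x h0 h1 G l l' α hl hl' hα
      exact two_of_deg4 x h0 h1 htr hgen halg hne u hu hrel fun i =>
        deg4_of_homog x hgen G l l' hx hq R 4 (by norm_num) hRh hR0 hz i (htr i)
    · push Not at hv
      obtain ⟨k, hk0, hk1, hk2⟩ := quartic_zero l l' α hα hv
      exact (two_of_frames D hD x h0 h1 htr hne u hu hrel G l l' hl hl' k hk0 hk1 hk2).mono_le
        (by norm_num)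
  · have hcne := rel_ne _ hq' c' hc'0 hc'
    have hv := cubic_ne l l' hq' c' hcne hc'
    obtain ⟨R, hRh, hR0, hRG⟩ := poly3 (F := F) l l' c' hv
    have hz : MvPolynomial.aeval G R = 0 := by
      rw [hRG G]; exact eq3 D x h0 h1 G l l' hl hl' c' hc'
    exact two_of_deg4 x h0 h1 htr hgen halg hne u hu hrel fun i =>
      deg4_of_homog x hgen G l l' hx hq R 3 (by norm_num) hRh hR0 hz i (htr i)

end Pool.Agent.L3S
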