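import Pool.Agent.L3S.Defs
import Pool.Agent.LThree.Good

set_option autoImplicit false

/-! Configurations: a pair `(x, y)` of bounded height tied to a large number `z`, in the normal shape
used in Stage 2 (one large coordinate). -/

namespace Pool.Agent.L3S

open NumberField Height Real Module Pool.Agent.LThree

/-- The four numbers of a pair. -/
def fo {K : Type} [Field K] (x y : K) : Fin 4 → K := ![x, 1 - x, y, 1 - y]

/-- The monomial of a pair. -/
def mo {K : Type} [Field K] (x y : K) (r : Fin 4 → ℤ) : K :=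
  x ^ r 0 * (1 - x) ^ r 1 * (y ^ r 2 * (1 - y) ^ r 3)

/-- The good places: `z` is exponentially small. -/
def Pl {K : Type} [Field K] (M H : ℝ) (z : K) (v : InfinitePlace K) : Prop :=
  exp (-(M * H)) ≤ v z ∧ v z ≤ exp (-(H / M))

/-- The position of a good place. -/
noncomputable def sv {K : Type} [Field K] (H : ℝ) (z : K) (v : InfinitePlace K) : ℝ :=
  -log (v z) / H

/-- The direction of the sizes of the four numbers. -/
noncomputable def dir (H : ℝ) (N : ℕ) (a : Fin 4 → ℤ) (k : Fin 4) : ℝ := -(a k * H / N)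

/-- The sizes of the four numbers `x, 1 - x, y, 1 - y` are `exp (s A k)` up to `exp (± ρ)`. -/
def Near (A : Fin 4 → ℝ) (s ρ : ℝ) (x y : ℂ) : Prop :=
  ∀ k, |log ‖fo x y k‖ - s * A k| ≤ ρ

/-- **Configurations.** `H` is the size of the height of `z`, the only large parameter; `M` bounds
everything else (also the exponents of `H`). -/
structure Cfg (M H : ℝ) (K : Type) [Field K] [NumberField K] (x y z : K) (N : ℕ)
    (a b r : Fin 4 → ℤ) : Prop where
  x0 : x ≠ 0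
  x1 : x ≠ 1
  y0 : y ≠ 0
  y1 : y ≠ 1
  z0 : z ≠ 0
  z1 : z ≠ 1
  xs : x ^ 2 - x + 1 ≠ 0
  ys : y ^ 2 - y + 1 ≠ 0
  ne : ¬ Eqv x y
  hx : logHeight₁ x ≤ M * finrank ℚ K
  hy : logHeight₁ y ≤ M * finrank ℚ K
  N0 : 0 < N
  Ne : Even N
  NH : (N : ℝ) ≤ H ^ M
  aH : ∀ k, |(a k : ℝ)| ≤ H ^ M
  bH : ∀ k, |(b k : ℝ)| ≤ H ^ M
  ex : ∀ k, fo x y k ^ N = z ^ a k * (1 - z) ^ b k
  ca : ∀ k, |(a k : ℝ)| * H ≤ M * N
  cb : ∀ k, |(b k : ℝ)| * H ≤ M * N
  r0 : r ≠ 0
  re : ∀ k, Even (r k)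
  rM : ∀ k, |(r k : ℝ)| ≤ M
  rel : mo x y r = 1
  ra : ∑ k, r k * a k = 0
  pl : (finrank ℚ K : ℝ) ≤ M * mass K (Pl M H z)
  rank : ∀ u : Fin 3 → (Fin 4 → ℤ), LinearIndependent ℤ u → ¬ ∀ t, mo x y (u t) = 1
  gen : IntermediateField.adjoin ℚ {x, y} = ⊤

end Pool.Agent.L3S
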