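import Pool.Agent.L3S.KeyId

set_option autoImplicit false

/-! Package T8: classification of the degenerate directions (elementary real analysis). -/

namespace Pool.Agent.L3S

open Real

/-- `R = 0` identically only for `ρ = σ = 0` or for the two circle types (normal form `A ≤ 0 ≤ B`).
Proof: if `A < 0 < B` the functions `1, exp (2 s A), exp (2 s B)` are independent, so `ρ A = σ B`,
`ρ A + σ (2 A - B) = 0`, so `2 σ A = 0`, `σ = 0`, `ρ = 0`. If `A = 0`: `R = (2 ρ + σ) B exp (2 s B)`. If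
`B = 0`: `R = -(ρ + 2 σ) A exp (2 s A)`. -/
theorem rr_zero (ρ σ A B : ℝ) (hA : A ≤ 0) (hB : 0 ≤ B) (h0 : ¬ (A = 0 ∧ B = 0))
    (h : ∀ s, RR ρ σ A B s = 0) :
    (ρ = 0 ∧ σ = 0) ∨ (A = 0 ∧ σ = -2 * ρ) ∨ (B = 0 ∧ ρ = -2 * σ) := by
  unfold RR at h
  rcases hA.eq_or_lt with hA0 | hA0
  · right
    left
    refine ⟨hA0, ?_⟩
    have hB0 : 0 < B := lt_of_le_of_ne hB fun hB1 => h0 ⟨hA0, hB1.symm⟩
    have h1 := h 0
    subst hA0
    simp only [mul_zero, zero_mul, exp_zero, mul_one] at h1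
    have h2 : (2 * ρ + σ) * B = 0 := by linarith
    rcases mul_eq_zero.1 h2 with h3 | h3
    · linarith
    · exact absurd h3 hB0.ne'
  rcases hB.eq_or_lt with hB0 | hB0
  · right
    right
    refine ⟨hB0.symm, ?_⟩
    have h1 := h 0
    subst hB0
    simp only [mul_zero, zero_mul, exp_zero, mul_one] at h1
    have h2 : (ρ + 2 * σ) * A = 0 := by linarith
    rcases mul_eq_zero.1 h2 with h3 | h3
    · linarith
    · exact absurd h3 hA0.ne
  left
  obtain ⟨u, hu⟩ : ∃ u, u = exp (2 * A) := ⟨_, rfl⟩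
  obtain ⟨v, hv⟩ : ∃ v, v = exp (2 * B) := ⟨_, rfl⟩
  have hu1 : u < 1 := by
    rw [hu, exp_lt_one_iff]
    linarith
  have hv1 : 1 < v := by
    rw [hv, one_lt_exp_iff]
    linarith
  have e0 := h 0
  have e1 := h 1
  have e2 := h 2
  have eu1 : exp (2 * 1 * A) = u := by rw [hu, mul_one]
  have ev1 : exp (2 * 1 * B) = v := by rw [hv, mul_one]
  have eu2 : exp (2 * 2 * A) = u * u := by
    rw [hu, ← exp_add]
    congr 1
    ring
  have ev2 : exp (2 * 2 * B) = v * v := by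
    rw [hv, ← exp_add]
    congr 1
    ring
  rw [eu1, ev1] at e1
  rw [eu2, ev2] at e2
  simp only [mul_zero, zero_mul, exp_zero, mul_one] at e0
  generalize hc0 : ρ * A - σ * B = c0 at e0 e1 e2
  generalize hc1 : ρ * A + σ * (2 * A - B) = c1 at e0 e1 e2
  generalize hc2 : ρ * (2 * B - A) + σ * B = c2 at e0 e1 e2
  have f1 : c1 * ((u - 1) * (v - u)) = 0 := by
    linear_combination e2 - (v + 1) * e1 + v * e0
  have f2 : (u - 1) * (v - u) ≠ 0 := mul_ne_zero (by linarith) (by linarith)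
  have g1 : c1 = 0 := (mul_eq_zero.1 f1).resolve_right f2
  rw [g1] at e0 e1
  have f3 : c2 * (v - 1) = 0 := by linear_combination e1 - e0
  have g2 : c2 = 0 := (mul_eq_zero.1 f3).resolve_right (by linarith)
  have g0 : c0 = 0 := by
    rw [g2] at e0
    linarith
  have k1 : σ * A = 0 := by linarith
  have k2 : σ = 0 := (mul_eq_zero.1 k1).resolve_right hA0.ne
  have k3 : ρ * A = 0 := by
    rw [k2] at hc0
    linarith
  exact ⟨(mul_eq_zero.1 k3).resolve_right hA0.ne, k2⟩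

private lemma neg_left_iff {X Y : ℝ} (hX : 0 < X) : X * Y < 0 ↔ Y < 0 := by
  constructor
  · intro h
    by_contra hc
    exact absurd (mul_nonneg hX.le (not_lt.1 hc)) (not_le.2 h)
  · exact mul_neg_of_pos_of_neg hX

private lemma neg_right_iff {X Y : ℝ} (hY : 0 < Y) : X * Y < 0 ↔ X < 0 := by
  rw [mul_comm]
  exact neg_left_iff hY

private lemma dd_factor (A B s : ℝ) : DD A B s =
    (exp (s * B) - 1 + exp (s * A)) * (exp (s * B) + 1 - exp (s * A)) *
      ((1 + exp (s * A) - exp (s * B)) * (1 + exp (s * A) + exp (s * B))) := by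
  have h1 : exp (2 * s * A) = exp (s * A) * exp (s * A) := by
    rw [← exp_add]
    congr 1
    ring
  have h2 : exp (2 * s * B) = exp (s * B) * exp (s * B) := by
    rw [← exp_add]
    congr 1
    ring
  unfold DD
  rw [h1, h2]
  ring

/-- For `A ≤ 0 ≤ B` and `s > 0`: `DD > 0` iff `exp (s B) < 1 + exp (s A)`, and `DD < 0` iff `>`
(Heron: `DD = (a+b+c)(-a+b+c)(a-b+c)(a+b-c)` for `a = 1, b = exp (s A), c = exp (s B)`, and
`b ≤ 1 ≤ c`). -/
theorem DD_sign_pos (A B s : ℝ) (hA : A ≤ 0) (hB : 0 ≤ B) (hs : 0 < s) :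
    (0 < DD A B s ↔ exp (s * B) < 1 + exp (s * A)) ∧
      (DD A B s < 0 ↔ 1 + exp (s * A) < exp (s * B)) := by
  have hb : exp (s * A) ≤ 1 := exp_le_one_iff.2 (mul_nonpos_of_nonneg_of_nonpos hs.le hA)
  have hc : 1 ≤ exp (s * B) := one_le_exp_iff.2 (mul_nonneg hs.le hB)
  have hb0 := exp_pos (s * A)
  have hX : 0 < (exp (s * B) - 1 + exp (s * A)) * (exp (s * B) + 1 - exp (s * A)) :=
    mul_pos (by linarith) (by linarith)
  have hY : 0 < 1 + exp (s * A) + exp (s * B) := by linarith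
  rw [dd_factor, mul_pos_iff_of_pos_left hX, mul_pos_iff_of_pos_right hY,
    neg_left_iff hX, neg_right_iff hY, sub_pos, sub_neg]
  exact ⟨Iff.rfl, Iff.rfl⟩

/-- For `s < 0` the largest side is `exp (s A)`. -/
theorem DD_sign_neg (A B s : ℝ) (hA : A ≤ 0) (hB : 0 ≤ B) (hs : s < 0) :
    (0 < DD A B s ↔ exp (s * A) < 1 + exp (s * B)) ∧
      (DD A B s < 0 ↔ 1 + exp (s * B) < exp (s * A)) := by
  have hb : 1 ≤ exp (s * A) := one_le_exp_iff.2 (mul_nonneg_of_nonpos_of_nonpos hs.le hA)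
  have hc : exp (s * B) ≤ 1 := exp_le_one_iff.2 (mul_nonpos_of_nonpos_of_nonneg hs.le hB)
  have hc0 := exp_pos (s * B)
  have hX : 0 < exp (s * B) - 1 + exp (s * A) := by linarith
  have hY : 0 < (1 + exp (s * A) - exp (s * B)) * (1 + exp (s * A) + exp (s * B)) :=
    mul_pos (by linarith) (by linarith)
  rw [dd_factor, mul_pos_iff_of_pos_right hY, mul_pos_iff_of_pos_left hX,
    neg_right_iff hY, neg_left_iff hX, sub_pos, sub_neg,
    add_comm (exp (s * B)) 1]
  exact ⟨Iff.rfl, Iff.rfl⟩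

private lemma open_empty {U : Set ℝ} (hU : IsOpen U) {P : ℝ → Prop} (hP : ∀ s ∈ U, P s)
    (h : ∀ c d : ℝ, c < d → ∃ s ∈ Set.Ioo c d, ¬ P s) : ∀ s, s ∉ U := by
  intro s0 hs0
  obtain ⟨l, u, hlu, hsub⟩ := mem_nhds_iff_exists_Ioo_subset.1 (hU.mem_nhds hs0)
  obtain ⟨s, hs, hn⟩ := h l u (hlu.1.trans hlu.2)
  exact hn (hP s (hsub hs))

private lemma dir_aux (A B A' B' : ℝ) (hB : 0 ≤ B) (hA' : A' ≤ 0) (hw : B - A ≤ B' - A')
    (h : ∀ s, 0 < s → ¬ (exp (s * B) < 1 + exp (s * A) ∧ 1 + exp (s * A') < exp (s * B'))) :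
    B' ≤ B := by
  by_contra hcon
  push Not at hcon
  have hB' : 0 < B' := lt_of_le_of_lt hB hcon
  have hcont : ∀ x : ℝ, Continuous fun s : ℝ => exp (s * x) := fun x =>
    continuous_exp.comp (continuous_id.mul continuous_const)
  obtain ⟨s0, hs0, hz⟩ : ∃ s ∈ Set.Icc 0 (1 / B'), exp (s * B') - (1 + exp (s * A')) = 0 := by
    have h1 : ContinuousOn (fun s : ℝ => exp (s * B') - (1 + exp (s * A')))
        (Set.Icc 0 (1 / B')) :=
      ((hcont B').sub (continuous_const.add (hcont A'))).continuousOn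
    have h2 := intermediate_value_Icc (one_div_pos.2 hB').le h1
    have h3 : (0 : ℝ) ∈ Set.Icc (exp (0 * B') - (1 + exp (0 * A')))
        (exp (1 / B' * B') - (1 + exp (1 / B' * A'))) := by
      constructor
      · rw [zero_mul, zero_mul, exp_zero]
        norm_num
      · rw [one_div_mul_cancel hB'.ne']
        have h4 : exp (1 / B' * A') ≤ 1 :=
          exp_le_one_iff.2 (mul_nonpos_of_nonneg_of_nonpos (one_div_pos.2 hB').le hA')
        have h5 : 2 ≤ exp 1 := by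
          have := add_one_le_exp (1 : ℝ)
          linarith
        linarith
    obtain ⟨s, hs, hs'⟩ := h2 h3
    exact ⟨s, hs, hs'⟩
  have hs0p : 0 < s0 := by
    rcases hs0.1.eq_or_lt with h1 | h1
    · rw [← h1, zero_mul, zero_mul, exp_zero] at hz
      norm_num at hz
    · exact h1
  have hlt : exp (s0 * B) < 1 + exp (s0 * A) := by
    have e1 : exp (s0 * B) = exp (s0 * B') * exp (-(s0 * (B' - B))) := by
      rw [← exp_add]
      congr 1
      ring
    have e2 : exp (s0 * B') = 1 + exp (s0 * A') := by linarith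
    have e3 : exp (s0 * A') * exp (-(s0 * (B' - B))) ≤ exp (s0 * A) := by
      rw [← exp_add, exp_le_exp]
      have := mul_le_mul_of_nonneg_left hw hs0p.le
      linarith
    have e4 : exp (-(s0 * (B' - B))) < 1 := by
      rw [exp_lt_one_iff]
      have := mul_pos hs0p (sub_pos.2 hcon)
      linarith
    rw [e1, e2, add_mul, one_mul]
    linarith
  have hev : ∀ᶠ s in nhdsWithin s0 (Set.Ioi s0), exp (s * B) < 1 + exp (s * A) :=
    ((isOpen_lt (hcont B) (continuous_const.add (hcont A))).mem_nhds hlt :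
      {s : ℝ | exp (s * B) < 1 + exp (s * A)} ∈ nhds s0) |> mem_nhdsWithin_of_mem_nhds
  obtain ⟨s, hs1, hs2⟩ := (hev.and self_mem_nhdsWithin).exists
  have hs2' : s0 < s := hs2
  refine h s (hs0p.trans hs2') ⟨hs1, ?_⟩
  have h1 : exp (s0 * B') < exp (s * B') := exp_lt_exp.2 (mul_lt_mul_of_pos_right hs2' hB')
  have h2 : exp (s * A') ≤ exp (s0 * A') :=
    exp_le_exp.2 (mul_le_mul_of_nonpos_right hs2'.le hA')
  linarith

private lemma dir_two (A B A' B' : ℝ) (hA : A ≤ 0) (hB : 0 ≤ B) (hA' : A' ≤ 0) (hB' : 0 ≤ B')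
    (h : ∀ c d : ℝ, c < d → ∃ s ∈ Set.Ioo c d, ¬ (0 < DD A B s ∧ DD A' B' s < 0))
    (hw : B - A ≤ B' - A') : B' ≤ B ∧ A ≤ A' := by
  have hcont : ∀ x : ℝ, Continuous fun s : ℝ => exp (s * x) := fun x =>
    continuous_exp.comp (continuous_id.mul continuous_const)
  constructor
  · refine dir_aux A B A' B' hB hA' hw fun s hs hc => ?_
    refine open_empty (U := {s : ℝ | 0 < s} ∩ ({s : ℝ | exp (s * B) < 1 + exp (s * A)} ∩
      {s : ℝ | 1 + exp (s * A') < exp (s * B')})) ?_ ?_ h s ⟨hs, hc.1, hc.2⟩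
    · exact (isOpen_lt continuous_const continuous_id).inter
        ((isOpen_lt (hcont B) (continuous_const.add (hcont A))).inter
          (isOpen_lt (continuous_const.add (hcont A')) (hcont B')))
    · rintro t ⟨ht, ht1, ht2⟩
      exact ⟨(DD_sign_pos A B t hA hB ht).1.2 ht1, (DD_sign_pos A' B' t hA' hB' ht).2.2 ht2⟩
  · have h1 : -A' ≤ -A := by
      refine dir_aux (-B) (-A) (-B') (-A') (by linarith) (by linarith) (by linarith)
        fun s hs hc => ?_
      have e : ∀ x : ℝ, s * -x = -s * x := fun x => by ring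
      rw [e, e, e, e] at hc
      refine open_empty (U := {s : ℝ | s < 0} ∩ ({s : ℝ | exp (s * A) < 1 + exp (s * B)} ∩
        {s : ℝ | 1 + exp (s * B') < exp (s * A')})) ?_ ?_ h (-s)
        ⟨neg_lt_zero.2 hs, hc.1, hc.2⟩
      · exact (isOpen_lt continuous_id continuous_const).inter
          ((isOpen_lt (hcont A) (continuous_const.add (hcont B))).inter
            (isOpen_lt (continuous_const.add (hcont B')) (hcont A')))
      · rintro t ⟨ht, ht1, ht2⟩
        exact ⟨(DD_sign_neg A B t hA hB ht).1.2 ht1, (DD_sign_neg A' B' t hA' hB' ht).2.2 ht2⟩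
    linarith

/-- **The direction is determined by the sign of the area.** If there is no nonempty open interval
on which one of `DD A B`, `DD A' B'` is positive and the other negative, then the directions agree.

Proof. Put `p = B`, `q = -A ≥ 0`, `w = p + q > 0`; the same for `A', B'`. For `s > 0`:
`DD > 0` iff `exp (-s p) + exp (-s w) > 1`, a strictly decreasing continuous function of `s`, equal to
`2` at `s = 0`, with limit `0` if `p > 0` and always `> 1` if `p = 0`. So if `p > 0` there is a unique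
`s₊ > 0` with `exp (-s₊ p) + exp (-s₊ w) = 1`, `DD > 0` on `(0, s₊)` and `DD < 0` on `(s₊, ∞)`; if `p = 0`
then `DD > 0` on `(0, ∞)`. The hypothesis gives: `p > 0` iff `p' > 0`, and then `s₊ = s₊'`. The same for
`s < 0` with `q`. Suppose `w < w'`. Then `p ≥ p'`: if `p = p' = 0` clear, otherwise
`exp (-s₊ p) = 1 - exp (-s₊ w) < 1 - exp (-s₊ w') = exp (-s₊ p')`. In the same way `q ≥ q'`. So
`w = p + q ≥ p' + q' = w'`, a contradiction; so `w = w'` by symmetry, and then `p = p'`, `q = q'` (from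
the same equations, or `p = p' = 0`). -/
theorem same_direction (A B A' B' : ℝ) (hA : A ≤ 0) (hB : 0 ≤ B) (hA' : A' ≤ 0) (hB' : 0 ≤ B')
    (h0 : ¬ (A = 0 ∧ B = 0)) (h0' : ¬ (A' = 0 ∧ B' = 0))
    (h1 : ∀ c d : ℝ, c < d → ∃ s ∈ Set.Ioo c d, ¬ (0 < DD A B s ∧ DD A' B' s < 0))
    (h2 : ∀ c d : ℝ, c < d → ∃ s ∈ Set.Ioo c d, ¬ (DD A B s < 0 ∧ 0 < DD A' B' s)) :
    A = A' ∧ B = B' := by
  have k1 := dir_two A B A' B' hA hB hA' hB' h1
  have k2 := dir_two A' B' A B hA' hB' hA hB fun c d hcd => by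
    obtain ⟨s, hs, hn⟩ := h2 c d hcd
    exact ⟨s, hs, fun hc => hn ⟨hc.2, hc.1⟩⟩
  rcases le_total (B - A) (B' - A') with hw | hw
  · obtain ⟨a1, a2⟩ := k1 hw
    obtain ⟨a3, a4⟩ := k2 (by linarith)
    exact ⟨by linarith, by linarith⟩
  · obtain ⟨a3, a4⟩ := k2 hw
    obtain ⟨a1, a2⟩ := k1 (by linarith)
    exact ⟨by linarith, by linarith⟩

private lemma rr_analytic (ρ σ A B : ℝ) :
    AnalyticOnNhd ℝ (fun s : ℝ => RR ρ σ A B s) Set.univ := by
  intro s _
  unfold RR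
  fun_prop

private lemma rr_eq_zero {ρ σ A B s0 : ℝ} (h : ∀ᶠ s in nhds s0, RR ρ σ A B s = 0) :
    ∀ s, RR ρ σ A B s = 0 := fun s =>
  (rr_analytic ρ σ A B).eqOn_zero_of_preconnected_of_eventuallyEq_zero isPreconnected_univ
    (Set.mem_univ s0) h (Set.mem_univ s)

private lemma zero_of_zero {ρ σ A B ρ' σ' A' B' : ℝ}
    (key : ∀ s, RR ρ σ A B s ^ 2 * DD A' B' s = RR ρ' σ' A' B' s ^ 2 * DD A B s)
    (h : ∀ s, RR ρ σ A B s = 0) : ∀ s, RR ρ' σ' A' B' s = 0 := by
  have hc : Continuous fun s : ℝ => DD A B s := by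
    unfold DD
    fun_prop
  have h0 : 0 < DD A B 0 := by
    unfold DD
    simp only [mul_zero, zero_mul, exp_zero]
    norm_num
  refine rr_eq_zero (s0 := 0) ?_
  filter_upwards [(isOpen_lt continuous_const hc).mem_nhds h0] with s hs
  have hs' : 0 < DD A B s := hs
  have h1 := key s
  rw [h s, zero_pow two_ne_zero, zero_mul] at h1
  rcases mul_eq_zero.1 h1.symm with h2 | h2
  · exact pow_eq_zero_iff two_ne_zero |>.1 h2
  · exact absurd h2 hs'.ne'

private lemma exists_ne {ρ σ A B : ℝ} (h : ¬ ∀ s, RR ρ σ A B s = 0) {c d : ℝ} (hcd : c < d) :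
    ∃ s ∈ Set.Ioo c d, RR ρ σ A B s ≠ 0 := by
  by_contra hcon
  push Not at hcon
  apply h
  refine rr_eq_zero (s0 := (c + d) / 2) ?_
  filter_upwards [isOpen_Ioo.mem_nhds (show (c + d) / 2 ∈ Set.Ioo c d from
    ⟨by linarith, by linarith⟩)] with s hs
  exact hcon s hs

private lemma pair_contra {ρ σ : ℤ} {A B : ℝ}
    (h : A = 0 ∧ σ = -2 * ρ ∧ ρ ≠ 0 ∨ B = 0 ∧ ρ = -2 * σ ∧ σ ≠ 0)
    (hs : (ρ : ℝ) * A + σ * B = 0) : A = 0 ∧ B = 0 := by
  rcases h with ⟨h1, h2, h3⟩ | ⟨h1, h2, h3⟩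
  · refine ⟨h1, ?_⟩
    rw [h1, mul_zero, zero_add] at hs
    refine (mul_eq_zero.1 hs).resolve_left fun h4 => ?_
    have h5 : σ = 0 := by exact_mod_cast h4
    omega
  · refine ⟨?_, h1⟩
    rw [h1, mul_zero, add_zero] at hs
    refine (mul_eq_zero.1 hs).resolve_left fun h4 => ?_
    have h5 : ρ = 0 := by exact_mod_cast h4
    omega

private lemma pair_alt {ρ σ : ℤ} {A B : ℝ} (hA : A ≤ 0) (hB : 0 ≤ B) (h0 : ¬ (A = 0 ∧ B = 0))
    (h : ∀ s, RR ρ σ A B s = 0) :
    (A = 0 ∧ σ = -2 * ρ ∧ ρ ≠ 0 ∨ B = 0 ∧ ρ = -2 * σ ∧ σ ≠ 0) ∨ (ρ = 0 ∧ σ = 0) := by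
  rcases rr_zero (ρ : ℝ) (σ : ℝ) A B hA hB h0 h with ⟨h1, h2⟩ | ⟨h1, h2⟩ | ⟨h1, h2⟩
  · exact Or.inr ⟨by exact_mod_cast h1, by exact_mod_cast h2⟩
  · have h3 : σ = -2 * ρ := by exact_mod_cast h2
    by_cases h4 : ρ = 0
    · exact Or.inr ⟨h4, by omega⟩
    · exact Or.inl (Or.inl ⟨h1, h3, h4⟩)
  · have h3 : ρ = -2 * σ := by exact_mod_cast h2
    by_cases h4 : σ = 0
    · exact Or.inr ⟨by omega, h4⟩
    · exact Or.inl (Or.inr ⟨h1, h3, h4⟩)

/-- **Classification of the degenerate directions.**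

Proof. `key_identity`. Write `R = RR (r 0) (r 1) (A 0) (A 1)`, `R' = RR (r 2) (r 3) (A 2) (A 3)`.
(a) If `R = 0` identically then, as `DD (A 0) (A 1) 0 = 3`, `R' = 0` near `0`, so identically (analytic, or
an exponential sum); and conversely. Then `rr_zero` for both. `r 0 = r 1 = 0` is impossible: then
`(r 2, r 3) ≠ 0`, so say `A 2 = 0`, `r 3 = -2 r 2 ≠ 0`, and `∑ r_k A_k = r 3 A 3 = 0`, so `A 3 = 0`,
contradiction (the other case is the same); `r 2 = r 3 = 0` likewise. This gives the second alternative.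
(b) If neither is identically zero then on every nonempty open interval there is a point where
`R ≠ 0`, and one where `R' ≠ 0`. If `DD (A 0) (A 1) > 0 > DD (A 2) (A 3)` on an open interval then
`R² DD' ≤ 0 ≤ R'² DD` so `R² DD' = 0`, `R = 0` there, contradiction. The same with the roles exchanged. So
`same_direction`. -/
theorem classify (r : Fin 4 → ℤ) (hr : r ≠ 0) (A : Fin 4 → ℝ) (hA : ∑ k, r k * A k = 0)
    (n0 : A 0 ≤ 0) (n1 : 0 ≤ A 1) (n2 : A 2 ≤ 0) (n3 : 0 ≤ A 3)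
    (h01 : ¬ (A 0 = 0 ∧ A 1 = 0)) (h23 : ¬ (A 2 = 0 ∧ A 3 = 0))
    (h : ∀ s, Ev (G4 r) A s = 0) :
    (A 0 = A 2 ∧ A 1 = A 3) ∨
    ((A 0 = 0 ∧ r 1 = -2 * r 0 ∧ r 0 ≠ 0 ∨ A 1 = 0 ∧ r 0 = -2 * r 1 ∧ r 1 ≠ 0) ∧
      (A 2 = 0 ∧ r 3 = -2 * r 2 ∧ r 2 ≠ 0 ∨ A 3 = 0 ∧ r 2 = -2 * r 3 ∧ r 3 ≠ 0)) := by
  have key := key_identity r A h
  by_cases hR : ∀ s, RR (r 0) (r 1) (A 0) (A 1) s = 0
  · right
    have hR' := zero_of_zero key hR
    rw [Fin.sum_univ_four] at hA
    rcases pair_alt n0 n1 h01 hR with p1 | ⟨p1, p1'⟩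
    · rcases pair_alt n2 n3 h23 hR' with p2 | ⟨p2, p2'⟩
      · exact ⟨p1, p2⟩
      · exfalso
        apply h01
        apply pair_contra p1
        rw [p2, p2'] at hA
        push_cast at hA
        linarith
    · exfalso
      rcases pair_alt n2 n3 h23 hR' with p2 | ⟨p2, p2'⟩
      · apply h23
        apply pair_contra p2
        rw [p1, p1'] at hA
        push_cast at hA
        linarith
      · apply hr
        funext k
        fin_cases k
        · exact p1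
        · exact p1'
        · exact p2
        · exact p2'
  · left
    have hR' : ¬ ∀ s, RR (r 2) (r 3) (A 2) (A 3) s = 0 := fun hz =>
      hR (zero_of_zero (fun s => (key s).symm) hz)
    refine same_direction _ _ _ _ n0 n1 n2 n3 h01 h23 (fun c d hcd => ?_) fun c d hcd => ?_
    · obtain ⟨s, hs, hne⟩ := exists_ne hR hcd
      refine ⟨s, hs, fun hc => ?_⟩
      have h1 : RR (r 0) (r 1) (A 0) (A 1) s ^ 2 * DD (A 2) (A 3) s < 0 :=
        mul_neg_of_pos_of_neg (sq_pos_of_ne_zero hne) hc.2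
      have h2 : 0 ≤ RR (r 2) (r 3) (A 2) (A 3) s ^ 2 * DD (A 0) (A 1) s :=
        mul_nonneg (sq_nonneg _) hc.1.le
      rw [← key s] at h2
      linarith
    · obtain ⟨s, hs, hne⟩ := exists_ne hR' hcd
      refine ⟨s, hs, fun hc => ?_⟩
      have h1 : RR (r 2) (r 3) (A 2) (A 3) s ^ 2 * DD (A 0) (A 1) s < 0 :=
        mul_neg_of_pos_of_neg (sq_pos_of_ne_zero hne) hc.1
      have h2 : 0 ≤ RR (r 0) (r 1) (A 0) (A 1) s ^ 2 * DD (A 2) (A 3) s :=
        mul_nonneg (sq_nonneg _) hc.2.le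
      rw [key s] at h2
      linarith

/-- **Classification for conjugate pairs.** `key_identity_two` and `rr_zero` (with
`ρ = r 0 - r 2`, `σ = r 1 - r 3`): `A = 0`, or `B = 0`, or `r 0 = r 2`, `r 1 = r 3`; then
`r 0 A + r 1 B = 0`; `r 0 = 0` would give `r 1 ≠ 0`, `B = 0`, etc.; `r 0 + r 1 = 0` would give
`r 0 (A - B) = 0`, `A = B = 0`. -/
theorem classify_two (r : Fin 4 → ℤ) (hr : r ≠ 0) (A B : ℝ)
    (hA : (r 0 + r 2) * A + (r 1 + r 3) * B = 0) (n0 : A ≤ 0) (n1 : 0 ≤ B)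
    (h0 : ¬ (A = 0 ∧ B = 0)) (h : ∀ s, Ev (G2 r) ![A, B] s = 0) :
    A = 0 ∨ B = 0 ∨ (r 2 = r 0 ∧ r 3 = r 1 ∧ (r 0 : ℝ) * A + r 1 * B = 0 ∧
      r 0 ≠ 0 ∧ r 1 ≠ 0 ∧ r 0 + r 1 ≠ 0) := by
  by_cases a0 : A = 0
  · exact Or.inl a0
  by_cases b0 : B = 0
  · exact Or.inr (Or.inl b0)
  right
  right
  rcases rr_zero _ _ A B n0 n1 h0 (key_identity_two r A B h) with ⟨h1, h2⟩ | ⟨h1, h2⟩ | ⟨h1, h2⟩
  · have e1 : r 2 = r 0 := by
      have : (r 2 : ℝ) = r 0 := by linarith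
      exact_mod_cast this
    have e2 : r 3 = r 1 := by
      have : (r 3 : ℝ) = r 1 := by linarith
      exact_mod_cast this
    rw [e1, e2] at hA
    have hs : (r 0 : ℝ) * A + r 1 * B = 0 := by linarith
    have z0 : r 0 = 0 → r 1 ≠ 0 := fun hz hz' => hr (by
      funext k
      fin_cases k
      · exact hz
      · exact hz'
      · exact e1.trans hz
      · exact e2.trans hz')
    refine ⟨e1, e2, hs, fun hz => ?_, fun hz => ?_, fun hz => ?_⟩
    · rw [hz, Int.cast_zero, zero_mul, zero_add] at hs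
      rcases mul_eq_zero.1 hs with h3 | h3
      · exact z0 hz (by exact_mod_cast h3)
      · exact b0 h3
    · rw [hz, Int.cast_zero, zero_mul, add_zero] at hs
      rcases mul_eq_zero.1 hs with h3 | h3
      · exact z0 (by exact_mod_cast h3) hz
      · exact a0 h3
    · have e3 : r 1 = -r 0 := by omega
      have e4 : (r 0 : ℝ) * (A - B) = 0 := by
        rw [e3] at hs
        push_cast at hs
        linarith
      rcases mul_eq_zero.1 e4 with h3 | h3
      · have h4 : r 0 = 0 := by exact_mod_cast h3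
        exact z0 h4 (by omega)
      · exact a0 (by linarith)
  · exact absurd h1 a0
  · exact absurd h1 b0

end Pool.Agent.L3S
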