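import Pool.Agent.LThreeC.Final

set_option autoImplicit false

/-! Definitions for the strong form of Zilber's conjecture for `L^3`: finitely many maximal
atypical subvarieties (MP_b7926e_nt, folder L3S). -/

namespace Pool.Agent.L3S

open Pool.Agent.LThree

/-- Two independent exact relations of size at most `B`. -/
def Two {ι F : Type} [Fintype ι] [Field F] (B : ℕ) (x : ι → F) : Prop :=
  ∃ u v : ι ⊕ ι → ℤ, LinearIndependent ℤ ![u, v] ∧ nrm u ≤ B ∧ nrm v ≤ B ∧
    mono (co x) u = 1 ∧ mono (co x) v = 1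

/-- Two coordinates are equivalent, or one coordinate is a primitive sixth root of unity. -/
def Spec {F : Type} [Field F] (x : Fin 3 → F) : Prop :=
  (∃ i j, i ≠ j ∧ Eqv (x i) (x j)) ∨ ∃ i, x i ^ 2 - x i + 1 = 0

theorem Two.mono_le {ι F : Type} [Fintype ι] [Field F] {B B' : ℕ} (h : B ≤ B') {x : ι → F}
    (hx : Two B x) : Two B' x := by
  obtain ⟨u, v, h1, h2, h3, h4, h5⟩ := hx
  exact ⟨u, v, h1, h2.trans h, h3.trans h, h4, h5⟩

end Pool.Agent.L3S
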