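import Pool.Agent.L3S.Cfg
import Pool.Agent.LThree.SmallPoly
import Pool.Agent.LThree.HtVal
import Pool.Agent.LThree.TwoLogA
import Pool.Agent.LThree.Pigeon

set_option autoImplicit false

/-! Package T2: a number with few conjugates (up to a small error) has small degree. -/

namespace Pool.Agent.L3S

open NumberField Height Real Module Pool.Agent.LThree

private theorem degree_pow_sub (a b : ℂ) (r : ℝ) (hr : 1 ≤ r) (ha : ‖a‖ ≤ r) (hb : ‖b‖ ≤ r)
    (j : ℕ) : ‖a ^ j - b ^ j‖ ≤ j * r ^ j * ‖a - b‖ := by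
  rw [← geom_sum₂_mul, norm_mul]
  refine mul_le_mul_of_nonneg_right ?_ (norm_nonneg _)
  have h : ∀ i ∈ Finset.range j, ‖a ^ i * b ^ (j - 1 - i)‖ ≤ r ^ j := by
    intro i hi
    have hi' := Finset.mem_range.1 hi
    rw [norm_mul, norm_pow, norm_pow]
    calc ‖a‖ ^ i * ‖b‖ ^ (j - 1 - i) ≤ r ^ i * r ^ (j - 1 - i) :=
          mul_le_mul (pow_le_pow_left₀ (norm_nonneg _) ha _)
            (pow_le_pow_left₀ (norm_nonneg _) hb _) (by positivity) (by positivity)
      _ = r ^ (i + (j - 1 - i)) := (pow_add _ _ _).symm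
      _ ≤ r ^ j := pow_le_pow_right₀ hr (by omega)
  refine (norm_sum_le _ _).trans ((Finset.sum_le_sum h).trans (le_of_eq ?_))
  rw [Finset.sum_const, Finset.card_range, nsmul_eq_mul]

private theorem degree_two_le (n : ℝ) (hn : 1 ≤ n) : 2 ≤ exp n := by
  have h := Real.add_one_le_exp n
  linarith

/-- The auxiliary polynomial. -/
private theorem degree_aux (B G : ℝ) (hB : 0 ≤ B) (hG : 0 ≤ G) (C₁ k : ℕ)
    (hC : 2 * (B + G + 7) ≤ C₁) (hk : 1 ≤ k) (T : Finset ℂ) (hT : T.card ≤ k)
    (hTB : ∀ t ∈ T, ‖t‖ ≤ exp (B + 1)) :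
    ∃ c : Fin (C₁ * k + 1) → ℤ, c ≠ 0 ∧ (∀ j, (|c j| : ℝ) ≤ exp ((C₁ * k : ℕ) : ℝ)) ∧
      ∀ t ∈ T, ‖∑ j, (c j : ℂ) * t ^ (j : ℕ)‖ ≤ exp (-((G + 1) * ((C₁ * k : ℕ) : ℝ))) := by
  classical
  have hkR : (1 : ℝ) ≤ k := by exact_mod_cast hk
  have hC1 : (1 : ℝ) ≤ C₁ := by linarith
  set n : ℕ := C₁ * k with hn
  have hnR : (n : ℝ) = C₁ * k := by rw [hn]; push_cast; ring
  have hn1 : (1 : ℝ) ≤ n := by rw [hnR]; nlinarith
  set X : ℕ := ⌊exp (n : ℝ)⌋₊ with hX
  have hX1 : (X : ℝ) ≤ exp n := Nat.floor_le (Real.exp_pos _).le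
  have hX2 : exp (n : ℝ) < X + 1 := Nat.lt_floor_add_one _
  let a : Fin (n + 1) → (T × Fin 2) → ℝ := fun j p =>
    if p.2 = 0 then ((p.1 : ℂ) ^ (j : ℕ)).re else ((p.1 : ℂ) ^ (j : ℕ)).im
  have ha : ∀ j p, |a j p| ≤ exp ((B + 1) * n) := by
    intro j p
    have h1 : ‖((p.1 : ℂ) ^ (j : ℕ))‖ ≤ exp ((B + 1) * n) := by
      rw [norm_pow]
      calc ‖(p.1 : ℂ)‖ ^ (j : ℕ) ≤ exp (B + 1) ^ (j : ℕ) :=
            pow_le_pow_left₀ (norm_nonneg _) (hTB _ p.1.2) _
        _ ≤ exp (B + 1) ^ n :=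
            pow_le_pow_right₀ (Real.one_le_exp (by linarith)) (Nat.lt_succ_iff.1 j.2)
        _ = exp ((B + 1) * n) := by rw [← Real.exp_nat_mul, mul_comm]
    dsimp only [a]
    split_ifs
    · exact (Complex.abs_re_le_norm _).trans h1
    · exact (Complex.abs_im_le_norm _).trans h1
  have hcard : (2 * (Fintype.card (Fin (n + 1)) * X * exp ((B + 1) * n)) /
      exp (-((G + 2) * n)) + 2) ^ Fintype.card (T × Fin 2) <
      ((X : ℝ) + 1) ^ Fintype.card (Fin (n + 1)) := by
    rw [Fintype.card_fin, Fintype.card_prod, Fintype.card_fin, Fintype.card_coe]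
    have h1 : 2 * (((n + 1 : ℕ) : ℝ) * X * exp ((B + 1) * n)) / exp (-((G + 2) * n)) + 2 ≤
        exp ((B + G + 7) * n) := by
      have e1 : ((n + 1 : ℕ) : ℝ) ≤ exp n := by
        push_cast
        exact Real.add_one_le_exp _
      have e2 : ((n + 1 : ℕ) : ℝ) * X ≤ exp n * exp n :=
        mul_le_mul e1 hX1 (Nat.cast_nonneg _) (Real.exp_pos _).le
      have e3 : 2 * (((n + 1 : ℕ) : ℝ) * X * exp ((B + 1) * n)) / exp (-((G + 2) * n)) ≤
          2 * exp ((B + G + 5) * n) := by
        rw [div_eq_mul_inv, ← Real.exp_neg, neg_neg]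
        have e4 : exp ((B + G + 5) * n) = exp n * exp n * exp ((B + 1) * n) *
            exp ((G + 2) * n) := by
          rw [← Real.exp_add, ← Real.exp_add, ← Real.exp_add]
          congr 1
          ring
        rw [e4]
        have e5 := mul_le_mul_of_nonneg_right (mul_le_mul_of_nonneg_right e2
          (Real.exp_pos ((B + 1) * n)).le) (Real.exp_pos ((G + 2) * n)).le
        linarith
      have e6 : exp ((B + G + 7) * n) = exp ((B + G + 5) * n) * (exp n * exp n) := by
        rw [← Real.exp_add, ← Real.exp_add]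
        congr 1
        ring
      have e7 : 1 ≤ exp ((B + G + 5) * n) := Real.one_le_exp (by positivity)
      have e8 := degree_two_le n hn1
      have e9 : 4 ≤ exp (n : ℝ) * exp n := by nlinarith
      rw [e6]
      nlinarith
    have h0 : 0 ≤ 2 * (((n + 1 : ℕ) : ℝ) * X * exp ((B + 1) * n)) / exp (-((G + 2) * n)) + 2 := by
      positivity
    have h2 : (1 : ℝ) ≤ exp ((B + G + 7) * n) := Real.one_le_exp (by positivity)
    calc (2 * (((n + 1 : ℕ) : ℝ) * X * exp ((B + 1) * n)) / exp (-((G + 2) * n)) + 2) ^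
          (T.card * 2) ≤ exp ((B + G + 7) * n) ^ (T.card * 2) := pow_le_pow_left₀ h0 h1 _
      _ ≤ exp ((B + G + 7) * n) ^ (k * 2) := pow_le_pow_right₀ h2 (by omega)
      _ = exp (((k * 2 : ℕ) : ℝ) * ((B + G + 7) * n)) := by rw [← Real.exp_nat_mul]
      _ ≤ exp ((n : ℝ) * n) := by
          refine Real.exp_le_exp.2 ?_
          push_cast
          have h3 : (k : ℝ) * 2 * (B + G + 7) ≤ n := by
            rw [hnR]
            nlinarith
          nlinarith
      _ ≤ exp (((n + 1 : ℕ) : ℝ) * n) := by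
          refine Real.exp_le_exp.2 ?_
          push_cast
          nlinarith
      _ = exp (n : ℝ) ^ (n + 1) := by rw [← Real.exp_nat_mul]
      _ < ((X : ℝ) + 1) ^ (n + 1) :=
          pow_lt_pow_left₀ hX2 (Real.exp_pos _).le (Nat.succ_ne_zero _)
  obtain ⟨c, hc0, hcX, hc⟩ := pigeon a X (exp ((B + 1) * n)) (exp (-((G + 2) * n)))
    (Real.exp_pos _).le (Real.exp_pos _) ha hcard
  refine ⟨c, hc0, fun j => ?_, fun t ht => ?_⟩
  · have h1 : (|c j| : ℝ) ≤ X := by
      have h2 := hcX j
      exact_mod_cast h2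
    exact h1.trans hX1
  · have hre : |(∑ j, (c j : ℂ) * t ^ (j : ℕ)).re| ≤ exp (-((G + 2) * n)) := by
      have h1 := hc (⟨t, ht⟩, 0)
      have h2 : (∑ j, (c j : ℂ) * t ^ (j : ℕ)).re = ∑ j, (c j : ℝ) * a j (⟨t, ht⟩, 0) := by
        rw [Complex.re_sum]
        refine Finset.sum_congr rfl fun j _ => ?_
        simp [a]
      rwa [h2]
    have him : |(∑ j, (c j : ℂ) * t ^ (j : ℕ)).im| ≤ exp (-((G + 2) * n)) := by
      have h1 := hc (⟨t, ht⟩, 1)
      have h2 : (∑ j, (c j : ℂ) * t ^ (j : ℕ)).im = ∑ j, (c j : ℝ) * a j (⟨t, ht⟩, 1) := by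
        rw [Complex.im_sum]
        refine Finset.sum_congr rfl fun j _ => ?_
        simp [a]
      rwa [h2]
    have h3 := Complex.norm_le_abs_re_add_abs_im (∑ j, (c j : ℂ) * t ^ (j : ℕ))
    have h4 : exp (-((G + 1) * n)) = exp (-((G + 2) * n)) * exp n := by
      rw [← Real.exp_add]
      congr 1
      ring
    have h5 := degree_two_le n hn1
    rw [h4]
    have h6 := Real.exp_pos (-((G + 2) * (n : ℝ)))
    nlinarith

/-- A number which is a root of a small integer polynomial has a small degree. -/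
private theorem degree_root (K : Type) [Field K] [NumberField K] (x : K) (n : ℕ)
    (c : Fin (n + 1) → ℤ) (hc : c ≠ 0) (h : ∑ j, (c j : K) * x ^ (j : ℕ) = 0) :
    (minpoly ℚ x).natDegree ≤ n := by
  classical
  set P : Polynomial ℚ := ∑ j : Fin (n + 1), Polynomial.C (c j : ℚ) * Polynomial.X ^ (j : ℕ)
    with hP
  have hcoef : ∀ j : Fin (n + 1), P.coeff j = c j := by
    intro j
    rw [hP, Polynomial.finsetSum_coeff]
    simp only [Polynomial.coeff_C_mul, Polynomial.coeff_X_pow]
    rw [Finset.sum_eq_single j]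
    · simp
    · intro i _ hi
      rw [if_neg (fun h => hi (Fin.ext h.symm)), mul_zero]
    · intro h
      exact absurd (Finset.mem_univ _) h
  have hP0 : P ≠ 0 := by
    intro h0
    apply hc
    funext j
    have h1 := hcoef j
    rw [h0, Polynomial.coeff_zero] at h1
    exact_mod_cast h1.symm
  have hev : Polynomial.aeval x P = 0 := by
    rw [hP, map_sum]
    rw [← h]
    refine Finset.sum_congr rfl fun j _ => ?_
    simp
  have hdeg : P.natDegree ≤ n := by
    rw [hP]
    refine Polynomial.natDegree_sum_le_of_forall_le _ _ fun j _ => ?_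
    refine (Polynomial.natDegree_C_mul_X_pow_le _ _).trans (Nat.lt_succ_iff.1 j.2)
  exact (Polynomial.natDegree_le_natDegree (minpoly.degree_le_of_ne_zero ℚ x hP0 hev)).trans hdeg

/-- **Few clusters: small degree.** If at places of mass `≥ D / M` the number `x` (of height `≤ M D`)
lies in one of `k` discs of radius `exp (-C k)` then its degree is at most `C k`.

Proof (Siegel's lemma by pigeonhole, product formula; compare `SmallPoly.lean`, `CurveLarge.lean`).
Let `θ = 1/M`, `B = 4 M² + 1`, so the places with `v x ≥ exp B` have mass `≤ D/(2M)` (`mass_large`);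
delete them, and the `t ∈ T` with `‖t‖ > exp B + 1`. Let `G = 8 M (M + 3)` and `n = ⌈C₁⌉ k` the degree.
The integer vectors `c : Fin (n+1) → {0, .., ⌊exp n⌋}` are more than `exp (n (n+1) / 2)`; the values
`p_c(t)` (`t ∈ T`, real and imaginary parts in `[-exp ((B+3) n), exp ((B+3) n)]`) are cut into cells of
side `exp (-(G+2) n)`: at most `exp (2 k (B + G + 7) n)` cells. If `C₁ > 4 (B + G + 7)` two of them
agree and `p = p_c - p_c' ≠ 0` has integer coefficients at most `exp n`, degree `≤ n`,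
`‖p(t)‖ ≤ exp (-G n - 1)` for `t ∈ T`. If `C k ≥ (G + B + 6) n` then `‖p(v.embedding x)‖ ≤ exp (-G n)` at
the remaining places in the discs (Lipschitz constant `≤ exp ((B + 4) n)`). If `p(x) ≠ 0`:
`height_ge_mass`: `D / (2 M) * G n ≤ logHeight₁ (p x) ≤ n logHeight₁ x + D (log (n+1) + n) ≤ (M + 2) n D`
(`height_value_le` with `y = 1` or directly), a contradiction. So `p(x) = 0` and the degree of `x` is at
most `n`. -/
theorem deg_of_clusters (M : ℝ) (hM : 1 ≤ M) : ∃ C : ℝ, 1 ≤ C ∧
    ∀ (K : Type) [Field K] [NumberField K] (x : K) (k : ℕ) (T : Finset ℂ), 1 ≤ k → T.card ≤ k →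
      logHeight₁ x ≤ M * finrank ℚ K →
      (finrank ℚ K : ℝ) ≤
        M * mass K (fun v => ∃ t ∈ T, ‖v.embedding x - t‖ ≤ exp (-(C * k))) →
      ((minpoly ℚ x).natDegree : ℝ) ≤ C * k := by
  classical
  set B : ℝ := 4 * M ^ 2 with hB
  set G : ℝ := 2 * M * (2 * M + 5) + 1 with hG
  have hB0 : 0 < B := by positivity
  have hG0 : 0 < G := by positivity
  set C₁ : ℕ := ⌈2 * (B + G + 7)⌉₊ with hC₁
  have hC₁' : 2 * (B + G + 7) ≤ C₁ := Nat.le_ceil _
  have hC1 : (1 : ℝ) ≤ C₁ := by linarith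
  set C : ℝ := (B + G + 5) * C₁ with hC
  have hCC : (C₁ : ℝ) ≤ C := by
    rw [hC]
    nlinarith
  refine ⟨C, hC1.trans hCC, ?_⟩
  intro K _ _ x k T hk hT hx hmass
  have hkR : (1 : ℝ) ≤ k := by exact_mod_cast hk
  have hD : (0 : ℝ) < finrank ℚ K := by
    have : 0 < finrank ℚ K := finrank_pos
    exact_mod_cast this
  set n : ℕ := C₁ * k with hn
  have hnR : (n : ℝ) = C₁ * k := by rw [hn]; push_cast; ring
  have hn1 : (1 : ℝ) ≤ n := by rw [hnR]; nlinarith
  have hCk : C * k = (B + G + 5) * n := by rw [hC, hnR]; ring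
  have hnC : (n : ℝ) ≤ C * k := by
    rw [hCk]
    nlinarith
  rcases eq_or_ne x 0 with rfl | hx0
  · rw [minpoly.zero, Polynomial.natDegree_X, Nat.cast_one]
    exact hn1.trans hnC
  set T' : Finset ℂ := T.filter fun t => ‖t‖ ≤ exp (B + 1) with hT'
  obtain ⟨c, hc0, hcn, hcT⟩ := degree_aux B G hB0.le hG0.le C₁ k hC₁' hk T'
    ((Finset.card_filter_le _ _).trans hT) (fun t ht => (Finset.mem_filter.1 ht).2)
  set w : K := ∑ j, (c j : K) * x ^ (j : ℕ) with hw
  by_cases hw0 : w = 0
  · have h1 := degree_root K x n c hc0 hw0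
    have h2 : ((minpoly ℚ x).natDegree : ℝ) ≤ n := by exact_mod_cast h1
    exact h2.trans hnC
  exfalso
  -- the small places
  have hsmall : ∀ v : InfinitePlace K, (∃ t ∈ T, ‖v.embedding x - t‖ ≤ exp (-(C * k))) →
      ¬ B ≤ |log (v x)| → v w ≤ exp (-(G * n)) := by
    rintro v ⟨t, ht, htx⟩ hv
    push Not at hv
    have hvx : 0 < v x := v.pos_iff.2 hx0
    have hnorm : ∀ y : K, v y = ‖v.embedding y‖ := fun y =>
      (InfinitePlace.norm_embedding_eq v y).symm
    have h1 : ‖v.embedding x‖ ≤ exp B := by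
      rw [← hnorm, ← Real.exp_log hvx]
      exact Real.exp_le_exp.2 (le_of_lt (lt_of_le_of_lt (le_abs_self _) hv))
    have h2 : exp (-(C * k)) ≤ 1 := Real.exp_le_one_iff.2 (by
      rw [hCk]
      have : 0 ≤ (B + G + 5) * (n : ℝ) := by positivity
      linarith)
    have h3 : exp B + 1 ≤ exp (B + 1) := by
      rw [Real.exp_add]
      have h4 := degree_two_le 1 le_rfl
      have h5 := Real.one_le_exp hB0.le
      nlinarith
    have h4 : ‖t‖ ≤ exp (B + 1) := by
      have h5 : ‖t‖ ≤ ‖v.embedding x‖ + ‖v.embedding x - t‖ := by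
        have h6 := norm_sub_le (v.embedding x) (v.embedding x - t)
        rwa [sub_sub_cancel] at h6
      linarith
    have h5 := hcT t (Finset.mem_filter.2 ⟨ht, h4⟩)
    have h6 : ‖v.embedding x‖ ≤ exp (B + 1) := by linarith
    have h7 : v.embedding w = ∑ j, (c j : ℂ) * (v.embedding x) ^ (j : ℕ) := by
      rw [hw, map_sum]
      refine Finset.sum_congr rfl fun j _ => ?_
      rw [map_mul, map_pow, map_intCast]
    have h8 : ‖∑ j, (c j : ℂ) * (v.embedding x) ^ (j : ℕ) -
        ∑ j, (c j : ℂ) * t ^ (j : ℕ)‖ ≤ exp (-((G + 1) * n)) := by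
      rw [← Finset.sum_sub_distrib]
      have h9 : ∀ j : Fin (n + 1), ‖(c j : ℂ) * (v.embedding x) ^ (j : ℕ) -
          (c j : ℂ) * t ^ (j : ℕ)‖ ≤ exp n * (exp n * exp ((B + 1) * n) * exp (-(C * k))) := by
        intro j
        rw [← mul_sub, norm_mul]
        have h10 : ‖(c j : ℂ)‖ ≤ exp n := by
          rw [Complex.norm_intCast]
          exact hcn j
        have h11 := degree_pow_sub (v.embedding x) t (exp (B + 1))
          (Real.one_le_exp (by linarith)) h6 h4 j
        have hj : (j : ℕ) ≤ n := Nat.lt_succ_iff.1 j.2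
        have h12 : ((j : ℕ) : ℝ) ≤ exp n := by
          have h13 : ((j : ℕ) : ℝ) ≤ n := by exact_mod_cast hj
          have h14 := Real.add_one_le_exp (n : ℝ)
          linarith
        have h13 : exp (B + 1) ^ (j : ℕ) ≤ exp ((B + 1) * n) := by
          calc exp (B + 1) ^ (j : ℕ) ≤ exp (B + 1) ^ n :=
                pow_le_pow_right₀ (Real.one_le_exp (by linarith)) hj
            _ = exp ((B + 1) * n) := by rw [← Real.exp_nat_mul, mul_comm]
        have h14 : ((j : ℕ) : ℝ) * exp (B + 1) ^ (j : ℕ) ≤ exp n * exp ((B + 1) * n) :=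
          mul_le_mul h12 h13 (by positivity) (Real.exp_pos _).le
        refine mul_le_mul h10 (h11.trans ?_) (norm_nonneg _) (Real.exp_pos _).le
        exact mul_le_mul h14 htx (norm_nonneg _) (by positivity)
      refine (norm_sum_le _ _).trans ((Finset.sum_le_sum fun j _ => h9 j).trans ?_)
      rw [Finset.sum_const, Finset.card_univ, Fintype.card_fin, nsmul_eq_mul]
      have h15 : ((n + 1 : ℕ) : ℝ) ≤ exp n := by
        push_cast
        exact Real.add_one_le_exp _
      refine (mul_le_mul_of_nonneg_right h15 (by positivity)).trans ?_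
      rw [hCk, ← Real.exp_add, ← Real.exp_add, ← Real.exp_add, ← Real.exp_add, Real.exp_le_exp]
      nlinarith
    rw [hnorm w, h7]
    have h16 : ‖∑ j, (c j : ℂ) * (v.embedding x) ^ (j : ℕ)‖ ≤
        exp (-((G + 1) * n)) + exp (-((G + 1) * n)) := by
      have h17 := norm_add_le (∑ j, (c j : ℂ) * (v.embedding x) ^ (j : ℕ) -
        ∑ j, (c j : ℂ) * t ^ (j : ℕ)) (∑ j, (c j : ℂ) * t ^ (j : ℕ))
      rw [sub_add_cancel] at h17
      exact h17.trans (add_le_add h8 h5)
    have h17 : exp (-(G * n)) = exp (-((G + 1) * n)) * exp n := by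
      rw [← Real.exp_add]
      congr 1
      ring
    have h18 := degree_two_le n hn1
    have h19 := Real.exp_pos (-((G + 1) * (n : ℝ)))
    rw [h17]
    nlinarith
  -- the mass of the small places
  have m1 := mass_large K x hx0 B hB0
  have m2 : mass K (fun v => ∃ t ∈ T, ‖v.embedding x - t‖ ≤ exp (-(C * k))) ≤
      mass K (fun v => B ≤ |log (v x)|) + mass K (fun v => v w ≤ exp (-(G * n))) := by
    refine (mass_mono K _ _ fun v hv => ?_).trans (mass_or_le K _ _)
    by_cases h : B ≤ |log (v x)|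
    · exact Or.inl h
    · exact Or.inr (hsmall v hv h)
  have m3 := height_ge_mass K w hw0 (G * n) (by positivity)
  have m4 := height_value_one K x (n + 1) c (exp n) (Real.one_le_exp (by positivity)) hcn
  rw [← hw, Real.log_exp] at m4
  set D : ℝ := (finrank ℚ K : ℝ) with hDdef
  set a := mass K (fun v => B ≤ |log (v x)|) with ha
  set b := mass K (fun v => v w ≤ exp (-(G * n))) with hb
  have hM0 : 0 < M := by linarith
  have m5 : a ≤ D / (2 * M) := by
    rw [le_div_iff₀ (by positivity)]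
    have h1 : a * B ≤ 2 * (M * D) := m1.trans (by linarith)
    rw [hB] at h1
    have h2 : a * (2 * M) * (2 * M) ≤ D * (2 * M) := by nlinarith
    exact le_of_mul_le_mul_right h2 (by positivity)
  have m6 : D / (2 * M) ≤ b := by
    have h1 : D ≤ M * (a + b) := hmass.trans (mul_le_mul_of_nonneg_left m2 hM0.le)
    have h2 : M * a ≤ D / 2 := by
      have h3 := mul_le_mul_of_nonneg_left m5 hM0.le
      have h4 : M * (D / (2 * M)) = D / 2 := by
        rw [mul_div_assoc', mul_comm 2 M, mul_div_mul_left _ _ hM0.ne']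
      linarith
    rw [div_le_iff₀ (by positivity)]
    nlinarith
  have hlog : log (((n + 1 : ℕ) : ℝ) + 1) ≤ n + 1 := by
    have h1 := Real.log_le_sub_one_of_pos (show (0 : ℝ) < ((n + 1 : ℕ) : ℝ) + 1 by positivity)
    push_cast at h1 ⊢
    linarith
  have m7 : logHeight₁ w ≤ n * D * (2 * M + 5) := by
    have h1 : ((n + 1 : ℕ) : ℝ) * logHeight₁ x ≤ (2 * n) * (M * D) := by
      push_cast
      have h0 : 0 ≤ logHeight₁ x := zero_le_logHeight₁ x
      exact mul_le_mul (by linarith) hx h0 (by positivity)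
    have h2 : D * (2 * log (((n + 1 : ℕ) : ℝ) + 1) + n) ≤ D * (5 * n) :=
      mul_le_mul_of_nonneg_left (by linarith) hD.le
    calc logHeight₁ w ≤ _ := m4
      _ ≤ (2 * n) * (M * D) + D * (5 * n) := add_le_add h1 h2
      _ = n * D * (2 * M + 5) := by ring
  have m8 : D / (2 * M) * (G * n) ≤ n * D * (2 * M + 5) :=
    (mul_le_mul_of_nonneg_right m6 (by positivity)).trans (m3.trans m7)
  have m9 : D / (2 * M) * (G * n) = n * D * (2 * M + 5) + D / (2 * M) * n := by
    have h1 : D / (2 * M) * (2 * M) = D := div_mul_cancel₀ D (by positivity)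
    have h2 : D / (2 * M) * (G * n) =
        (D / (2 * M) * (2 * M)) * (2 * M + 5) * n + D / (2 * M) * n := by
      rw [hG]
      ring
    rw [h2, h1]
    ring
  have m10 : 0 < D / (2 * M) * n := by positivity
  linarith

/-- The degree of a field generated by two numbers. -/
theorem finrank_le_mul (K : Type) [Field K] [NumberField K] (x y : K)
    (h : IntermediateField.adjoin ℚ {x, y} = ⊤) :
    finrank ℚ K ≤ (minpoly ℚ x).natDegree * (minpoly ℚ y).natDegree := by
  have h1 : IntermediateField.adjoin ℚ ({x, y} : Set K) =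
      IntermediateField.adjoin ℚ {x} ⊔ IntermediateField.adjoin ℚ {y} := by
    rw [← IntermediateField.adjoin_union, Set.singleton_union]
  have h2 := IntermediateField.finrank_sup_le (IntermediateField.adjoin ℚ ({x} : Set K))
    (IntermediateField.adjoin ℚ {y})
  rw [← h1, h, IntermediateField.finrank_top',
    IntermediateField.adjoin.finrank (Algebra.IsIntegral.isIntegral x),
    IntermediateField.adjoin.finrank (Algebra.IsIntegral.isIntegral y)] at h2
  exact h2

end Pool.Agent.L3S
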