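import Pool.Agent.L3S.Cfg

set_option autoImplicit false

/-! Package T4: norm polynomials. -/

namespace Pool.Agent.L3S

open MvPolynomial

private lemma lin_four (P : MvPolynomial (Fin 2) ℤ) : ∃ A B C D : MvPolynomial (Fin 4) ℤ,
    ∀ (R : Type) [CommRing R] (x x' y y' : R),
      aeval ![x, y] P =
        aeval ![x * x', (1 - x) * (1 - x'), y * y', (1 - y) * (1 - y')] A +
        aeval ![x * x', (1 - x) * (1 - x'), y * y', (1 - y) * (1 - y')] B * x +
        aeval ![x * x', (1 - x) * (1 - x'), y * y', (1 - y) * (1 - y')] C * y +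
        aeval ![x * x', (1 - x) * (1 - x'), y * y', (1 - y) * (1 - y')] D * (x * y) := by
  induction P using MvPolynomial.induction_on with
  | C a =>
    refine ⟨C a, 0, 0, 0, fun R _ x x' y y' => ?_⟩
    simp only [map_zero, zero_mul, add_zero, algHom_C]
  | add p q hp hq =>
    obtain ⟨A, B, C, D, h⟩ := hp
    obtain ⟨A', B', C', D', h'⟩ := hq
    refine ⟨A + A', B + B', C + C', D + D', fun R _ x x' y y' => ?_⟩
    simp only [map_add]
    rw [h R x x' y y', h' R x x' y y']
    ring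
  | mul_X p i hp =>
    obtain ⟨A, B, C, D, h⟩ := hp
    fin_cases i
    · refine ⟨-B * X 0, A + B * (1 + X 0 - X 1), -D * X 0, C + D * (1 + X 0 - X 1),
        fun R _ x x' y y' => ?_⟩
      rw [map_mul, h R x x' y y']
      simp only [map_add, map_mul, map_sub, map_neg, map_one, aeval_X, Fin.isValue,
        Matrix.cons_val_zero, Matrix.cons_val_one, Fin.zero_eta]
      ring
    · refine ⟨-C * X 2, -D * X 2, A + C * (1 + X 2 - X 3), B + D * (1 + X 2 - X 3),
        fun R _ x x' y y' => ?_⟩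
      rw [map_mul, h R x x' y y']
      simp only [map_add, map_mul, map_sub, map_neg, map_one, aeval_X, Fin.isValue,
        Matrix.cons_val_zero, Matrix.cons_val_one, Matrix.cons_val, Fin.mk_one]
      ring

/-- **The norm polynomial.** Proof: for a commutative ring `R` and `F : Polynomial R` write, over
`R[S, Q]`, `F = A (X² - S X + Q) + c₁ X + c₀` (`Polynomial.modByMonic`); then
`F(x) F(x') = c₀² + c₀ c₁ (x + x') + c₁² x x'` for `S = x + x'`, `Q = x x'`. Here
`x + x' = 1 + x x' - (1 - x)(1 - x')`. Apply this in `x`, with `R = ℤ[y]`, to `P`, and then in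
`y`, with `R = ℤ[q₀, q₁]`, to the result (or: by two uses of the following statement for polynomials over an
arbitrary commutative ring, `Polynomial (Polynomial ℤ)`; `MvPolynomial` in two variables as iterated
polynomials by `MvPolynomial.finSuccEquiv` or by writing `P` as a sum of monomials). -/
theorem norm_four (P : MvPolynomial (Fin 2) ℤ) : ∃ G : MvPolynomial (Fin 4) ℤ,
    ∀ (R : Type) [CommRing R] (x x' y y' : R),
      aeval ![x * x', (1 - x) * (1 - x'), y * y', (1 - y) * (1 - y')] G =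
        aeval ![x, y] P * aeval ![x', y] P * (aeval ![x, y'] P * aeval ![x', y'] P) := by
  obtain ⟨A, B, C, D, h⟩ := lin_four P
  let S : MvPolynomial (Fin 4) ℤ := 1 + X 0 - X 1
  let Q : MvPolynomial (Fin 4) ℤ := X 0
  let S' : MvPolynomial (Fin 4) ℤ := 1 + X 2 - X 3
  let Q' : MvPolynomial (Fin 4) ℤ := X 2
  let K0 := A * A + A * B * S + B * B * Q
  let K1 := 2 * A * C + (A * D + B * C) * S + 2 * B * D * Q
  let K2 := C * C + C * D * S + D * D * Q
  let L0 := K0 - K2 * Q'
  let L1 := K1 + K2 * S'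
  refine ⟨L0 * L0 + L0 * L1 * S' + L1 * L1 * Q', fun R _ x x' y y' => ?_⟩
  have e1 := h R x x' y y'
  have e2 := h R x' x y y'
  have e3 := h R x x' y' y
  have e4 := h R x' x y' y
  have c1 : ![x' * x, (1 - x') * (1 - x), y * y', (1 - y) * (1 - y')] =
      ![x * x', (1 - x) * (1 - x'), y * y', (1 - y) * (1 - y')] := by
    rw [mul_comm x' x, mul_comm (1 - x') (1 - x)]
  have c2 : ![x * x', (1 - x) * (1 - x'), y' * y, (1 - y') * (1 - y)] =
      ![x * x', (1 - x) * (1 - x'), y * y', (1 - y) * (1 - y')] := by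
    rw [mul_comm y' y, mul_comm (1 - y') (1 - y)]
  have c3 : ![x' * x, (1 - x') * (1 - x), y' * y, (1 - y') * (1 - y)] =
      ![x * x', (1 - x) * (1 - x'), y * y', (1 - y) * (1 - y')] := by
    rw [mul_comm y' y, mul_comm (1 - y') (1 - y), mul_comm x' x, mul_comm (1 - x') (1 - x)]
  rw [c1] at e2
  rw [c2] at e3
  rw [c3] at e4
  rw [e1, e2, e3, e4]
  simp only [L0, L1, K0, K1, K2, S, Q, S', Q', map_add, map_mul, map_sub, map_one, aeval_X,
    Fin.isValue, Matrix.cons_val_zero, Matrix.cons_val_one, Matrix.cons_val, map_ofNat]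
  ring

private lemma lin_two (P : MvPolynomial (Fin 2) ℤ) : ∃ A B : MvPolynomial (Fin 2) ℤ,
    ∀ (R : Type) [CommRing R] (x x' : R),
      aeval ![x, x'] P =
        aeval ![x * x', (1 - x) * (1 - x')] A + aeval ![x * x', (1 - x) * (1 - x')] B * x := by
  induction P using MvPolynomial.induction_on with
  | C a =>
    refine ⟨C a, 0, fun R _ x x' => ?_⟩
    simp only [map_zero, zero_mul, add_zero, algHom_C]
  | add p q hp hq =>
    obtain ⟨A, B, h⟩ := hp
    obtain ⟨A', B', h'⟩ := hq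
    refine ⟨A + A', B + B', fun R _ x x' => ?_⟩
    simp only [map_add]
    rw [h R x x', h' R x x']
    ring
  | mul_X p i hp =>
    obtain ⟨A, B, h⟩ := hp
    fin_cases i
    · refine ⟨-B * X 0, A + B * (1 + X 0 - X 1), fun R _ x x' => ?_⟩
      rw [map_mul, h R x x']
      simp only [map_add, map_mul, map_sub, map_neg, map_one, aeval_X, Fin.isValue,
        Matrix.cons_val_zero, Matrix.cons_val_one, Fin.zero_eta]
      ring
    · refine ⟨A * (1 + X 0 - X 1) + B * X 0, -A, fun R _ x x' => ?_⟩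
      rw [map_mul, h R x x']
      simp only [map_add, map_mul, map_sub, map_neg, map_one, aeval_X, Fin.isValue,
        Matrix.cons_val_zero, Matrix.cons_val_one, Fin.mk_one]
      ring

/-- The same for conjugate arguments: `x' = S - x`, so `P(x, x') = Π(x)` with `Π` over `ℤ[S]`, and
`P(x, x') P(x', x) = Π(x) Π(x')`. -/
theorem norm_two (P : MvPolynomial (Fin 2) ℤ) : ∃ G : MvPolynomial (Fin 2) ℤ,
    ∀ (R : Type) [CommRing R] (x x' : R),
      aeval ![x * x', (1 - x) * (1 - x')] G = aeval ![x, x'] P * aeval ![x', x] P := by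
  obtain ⟨A, B, h⟩ := lin_two P
  refine ⟨A * A + A * B * (1 + X 0 - X 1) + B * B * X 0, fun R _ x x' => ?_⟩
  have e1 := h R x x'
  have e2 := h R x' x
  have c1 : ![x' * x, (1 - x') * (1 - x)] = ![x * x', (1 - x) * (1 - x')] := by
    rw [mul_comm x' x, mul_comm (1 - x') (1 - x)]
  rw [c1] at e2
  rw [e1, e2]
  simp only [map_add, map_mul, map_sub, map_one, aeval_X, Fin.isValue, Matrix.cons_val_zero,
    Matrix.cons_val_one]
  ring

/-- The polynomial of a relation. -/
noncomputable def rp (r : Fin 4 → ℤ) : MvPolynomial (Fin 2) ℤ :=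
  X 0 ^ (r 0).toNat * (1 - X 0) ^ (r 1).toNat * (X 1 ^ (r 2).toNat * (1 - X 1) ^ (r 3).toNat) -
  X 0 ^ (-r 0).toNat * (1 - X 0) ^ (-r 1).toNat * (X 1 ^ (-r 2).toNat * (1 - X 1) ^ (-r 3).toNat)

theorem aeval_rp {F : Type} [Field F] (x y : F) (hx : x ≠ 0) (hx1 : x ≠ 1) (hy : y ≠ 0)
    (hy1 : y ≠ 1) (r : Fin 4 → ℤ) : aeval ![x, y] (rp r) = 0 ↔ mo x y r = 1 := by
  have key : ∀ (z : F), z ≠ 0 → ∀ k : ℤ, z ^ k.toNat = z ^ k * z ^ (-k).toNat := by
    intro z hz k
    rw [← zpow_natCast, ← zpow_natCast, ← zpow_add₀ hz]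
    congr 1
    omega
  have hx1' : 1 - x ≠ 0 := sub_ne_zero.2 (Ne.symm hx1)
  have hy1' : 1 - y ≠ 0 := sub_ne_zero.2 (Ne.symm hy1)
  have hm : x ^ (-r 0).toNat * (1 - x) ^ (-r 1).toNat *
      (y ^ (-r 2).toNat * (1 - y) ^ (-r 3).toNat) ≠ 0 :=
    mul_ne_zero (mul_ne_zero (pow_ne_zero _ hx) (pow_ne_zero _ hx1'))
      (mul_ne_zero (pow_ne_zero _ hy) (pow_ne_zero _ hy1'))
  have he : aeval ![x, y] (rp r) = (mo x y r - 1) * (x ^ (-r 0).toNat * (1 - x) ^ (-r 1).toNat *
      (y ^ (-r 2).toNat * (1 - y) ^ (-r 3).toNat)) := by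
    simp only [rp, mo, map_mul, map_sub, map_one, map_pow, aeval_X, Fin.isValue,
      Matrix.cons_val_zero, Matrix.cons_val_one]
    rw [key x hx (r 0), key (1 - x) hx1' (r 1), key y hy (r 2), key (1 - y) hy1' (r 3)]
    ring
  rw [he, mul_eq_zero, or_iff_left hm, sub_eq_zero]

/-- The norm of the relation over the four pairs of conjugates, a polynomial in the squares of the
absolute values. -/
noncomputable def G4 (r : Fin 4 → ℤ) : MvPolynomial (Fin 4) ℤ := (norm_four (rp r)).choose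

theorem G4_spec (r : Fin 4 → ℤ) (R : Type) [CommRing R] (x x' y y' : R) :
    aeval ![x * x', (1 - x) * (1 - x'), y * y', (1 - y) * (1 - y')] (G4 r) =
      aeval ![x, y] (rp r) * aeval ![x', y] (rp r) *
        (aeval ![x, y'] (rp r) * aeval ![x', y'] (rp r)) :=
  (norm_four (rp r)).choose_spec R x x' y y'

/-- The same for a pair of conjugates. -/
noncomputable def G2 (r : Fin 4 → ℤ) : MvPolynomial (Fin 2) ℤ := (norm_two (rp r)).choose

theorem G2_spec (r : Fin 4 → ℤ) (R : Type) [CommRing R] (x x' : R) :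
    aeval ![x * x', (1 - x) * (1 - x')] (G2 r) =
      aeval ![x, x'] (rp r) * aeval ![x', x] (rp r) :=
  (norm_two (rp r)).choose_spec R x x'

/-- The value of a polynomial on the curve `q_k = exp (2 s A_k)`. -/
noncomputable def Ev {n : ℕ} (G : MvPolynomial (Fin n) ℤ) (A : Fin n → ℝ) (s : ℝ) : ℝ :=
  aeval (fun k => Real.exp (2 * s * A k)) G

end Pool.Agent.L3S
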