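import Pool.Agent.L3S.ExpClu
import Pool.Agent.L3S.Norms

set_option autoImplicit false

/-! Package T5: an integral polynomial on an exponential curve is identically zero or small only on
few short intervals. -/

namespace Pool.Agent.L3S

open MvPolynomial Real

/-- **Clusters.** Proof: `Ev G A s = ∑ m ∈ G.support, coeff m G * exp (2 s ∑ m_j A_j)`
(`MvPolynomial.aeval_def`, `eval₂_eq'`); group by the value `l = 2 ∑ m_j A_j = -2 H (∑ m_j a_j) / N`: the
coefficient of `exp (l s)` is an integer `f l`. If all `f l = 0`: identically zero. Otherwise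
`S` = the `l` with `f l ≠ 0`: `S.card ≤ G.support.card =: n`, `|f l| ≥ 1`, `|l| ≤ 2 n' M` with
`n' = ∑` of the degrees, gaps `≥ 2 H / N ≥ γ := min 1 (2 H / N)`, `γ ≥ H ^ (-M)`. `exp_clusters` with
`t = exp (-(H/M)) / γ ^ n ≤ exp (-(H/M)) H ^ (M n)`, which is `≤ exp (-(H/(2M)))` for `H ≥ H2`; the radius
`C t ^ κ' ≤ C exp (-(κ' H/(2M))) ≤ exp (-(κ H))` with `κ = κ' / (4M)`. -/
theorem ev_clusters {n : ℕ} (G : MvPolynomial (Fin n) ℤ) (M : ℝ) (hM : 1 ≤ M) :
    ∃ (k : ℕ) (κ H2 : ℝ), 0 < κ ∧ ∀ (H : ℝ) (N : ℕ) (a : Fin n → ℤ), H2 ≤ H → 0 < N →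
      (N : ℝ) ≤ H ^ M → (∀ j, |(a j : ℝ)| * H ≤ M * N) →
      (∀ s, Ev G (fun j => -(a j * H / N)) s = 0) ∨
      ∃ T : Finset ℝ, T.card ≤ k ∧ ∀ s, |s| ≤ M →
        |Ev G (fun j => -(a j * H / N)) s| ≤ exp (-(H / M)) → ∃ u ∈ T, |s - u| ≤ exp (-(κ * H)) := by
  classical
  obtain ⟨k, κ', C, hκ', hC, hcl⟩ := exp_clusters G.support.card
    (max M (2 * (G.totalDegree : ℝ) * M))
  have hM0 : 0 < M := lt_of_lt_of_le one_pos hM
  set n₀ := G.support.card with hn₀
  -- the thresholds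
  have hev : ∀ᶠ H : ℝ in Filter.atTop, 1 ≤ H ∧ H ^ (M * n₀) ≤ exp (1 / (2 * M) * H) ∧
      C ≤ exp (1 / (2 * M) * H) ∧ C ≤ exp (κ' / (4 * M) * H) := by
    have e1 : ∀ᶠ H : ℝ in Filter.atTop, H ^ (M * n₀) ≤ exp (1 / (2 * M) * H) := by
      have h1 := (isLittleO_rpow_exp_pos_mul_atTop (M * n₀)
        (b := 1 / (2 * M)) (by positivity)).bound one_pos
      filter_upwards [h1, Filter.eventually_ge_atTop (0 : ℝ)] with H h2 h3
      rw [Real.norm_eq_abs, Real.norm_eq_abs, abs_of_nonneg (Real.rpow_nonneg h3 _),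
        abs_of_pos (exp_pos _), one_mul] at h2
      exact h2
    have e2 : ∀ b : ℝ, 0 < b → ∀ᶠ H : ℝ in Filter.atTop, C ≤ exp (b * H) := fun b hb =>
      (Real.tendsto_exp_atTop.comp (Filter.tendsto_id.const_mul_atTop hb)).eventually_ge_atTop C
    filter_upwards [Filter.eventually_ge_atTop (1 : ℝ), e1, e2 (1 / (2 * M)) (by positivity),
      e2 (κ' / (4 * M)) (by positivity)] with H h1 h2 h3 h4
    exact ⟨h1, h2, h3, h4⟩
  obtain ⟨H2, hH2⟩ := Filter.eventually_atTop.1 hev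
  refine ⟨k, κ' / (4 * M), H2, by positivity, ?_⟩
  intro H N a hH hN hNH ha
  obtain ⟨h1, h2, h3, h4⟩ := hH2 H hH
  have hH0 : 0 < H := lt_of_lt_of_le one_pos h1
  have hN0 : (0 : ℝ) < N := by exact_mod_cast hN
  set b : (Fin n →₀ ℕ) → ℤ := fun m => ∑ j, (m j : ℤ) * a j with hb
  set L : (Fin n →₀ ℕ) → ℝ := fun m => -(2 * (H / N) * (b m : ℝ)) with hL
  have hEv : ∀ s, Ev G (fun j => -(a j * H / N)) s =
      ∑ m ∈ G.support, ((coeff m G : ℤ) : ℝ) * exp (L m * s) := by
    intro s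
    rw [Ev, aeval_def, eval₂_eq']
    refine Finset.sum_congr rfl fun m _ => ?_
    have e1 : ∏ i, exp (2 * s * -(a i * H / N)) ^ m i = exp (L m * s) := by
      rw [Finset.prod_congr rfl fun i _ => (Real.exp_nat_mul _ _).symm, ← Real.exp_sum]
      congr 1
      rw [hL, hb]
      simp only
      push_cast
      rw [Finset.mul_sum, ← Finset.sum_neg_distrib, Finset.sum_mul]
      refine Finset.sum_congr rfl fun i _ => ?_
      ring
    rw [e1]
    rfl
  set f : ℝ → ℝ := fun l => ∑ m ∈ G.support with L m = l, ((coeff m G : ℤ) : ℝ) with hf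
  have hfZ : ∀ l, f l ≠ 0 → 1 ≤ |f l| := by
    intro l hl
    have e1 : f l = ((∑ m ∈ G.support with L m = l, coeff m G : ℤ) : ℝ) := by
      rw [hf]
      push_cast
      rfl
    rw [e1] at hl ⊢
    have e2 : (∑ m ∈ G.support with L m = l, coeff m G : ℤ) ≠ 0 := by
      intro h0
      rw [h0] at hl
      exact hl Int.cast_zero
    have e3 := Int.one_le_abs e2
    exact_mod_cast e3
  have hEv2 : ∀ s, Ev G (fun j => -(a j * H / N)) s =
      ∑ l ∈ (G.support.image L).filter (fun l => f l ≠ 0), f l * exp (l * s) := by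
    intro s
    rw [hEv s, Finset.sum_filter_of_ne (fun l _ h => left_ne_zero_of_mul h),
      ← Finset.sum_fiberwise_of_maps_to (g := L) (t := G.support.image L)
        (fun m hm => Finset.mem_image_of_mem L hm)]
    refine Finset.sum_congr rfl fun l _ => ?_
    rw [hf]
    simp only
    rw [Finset.sum_mul]
    refine Finset.sum_congr rfl fun m hm => ?_
    rw [(Finset.mem_filter.1 hm).2]
  set S := (G.support.image L).filter (fun l => f l ≠ 0) with hS
  rcases S.eq_empty_or_nonempty with hSe | hSne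
  · left
    intro s
    rw [hEv2 s, hSe, Finset.sum_empty]
  right
  -- the data of the cluster lemma
  set γ : ℝ := min 1 (2 * (H / N)) with hγ
  have hγ0 : 0 < γ := lt_min one_pos (by positivity)
  have hγ1 : γ ≤ 1 := min_le_left _ _
  have hγH : H ^ (-M) ≤ γ := by
    refine le_min ?_ ?_
    · rw [Real.rpow_neg hH0.le]
      exact inv_le_one_of_one_le₀ (Real.one_le_rpow h1 hM0.le)
    · have e1 : H ^ (-M) ≤ 1 / N := by
        rw [Real.rpow_neg hH0.le, ← one_div]
        exact one_div_le_one_div_of_le hN0 hNH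
      have e2 : 1 / (N : ℝ) ≤ H / N := by
        exact div_le_div_of_nonneg_right h1 hN0.le
      have e3 : 0 ≤ H / (N : ℝ) := by positivity
      linarith
  have hcard : S.card ≤ n₀ :=
    (Finset.card_filter_le _ _).trans Finset.card_image_le
  have hSl : ∀ l ∈ S, |l| ≤ max M (2 * (G.totalDegree : ℝ) * M) := by
    intro l hl
    obtain ⟨m, hm, rfl⟩ := Finset.mem_image.1 (Finset.mem_filter.1 hl).1
    refine le_trans ?_ (le_max_right _ _)
    rw [hL]
    simp only
    rw [abs_neg, abs_mul, abs_of_pos (by positivity : (0 : ℝ) < 2 * (H / N))]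
    have e1 : |(b m : ℝ)| ≤ ∑ j, (m j : ℝ) * |(a j : ℝ)| := by
      rw [hb]
      simp only
      push_cast
      refine (Finset.abs_sum_le_sum_abs _ _).trans (Finset.sum_le_sum fun j _ => ?_)
      rw [abs_mul, Nat.abs_cast]
    have e2 : ∀ j, (m j : ℝ) * |(a j : ℝ)| * (H / N) ≤ m j * M := by
      intro j
      rw [mul_assoc]
      refine mul_le_mul_of_nonneg_left ?_ (Nat.cast_nonneg _)
      rw [← mul_div_assoc, div_le_iff₀ hN0]
      exact ha j
    have e3 : |(b m : ℝ)| * (H / N) ≤ (G.totalDegree : ℝ) * M := by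
      calc |(b m : ℝ)| * (H / N) ≤ (∑ j, (m j : ℝ) * |(a j : ℝ)|) * (H / N) :=
            mul_le_mul_of_nonneg_right e1 (by positivity)
        _ = ∑ j, (m j : ℝ) * |(a j : ℝ)| * (H / N) := Finset.sum_mul _ _ _
        _ ≤ ∑ j, (m j : ℝ) * M := Finset.sum_le_sum fun j _ => e2 j
        _ = ((∑ j, m j : ℕ) : ℝ) * M := by push_cast; rw [Finset.sum_mul]
        _ ≤ (G.totalDegree : ℝ) * M := by
            refine mul_le_mul_of_nonneg_right ?_ hM0.le
            have e4 := le_totalDegree hm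
            rw [Finsupp.sum_fintype _ _ fun _ => rfl] at e4
            exact_mod_cast e4
    calc 2 * (H / N) * |(b m : ℝ)| = 2 * (|(b m : ℝ)| * (H / N)) := by ring
      _ ≤ 2 * ((G.totalDegree : ℝ) * M) := by linarith
      _ = 2 * (G.totalDegree : ℝ) * M := by ring
  have hgap : ∀ l ∈ S, ∀ l' ∈ S, l ≠ l' → γ ≤ |l - l'| := by
    intro l hl l' hl' hne
    obtain ⟨m, hm, rfl⟩ := Finset.mem_image.1 (Finset.mem_filter.1 hl).1
    obtain ⟨m', hm', rfl⟩ := Finset.mem_image.1 (Finset.mem_filter.1 hl').1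
    refine (min_le_right _ _).trans ?_
    have e1 : L m - L m' = 2 * (H / N) * (((b m' - b m : ℤ)) : ℝ) := by
      rw [hL]
      push_cast
      ring
    have e2 : b m' - b m ≠ 0 := by
      intro h0
      apply hne
      rw [← sub_eq_zero, e1, h0, Int.cast_zero, mul_zero]
    have e3 : (1 : ℝ) ≤ |((b m' - b m : ℤ) : ℝ)| := by
      exact_mod_cast Int.one_le_abs e2
    rw [e1, abs_mul, abs_of_pos (by positivity : (0 : ℝ) < 2 * (H / N))]
    exact le_mul_of_one_le_right (by positivity) e3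
  set t : ℝ := exp (-(H / M)) / γ ^ n₀ with ht
  have ht0 : 0 < t := by positivity
  have htle : t ≤ exp (-(1 / (2 * M) * H)) := by
    rw [ht, div_le_iff₀ (by positivity)]
    have e1 : (H ^ (M * n₀))⁻¹ ≤ γ ^ n₀ := by
      have e2 : (H ^ (M * n₀))⁻¹ = (H ^ (-M)) ^ n₀ := by
        rw [← Real.rpow_natCast, ← Real.rpow_mul hH0.le, ← Real.rpow_neg hH0.le]
        congr 1
        ring
      rw [e2]
      exact pow_le_pow_left₀ (Real.rpow_nonneg hH0.le _) hγH n₀
    have e3 : exp (-(1 / (2 * M) * H)) ≤ (H ^ (M * n₀))⁻¹ := by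
      rw [Real.exp_neg]
      exact inv_anti₀ (Real.rpow_pos_of_pos hH0 _) h2
    calc exp (-(H / M)) = exp (-(1 / (2 * M) * H)) * exp (-(1 / (2 * M) * H)) := by
          rw [← Real.exp_add]
          congr 1
          field_simp
          ring
      _ ≤ exp (-(1 / (2 * M) * H)) * γ ^ n₀ :=
          mul_le_mul_of_nonneg_left (e3.trans e1) (exp_pos _).le
  have hCt : C * t ≤ 1 := by
    calc C * t ≤ exp (1 / (2 * M) * H) * exp (-(1 / (2 * M) * H)) :=
          mul_le_mul h3 htle ht0.le (exp_pos _).le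
      _ = 1 := by rw [← Real.exp_add, add_neg_cancel, Real.exp_zero]
  obtain ⟨T, hT, hTs⟩ := hcl S f γ t hSne hcard hSl
    (fun l hl => hfZ l (Finset.mem_filter.1 hl).2) hγ0 hγ1 hgap ht0 hCt
  refine ⟨T, hT, fun s hs hsm => ?_⟩
  rw [hEv2 s] at hsm
  have e1 : t * γ ^ n₀ = exp (-(H / M)) := by
    rw [ht, div_mul_cancel₀]
    positivity
  obtain ⟨u, hu, hsu⟩ := hTs s (hs.trans (le_max_left _ _)) (by rw [e1]; exact hsm)
  refine ⟨u, hu, hsu.trans ?_⟩
  have e2 : t ^ κ' ≤ exp (-(κ' / (2 * M) * H)) := by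
    calc t ^ κ' ≤ exp (-(1 / (2 * M) * H)) ^ κ' := Real.rpow_le_rpow ht0.le htle hκ'.le
      _ = exp (-(κ' / (2 * M) * H)) := by
          rw [← Real.exp_mul]
          congr 1
          ring
  calc C * t ^ κ' ≤ exp (κ' / (4 * M) * H) * exp (-(κ' / (2 * M) * H)) :=
        mul_le_mul h4 e2 (Real.rpow_nonneg ht0.le _) (exp_pos _).le
    _ = exp (-(κ' / (4 * M) * H)) := by
        rw [← Real.exp_add]
        congr 1
        field_simp
        ring

end Pool.Agent.L3S
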