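import Mathlib

set_option autoImplicit false

/-! Package T3: exponential sums with separated frequencies are small only on few short intervals. -/

namespace Pool.Agent.L3S

open Real

private theorem aux (n : ℕ) : ∀ (M R : ℝ), ∃ (k : ℕ) (κ C : ℝ), 0 < κ ∧ κ ≤ 1 ∧ 0 < C ∧
    ∀ (S : Finset ℝ) (f : ℝ → ℝ) (δ γ t : ℝ), S.Nonempty → S.card ≤ n → (∀ l ∈ S, |l| ≤ M) →
      0 < δ → (∀ l ∈ S, δ ≤ |f l|) → 0 < γ → γ ≤ 1 →
      (∀ l ∈ S, ∀ l' ∈ S, l ≠ l' → γ ≤ |l - l'|) →
      0 < t → C * t ≤ 1 → ∃ T : Finset ℝ, T.card ≤ k ∧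
        ∀ s, |s| ≤ R → |∑ l ∈ S, f l * exp (l * s)| ≤ t * δ * γ ^ n →
          ∃ u ∈ T, |s - u| ≤ C * t ^ κ := by
  induction n with
  | zero =>
    intro M R
    refine ⟨0, 1, 1, one_pos, le_rfl, one_pos, ?_⟩
    intro S f δ γ t hS hc
    exact absurd (Finset.card_pos.2 hS) (by omega)
  | succ n ih =>
    intro M R
    obtain ⟨k, κ, C, hκ, hκ1, hC, ih⟩ := ih (2 * M) R
    refine ⟨k + (k + 1), κ / 2, C ^ 2 + C + 2 * exp (M * R) + 1, by positivity, by linarith,
      by positivity, ?_⟩
    intro S f δ γ t hS hc hM hδ hf hγ hγ1 hgap ht hCt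
    have hE : 0 < exp (M * R) := exp_pos _
    have ht1 : t ≤ 1 := by
      have : 1 * t ≤ (C ^ 2 + C + 2 * exp (M * R) + 1) * t :=
        mul_le_mul_of_nonneg_right (by nlinarith [sq_nonneg C]) ht.le
      linarith
    have hCt2 : C ^ 2 * t ≤ 1 := by
      have : C ^ 2 * t ≤ (C ^ 2 + C + 2 * exp (M * R) + 1) * t :=
        mul_le_mul_of_nonneg_right (by linarith) ht.le
      linarith
    have hEt : exp (M * R) * t < 1 := by
      have : exp (M * R) * t < (C ^ 2 + C + 2 * exp (M * R) + 1) * t :=
        mul_lt_mul_of_pos_right (by nlinarith [sq_nonneg C]) ht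
      linarith
    have hlow : ∀ l ∈ S, ∀ s : ℝ, |s| ≤ R → |l * s| ≤ M * R := by
      intro l hl s hs
      rw [abs_mul]
      exact mul_le_mul (hM l hl) hs (abs_nonneg _) ((abs_nonneg _).trans (hM l hl))
    obtain ⟨l₀, hl₀⟩ := hS
    by_cases he : (S.erase l₀).Nonempty
    · -- the shifted derivative
      let S' : Finset ℝ := (S.erase l₀).image (fun l => l - l₀)
      let g : ℝ → ℝ := fun x => f (x + l₀) * x
      have hinj : Set.InjOn (fun l : ℝ => l - l₀) (↑(S.erase l₀) : Set ℝ) := by
        intro a _ b _ hab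
        simpa using hab
      have hS'sum : ∀ h : ℝ → ℝ, ∑ x ∈ S', h x = ∑ l ∈ S.erase l₀, h (l - l₀) := fun h =>
        Finset.sum_image hinj
      have hmemS' : ∀ x ∈ S', ∃ l ∈ S, l ≠ l₀ ∧ x = l - l₀ := by
        intro x hx
        obtain ⟨l, hl, rfl⟩ := Finset.mem_image.1 hx
        exact ⟨l, Finset.mem_of_mem_erase hl, Finset.ne_of_mem_erase hl, rfl⟩
      have hst : 0 < √t := Real.sqrt_pos.2 ht
      have hsq : √t * √t = t := Real.mul_self_sqrt ht.le
      obtain ⟨T₁, hT₁, hT⟩ := ih S' g (δ * γ) γ (√t) (he.image _)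
        (by
          refine Finset.card_image_le.trans ?_
          rw [Finset.card_erase_of_mem hl₀]
          omega)
        (by
          intro x hx
          obtain ⟨l, hl, -, rfl⟩ := hmemS' x hx
          calc |l - l₀| ≤ |l| + |l₀| := abs_sub _ _
            _ ≤ M + M := add_le_add (hM l hl) (hM l₀ hl₀)
            _ = 2 * M := by ring)
        (by positivity)
        (by
          intro x hx
          obtain ⟨l, hl, hne, rfl⟩ := hmemS' x hx
          simp only [g, sub_add_cancel, abs_mul]
          exact mul_le_mul (hf l hl) (hgap l hl l₀ hl₀ hne) hγ.le (abs_nonneg _))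
        hγ hγ1
        (by
          intro x hx y hy hxy
          obtain ⟨l, hl, -, rfl⟩ := hmemS' x hx
          obtain ⟨l', hl', -, rfl⟩ := hmemS' y hy
          have hne : l ≠ l' := fun h => hxy (by rw [h])
          have := hgap l hl l' hl' hne
          rwa [show l - l₀ - (l' - l₀) = l - l' by ring])
        hst
        (by
          have h1 : (C * √t) ^ 2 ≤ 1 := by
            rw [mul_pow, sq (√t), hsq]; exact hCt2
          nlinarith [mul_pos hC hst])
      -- the function and its derivative
      let F₁ : ℝ → ℝ := fun s => ∑ l ∈ S, f l * exp ((l - l₀) * s)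
      have hF₁ : ∀ s, F₁ s = exp (-(l₀ * s)) * ∑ l ∈ S, f l * exp (l * s) := by
        intro s
        simp only [F₁, Finset.mul_sum]
        refine Finset.sum_congr rfl fun l _ => ?_
        rw [show (l - l₀) * s = -(l₀ * s) + l * s by ring, exp_add]
        ring
      have hder : ∀ s, HasDerivAt F₁ (∑ x ∈ S', g x * exp (x * s)) s := by
        intro s
        rw [hS'sum]
        have h1 : ∑ l ∈ S.erase l₀, g (l - l₀) * exp ((l - l₀) * s)
            = ∑ l ∈ S, f l * (exp ((l - l₀) * s) * (l - l₀)) := by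
          rw [← Finset.add_sum_erase S _ hl₀]
          simp only [g, sub_add_cancel, sub_self, mul_zero, zero_add]
          refine Finset.sum_congr rfl fun l _ => ?_
          ring
        rw [h1]
        refine HasDerivAt.fun_sum fun l _ => ?_
        have h2 : HasDerivAt (fun x : ℝ => (l - l₀) * x) (l - l₀) s := by
          simpa using (hasDerivAt_id s).const_mul (l - l₀)
        exact (h2.exp).const_mul (f l)
      set ρ : ℝ := C * √t ^ κ with hρ
      have hρ0 : 0 ≤ ρ := by positivity
      have hρt : ρ = C * t ^ (κ / 2) := by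
        rw [hρ, Real.sqrt_eq_rpow, ← Real.rpow_mul ht.le]
        congr 2
        ring
      -- the good points
      let P : ℝ → Prop := fun s => |s| ≤ R ∧
        |∑ l ∈ S, f l * exp (l * s)| ≤ t * δ * γ ^ (n + 1) ∧ ∀ u ∈ T₁, ρ < |s - u|
      have hF₁b : ∀ s, P s → |F₁ s| ≤ exp (M * R) * (t * δ * γ ^ (n + 1)) := by
        intro s hs
        rw [hF₁, abs_mul, abs_of_pos (exp_pos _)]
        refine mul_le_mul (exp_le_exp.2 ?_) hs.2.1 (abs_nonneg _) hE.le
        exact (neg_le_abs _).trans (hlow l₀ hl₀ s hs.1)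
      have key : ∀ s s', P s → P s' → s < s' →
          (T₁.filter (· < s)).card = (T₁.filter (· < s')).card →
          s' - s ≤ 2 * exp (M * R) * √t := by
        intro s s' hs hs' hlt hcard
        have hsub : T₁.filter (· < s) ⊆ T₁.filter (· < s') := by
          intro u hu
          rw [Finset.mem_filter] at hu ⊢
          exact ⟨hu.1, hu.2.trans hlt⟩
        have heq := Finset.eq_of_subset_of_card_le hsub hcard.ge
        have hno : ∀ u ∈ T₁, u < s ∨ s' < u := by
          intro u hu
          rcases lt_trichotomy u s' with h | h | h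
          · left
            have : u ∈ T₁.filter (· < s') := Finset.mem_filter.2 ⟨hu, h⟩
            rw [← heq] at this
            exact (Finset.mem_filter.1 this).2
          · exfalso
            have := hs'.2.2 u hu
            rw [h, sub_self, abs_zero] at this
            linarith
          · exact Or.inr h
        obtain ⟨c, hc, hcd⟩ := exists_hasDerivAt_eq_slope F₁
          (fun s => ∑ x ∈ S', g x * exp (x * s)) hlt
          (fun x _ => (hder x).continuousAt.continuousWithinAt) (fun x _ => hder x)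
        have hcR : |c| ≤ R := by
          rw [abs_le]
          exact ⟨((abs_le.1 hs.1).1).trans hc.1.le, hc.2.le.trans (abs_le.1 hs'.1).2⟩
        have hbig : √t * (δ * γ) * γ ^ n < |∑ x ∈ S', g x * exp (x * c)| := by
          by_contra hcon
          obtain ⟨u, hu, hcu⟩ := hT c hcR (not_lt.1 hcon)
          rcases hno u hu with h | h
          · have h1 := hs.2.2 u hu
            rw [abs_of_pos (by linarith)] at h1
            rw [abs_of_pos (by linarith [hc.1])] at hcu
            linarith [hc.1]
          · have h1 := hs'.2.2 u hu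
            rw [abs_of_neg (by linarith)] at h1
            rw [abs_of_neg (by linarith [hc.2])] at hcu
            linarith [hc.2]
        have hpos : 0 < s' - s := by linarith
        have h1 : |∑ x ∈ S', g x * exp (x * c)| * (s' - s) ≤
            2 * (exp (M * R) * (t * δ * γ ^ (n + 1))) := by
          have h2 : (∑ x ∈ S', g x * exp (x * c)) * (s' - s) = F₁ s' - F₁ s := by
            rw [hcd]
            field_simp
          calc |∑ x ∈ S', g x * exp (x * c)| * (s' - s)
              = |F₁ s' - F₁ s| := by rw [← h2, abs_mul, abs_of_pos hpos]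
            _ ≤ |F₁ s'| + |F₁ s| := abs_sub _ _
            _ ≤ 2 * (exp (M * R) * (t * δ * γ ^ (n + 1))) := by
              linarith [hF₁b s hs, hF₁b s' hs']
        have hA : 0 < δ * γ ^ (n + 1) * √t := by positivity
        have h3 : (δ * γ ^ (n + 1) * √t) * (s' - s) ≤
            (δ * γ ^ (n + 1) * √t) * (2 * exp (M * R) * √t) := by
          calc (δ * γ ^ (n + 1) * √t) * (s' - s) = (√t * (δ * γ) * γ ^ n) * (s' - s) := by ring
            _ ≤ |∑ x ∈ S', g x * exp (x * c)| * (s' - s) :=
              mul_le_mul_of_nonneg_right hbig.le hpos.le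
            _ ≤ 2 * (exp (M * R) * (t * δ * γ ^ (n + 1))) := h1
            _ = (δ * γ ^ (n + 1)) * (2 * exp (M * R)) * t := by ring
            _ = (δ * γ ^ (n + 1)) * (2 * exp (M * R)) * (√t * √t) := by rw [hsq]
            _ = _ := by ring
        exact le_of_mul_le_mul_left h3 hA
      classical
      let pick : ℕ → ℝ := fun j =>
        if h : ∃ s, P s ∧ (T₁.filter (· < s)).card = j then h.choose else 0
      refine ⟨T₁ ∪ (Finset.range (k + 1)).image pick, ?_, ?_⟩
      · refine (Finset.card_union_le _ _).trans (add_le_add hT₁ ?_)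
        exact Finset.card_image_le.trans (by simp)
      · intro s hsR hsF
        have hD : C * t ^ (κ / 2) ≤ (C ^ 2 + C + 2 * exp (M * R) + 1) * t ^ (κ / 2) :=
          mul_le_mul_of_nonneg_right (by nlinarith [sq_nonneg C]) (by positivity)
        by_cases hclose : ∃ u ∈ T₁, |s - u| ≤ ρ
        · obtain ⟨u, hu, hsu⟩ := hclose
          refine ⟨u, Finset.mem_union_left _ hu, ?_⟩
          rw [hρt] at hsu
          exact hsu.trans hD
        · push Not at hclose
          have hPs : P s := ⟨hsR, hsF, hclose⟩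
          have hex : ∃ s', P s' ∧ (T₁.filter (· < s')).card = (T₁.filter (· < s)).card :=
            ⟨s, hPs, rfl⟩
          have hpick : pick (T₁.filter (· < s)).card = hex.choose := dif_pos hex
          have hspec := hex.choose_spec
          rw [← hpick] at hspec
          refine ⟨pick (T₁.filter (· < s)).card, Finset.mem_union_right _
            (Finset.mem_image_of_mem _ (Finset.mem_range.2 ?_)), ?_⟩
          · exact Nat.lt_succ_of_le ((Finset.card_filter_le _ _).trans hT₁)
          · have hb : |s - pick (T₁.filter (· < s)).card| ≤ 2 * exp (M * R) * √t := by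
              rcases lt_trichotomy s (pick (T₁.filter (· < s)).card) with h | h | h
              · rw [abs_of_neg (by linarith)]
                have := key _ _ hPs hspec.1 h hspec.2.symm
                linarith
              · rw [← h, sub_self, abs_zero]
                positivity
              · rw [abs_of_pos (by linarith)]
                exact key _ _ hspec.1 hPs h hspec.2
            refine hb.trans ?_
            have h1 : √t ≤ t ^ (κ / 2) := by
              rw [Real.sqrt_eq_rpow]
              exact Real.rpow_le_rpow_of_exponent_ge ht ht1 (by linarith)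
            exact mul_le_mul (by nlinarith [sq_nonneg C]) h1 (Real.sqrt_nonneg _) (by positivity)
    · -- a single frequency
      refine ⟨∅, by simp, ?_⟩
      intro s hsR hsF
      exfalso
      have hS1 : S = {l₀} := by
        rw [Finset.not_nonempty_iff_eq_empty, Finset.erase_eq_empty_iff] at he
        rcases he with h | h
        · rw [h] at hl₀
          simp at hl₀
        · exact h
      rw [hS1, Finset.sum_singleton, abs_mul, abs_of_pos (exp_pos _)] at hsF
      have h1 : exp (-(M * R)) ≤ exp (l₀ * s) :=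
        exp_le_exp.2 (by linarith [(abs_le.1 (hlow l₀ hl₀ s hsR)).1])
      have h2 : δ * exp (-(M * R)) ≤ |f l₀| * exp (l₀ * s) :=
        mul_le_mul (hf l₀ hl₀) h1 (exp_pos _).le (abs_nonneg _)
      have h3 : γ ^ (n + 1) ≤ 1 := pow_le_one₀ hγ.le hγ1
      have h4 : t * δ * γ ^ (n + 1) ≤ t * δ := by
        have : 0 ≤ t * δ := by positivity
        nlinarith
      have h5 : δ * exp (-(M * R)) ≤ t * δ := h2.trans (hsF.trans h4)
      have h6 : exp (-(M * R)) ≤ t := by
        have : exp (-(M * R)) * δ ≤ t * δ := by linarith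
        exact le_of_mul_le_mul_right this hδ
      have h7 : exp (M * R) * exp (-(M * R)) ≤ exp (M * R) * t :=
        mul_le_mul_of_nonneg_left h6 hE.le
      rw [← exp_add, add_neg_cancel, exp_zero] at h7
      linarith

/-- **Clusters of an exponential sum.**

Proof by induction on the number `m` of frequencies, for all `M`, of: there are `k`, `C` such that
for every `δ > 0`, `γ ∈ (0, 1]`, `S` of cardinality `m ≥ 1` with frequencies `|l| ≤ M`, gaps `≥ γ`,
`|f l| ≥ δ` and `t > 0` with `C t ≤ 1` the set of `|s| ≤ M` with `|F s| ≤ t δ γ ^ (m-1)` lies in at most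
`k` intervals of radius `C t ^ κ`, `κ = 2 ^ (-(m-1))`.
`m = 1`: `|F s| ≥ δ exp (-M²)`: empty for `C > exp M²`. Step: choose `l₀ ∈ S`,
`F₁ s = exp (-l₀ s) F s`, `F₁' = ∑ (l ≠ l₀) f l (l - l₀) exp ((l - l₀) s)` has `m - 1` frequencies
`|l - l₀| ≤ 2 M`, coefficients `≥ δ γ`. Apply the induction hypothesis (with `2 M`) to `F₁'` and
`t₁ = √t`: `|F₁'| ≤ √t δ γ ^ (m-1)` only within `ρ = C √t ^ κ'` of a set `T₁` of `k` points. Let `s < s'`
be two points of the set `E` where `|F| ≤ t δ γ ^ (m-1)`, both not within `ρ` of `T₁` and with no point of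
`T₁` between them: then `|F₁'| > √t δ γ^(m-1)` on `[s, s']` (if `|p - u| ≤ ρ` with `p ∈ [s, s']`,
`u ∈ T₁`, say `u < s`, then `|s - u| ≤ ρ`), so `F₁'` has constant sign there and
`√t δ γ^(m-1) (s' - s) ≤ |F₁ s' - F₁ s| ≤ 2 exp (M²) t δ γ^(m-1)`, `s' - s ≤ 2 exp (M²) √t`.
So `T` = `T₁` and, for each `j ≤ k`, one point of `E`, not within `ρ` of `T₁`, with exactly `j` points
of `T₁` below it (if there is one): `2 k + 1` points. -/
theorem exp_clusters (n : ℕ) (M : ℝ) : ∃ (k : ℕ) (κ C : ℝ), 0 < κ ∧ 0 < C ∧
    ∀ (S : Finset ℝ) (f : ℝ → ℝ) (γ t : ℝ), S.Nonempty → S.card ≤ n → (∀ l ∈ S, |l| ≤ M) →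
      (∀ l ∈ S, 1 ≤ |f l|) → 0 < γ → γ ≤ 1 → (∀ l ∈ S, ∀ l' ∈ S, l ≠ l' → γ ≤ |l - l'|) →
      0 < t → C * t ≤ 1 → ∃ T : Finset ℝ, T.card ≤ k ∧
        ∀ s, |s| ≤ M → |∑ l ∈ S, f l * exp (l * s)| ≤ t * γ ^ n → ∃ u ∈ T, |s - u| ≤ C * t ^ κ := by
  obtain ⟨k, κ, C, hκ, -, hC, h⟩ := aux n M M
  refine ⟨k, κ, C, hκ, hC, ?_⟩
  intro S f γ t hS hc hM hf hγ hγ1 hgap ht hCt
  obtain ⟨T, hT, hT'⟩ := h S f 1 γ t hS hc hM one_pos hf hγ hγ1 hgap ht hCt
  refine ⟨T, hT, fun s hs hF => hT' s hs ?_⟩
  rwa [mul_one]

end Pool.Agent.L3S
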