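import Pool.Agent.L3S.PosDefs

set_option autoImplicit false

/-! Package V2: finitely many positive-dimensional maximal atypical subvarieties. -/

namespace Pool.Agent.L3S

open MvPolynomial Pool.Agent.LThree Pool.Agent.CITLines

/-- The exponent vector in the coordinates of the torus. -/
private def tr (u : Fin 3 ⊕ Fin 3 → ℤ) : Fin (3 + 3) → ℤ := fun i => u (finSumFinEquiv.symm i)

private theorem wp_equiv {F : Type} [Field F] (x : Fin 3 → F) (s : Fin 3 ⊕ Fin 3) :
    wp x (finSumFinEquiv s) = co x s := by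
  rcases s with s | s
  · simp only [finSumFinEquiv_apply_left, wp, co, Sum.elim_inl]
    exact Fin.append_left _ _ _
  · simp only [finSumFinEquiv_apply_right, wp, co, Sum.elim_inr]
    exact Fin.append_right _ _ _

private theorem mon_tr {F : Type} [Field F] (x : Fin 3 → F) (u : Fin 3 ⊕ Fin 3 → ℤ) :
    mon (wp x) (tr u) = mono (co x) u := by
  unfold mon mono
  rw [← finSumFinEquiv.prod_comp]
  refine Finset.prod_congr rfl fun s _ => ?_
  rw [wp_equiv, tr, Equiv.symm_apply_apply]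

private theorem wp_ne {F : Type} [Field F] (x : Fin 3 → F) (h0 : ∀ i, x i ≠ 0)
    (h1 : ∀ i, x i ≠ 1) (i : Fin (3 + 3)) : wp x i ≠ 0 := by
  obtain ⟨s, rfl⟩ := finSumFinEquiv.surjective i
  rw [wp_equiv]
  rcases s with s | s
  · exact h0 s
  · exact sub_ne_zero.mpr (h1 s).symm

private theorem binom_iff {F : Type} [Field F] [Algebra ℂ F] (x : Fin 3 → F) (h0 : ∀ i, x i ≠ 0)
    (h1 : ∀ i, x i ≠ 1) (u : Fin 3 ⊕ Fin 3 → ℤ) :
    binom ℂ (tr u) 1 ∈ kr ℂ (wp x) ↔ mono (co x) u = 1 := by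
  rw [binom_mem_kr (wp_ne x h0 h1), mon_tr, map_one]

/-- The surfaces among the atypical subvarieties: `transTwoS` for the generic point. -/
theorem surface_spec (q : Ideal (MvPolynomial (Fin (3 + 3)) ℂ)) (hq : At q) (h2 : 2 ≤ dm q)
    {F : Type} [Field F] [Algebra ℂ F] (x : Fin 3 → F) (h0 : ∀ i, x i ≠ 0) (h1 : ∀ i, x i ≠ 1)
    (hx : q = kr ℂ (wp x)) : Spec x := by
  have hc : CharZero F := charZero_of_injective_algebraMap (algebraMap ℂ F).injective
  have hpos := hq.2.2
  have hle := (dm_wp_le (F := F) x).1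
  have h3 := (dm_wp_le (F := F) x).2
  obtain ⟨i, j, hij⟩ := (two_le_dm_iff x).mp (hx ▸ h2)
  have hij' : AlgebraicIndependent ℚ ![x i, x j] :=
    hij.restrictScalars (algebraMap ℚ ℂ).injective
  rcases Nat.lt_or_ge (dm q) 3 with hlt | hge
  · have hr : 2 ≤ rhoP (kr ℂ (wp x)) := by
      rw [← hx]
      omega
    obtain ⟨u, hu, hrel⟩ := exists_of_rhoP x h0 h1 2 hr
    have hu' : LinearIndependent ℤ ![u 0, u 1] := by
      have : ![u 0, u 1] = u := by
        funext t
        fin_cases t <;> rfl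
      rw [this]
      exact hu
    exact transTwoS F x h0 h1 ⟨i, j, hij'⟩ (u 0) (u 1) hu' (hrel 0) (hrel 1)
  · exfalso
    have hind : AlgebraicIndependent ℚ x :=
      (h3 (hx ▸ hge)).restrictScalars (algebraMap ℚ ℂ).injective
    have hr : 1 ≤ rhoP (kr ℂ (wp x)) := by
      rw [← hx]
      rw [← hx] at hle
      omega
    obtain ⟨u, hu, hrel⟩ := exists_of_rhoP x h0 h1 1 hr
    exact hu.ne_zero 0 (LThreeC.three x h0 h1 hind (u 0) (hrel 0))

/-- Every positive-dimensional atypical subvariety has two bounded relations. -/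
private theorem key : ∃ B : ℕ, ∀ q : Ideal (MvPolynomial (Fin (3 + 3)) ℂ), At q → 1 ≤ dm q →
    ∃ u v : Fin 3 ⊕ Fin 3 → ℤ, LinearIndependent ℤ ![u, v] ∧ nrm u ≤ B ∧ nrm v ≤ B ∧
      binom ℂ (tr u) 1 ∈ q ∧ binom ℂ (tr v) 1 ∈ q := by
  obtain ⟨B, hB⟩ := transThreeS
  refine ⟨max B 6, fun q hq h1q => ?_⟩
  obtain ⟨F, fF, aF, x, h0, h1, hx⟩ := exists_generic q hq.1 hq.2.1
  have hc : CharZero F := charZero_of_injective_algebraMap (algebraMap ℂ F).injective
  have htwo : Two (max B 6) x := by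
    rcases Nat.lt_or_ge (dm q) 2 with hlt | hge
    · have hpos := hq.2.2
      have hr : 3 ≤ rhoP (kr ℂ (wp x)) := by
        rw [← hx]
        omega
      have hrel := exists_of_rhoP x h0 h1 3 hr
      have htr : ¬ ∀ i, IsAlgebraic ℚ (x i) := by
        obtain ⟨i, hi⟩ := (one_le_dm_iff x).mp (hx ▸ h1q)
        intro hall
        exact hi ((hall i).tower_top ℂ)
      exact (hB F x h0 h1 htr hrel).mono_le (le_max_left _ _)
    · exact (two_of_spec x h0 h1 (surface_spec q hq hge x h0 h1 hx)).mono_le (le_max_right _ _)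
  obtain ⟨u, v, hli, hu, hv, hu1, hv1⟩ := htwo
  refine ⟨u, v, hli, hu, hv, ?_, ?_⟩
  · rw [hx, binom_iff x h0 h1]
    exact hu1
  · rw [hx, binom_iff x h0 h1]
    exact hv1

/-- **The positive-dimensional part.**

Proof. Let `B` be from `transThreeS`, `B' = max B 6`. For two vectors `u, v` in the box of size `B'` let
`I (u, v)` be the ideal generated by `LI 3` and the two binomials of `u, v` (`binom ℂ _ 1`, vectors
transported by `finSumFinEquiv`). `Y` = the minimal primes `p` of all `I (u, v)`, `u, v` independent, with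
`At p` and `1 ≤ dm p` (a finite set: `Ideal.finite_minimalPrimes_of_isNoetherianRing`, filter). Let `q` be
`At` with `1 ≤ dm q`; `q = kr ℂ (wp x)` (`exists_generic`).
* `dm q = 1`: `rhoP q ≥ 3`, so `x` has three independent exact relations (`exists_of_rhoP`) and a
  transcendental coordinate (`one_le_dm_iff`; transcendental over `ℂ`, so over `ℚ`): `transThreeS` gives
  `Two B x`.
* `dm q = 2`: `rhoP q ≥ 2`; `two_le_dm_iff`, `transTwoS`, `two_of_spec`: `Two 6 x`.
* `dm q = 3`: `rhoP q ≥ 1`: a nonzero relation contradicts `LThreeC.three` (algebraically independent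
  over `ℂ`, so over `ℚ`).
So `q ≥ I (u, v)` for two independent `u, v` in the box, and there is a minimal prime `p ≤ q` of it
(`Ideal.exists_minimalPrimes_le`). `TP p` (`TP.mono`), `LI 3 ≤ p`, `rhoP p ≥ 2` (`p` is also some
`kr ℂ (wp y)` with `exists_generic`; `le_rhoP`), `dm p ≥ dm q ≥ 1`. If `dm p ≥ 2` then `At p`. If `dm p = 1` then
`dm q = 1` and `p = q` (`dm_strictAnti`). In both cases `p ∈ Y`. -/
theorem fin_pos : ∃ Y : Finset (Ideal (MvPolynomial (Fin (3 + 3)) ℂ)),
    (∀ y ∈ Y, At y ∧ 1 ≤ dm y) ∧ ∀ q, At q → 1 ≤ dm q → ∃ y ∈ Y, y ≤ q := by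
  classical
  obtain ⟨B, hB⟩ := key
  let box : Finset (Fin 3 ⊕ Fin 3 → ℤ) := Fintype.piFinset fun _ => Finset.Icc (-(B : ℤ)) B
  have hbox : ∀ u : Fin 3 ⊕ Fin 3 → ℤ, nrm u ≤ B → u ∈ box := by
    intro u hu
    refine Fintype.mem_piFinset.mpr fun i => ?_
    have h1 : (u i).natAbs ≤ B :=
      (Finset.le_sup (f := fun i => (u i).natAbs) (Finset.mem_univ i)).trans hu
    rw [Finset.mem_Icc]
    omega
  let I : (Fin 3 ⊕ Fin 3 → ℤ) × (Fin 3 ⊕ Fin 3 → ℤ) → Ideal (MvPolynomial (Fin (3 + 3)) ℂ) :=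
    fun uv => LI 3 ⊔ Ideal.span {binom ℂ (tr uv.1) 1, binom ℂ (tr uv.2) 1}
  have hfin : ∀ uv, (I uv).minimalPrimes.Finite := fun uv =>
    Ideal.finite_minimalPrimes_of_isNoetherianRing _ _
  let Y : Finset (Ideal (MvPolynomial (Fin (3 + 3)) ℂ)) :=
    ((box ×ˢ box).biUnion fun uv => (hfin uv).toFinset).filter fun p => At p ∧ 1 ≤ dm p
  refine ⟨Y, fun y hy => (Finset.mem_filter.mp hy).2, fun q hq h1q => ?_⟩
  obtain ⟨u, v, hli, hu, hv, hu1, hv1⟩ := hB q hq h1q
  have hIq : I (u, v) ≤ q := by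
    refine sup_le hq.2.1 ?_
    rw [Ideal.span_le]
    rintro f (rfl | hf)
    · exact hu1
    · rw [Set.mem_singleton_iff] at hf
      rw [hf]
      exact hv1
  have hqp : q.IsPrime := hq.1.prime
  obtain ⟨p, hp, hpq⟩ := Ideal.exists_minimalPrimes_le hIq
  have hpp : p.IsPrime := hp.isPrime
  have hTp : TP p := hq.1.mono hpp hpq
  have hLp : LI 3 ≤ p := le_sup_left.trans hp.le
  have hIp : ∀ w ∈ ({binom ℂ (tr u) 1, binom ℂ (tr v) 1} :
      Set (MvPolynomial (Fin (3 + 3)) ℂ)), w ∈ p := fun w hw =>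
    hp.le (Ideal.mem_sup_right (Ideal.subset_span hw))
  have hrho : 2 ≤ rhoP p := by
    obtain ⟨F, fF, aF, y, h0, h1, hy⟩ := exists_generic p hTp hLp
    have := le_rhoP y h0 h1 2 ![u, v] hli (by
      intro t
      fin_cases t
      · change mono (co y) u = 1
        rw [← binom_iff y h0 h1, ← hy]
        exact hIp _ (by simp)
      · change mono (co y) v = 1
        rw [← binom_iff y h0 h1, ← hy]
        exact hIp _ (by simp))
    rwa [← hy] at this
  have hdm : dm q ≤ dm p := dm_anti hpq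
  have hAt : At p := by
    rcases Nat.lt_or_ge (dm p) 2 with hlt | hge
    · have hpq' : p = q := by
        by_contra hne
        have := dm_strictAnti (lt_of_le_of_ne hpq hne)
        omega
      rw [hpq']
      exact hq
    · exact ⟨hTp, hLp, by omega⟩
  refine ⟨p, ?_, hpq⟩
  refine Finset.mem_filter.mpr ⟨?_, hAt, h1q.trans hdm⟩
  refine Finset.mem_biUnion.mpr ⟨(u, v), Finset.mem_product.mpr ⟨hbox u hu, hbox v hv⟩, ?_⟩
  exact (hfin (u, v)).mem_toFinset.mpr hp

end Pool.Agent.L3S
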