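import Pool.Agent.CITLines.Spread

set_option autoImplicit false

/-! Package V3: spreading out from a smaller rational prime. -/

namespace Pool.Agent.L3S

open MvPolynomial Pool.Agent.CITLines

attribute [local instance] MvPolynomial.algebraMvPolynomial in
/-- **Spreading out.** Going down for the flat extension `ℚ[X] → ℂ[X]`
(`MvPolynomial.algebraMvPolynomial`; `Algebra.IsPushout ℚ (MvPolynomial ι ℚ) ℂ (MvPolynomial ι ℂ)` is an
instance, flatness by base change; `Algebra.HasGoingDown.of_flat`, `Ideal.exists_ideal_le_liesOver_of_le`)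
gives a prime `q0 ≤ p` with `IQ q0 = p0`; then `exists_spread` for `q0`. -/
theorem exists_spread_of_le {ι : Type} [Fintype ι] (p : Ideal (MvPolynomial ι ℂ)) [p.IsPrime]
    (p0 : Ideal (MvPolynomial ι ℚ)) [p0.IsPrime] (h : p0 ≤ IQ p) :
    ∃ q : Ideal (MvPolynomial ι ℂ), q.IsPrime ∧ q ≤ p ∧ IQ q = p0 ∧ dm p0 ≤ dm q := by
  have hflat : Module.Flat (MvPolynomial ι ℚ) (MvPolynomial ι ℂ) := by
    have hp : Algebra.IsPushout ℚ (MvPolynomial ι ℚ) ℂ (MvPolynomial ι ℂ) := inferInstance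
    exact Module.Flat.isBaseChange ℚ (MvPolynomial ι ℚ) ℂ (MvPolynomial ι ℂ) hp.out
  have hgd : Algebra.HasGoingDown (MvPolynomial ι ℚ) (MvPolynomial ι ℂ) := inferInstance
  have hlo : p.LiesOver (IQ p) := ⟨rfl⟩
  obtain ⟨q0, hq0p, hq0, hq0l⟩ := p.exists_ideal_le_liesOver_of_le (p := p0) (q := IQ p) h
  have hIQ : IQ q0 = p0 := hq0l.over.symm
  obtain ⟨⟨q, hq, hqq, hqI, hqd⟩, -⟩ := exists_spread q0
  refine ⟨q, hq, hqq.trans hq0p, hqI.trans hIQ, ?_⟩
  rw [hIQ] at hqd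
  exact hqd

end Pool.Agent.L3S
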