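import Pool.Agent.L3S.PosDefs
import Pool.Agent.L3S.Spread2
import Pool.Agent.LThree.FieldThm

set_option autoImplicit false

/-! Package V4: points on positive-dimensional atypical subvarieties. -/

namespace Pool.Agent.L3S

open MvPolynomial Pool.Agent.LThree Pool.Agent.CITLines

/-- `wp ξ` as the image of a rational point of the polynomial ring -/
private theorem pp_aeval_wp {Ω : Type} [Field Ω] [Algebra ℚ Ω] (ξ : Fin 3 → Ω)
    (f : MvPolynomial (Fin (3 + 3)) ℚ) :
    aeval ξ (aeval (Fin.append (X : Fin 3 → MvPolynomial (Fin 3) ℚ) fun i => 1 - X i) f) =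
      aeval (wp ξ) f := by
  have h : ((aeval ξ : MvPolynomial (Fin 3) ℚ →ₐ[ℚ] Ω).comp
      (aeval (Fin.append (X : Fin 3 → MvPolynomial (Fin 3) ℚ) fun i => 1 - X i))) =
      (aeval (wp ξ) : MvPolynomial (Fin (3 + 3)) ℚ →ₐ[ℚ] Ω) := by
    ext i
    rw [AlgHom.comp_apply, aeval_X, aeval_X]
    refine Fin.addCases (fun j => ?_) (fun j => ?_) i
    · rw [Fin.append_left, aeval_X, wp, Fin.append_left]
    · rw [Fin.append_right, map_sub, map_one, aeval_X, wp, Fin.append_right]
  rw [← h, AlgHom.comp_apply]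

private theorem pp_aeval_rename {Ω : Type} [Field Ω] [Algebra ℚ Ω] (ξ : Fin 3 → Ω)
    (g : MvPolynomial (Fin 3) ℚ) : aeval (wp ξ) (rename (Fin.castAdd 3) g) = aeval ξ g := by
  rw [aeval_rename]
  congr 1
  congr 1
  funext i
  rw [Function.comp_apply, wp, Fin.append_left]

/-- the core: a prime below the point with the rational polynomials of `ξ` -/
private theorem pp_core (P : Fin 3 → ℂ) (h0 : ∀ i, P i ≠ 0) (h1 : ∀ i, P i ≠ 1)
    (q : Ideal (MvPolynomial (Fin (3 + 3)) ℂ)) (hq : q.IsPrime) (hqP : q ≤ kr ℂ (wp P)) {Ω : Type}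
    [Field Ω] [Algebra ℚ Ω] (ξ : Fin 3 → Ω) (hξ : ∀ i, ξ i ≠ 0 ∧ ξ i ≠ 1)
    (hIQ : IQ q = kr ℚ (wp ξ)) (n : ℕ)
    (u : Fin n → (Fin 3 ⊕ Fin 3 → ℤ)) (hu : LinearIndependent ℤ u)
    (hrel : ∀ t, mono (co ξ) (u t) = 1) (hn : 3 < dm q + n) : At q := by
  have hTP : TP q := (wp_props P h0 h1).1.mono hq hqP
  have hLI : LI 3 ≤ q := by
    unfold LI
    rw [Ideal.span_le]
    rintro _ ⟨j, rfl⟩
    have h2 : (X (Fin.castAdd 3 j) + X (Fin.natAdd 3 j) - 1 : MvPolynomial (Fin (3 + 3)) ℚ) ∈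
        IQ q := by
      rw [hIQ, mem_kr, map_sub, map_add, aeval_X, aeval_X, map_one, wp, Fin.append_left,
        Fin.append_right]
      ring
    rw [mem_IQ] at h2
    simpa using h2
  refine ⟨hTP, hLI, ?_⟩
  obtain ⟨F, iF, iA, x, hx0, hx1, hqx⟩ := exists_generic q hTP hLI
  have hch : CharZero F := charZero_of_injective_algebraMap (algebraMap ℂ F).injective
  have hst : IsScalarTower ℚ ℂ F := IsScalarTower.of_algebraMap_eq fun r => by
    rw [eq_ratCast, eq_ratCast, map_ratCast]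
  have hkr : kr ℚ (wp x) = kr ℚ (wp ξ) := by
    rw [← IQ_eq_kr, ← hqx, hIQ]
  have hr : ∀ t, mono (co x) (u t) = 1 := by
    intro t
    rw [← aeval_relPoly x (fun i => ⟨hx0 i, hx1 i⟩), ← pp_aeval_rename, ← mem_kr, hkr, mem_kr,
      pp_aeval_rename, aeval_relPoly ξ hξ]
    exact hrel t
  have h3 := le_rhoP x hx0 hx1 n u hu hr
  rw [← hqx] at h3
  omega

/-- **A rational specialisation of a nonconstant point with many relations.**

Proof. `p0 = kr ℚ (wp ξ) = IQ (kr ℂ (wp ξ))` (`IQ_eq_kr`; the `ℚ`-algebra structure of `Ω` from `ℂ`) is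
contained in `IQ (kr ℂ (wp P)) = kr ℚ (wp P)`: if `aeval (wp ξ) f = 0` substitute
`X (castAdd i) = X i`, `X (natAdd i) = 1 - X i` to get `g : MvPolynomial (Fin 3) ℚ` with `aeval ξ g = 0`, so
`aeval P g = 0 = aeval (wp P) f`. `exists_spread_of_le` gives `q ≤ kr ℂ (wp P)` prime with `IQ q = p0`,
`dm q ≥ dm p0 ≥ dm (kr ℂ (wp ξ))` (`dm_le_dm_IQ`). `q` contains `LI 3` and the binomials
`binom ℂ (u t) 1` (transported), as these are images of rational polynomials in `p0`; `TP q` by `TP.mono`. So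
`rhoP q ≥ n` (`exists_generic`, `le_rhoP`), `At q`. -/
theorem pos_of_generic (P : Fin 3 → ℂ) (h0 : ∀ i, P i ≠ 0) (h1 : ∀ i, P i ≠ 1) {Ω : Type}
    [Field Ω] [Algebra ℂ Ω] [Algebra ℚ Ω] (ξ : Fin 3 → Ω) (n : ℕ)
    (u : Fin n → (Fin 3 ⊕ Fin 3 → ℤ)) (hu : LinearIndependent ℤ u)
    (hrel : ∀ t, mono (co ξ) (u t) = 1) (hd : 1 ≤ dm (kr ℂ (wp ξ)))
    (hn : 3 < dm (kr ℂ (wp ξ)) + n)
    (hs : ∀ p : MvPolynomial (Fin 3) ℚ, aeval ξ p = 0 → aeval P p = 0) :
    ∃ q, At q ∧ 1 ≤ dm q ∧ q ≤ kr ℂ (wp P) := by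
  have hst : IsScalarTower ℚ ℂ Ω := IsScalarTower.of_algebraMap_eq fun r => by
    rw [eq_ratCast, eq_ratCast, map_ratCast]
  have hξ : ∀ i, ξ i ≠ 0 ∧ ξ i ≠ 1 := by
    intro i
    refine ⟨fun h => h0 i ?_, fun h => h1 i ?_⟩
    · have := hs (X i) (by rw [aeval_X, h])
      rwa [aeval_X] at this
    · have := hs (X i - 1) (by rw [map_sub, aeval_X, h, map_one, sub_self])
      rw [map_sub, aeval_X, map_one] at this
      exact sub_eq_zero.1 this
  have hle : kr ℚ (wp ξ) ≤ IQ (kr ℂ (wp P)) := by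
    rw [IQ_eq_kr]
    intro f hf
    rw [mem_kr, ← pp_aeval_wp] at hf ⊢
    exact hs _ hf
  obtain ⟨q, hq, hqP, hIQ, hdm⟩ := exists_spread_of_le (kr ℂ (wp P)) (kr ℚ (wp ξ)) hle
  have h2 := dm_le_dm_IQ (kr ℂ (wp ξ))
  rw [IQ_eq_kr] at h2
  exact ⟨q, pp_core P h0 h1 q hq hqP ξ hξ hIQ n u hu hrel (by omega), by omega, hqP⟩

/-- integer vectors as rational vectors -/
private def pp_toQ (ι : Type) : (ι → ℤ) →ₗ[ℤ] (ι → ℚ) where
  toFun a i := (a i : ℚ)
  map_add' a b := by
    funext i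
    simp
  map_smul' c a := by
    funext i
    simp

private theorem pp_mono_smul {F : Type} [Field F] {ι : Type} [Fintype ι] (z : ι → F) (m : ℕ)
    (a : ι → ℤ) : mono z (m • a) = mono z a ^ m := by
  unfold mono
  rw [← Finset.prod_pow]
  apply Finset.prod_congr rfl
  intro i _
  rw [← zpow_natCast, ← zpow_mul]
  congr 1
  simp [mul_comm]

private theorem pp_clear_den {κ : Type} [Finite κ] (v : κ → ℚ) :
    ∃ N : ℕ, 0 < N ∧ ∃ a : κ → ℤ, ∀ i, (a i : ℚ) = N * v i := by
  obtain ⟨b, hb⟩ := IsLocalization.exist_integer_multiples_of_finite (nonZeroDivisors ℤ) v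
  choose a ha using hb
  have hb0 : (b : ℤ) ≠ 0 := nonZeroDivisors.coe_ne_zero b
  refine ⟨(b : ℤ).natAbs, Int.natAbs_pos.2 hb0, fun i => Int.sign (b : ℤ) * a i, fun i => ?_⟩
  have h1 : ((a i : ℤ) : ℚ) = (b : ℤ) * v i := by
    have h2 := ha i
    rw [Algebra.smul_def] at h2
    exact_mod_cast h2
  rw [Int.cast_mul, h1, ← mul_assoc, ← Int.cast_mul, Int.sign_mul_self_eq_natAbs,
    Int.cast_natCast]

/-- independent relations (as the private `exists_rel` of `LThree/FieldThm.lean`) -/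
private theorem pp_exists_rel {F : Type} [Field F] {ι : Type} [Fintype ι] {z : ι → F} {k : ℕ}
    (h : RankLe k z) (n : ℕ) (hn : n + k ≤ Fintype.card ι) :
    ∃ u : Fin n → ι → ℤ, LinearIndependent ℤ u ∧ ∀ j, mono z (u j) = 1 := by
  classical
  obtain ⟨U, hU, hz⟩ := h
  have hnU : n ≤ Module.finrank ℚ U := by omega
  let b := Module.finBasis ℚ U
  let v : Fin n → ι → ℚ := fun j => (b (Fin.castLE hnU j) : ι → ℚ)
  have hv : LinearIndependent ℚ v := by
    have h1 : LinearIndependent ℚ fun j => (b j : ι → ℚ) :=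
      b.linearIndependent.map' U.subtype (Submodule.ker_subtype U)
    exact h1.comp _ (Fin.castLE_injective hnU)
  choose N hN a ha using fun j => pp_clear_den (v j)
  have haU : ∀ j, (fun i => (a j i : ℚ)) ∈ U := by
    intro j
    have h1 : (fun i => (a j i : ℚ)) = (N j : ℚ) • v j := by
      funext i
      rw [ha j i]
      rfl
    rw [h1]
    exact Submodule.smul_mem _ _ (b (Fin.castLE hnU j)).2
  choose m hm hmz using fun j => hz (a j) (haU j)
  refine ⟨fun j => m j • a j, ?_, fun j => ?_⟩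
  · have h1 : LinearIndependent ℚ fun j => pp_toQ ι (m j • a j) := by
      have h2 : ∀ j, ((m j * N j : ℕ) : ℚ) ≠ 0 := fun j =>
        Nat.cast_ne_zero.2 (Nat.mul_pos (hm j) (hN j)).ne'
      have h3 := hv.units_smul fun j => Units.mk0 ((m j * N j : ℕ) : ℚ) (h2 j)
      convert h3 using 1
      funext j i
      change ((m j • a j) i : ℤ) = ((m j * N j : ℕ) : ℚ) * v j i
      rw [Pi.smul_apply, nsmul_eq_mul]
      push_cast
      rw [ha j i]
      ring
    rw [← LinearIndependent.iff_fractionRing (R := ℤ) (K := ℚ)] at h1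
    exact LinearIndependent.of_comp (pp_toQ ι) h1
  · change mono z (m j • a j) = 1
    rw [pp_mono_smul]
    exact hmz j

/-- **Transcendental points**: `exists_spread` for `kr ℂ (wp P)`: `IQ` has dimension the transcendence
degree of `P` over `ℚ`, at least one; the four independent exact relations of `P` (from `RankLe 2`;
`exists_rel` in `LThree/FieldThm.lean` is private, copy it) are rational binomials. -/
theorem pos_of_trans (P : Fin 3 → ℂ) (h0 : ∀ i, P i ≠ 0) (h1 : ∀ i, P i ≠ 1)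
    (ht : ¬ ∀ i, IsAlgebraic ℚ (P i)) (hr : RankLe 2 (co P)) :
    ∃ q, At q ∧ 1 ≤ dm q ∧ q ≤ kr ℂ (wp P) := by
  obtain ⟨u, hu, hu1⟩ := pp_exists_rel hr 4 (by simp)
  obtain ⟨⟨q, hq, hqP, hIQ, hdm⟩, _⟩ := exists_spread (kr ℂ (wp P))
  rw [IQ_eq_kr] at hIQ hdm
  push Not at ht
  obtain ⟨i, hi⟩ := ht
  have h2 : 1 ≤ dm (kr ℚ (wp P)) := by
    have h3 := dm_kr (k := ℚ) (wp P)
    have h4 : rk ℚ (Set.range fun _ : Unit => P i) ≤ rk ℚ (Set.range (wp P)) := by
      refine rk_mono ?_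
      rintro _ ⟨_, rfl⟩
      exact ⟨Fin.castAdd 3 i, by rw [wp, Fin.append_left]⟩
    have h5 : AlgebraicIndependent ℚ fun _ : Unit => P i :=
      algebraicIndependent_unique_type_iff.2 hi
    rw [rk_range_of_indep _ h5, ← h3] at h4
    exact_mod_cast h4
  exact ⟨q, pp_core P h0 h1 q hq hqP P (fun i => ⟨h0 i, h1 i⟩) hIQ 4 u hu hu1 (by omega),
    by omega, hqP⟩

/-- The field of the two parameters. -/
private abbrev PpΩ : Type := FractionRing (MvPolynomial (Fin 2) ℂ)

/-- A point over the field of the parameters. -/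
private noncomputable def pp_pt (num den : Fin 3 → MvPolynomial (Fin 2) ℂ) (l : Fin 3) : PpΩ :=
  algebraMap (MvPolynomial (Fin 2) ℂ) PpΩ (num l) / algebraMap (MvPolynomial (Fin 2) ℂ) PpΩ (den l)

private theorem pp_spec (a : Fin 2 → ℂ) (num den : Fin 3 → MvPolynomial (Fin 2) ℂ) (P : Fin 3 → ℂ)
    (hden : ∀ l, eval a (den l) ≠ 0) (hP : ∀ l, eval a (num l) = eval a (den l) * P l)
    [Algebra ℚ PpΩ]
    (p : MvPolynomial (Fin 3) ℚ) (hp : aeval (pp_pt num den) p = 0) : aeval P p = 0 := by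
  classical
  set φ : MvPolynomial (Fin 2) ℂ →+* ℂ := eval a with hφ
  have hpr : (RingHom.ker φ).IsPrime := RingHom.ker_isPrime φ
  set M := (RingHom.ker φ).primeCompl with hM
  let L := Localization.AtPrime (RingHom.ker φ)
  have hM0 : M ≤ nonZeroDivisors (MvPolynomial (Fin 2) ℂ) := by
    intro x hx
    rw [mem_nonZeroDivisors_iff_ne_zero]
    rintro rfl
    exact hx (map_zero φ)
  have hg1 : ∀ y : M, IsUnit (algebraMap (MvPolynomial (Fin 2) ℂ) PpΩ y) := by
    intro y
    rw [isUnit_iff_ne_zero]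
    intro h
    have h2 : (y : MvPolynomial (Fin 2) ℂ) = 0 :=
      (FaithfulSMul.algebraMap_eq_zero_iff _ _).1 h
    exact nonZeroDivisors.ne_zero (hM0 y.2) h2
  have hg2 : ∀ y : M, IsUnit (φ y) := fun y => isUnit_iff_ne_zero.2 y.2
  let f1 : L →+* PpΩ := IsLocalization.lift (M := M) hg1
  let f2 : L →+* ℂ := IsLocalization.lift (M := M) hg2
  have hf1 : Function.Injective f1 := by
    rw [IsLocalization.lift_injective_iff]
    intro x y
    rw [(IsLocalization.injective L hM0).eq_iff,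
      (FaithfulSMul.algebraMap_injective (MvPolynomial (Fin 2) ℂ) PpΩ).eq_iff]
  let η : Fin 3 → L := fun l => IsLocalization.mk' L (num l) (⟨den l, hden l⟩ : M)
  have hη1 : ∀ l, f1 (η l) = pp_pt num den l := by
    intro l
    have hne : algebraMap (MvPolynomial (Fin 2) ℂ) PpΩ (den l) ≠ 0 :=
      (hg1 ⟨den l, hden l⟩).ne_zero
    refine (IsLocalization.lift_mk'_spec (g := algebraMap (MvPolynomial (Fin 2) ℂ) PpΩ)
      (hg := hg1) _ _ _).2 ?_
    rw [pp_pt, mul_div_cancel₀]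
    exact hne
  have hη2 : ∀ l, f2 (η l) = P l := by
    intro l
    refine (IsLocalization.lift_mk'_spec (g := φ) (hg := hg2) _ _ _).2 ?_
    exact hP l
  let c : ℚ →+* L := (algebraMap (MvPolynomial (Fin 2) ℂ) L).comp
    (algebraMap ℚ (MvPolynomial (Fin 2) ℂ))
  have h1 : f1 (eval₂ c η p) = 0 := by
    rw [← hp, MvPolynomial.hom_eval₂, aeval_def]
    congr 1
    · exact Subsingleton.elim _ _
    · funext l
      exact hη1 l
  have h2 : eval₂ c η p = 0 := hf1 (by rw [h1, map_zero])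
  have h3 : f2 (eval₂ c η p) = 0 := by rw [h2, map_zero]
  rw [MvPolynomial.hom_eval₂] at h3
  rw [← h3, aeval_def]
  congr 1
  · exact Subsingleton.elim _ _
  · funext l
    exact (hη2 l).symm

private theorem pp_indep : AlgebraicIndependent ℂ
    (fun i : Fin 2 => algebraMap (MvPolynomial (Fin 2) ℂ) PpΩ (X i)) := by
  have h := (algebraicIndependent_X (Fin 2) ℂ).map' (f := IsScalarTower.toAlgHom ℂ
    (MvPolynomial (Fin 2) ℂ) PpΩ) (FaithfulSMul.algebraMap_injective _ _)
  exact h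

private theorem pp_spec_ne (a : Fin 2 → ℂ) (num den : Fin 3 → MvPolynomial (Fin 2) ℂ)
    (P : Fin 3 → ℂ) (h0 : ∀ i, P i ≠ 0) (h1 : ∀ i, P i ≠ 1)
    (hden : ∀ l, eval a (den l) ≠ 0) (hP : ∀ l, eval a (num l) = eval a (den l) * P l) (i : Fin 3) :
    pp_pt num den i ≠ 0 ∧ pp_pt num den i ≠ 1 := by
  refine ⟨fun h => h0 i ?_, fun h => h1 i ?_⟩
  · have := pp_spec a num den P hden hP (X i) (by rw [aeval_X, h])
    rwa [aeval_X] at this
  · have := pp_spec a num den P hden hP (X i - 1) (by rw [map_sub, aeval_X, h, map_one, sub_self])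
    rw [map_sub, aeval_X, map_one] at this
    exact sub_eq_zero.1 this

private theorem pp_of_spec (P : Fin 3 → ℂ) (h0 : ∀ i, P i ≠ 0) (h1 : ∀ i, P i ≠ 1) (a : Fin 2 → ℂ)
    (num den : Fin 3 → MvPolynomial (Fin 2) ℂ) (hden : ∀ l, eval a (den l) ≠ 0)
    (hP : ∀ l, eval a (num l) = eval a (den l) * P l) (hS : Spec (pp_pt num den)) (j k : Fin 3)
    (hj : pp_pt num den j = algebraMap (MvPolynomial (Fin 2) ℂ) PpΩ (X 0))
    (hk : pp_pt num den k = algebraMap (MvPolynomial (Fin 2) ℂ) PpΩ (X 1)) :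
    ∃ q, At q ∧ 1 ≤ dm q ∧ q ≤ kr ℂ (wp P) := by
  have hx := pp_spec_ne a num den P h0 h1 hden hP
  obtain ⟨u, v, hli, -, -, hu, hv⟩ := two_of_spec (pp_pt num den) (fun i => (hx i).1)
    (fun i => (hx i).2) hS
  have hdm : 2 ≤ dm (kr ℂ (wp (pp_pt num den))) := by
    refine (two_le_dm_iff _).2 ⟨j, k, ?_⟩
    have h := pp_indep
    have h2 : (fun i : Fin 2 => algebraMap (MvPolynomial (Fin 2) ℂ) PpΩ (X i)) =
        ![pp_pt num den j, pp_pt num den k] := by
      funext i
      fin_cases i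
      · exact hj.symm
      · exact hk.symm
    rw [h2] at h
    exact h
  refine pos_of_generic P h0 h1 (pp_pt num den) 2 ![u, v] hli ?_ (by omega) (by omega)
    (fun p hp => pp_spec a num den P hden hP p hp)
  intro t
  fin_cases t
  · exact hu
  · exact hv

private theorem pp_third : ∀ i j : Fin 3, i ≠ j →
    ∃ k, k ≠ i ∧ k ≠ j ∧ ∀ l, l = i ∨ l = j ∨ l = k := by
  decide

private theorem pp_of_eqv (P : Fin 3 → ℂ) (h0 : ∀ i, P i ≠ 0) (h1 : ∀ i, P i ≠ 1) (i j k : Fin 3)
    (hij : i ≠ j) (hki : k ≠ i) (hkj : k ≠ j) (hall : ∀ l, l = i ∨ l = j ∨ l = k)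
    (sn sd : MvPolynomial (Fin 2) ℂ) (hd : eval ![P i, P k] sd ≠ 0)
    (hn : eval ![P i, P k] sn = eval ![P i, P k] sd * P j)
    (hE : Eqv (algebraMap (MvPolynomial (Fin 2) ℂ) PpΩ (X 0))
      (algebraMap (MvPolynomial (Fin 2) ℂ) PpΩ sn / algebraMap (MvPolynomial (Fin 2) ℂ) PpΩ sd)) :
    ∃ q, At q ∧ 1 ≤ dm q ∧ q ≤ kr ℂ (wp P) := by
  have e1 : pp_pt (fun l => if l = i then X 0 else if l = j then sn else X 1)
      (fun l => if l = j then sd else 1) i = algebraMap (MvPolynomial (Fin 2) ℂ) PpΩ (X 0) := by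
    rw [pp_pt, if_pos rfl, if_neg hij, map_one, div_one]
  have e2 : pp_pt (fun l => if l = i then X 0 else if l = j then sn else X 1)
      (fun l => if l = j then sd else 1) j = algebraMap (MvPolynomial (Fin 2) ℂ) PpΩ sn /
        algebraMap (MvPolynomial (Fin 2) ℂ) PpΩ sd := by
    rw [pp_pt, if_neg (Ne.symm hij), if_pos rfl, if_pos rfl]
  have e3 : pp_pt (fun l => if l = i then X 0 else if l = j then sn else X 1)
      (fun l => if l = j then sd else 1) k = algebraMap (MvPolynomial (Fin 2) ℂ) PpΩ (X 1) := by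
    rw [pp_pt, if_neg hki, if_neg hkj, if_neg hkj, map_one, div_one]
  refine pp_of_spec P h0 h1 ![P i, P k] (fun l => if l = i then X 0 else if l = j then sn else X 1)
    (fun l => if l = j then sd else 1) ?_ ?_ ?_ i k e1 e3
  · intro l
    by_cases hl : l = j
    · simp only [if_pos hl]
      exact hd
    · simp only [if_neg hl, map_one]
      exact one_ne_zero
  · intro l
    rcases hall l with rfl | rfl | rfl
    · simp only [if_pos, if_neg hij, map_one, one_mul, eval_X]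
      rfl
    · simp only [if_neg (Ne.symm hij), if_pos]
      exact hn
    · simp only [if_neg hki, if_neg hkj, map_one, one_mul, eval_X]
      rfl
  · refine Or.inl ⟨i, j, hij, ?_⟩
    rw [e1, e2]
    exact hE

/-- **Special points.** An equivalent pair `P j = s (P i)`: `pos_of_generic` for
`ξ i = X 0`, `ξ j = s (X 0)`, `ξ k = X 1` in `FractionRing (MvPolynomial (Fin 2) ℂ)` with two relations
(`two_of_spec`), `dm = 2` (`two_le_dm_iff`), specialisation `X 0 ↦ P i`, `X 1 ↦ P k`. A sixth root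
`P i`: `ξ i = P i`, `ξ j = X 0`, `ξ k = X 1`. (A specialisation: if `aeval ξ p = 0` clear denominators
`X 0`, `X 0 - 1`, which do not vanish at `P`; or use a local ring homomorphism.) -/
theorem pos_of_spec (P : Fin 3 → ℂ) (h0 : ∀ i, P i ≠ 0) (h1 : ∀ i, P i ≠ 1) (h : Spec P) :
    ∃ q, At q ∧ 1 ≤ dm q ∧ q ≤ kr ℂ (wp P) := by
  rcases h with ⟨i, j, hij, h⟩ | ⟨i, hi⟩
  · obtain ⟨k, hki, hkj, hall⟩ := pp_third i j hij
    have hP0 : P i ≠ 0 := h0 i
    have hP1 : (1 - P i) ≠ 0 := sub_ne_zero.2 (Ne.symm (h1 i))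
    have hP1' : (P i - 1) ≠ 0 := sub_ne_zero.2 (h1 i)
    rcases h with h | h | h | h | h | h
    · exact pp_of_eqv P h0 h1 i j k hij hki hkj hall (X 0) 1 (by simp) (by simp [h])
        (Or.inl (by rw [map_one, div_one]))
    · exact pp_of_eqv P h0 h1 i j k hij hki hkj hall (1 - X 0) 1 (by simp) (by simp [h])
        (Or.inr (Or.inl (by rw [map_one, div_one, map_sub, map_one])))
    · exact pp_of_eqv P h0 h1 i j k hij hki hkj hall 1 (X 0) (by simpa using hP0)
        (by simp [h, hP0])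
        (Or.inr (Or.inr (Or.inl (by rw [map_one, one_div]))))
    · exact pp_of_eqv P h0 h1 i j k hij hki hkj hall 1 (1 - X 0) (by simpa using hP1)
        (by simp [h, hP1])
        (Or.inr (Or.inr (Or.inr (Or.inl (by rw [map_one, one_div, map_sub, map_one])))))
    · exact pp_of_eqv P h0 h1 i j k hij hki hkj hall (X 0) (X 0 - 1) (by simpa using hP1')
        (by
          simp only [eval_X, map_sub, map_one, h, Matrix.cons_val_zero]
          field_simp)
        (Or.inr (Or.inr (Or.inr (Or.inr (Or.inl (by rw [map_sub, map_one]))))))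
    · exact pp_of_eqv P h0 h1 i j k hij hki hkj hall (X 0 - 1) (X 0) (by simpa using hP0)
        (by
          simp only [eval_X, map_sub, map_one, h, Matrix.cons_val_zero]
          field_simp)
        (Or.inr (Or.inr (Or.inr (Or.inr (Or.inr (by rw [map_sub, map_one]))))))
  · obtain ⟨j, hji⟩ : ∃ j : Fin 3, i ≠ j := ⟨i + 1, by fin_cases i <;> decide⟩
    obtain ⟨k, hki, hkj, hall⟩ := pp_third i j hji
    have e1 : pp_pt (fun l => if l = i then C (P i) else if l = j then X 0 else X 1)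
        (fun _ => 1) i = algebraMap (MvPolynomial (Fin 2) ℂ) PpΩ (C (P i)) := by
      rw [pp_pt, if_pos rfl, map_one, div_one]
    have e2 : pp_pt (fun l => if l = i then C (P i) else if l = j then X 0 else X 1)
        (fun _ => 1) j = algebraMap (MvPolynomial (Fin 2) ℂ) PpΩ (X 0) := by
      rw [pp_pt, if_neg (Ne.symm hji), if_pos rfl, map_one, div_one]
    have e3 : pp_pt (fun l => if l = i then C (P i) else if l = j then X 0 else X 1)
        (fun _ => 1) k = algebraMap (MvPolynomial (Fin 2) ℂ) PpΩ (X 1) := by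
      rw [pp_pt, if_neg hki, if_neg hkj, map_one, div_one]
    refine pp_of_spec P h0 h1 ![P j, P k]
      (fun l => if l = i then C (P i) else if l = j then X 0 else X 1) (fun _ => 1) ?_ ?_ ?_ j k
      e2 e3
    · intro l
      simp
    · intro l
      rcases hall l with rfl | rfl | rfl
      · simp
      · simp [Ne.symm hji]
      · simp [hki, hkj]
    · refine Or.inr ⟨i, ?_⟩
      rw [e1, ← map_pow, ← map_pow, ← map_sub, ← map_sub, ← map_one (algebraMap
        (MvPolynomial (Fin 2) ℂ) PpΩ), ← map_one (C : ℂ →+* MvPolynomial (Fin 2) ℂ), ← map_add,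
        ← map_add, hi, map_zero, map_zero]

/-- **Pairs of rank one.** `ξ i = P i`, `ξ j = P j`, `ξ k = X` in `FractionRing (Polynomial ℂ)` (or `RatFunc ℂ`):
three independent exact relations from `RankLe 1` (`exists_rel`, extended by zero), `dm = 1`. -/
theorem pos_of_pair (P : Fin 3 → ℂ) (h0 : ∀ i, P i ≠ 0) (h1 : ∀ i, P i ≠ 1) (i j : Fin 3)
    (hij : i ≠ j) (h : RankLe 1 (co ![P i, P j])) :
    ∃ q, At q ∧ 1 ≤ dm q ∧ q ≤ kr ℂ (wp P) := by
  classical
  obtain ⟨k, hki, hkj, hall⟩ := pp_third i j hij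
  obtain ⟨u, hu, hu1⟩ := pp_exists_rel h 3 (by simp)
  set num : Fin 3 → MvPolynomial (Fin 2) ℂ := fun l => if l = i then C (P i) else
    if l = j then C (P j) else X 0 with hnum
  set den : Fin 3 → MvPolynomial (Fin 2) ℂ := fun _ => 1 with hden'
  have hden : ∀ l, eval ![P k, 0] (den l) ≠ 0 := by
    intro l
    simp [hden']
  have hP : ∀ l, eval ![P k, 0] (num l) = eval ![P k, 0] (den l) * P l := by
    intro l
    rcases hall l with rfl | rfl | rfl
    · simp [hnum, hden']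
    · simp [hnum, hden', Ne.symm hij]
    · simp [hnum, hden', hki, hkj]
  have e1 : pp_pt num den i = algebraMap ℂ PpΩ (P i) := by
    rw [pp_pt, hden', hnum]
    simp only [if_pos, map_one, div_one]
    rw [IsScalarTower.algebraMap_apply ℂ (MvPolynomial (Fin 2) ℂ) PpΩ, MvPolynomial.algebraMap_eq]
  have e2 : pp_pt num den j = algebraMap ℂ PpΩ (P j) := by
    rw [pp_pt, hden', hnum]
    simp only [if_neg (Ne.symm hij), if_pos, map_one, div_one]
    rw [IsScalarTower.algebraMap_apply ℂ (MvPolynomial (Fin 2) ℂ) PpΩ, MvPolynomial.algebraMap_eq]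
  have e3 : pp_pt num den k = algebraMap (MvPolynomial (Fin 2) ℂ) PpΩ (X 0) := by
    rw [pp_pt, hden', hnum]
    simp only [if_neg hki, if_neg hkj, map_one, div_one]
  set e : Fin 2 → Fin 3 := ![i, j] with he
  have hei : Function.Injective e := by
    intro s t hst
    fin_cases s <;> fin_cases t
    · rfl
    · exact absurd hst hij
    · exact absurd hst.symm hij
    · rfl
  set E : Fin 2 ⊕ Fin 2 → Fin 3 ⊕ Fin 3 := Sum.map e e with hE
  have hEi : Function.Injective E := Sum.map_injective.2 ⟨hei, hei⟩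
  have hpe : ∀ s, pp_pt num den (e s) = algebraMap ℂ PpΩ (![P i, P j] s) := by
    intro s
    fin_cases s
    · exact e1
    · exact e2
  have hco : ∀ s, co (pp_pt num den) (E s) = algebraMap ℂ PpΩ (co ![P i, P j] s) := by
    rintro (s | s)
    · exact hpe s
    · show 1 - pp_pt num den (e s) = algebraMap ℂ PpΩ (1 - ![P i, P j] s)
      rw [map_sub, map_one, hpe s]
  have hdm : 1 ≤ dm (kr ℂ (wp (pp_pt num den))) := by
    refine (one_le_dm_iff _).2 ⟨k, ?_⟩
    rw [e3]
    exact pp_indep.transcendental 0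
  refine pos_of_generic P h0 h1 (pp_pt num den) 3 (fun t => Function.extend E (u t) 0) ?_ ?_ hdm
    (by omega) (fun p hp => pp_spec ![P k, 0] num den P hden hP p hp)
  · refine LinearIndependent.of_comp (LinearMap.funLeft ℤ ℤ E) ?_
    have h2 : (LinearMap.funLeft ℤ ℤ E) ∘ (fun t => Function.extend E (u t) 0) = u := by
      funext t
      exact Function.extend_comp hEi (u t) 0
    rw [h2]
    exact hu
  · intro t
    have h2 : ∏ s, (co (pp_pt num den) (E s)) ^ (u t s) =
        ∏ m, (co (pp_pt num den) m) ^ (Function.extend E (u t) 0 m) := by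
      refine Fintype.prod_of_injective E hEi _ _ ?_ ?_
      · intro m hm
        rw [Function.extend_apply' _ _ _ (fun ⟨s, hs⟩ => hm ⟨s, hs⟩), Pi.zero_apply, zpow_zero]
      · intro s
        rw [hEi.extend_apply]
    unfold mono
    rw [← h2]
    have h3 := hu1 t
    unfold mono at h3
    have h4 := congrArg (algebraMap ℂ PpΩ) h3
    rw [map_one, map_prod] at h4
    rw [← h4]
    refine Finset.prod_congr rfl fun s _ => ?_
    rw [map_zpow₀, hco s]

end Pool.Agent.L3S
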