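import Pool.Agent.L3S.Large
import Pool.Agent.L3S.FinPos
import Pool.Agent.L3S.PosPts

set_option autoImplicit false

/-! Assembly: `L^3` has only finitely many maximal atypical subvarieties. -/

namespace Pool.Agent.L3S

open NumberField Height Real Module Pool.Agent.LThree Pool.Agent.CITLines

/-- Independent exact relations bound the rank. -/
theorem rankLe_of_rel {F : Type} [Field F] {ι : Type} [Fintype ι] (z : ι → F) (k n : ℕ)
    (hk : Fintype.card ι ≤ n + k) (u : Fin n → (ι → ℤ)) (hu : LinearIndependent ℤ u)
    (h : ∀ t, mono z (u t) = 1) (hz : ∀ i, z i ≠ 0) : RankLe k z := by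
  refine rankLe_of_submodule z k (Submodule.span ℤ (Set.range u)) ?_ ?_
  · have := finrank_span_eq_card hu
    rw [Fintype.card_fin] at this
    omega
  · intro a ha
    refine ⟨1, one_pos, ?_⟩
    rw [pow_one]
    induction ha using Submodule.span_induction with
    | mem a ha =>
      obtain ⟨t, rfl⟩ := ha
      exact h t
    | zero =>
      unfold mono
      simp
    | add a b _ _ h1 h2 =>
      unfold mono at h1 h2 ⊢
      simp only [Pi.add_apply]
      rw [Finset.prod_congr rfl fun i _ => zpow_add₀ (hz i) (a i) (b i),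
        Finset.prod_mul_distrib, h1, h2, one_mul]
    | smul m a _ h1 =>
      unfold mono at h1 ⊢
      simp only [Pi.smul_apply, smul_eq_mul]
      rw [Finset.prod_congr rfl fun i _ => by rw [mul_comm m, zpow_mul], Finset.prod_zpow, h1,
        one_zpow]

/-- The ideal of a constant point. -/
theorem kr_const {F : Type} [Field F] [Algebra ℂ F] (c : Fin 3 → ℂ) (x : Fin 3 → F)
    (h : ∀ i, algebraMap ℂ F (c i) = x i) : kr ℂ (wp x) = kr ℂ (wp c) := by
  have hw : wp x = fun i => algebraMap ℂ F (wp c i) := by
    funext i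
    refine Fin.addCases (fun j => ?_) (fun j => ?_) i
    · unfold wp
      rw [Fin.append_left, Fin.append_left, h]
    · unfold wp
      rw [Fin.append_right, Fin.append_right, map_sub, map_one, h]
  ext f
  rw [mem_kr, mem_kr, hw]
  have h1 : MvPolynomial.aeval (fun i => algebraMap ℂ F (wp c i)) f =
      algebraMap ℂ F (MvPolynomial.aeval (wp c) f) := by
    have h2 : (MvPolynomial.aeval (fun i => algebraMap ℂ F (wp c i)) :
        MvPolynomial (Fin (3 + 3)) ℂ →ₐ[ℂ] F) =
        (Algebra.ofId ℂ F).comp (MvPolynomial.aeval (wp c)) := by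
      apply MvPolynomial.algHom_ext
      intro i
      rw [MvPolynomial.aeval_X, AlgHom.comp_apply, MvPolynomial.aeval_X]
      rfl
    rw [h2]
    rfl
  rw [h1]
  exact map_eq_zero_iff _ (algebraMap ℂ F).injective

/-- The points: positive-dimensional or in a finite set. -/
theorem points (h1 : TwoLog) (h2 : TorsArc) : ∃ Z : Finset (Fin 3 → ℂ), ∀ c : Fin 3 → ℂ,
    (∀ i, c i ≠ 0) → (∀ i, c i ≠ 1) → RankLe 2 (co c) →
    (∃ q, At q ∧ 1 ≤ dm q ∧ q ≤ kr ℂ (wp c)) ∨ c ∈ Z := by
  classical
  obtain ⟨D0, H2, hnf⟩ := alg_nf h1 h2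
  obtain ⟨Z, hZ, hZ'⟩ := northcott_set D0 (|H2| * D0)
  have hfin : {c : Fin 3 → ℂ | ∀ i, c i ∈ Z}.Finite := Set.Finite.pi' fun _ => hZ
  refine ⟨hfin.toFinset, fun c h0 hc1 hr => ?_⟩
  by_cases halg : ∀ i, IsAlgebraic ℚ (c i)
  · set K := IntermediateField.adjoin ℚ (Set.range c) with hK
    have hfd : FiniteDimensional ℚ K := by
      apply IntermediateField.finiteDimensional_adjoin
      rintro _ ⟨i, rfl⟩
      exact (halg i).isIntegral
    have : NumberField K := ⟨⟩
    let x : Fin 3 → K := fun i => ⟨c i, IntermediateField.subset_adjoin ℚ _ ⟨i, rfl⟩⟩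
    let φ : K →+* ℂ := algebraMap K ℂ
    have hφ : ∀ i, φ (x i) = c i := fun i => rfl
    have hx : ∀ i, x i ≠ 0 ∧ x i ≠ 1 := by
      intro i
      refine ⟨fun h => h0 i ?_, fun h => hc1 i ?_⟩
      · rw [← hφ, h, map_zero]
      · rw [← hφ, h, map_one]
    have hcoφ : (fun i => φ (co x i)) = co c := by
      funext s
      rcases s with i | i
      · rfl
      · show φ (1 - x i) = 1 - c i
        rw [map_sub, map_one, hφ]
    have hrx : RankLe 2 (co x) := by
      apply RankLe.of_map φ
      rw [hcoφ]
      exact hr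
    have hgen : IntermediateField.adjoin ℚ (Set.range x) = ⊤ := by
      rw [eq_top_iff]
      rintro z -
      have hz : (z : ℂ) ∈ IntermediateField.adjoin ℚ (Set.range c) := z.2
      have himg : (Subtype.val '' Set.range x : Set ℂ) = Set.range c := by
        rw [← Set.range_comp]; rfl
      have : (z : ℂ) ∈ IntermediateField.lift (IntermediateField.adjoin ℚ (Set.range x)) := by
        rw [IntermediateField.lift_adjoin, himg]; exact hz
      exact (IntermediateField.mem_lift _).1 this
    rcases hnf K x hx hrx hgen with h | ⟨i, j, hij, h⟩ | h | ⟨hD, hH⟩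
    · left
      refine pos_of_spec c h0 hc1 ?_
      rcases h with ⟨i, j, hij, h⟩ | ⟨i, h⟩
      · left
        refine ⟨i, j, hij, ?_⟩
        have hm : ∀ a b : K, Eqv a b → Eqv (φ a) (φ b) := by
          intro a b hab
          rcases hab with h | h | h | h | h | h
          · left; rw [h]
          · right; left; rw [h]; simp
          · right; right; left; rw [h]; simp
          · right; right; right; left; rw [h]; simp
          · right; right; right; right; left; rw [h]; simp
          · right; right; right; right; right; rw [h]; simp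
        exact hm _ _ h
      · right
        refine ⟨i, ?_⟩
        have := congrArg φ h
        simpa [hφ] using this
    · left
      refine pos_of_pair c h0 hc1 i j hij ?_
      obtain ⟨U, hU, hUm⟩ := h
      refine ⟨U, hU, fun a ha => ?_⟩
      obtain ⟨m, hm, hm1⟩ := hUm a ha
      refine ⟨m, hm, ?_⟩
      have h3 : mono (co ![c i, c j]) a = φ (mono (co ![x i, x j]) a) := by
        unfold mono
        rw [map_prod]
        refine Finset.prod_congr rfl fun s _ => ?_
        rw [map_zpow₀]
        congr 1
        rcases s with s | s <;> fin_cases s <;> simp [co, hφ]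
      rw [h3, ← map_pow, hm1, map_one]
    · left
      obtain ⟨ψ, Ω, i1, i2, ξ, u, hui, e1, ⟨i0, e2⟩, e4⟩ := h
      have hcz : CharZero Ω := charZero_of_injective_algebraMap (algebraMap ℂ Ω).injective
      have hξ : ∀ i, ξ i ≠ 0 ∧ ξ i ≠ 1 := by
        intro i
        constructor
        · intro h
          have h5 := e4 (MvPolynomial.X i) (by rw [MvPolynomial.aeval_X, h])
          rw [MvPolynomial.eval_X] at h5
          exact (hx i).1 (ψ.injective (by rw [h5, map_zero]))
        · intro h
          have h5 := e4 (MvPolynomial.X i - 1) (by rw [map_sub, MvPolynomial.aeval_X, h, map_one,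
            sub_self])
          rw [map_sub, MvPolynomial.eval_X, map_one, sub_eq_zero] at h5
          exact (hx i).2 (ψ.injective (by rw [h5, map_one]))
      have hd : 1 ≤ dm (kr ℂ (wp ξ)) := (one_le_dm_iff ξ).2 ⟨i0, e2⟩
      refine pos_of_generic c h0 hc1 ξ 3 u hui (fun j => ?_) hd (by omega) ?_
      · rw [← aeval_relPoly ξ hξ, ← e1 j, MvPolynomial.aeval_map_algebraMap]
      · intro p hp
        have h5 := e4 (MvPolynomial.map (algebraMap ℚ ℂ) p) (by
          rw [MvPolynomial.aeval_map_algebraMap]
          exact hp)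
        have h6 : ψ (MvPolynomial.aeval x p) = 0 := by
          rw [← h5, MvPolynomial.eval_map, MvPolynomial.aeval_def, ← MvPolynomial.coe_eval₂Hom,
            ← RingHom.comp_apply, ← MvPolynomial.coe_eval₂Hom]
          congr 1
          apply MvPolynomial.ringHom_ext
          · intro a
            simp
          · intro j
            simp
        have h7 : MvPolynomial.aeval x p = 0 := ψ.injective (by rw [h6, map_zero])
        have h8 : MvPolynomial.aeval c p = φ (MvPolynomial.aeval x p) := by
          rw [MvPolynomial.aeval_def, MvPolynomial.aeval_def, ← MvPolynomial.coe_eval₂Hom,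
            ← MvPolynomial.coe_eval₂Hom, ← RingHom.comp_apply]
          congr 1
          apply MvPolynomial.ringHom_ext
          · intro a
            simp
          · intro j
            simp [hφ]
        rw [h8, h7, map_zero]
    · right
      rw [Set.Finite.mem_toFinset]
      intro i
      have h3 := hZ' K hD (x i) (by
        refine (hH i).trans ?_
        have h4 : (finrank ℚ K : ℝ) ≤ D0 := by exact_mod_cast hD
        calc H2 * (finrank ℚ K : ℝ) ≤ |H2| * finrank ℚ K :=
              mul_le_mul_of_nonneg_right (le_abs_self _) (Nat.cast_nonneg _)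
          _ ≤ |H2| * D0 := mul_le_mul_of_nonneg_left h4 (abs_nonneg _)) φ
      rwa [hφ] at h3
  · exact Or.inl (pos_of_trans c h0 hc1 halg hr)

/-- **Finitely many maximal atypical subvarieties of `L^3`.** -/
theorem finL_three_of (h1 : TwoLog) (h2 : TorsArc) : FinL 3 := by
  classical
  obtain ⟨Y, hY1, hY2⟩ := fin_pos
  obtain ⟨Z, hZ⟩ := points h1 h2
  refine ⟨Y ∪ (Z.image fun c => kr ℂ (wp c)).filter At, ?_, ?_⟩
  · intro y hy
    rcases Finset.mem_union.1 hy with hy | hy
    · exact (hY1 y hy).1
    · exact (Finset.mem_filter.1 hy).2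
  · intro q hq hL hdim
    have hAt : At q := ⟨hq, hL, hdim⟩
    by_cases hd : 1 ≤ dm q
    · obtain ⟨y, hy, hyq⟩ := hY2 q hAt hd
      exact ⟨y, Finset.mem_union_left _ hy, hyq⟩
    obtain ⟨F, _, _, x, h0, hx1, hqx⟩ := exists_generic q hq hL
    have halg : ∀ i, ∃ c : ℂ, algebraMap ℂ F c = x i := by
      intro i
      have h3 : IsAlgebraic ℂ (x i) := by
        by_contra h
        apply hd
        rw [hqx]
        exact (one_le_dm_iff x).2 ⟨i, h⟩
      exact minpoly.mem_range_of_degree_eq_one ℂ _
        (IsAlgClosed.degree_eq_one_of_irreducible ℂ (minpoly.irreducible h3.isIntegral))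
    choose c hc using halg
    have hqc : q = kr ℂ (wp c) := by rw [hqx, kr_const c x hc]
    have hc0 : ∀ i, c i ≠ 0 := by
      intro i h
      apply h0 i
      rw [← hc, h, map_zero]
    have hc1 : ∀ i, c i ≠ 1 := by
      intro i h
      apply hx1 i
      rw [← hc, h, map_one]
    have hrho : 4 ≤ rhoP (kr ℂ (wp c)) := by
      rw [← hqc]
      omega
    obtain ⟨u, hu, hur⟩ := exists_of_rhoP c hc0 hc1 4 hrho
    have hco : ∀ s, co c s ≠ 0 := by
      rintro (i | i)
      · exact hc0 i
      · exact sub_ne_zero.2 (Ne.symm (hc1 i))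
    have hr : RankLe 2 (co c) := rankLe_of_rel (co c) 2 4 (by simp) u hu hur hco
    rcases hZ c hc0 hc1 hr with ⟨q', hq', hd', hle⟩ | hmem
    · obtain ⟨y, hy, hyq⟩ := hY2 q' hq' hd'
      exact ⟨y, Finset.mem_union_left _ hy, hyq.trans (hqc ▸ hle)⟩
    · refine ⟨q, Finset.mem_union_right _ (Finset.mem_filter.2 ⟨?_, hAt⟩), le_rfl⟩
      rw [hqc]
      exact Finset.mem_image_of_mem _ hmem

end Pool.Agent.L3S
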