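import Pool.Agent.L3S.FinL3
import Pool.Agent.LThree.TwoLog
import Pool.Agent.Flat3.TorsArc

set_option autoImplicit false

/-! The two external inputs, and the theorem `FinL 3`. -/

namespace Pool.Agent.L3S

open NumberField Height Real Module Pool.Agent.LThree Pool.Agent.CITLines

theorem twoLog : TwoLog := by
  intro H0
  obtain ⟨C1, hC1, h⟩ := Pool.Agent.LThree.two_log H0
  refine ⟨1024 * C1 + 10, by positivity, ?_⟩
  intro K _ _ g hg hroot v n hn
  have rn : (2 : ℝ) ≤ n := by exact_mod_cast hn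
  have hl : 1 ≤ log ((n : ℝ) + 1) := by
    rw [Real.le_log_iff_exp_le (by positivity)]
    have := Real.exp_one_lt_d9
    linarith
  have hD : (1 : ℝ) ≤ finrank ℚ K := by
    have : 0 < finrank ℚ K := finrank_pos
    exact_mod_cast this
  set x : ℝ := finrank ℚ K * log ((n : ℝ) + 1) with hx
  have hx1 : 1 ≤ x := by nlinarith
  have hbig : (0 : ℝ) ≤ (1024 * C1 + 10) * x ^ (1024 * C1 + 10) := by positivity
  rcases eq_or_ne g 0 with rfl | hg0
  · have h1 : v (-1 : K) = 1 := by
      have h2 : v.1 (-1 : K) = v.1 1 := v.1.map_neg 1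
      rw [map_one] at h2
      exact h2
    rw [zero_pow (by omega), zero_sub, h1, ← Real.exp_zero]
    exact Real.exp_le_exp.2 (by linarith)
  refine le_trans (Real.exp_le_exp.2 (neg_le_neg ?_))
    (h K g hg0 (fun m hm hm1 => hroot ⟨m, hm, hm1⟩) hg v n (by omega))
  have h2 : log ((n : ℝ) + 2) ≤ 2 * log ((n : ℝ) + 1) := by
    have : (2 : ℝ) * log ((n : ℝ) + 1) = log (((n : ℝ) + 1) ^ 2) := by
      rw [Real.log_pow]
      norm_num
    rw [this]
    apply Real.log_le_log (by positivity)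
    nlinarith
  have h0 : 0 ≤ log ((n : ℝ) + 2) := Real.log_nonneg (by linarith)
  have h3 : finrank ℚ K * log ((n : ℝ) + 2) ≤ 2 * x := by
    rw [hx]
    nlinarith
  calc C1 * (finrank ℚ K * log ((n : ℝ) + 2)) ^ 10 ≤ C1 * (2 * x) ^ 10 := by gcongr
    _ = 1024 * C1 * x ^ (10 : ℕ) := by ring
    _ = 1024 * C1 * x ^ (10 : ℝ) := by
      rw [← Real.rpow_natCast x 10]
      norm_num
    _ ≤ (1024 * C1 + 10) * x ^ (1024 * C1 + 10) := by
      have e1 : x ^ (10 : ℝ) ≤ x ^ (1024 * C1 + 10) :=
        Real.rpow_le_rpow_of_exponent_le hx1 (by linarith)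
      have e2 : (0 : ℝ) ≤ x ^ (10 : ℝ) := by positivity
      calc 1024 * C1 * x ^ (10 : ℝ) ≤ (1024 * C1 + 10) * x ^ (10 : ℝ) := by nlinarith
        _ ≤ _ := by gcongr

theorem torsArc : TorsArc := by
  intro a b c h del eps hdel heps
  exact Pool.Agent.Flat3.tors_arc a b c h del eps hdel heps

/-- `L^3` has only finitely many maximal atypical subvarieties, positive-dimensional or not. -/
theorem finL_three : FinL 3 := finL_three_of twoLog torsArc

end Pool.Agent.L3S
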