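import Pool.Agent.L3S.Defs
import Pool.Agent.LThree.CaseB
import Pool.Agent.RelC.Counts
import Pool.Agent.RelC.Pair
import Pool.Agent.RelC.Bridge
import Pool.Agent.MinHt.ThmA

set_option autoImplicit false

/-! The lemma FIX: if `x, 1 - x` are multiplicatively independent then only finitely many `z` have
the property that `x, 1 - x, z, 1 - z` generate a group of rank two. -/

namespace Pool.Agent.L3S

open Pool.Agent.LThree NumberField Height Real Module

/-! ### Heights do not depend on the field -/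

private theorem nh_hom {K E : Type} [Field K] [NumberField K] [Field E] [NumberField E]
    (f : K →+* E) (z : K) : Leh2.nh (f z) = Leh2.nh z := by
  let _ := f.toAlgebra
  exact Leh2.nh_algebraMap z

private theorem fin_range {K : Type} [Field K] [NumberField K] (φ : K →ₐ[ℚ] ℂ) :
    FiniteDimensional ℚ φ.fieldRange := by
  have e : K ≃ₐ[ℚ] φ.fieldRange := AlgEquiv.ofInjectiveField φ
  exact LinearEquiv.finiteDimensional e.toLinearEquiv

/-- The normalised height of a complex number does not depend on the field. -/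
theorem nh_unique {K K' : Type} [Field K] [NumberField K] [Field K'] [NumberField K']
    (φ : K →+* ℂ) (φ' : K' →+* ℂ) (w : K) (w' : K') (h : φ w = φ' w') :
    Leh2.nh w = Leh2.nh w' := by
  have i1 := fin_range φ.toRatAlgHom
  have i2 := fin_range φ'.toRatAlgHom
  let L : IntermediateField ℚ ℂ := φ.toRatAlgHom.fieldRange ⊔ φ'.toRatAlgHom.fieldRange
  have hL : FiniteDimensional ℚ L := IntermediateField.finiteDimensional_sup _ _
  have : NumberField L := { to_charZero := inferInstance, to_finiteDimensional := hL }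
  have m1 : ∀ x, φ x ∈ L := fun x =>
    (le_sup_left : φ.toRatAlgHom.fieldRange ≤ L) ⟨x, rfl⟩
  have m2 : ∀ x, φ' x ∈ L := fun x =>
    (le_sup_right : φ'.toRatAlgHom.fieldRange ≤ L) ⟨x, rfl⟩
  let ψ : K →+* L := φ.codRestrict L.toSubfield m1
  let ψ' : K' →+* L := φ'.codRestrict L.toSubfield m2
  have e : ψ w = ψ' w' := Subtype.ext h
  rw [← nh_hom ψ w, ← nh_hom ψ' w', e]

/-! ### Linear algebra -/

private theorem fix_kernel (A B : Fin 4 → ℤ) : ∃ w w' : Fin 4 → ℤ, LinearIndependent ℤ ![w, w'] ∧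
    (∑ i, w i * A i = 0 ∧ ∑ i, w i * B i = 0) ∧ (∑ i, w' i * A i = 0 ∧ ∑ i, w' i * B i = 0) := by
  let f : (Fin 4 → ℤ) →ₗ[ℤ] (Fin 2 → ℤ) := Matrix.mulVecLin !![A 0, A 1, A 2, A 3; B 0, B 1, B 2, B 3]
  have hf : ∀ w : Fin 4 → ℤ, f w = 0 ↔ (∑ i, w i * A i = 0 ∧ ∑ i, w i * B i = 0) := by
    intro w
    constructor
    · intro h
      have h0 := congrFun h 0
      have h1 := congrFun h 1
      simp [f, Matrix.mulVec, dotProduct, Fin.sum_univ_four] at h0 h1
      constructor
      · rw [Fin.sum_univ_four]; linarith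
      · rw [Fin.sum_univ_four]; linarith
    · rintro ⟨h0, h1⟩
      rw [Fin.sum_univ_four] at h0 h1
      funext i
      fin_cases i
      · simp [f, Matrix.mulVec, dotProduct, Fin.sum_univ_four]
        linarith
      · simp [f, Matrix.mulVec, dotProduct, Fin.sum_univ_four]
        linarith
  have h1 := (LinearMap.ker f).finrank_quotient_add_finrank
  rw [LinearEquiv.finrank_eq f.quotKerEquivRange, finrank_fintype_fun_eq_card,
    Fintype.card_fin] at h1
  have h2 : finrank ℤ (LinearMap.range f) ≤ 2 := by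
    have := Submodule.finrank_le (LinearMap.range f)
    rwa [finrank_fintype_fun_eq_card, Fintype.card_fin] at this
  have h3 : 1 < finrank ℤ (LinearMap.ker f) := by omega
  obtain ⟨x, hx⟩ : ∃ x : LinearMap.ker f, x ≠ 0 := by
    by_contra hcon
    push Not at hcon
    have : Subsingleton (LinearMap.ker f) := ⟨fun a b => by rw [hcon a, hcon b]⟩
    rw [finrank_zero_of_subsingleton] at h3
    omega
  obtain ⟨y, hy⟩ := exists_linearIndependent_pair_of_one_lt_finrank h3 hx
  refine ⟨x.1, y.1, ?_, (hf _).1 x.2, (hf _).1 y.2⟩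
  have h4 := hy.map' (LinearMap.ker f).subtype (Submodule.ker_subtype _)
  have h5 : ![x.1, y.1] = (LinearMap.ker f).subtype ∘ ![x, y] := by
    funext i
    fin_cases i <;> rfl
  rw [h5]
  exact h4

/-- A power of `z` in the group generated by `x` and `1 - x`. -/
private theorem fix_power {F : Type} [Field F] {x z : F} (hx : x ≠ 0) (hx1 : x ≠ 1)
    (hmi : CITNF.MI x) (hz : z ≠ 0) (hz1 : z ≠ 1) (h : RankLe 2 (co ![x, z])) :
    (∃ N a b : ℤ, N ≠ 0 ∧ z ^ N = x ^ a * (1 - x) ^ b) ∧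
      ∃ N a b : ℤ, N ≠ 0 ∧ (1 - z) ^ N = x ^ a * (1 - x) ^ b := by
  classical
  have hco : ∀ i, co ![x, z] i ≠ 0 := by
    rintro (i | i)
    · fin_cases i
      · exact hx
      · exact hz
    · fin_cases i
      · exact sub_ne_zero.2 (Ne.symm hx1)
      · exact sub_ne_zero.2 (Ne.symm hz1)
  have hs : ∀ j : Fin 2 ⊕ Fin 2, mono (co ![x, z]) (Pi.single j 1) = co ![x, z] j := by
    intro j
    unfold mono
    rw [Finset.prod_eq_single j]
    · rw [Pi.single_eq_same, zpow_one]
    · intro k _ hk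
      rw [Pi.single_eq_of_ne hk, zpow_zero]
    · intro h
      exact absurd (Finset.mem_univ _) h
  have h1x : 1 - x ≠ 0 := sub_ne_zero.2 (Ne.symm hx1)
  have key : ∀ j : Fin 2 ⊕ Fin 2, co ![x, z] j ≠ 0 → ∃ N a b : ℤ, N ≠ 0 ∧
      (co ![x, z] j) ^ N = x ^ a * (1 - x) ^ b := by
    intro j hj
    obtain ⟨c, hc0, hc⟩ := RelC.dep_of_rankLe hco h
      ![Pi.single (Sum.inl 0) 1, Pi.single (Sum.inr 0) 1, Pi.single j 1]
    rw [Fin.prod_univ_three] at hc
    simp only [Matrix.cons_val_zero, Matrix.cons_val_one, Matrix.cons_val] at hc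
    rw [hs, hs, hs] at hc
    have hc' : x ^ c 0 * (1 - x) ^ c 1 * (co ![x, z] j) ^ c 2 = 1 := hc
    refine ⟨c 2, -c 0, -c 1, ?_, ?_⟩
    · intro h2
      rw [h2, zpow_zero, mul_one] at hc'
      obtain ⟨e0, e1⟩ := hmi _ _ hc'
      apply hc0
      funext i
      fin_cases i
      · exact e0
      · exact e1
      · exact h2
    · rw [zpow_neg, zpow_neg, ← mul_inv]
      exact eq_inv_of_mul_eq_one_right hc'
  exact ⟨key (Sum.inl 1) hz, key (Sum.inr 1) (sub_ne_zero.2 (Ne.symm hz1))⟩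

/-- Two numbers with powers in the same group of rank two. -/
private theorem fix_rel2 {F : Type} [Field F] {x z z' : F} (hx : x ≠ 0) (hx1 : x ≠ 1)
    (hmi : CITNF.MI x) (hz : z ≠ 0) (hz1 : z ≠ 1) (h : RankLe 2 (co ![x, z])) (hz' : z' ≠ 0)
    (hz1' : z' ≠ 1) (h' : RankLe 2 (co ![x, z'])) : CITNF.Rel2 z z' := by
  obtain ⟨⟨N0, a0, b0, hN0, e0⟩, ⟨N1, a1, b1, hN1, e1⟩⟩ := fix_power hx hx1 hmi hz hz1 h
  obtain ⟨⟨N2, a2, b2, hN2, e2⟩, ⟨N3, a3, b3, hN3, e3⟩⟩ := fix_power hx hx1 hmi hz' hz1' h'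
  obtain ⟨w, w', hw, ⟨hA, hB⟩, ⟨hA', hB'⟩⟩ := fix_kernel ![a0, a1, a2, a3] ![b0, b1, b2, b3]
  have h1x : 1 - x ≠ 0 := sub_ne_zero.2 (Ne.symm hx1)
  have hR : ∀ v : Fin 4 → ℤ, ∑ i, v i * ![a0, a1, a2, a3] i = 0 →
      ∑ i, v i * ![b0, b1, b2, b3] i = 0 →
      CITNF.R z z' ![N0 * v 0, N1 * v 1, N2 * v 2, N3 * v 3] = 1 := by
    intro v hv1 hv2
    rw [Fin.sum_univ_four] at hv1 hv2
    simp only [Matrix.cons_val_zero, Matrix.cons_val_one, Matrix.cons_val] at hv1 hv2
    unfold CITNF.R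
    simp only [Matrix.cons_val_zero, Matrix.cons_val_one, Matrix.cons_val]
    rw [zpow_mul, zpow_mul, zpow_mul, zpow_mul, e0, e1, e2, e3]
    simp only [mul_zpow, ← zpow_mul]
    have g1 : x ^ (a0 * v 0) * x ^ (a1 * v 1) * (x ^ (a2 * v 2) * x ^ (a3 * v 3)) = 1 := by
      rw [← zpow_add₀ hx, ← zpow_add₀ hx, ← zpow_add₀ hx]
      have : a0 * v 0 + a1 * v 1 + (a2 * v 2 + a3 * v 3) = 0 := by linarith
      rw [this, zpow_zero]
    have g2 : (1 - x) ^ (b0 * v 0) * (1 - x) ^ (b1 * v 1) *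
        ((1 - x) ^ (b2 * v 2) * (1 - x) ^ (b3 * v 3)) = 1 := by
      rw [← zpow_add₀ h1x, ← zpow_add₀ h1x, ← zpow_add₀ h1x]
      have : b0 * v 0 + b1 * v 1 + (b2 * v 2 + b3 * v 3) = 0 := by linarith
      rw [this, zpow_zero]
    calc _ = (x ^ (a0 * v 0) * x ^ (a1 * v 1) * (x ^ (a2 * v 2) * x ^ (a3 * v 3))) *
        ((1 - x) ^ (b0 * v 0) * (1 - x) ^ (b1 * v 1) *
        ((1 - x) ^ (b2 * v 2) * (1 - x) ^ (b3 * v 3))) := by ring
      _ = 1 := by rw [g1, g2, one_mul]
  refine ⟨_, _, ?_, hR w hA hB, hR w' hA' hB'⟩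
  intro s t hst
  refine LinearIndependent.pair_iff.1 hw s t ?_
  have q0 := congrFun hst 0
  have q1 := congrFun hst 1
  have q2 := congrFun hst 2
  have q3 := congrFun hst 3
  simp only [Pi.add_apply, Pi.smul_apply, smul_eq_mul, Matrix.cons_val_zero, Matrix.cons_val_one,
    Matrix.cons_val, Pi.zero_apply] at q0 q1 q2 q3
  have r0 : N0 * (s * w 0 + t * w' 0) = 0 := by linarith
  have r1 : N1 * (s * w 1 + t * w' 1) = 0 := by linarith
  have r2 : N2 * (s * w 2 + t * w' 2) = 0 := by linarith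
  have r3 : N3 * (s * w 3 + t * w' 3) = 0 := by linarith
  funext i
  fin_cases i
  · exact (mul_eq_zero.1 r0).resolve_left hN0
  · exact (mul_eq_zero.1 r1).resolve_left hN1
  · exact (mul_eq_zero.1 r2).resolve_left hN2
  · exact (mul_eq_zero.1 r3).resolve_left hN3

/-! ### One relation -/

open Polynomial in
private theorem fix_roots {F : Type} [Field F] {c : F} (hc : c ≠ 0) (p q : ℤ)
    (hpq : p ≠ 0 ∨ q ≠ 0) : {z : F | z ≠ 0 ∧ z ≠ 1 ∧ c * (z ^ p * (1 - z) ^ q) = 1}.Finite := by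
  classical
  let P : F[X] := C c * X ^ p.toNat * (1 - X) ^ q.toNat - X ^ (-p).toNat * (1 - X) ^ (-q).toNat
  have hP : P ≠ 0 := by
    intro h0
    have hev : ∀ z : F, c * z ^ p.toNat * (1 - z) ^ q.toNat - z ^ (-p).toNat * (1 - z) ^ (-q).toNat
        = 0 := by
      intro z
      have := congrArg (Polynomial.eval z) h0
      simpa [P] using this
    rcases lt_trichotomy p 0 with hp | hp | hp
    · have e := hev 0
      have h1 : (-p).toNat ≠ 0 := by omega
      have h2 : p.toNat = 0 := by omega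
      rw [h2] at e
      simp [h1, hc] at e
    · rcases lt_trichotomy q 0 with hq | hq | hq
      · have e := hev 1
        have h1 : (-q).toNat ≠ 0 := by omega
        have h2 : q.toNat = 0 := by omega
        rw [h2, hp] at e
        simp [h1, hc] at e
      · omega
      · have e := hev 1
        have h1 : q.toNat ≠ 0 := by omega
        have h2 : (-q).toNat = 0 := by omega
        rw [h2, hp] at e
        simp [h1] at e
    · have e := hev 0
      have h1 : p.toNat ≠ 0 := by omega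
      have h2 : (-p).toNat = 0 := by omega
      rw [h2] at e
      simp [h1] at e
  refine (P.roots.toFinset.finite_toSet).subset ?_
  rintro z ⟨hz, hz1, h⟩
  rw [Finset.mem_coe, Multiset.mem_toFinset, Polynomial.mem_roots hP, Polynomial.IsRoot.def]
  have h1z : 1 - z ≠ 0 := sub_ne_zero.2 (Ne.symm hz1)
  have spl : ∀ {y : F} (_ : y ≠ 0) (n : ℤ), y ^ n * y ^ (-n).toNat = y ^ n.toNat := by
    intro y hy n
    rw [← zpow_natCast, ← zpow_natCast, ← zpow_add₀ hy]
    congr 1
    omega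
  simp only [P, eval_sub, eval_mul, eval_pow, eval_C, eval_X, eval_one]
  rw [← spl hz p, ← spl h1z q]
  linear_combination (z ^ (-p).toNat * (1 - z) ^ (-q).toNat) * h

private theorem fix_mono {F : Type} [Field F] (x z : F) (u : Fin 2 ⊕ Fin 2 → ℤ) :
    mono (co ![x, z]) u = x ^ u (Sum.inl 0) * (1 - x) ^ u (Sum.inr 0) *
      (z ^ u (Sum.inl 1) * (1 - z) ^ u (Sum.inr 1)) := by
  unfold mono co
  rw [Fintype.prod_sum_type, Fin.prod_univ_two, Fin.prod_univ_two]
  simp only [Sum.elim_inl, Sum.elim_inr, Matrix.cons_val_zero, Matrix.cons_val_one]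
  ring

/-- A relation between `x` and `z` has finitely many solutions `z`. -/
theorem fix_one_rel {F : Type} [Field F] {x : F} (hx : x ≠ 0) (hx1 : x ≠ 1) (hmi : CITNF.MI x)
    {u : Fin 2 ⊕ Fin 2 → ℤ} (hu : u ≠ 0) :
    {z : F | z ≠ 0 ∧ z ≠ 1 ∧ mono (co ![x, z]) u = 1}.Finite := by
  have h1x : 1 - x ≠ 0 := sub_ne_zero.2 (Ne.symm hx1)
  by_cases hpq : u (Sum.inl 1) ≠ 0 ∨ u (Sum.inr 1) ≠ 0
  · refine (fix_roots (c := x ^ u (Sum.inl 0) * (1 - x) ^ u (Sum.inr 0))
      (mul_ne_zero (zpow_ne_zero _ hx) (zpow_ne_zero _ h1x)) _ _ hpq).subset ?_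
    rintro z ⟨h1, h2, h3⟩
    rw [fix_mono] at h3
    exact ⟨h1, h2, h3⟩
  · push Not at hpq
    refine Set.finite_empty.subset ?_
    rintro z ⟨h1, h2, h3⟩
    rw [fix_mono, hpq.1, hpq.2, zpow_zero, zpow_zero, one_mul, mul_one] at h3
    obtain ⟨e0, e1⟩ := hmi _ _ h3
    apply hu
    funext i
    rcases i with i | i <;> fin_cases i
    · exact e0
    · exact hpq.1
    · exact e1
    · exact hpq.2

/-! ### The algebraic case -/

/-- The number `z` has normalised height at most `H`. -/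
private def Hb (z : ℂ) (H : ℝ) : Prop :=
  ∀ (K : Type) [Field K] [NumberField K] (φ : K →+* ℂ) (w : K), φ w = z → Leh2.nh w ≤ H

private theorem fix_alg {x z : ℂ} (halg : IsAlgebraic ℚ x) (hx : x ≠ 0) (hx1 : x ≠ 1)
    (hmi : CITNF.MI x) (hz : z ≠ 0) (hz1 : z ≠ 1) (h : RankLe 2 (co ![x, z])) :
    IsAlgebraic ℚ z := by
  obtain ⟨⟨N, a, b, hN, e⟩, -⟩ := fix_power hx hx1 hmi hz hz1 h
  have h1 : IsAlgebraic ℚ (1 - x) := isAlgebraic_one.sub halg
  have hzp : ∀ {y : ℂ} (_ : IsAlgebraic ℚ y) (n : ℤ), IsAlgebraic ℚ (y ^ n) := by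
    intro y hy n
    rcases Int.le_total 0 n with hn | hn
    · obtain ⟨m, rfl⟩ := Int.eq_ofNat_of_zero_le hn
      rw [zpow_natCast]
      exact hy.pow m
    · obtain ⟨m, hm⟩ := Int.eq_ofNat_of_zero_le (show 0 ≤ -n by omega)
      have : n = -(m : ℤ) := by omega
      rw [this, zpow_neg, zpow_natCast]
      exact (hy.pow m).inv
  have h2 : IsAlgebraic ℚ (z ^ N) := by
    rw [e]
    exact (hzp halg a).mul (hzp h1 b)
  have h3 : IsAlgebraic ℚ (z ^ N.natAbs) := by
    rcases Int.le_total 0 N with hn | hn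
    · have : N = (N.natAbs : ℤ) := by omega
      rw [this, zpow_natCast] at h2
      exact h2
    · have : N = -(N.natAbs : ℤ) := by omega
      rw [this, zpow_neg, zpow_natCast] at h2
      exact (IsAlgebraic.inv_iff).1 h2
  exact IsAlgebraic.of_pow (by omega) h3

private theorem fix_field (S : Set ℂ) (hS : S.Finite) (h : ∀ z ∈ S, IsAlgebraic ℚ z) :
    NumberField (IntermediateField.adjoin ℚ S) := by
  have hf : FiniteDimensional ℚ (IntermediateField.adjoin ℚ S) := by
    have := hS.to_subtype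
    exact IntermediateField.finiteDimensional_adjoin fun z hz => (h z hz).isIntegral
  exact { to_charZero := inferInstance, to_finiteDimensional := hf }

private theorem fix_small {x : ℂ} (halg : IsAlgebraic ℚ x) (hx : x ≠ 0) (hx1 : x ≠ 1)
    (hmi : CITNF.MI x) (H : ℝ) :
    {z : ℂ | z ≠ 0 ∧ z ≠ 1 ∧ RankLe 2 (co ![x, z]) ∧ Hb z H}.Finite := by
  classical
  -- the height of `x`
  have hnf := fix_field {x} (Set.finite_singleton x) (by rintro z rfl; exact halg)
  set Kx := IntermediateField.adjoin ℚ {x} with hKx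
  have hxK : x ∈ Kx := IntermediateField.subset_adjoin ℚ _ rfl
  set H' : ℝ := max H (Leh2.nh (⟨x, hxK⟩ : Kx)) with hH'
  -- the curve
  set F : MvPolynomial (Fin 2) ℚ := Polynomial.aeval (MvPolynomial.X 0) (minpoly ℚ x) with hF
  have hF0 : F ≠ 0 := by
    intro h0
    have h1 : minpoly ℚ x ≠ 0 := minpoly.ne_zero halg.isIntegral
    apply h1
    have h2 := MvPolynomial.algebraicIndependent_X (Fin 2) ℚ
    have h3 : Transcendental ℚ (MvPolynomial.X 0 : MvPolynomial (Fin 2) ℚ) := h2.transcendental 0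
    exact (transcendental_iff.1 h3) _ h0
  obtain ⟨E, hE0, hE⟩ := pairs_on_curves RelC.shortOne H' {F} (by
    rw [Finset.mem_singleton]; exact hF0.symm)
  refine (Set.Finite.biUnion (E.finite_toSet) (t := fun u =>
    {z : ℂ | z ≠ 0 ∧ z ≠ 1 ∧ mono (co ![x, z]) u = 1}) fun u hu => ?_).subset ?_
  · refine fix_one_rel hx hx1 hmi ?_
    rintro rfl
    exact hE0 hu
  · rintro z ⟨hz, hz1, hR, hb⟩
    have hzalg := fix_alg halg hx hx1 hmi hz hz1 hR
    have hnf2 := fix_field {x, z} (by simp) (by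
      rintro w (rfl | rfl)
      · exact halg
      · exact hzalg)
    set K := IntermediateField.adjoin ℚ {x, z} with hK
    have m1 : x ∈ K := IntermediateField.subset_adjoin ℚ _ (by simp)
    have m2 : z ∈ K := IntermediateField.subset_adjoin ℚ _ (by simp)
    let φ : K →+* ℂ := algebraMap K ℂ
    let y : Fin 2 → K := ![⟨x, m1⟩, ⟨z, m2⟩]
    have hy : ∀ i, φ (y i) = ![x, z] i := by
      intro i
      fin_cases i <;> rfl
    have hyco : ∀ u, mono (co ![x, z]) u = φ (mono (co y) u) := by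
      intro u
      have e : co ![x, z] = fun i => φ (co y i) := by
        funext i
        rcases i with i | i
        · exact (hy i).symm
        · simp only [co, Sum.elim_inr]
          rw [map_sub, map_one, hy]
      rw [e]
      unfold mono
      rw [map_prod]
      exact Finset.prod_congr rfl fun i _ => (map_zpow₀ φ _ _).symm
    have hy01 : ∀ i, y i ≠ 0 ∧ y i ≠ 1 := by
      intro i
      have e := hy i
      constructor
      · intro h0
        rw [h0, map_zero] at e
        fin_cases i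
        · exact hx e.symm
        · exact hz e.symm
      · intro h0
        rw [h0, map_one] at e
        fin_cases i
        · exact hx1 e.symm
        · exact hz1 e.symm
    have hRy : RankLe 2 (co y) := by
      apply RankLe.of_map φ
      convert hR using 2 with i
      rcases i with i | i
      · exact hy i
      · simp only [co, Sum.elim_inr]
        rw [map_sub, map_one, hy]
    have hd : (0 : ℝ) < finrank ℚ K := Nat.cast_pos.2 finrank_pos
    have hht : ∀ i, logHeight₁ (y i) ≤ H' * finrank ℚ K := by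
      intro i
      have e : Leh2.nh (y i) ≤ H' := by
        fin_cases i
        · refine le_trans (le_of_eq ?_) (le_max_right _ _)
          exact nh_unique φ (algebraMap Kx ℂ) _ _ rfl
        · refine le_trans ?_ (le_max_left _ _)
          exact hb K φ _ rfl
      unfold Leh2.nh at e
      rwa [div_le_iff₀ hd] at e
    have hFy : MvPolynomial.aeval y F = 0 := by
      have e1 : MvPolynomial.aeval y F = Polynomial.aeval (y 0) (minpoly ℚ x) := by
        rw [hF, ← Polynomial.aeval_algHom_apply]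
        rw [MvPolynomial.aeval_X]
      rw [e1]
      apply φ.injective
      rw [map_zero]
      have e2 : φ (Polynomial.aeval (y 0) (minpoly ℚ x)) = Polynomial.aeval x (minpoly ℚ x) := by
        have := Polynomial.aeval_algebraMap_apply ℂ (y 0) (minpoly ℚ x)
        exact this.symm
      rw [e2]
      exact minpoly.aeval ℚ x
    obtain ⟨u, hu, hu1⟩ := hE K y hy01 hRy hht ⟨F, Finset.mem_singleton_self F, hFy⟩
    refine Set.mem_biUnion (Finset.mem_coe.2 hu) ⟨hz, hz1, ?_⟩
    rw [hyco, hu1, map_one]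

private theorem fix_big {x : ℂ} (halg : IsAlgebraic ℚ x) (hx : x ≠ 0) (hx1 : x ≠ 1)
    (hmi : CITNF.MI x) : ∃ H : ℝ, ∀ z z' : ℂ, z ≠ 0 → z ≠ 1 → RankLe 2 (co ![x, z]) → ¬ Hb z H →
      z' ≠ 0 → z' ≠ 1 → RankLe 2 (co ![x, z']) → ¬ Hb z' H → CITNF.Eqv z z' := by
  obtain ⟨H, -, hH⟩ := MinHt.min_height
  refine ⟨H, ?_⟩
  intro z z' hz hz1 hR hb hz' hz1' hR' hb'
  have hzalg := fix_alg halg hx hx1 hmi hz hz1 hR
  have hzalg' := fix_alg halg hx hx1 hmi hz' hz1' hR'
  have hnf := fix_field {x, z, z'} (by simp) (by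
    rintro w (rfl | rfl | rfl)
    · exact halg
    · exact hzalg
    · exact hzalg')
  set K := IntermediateField.adjoin ℚ {x, z, z'} with hK
  have m1 : x ∈ K := IntermediateField.subset_adjoin ℚ _ (by simp)
  have m2 : z ∈ K := IntermediateField.subset_adjoin ℚ _ (by simp)
  have m3 : z' ∈ K := IntermediateField.subset_adjoin ℚ _ (by simp)
  let φ : K →+* ℂ := algebraMap K ℂ
  have hd : (0 : ℝ) < finrank ℚ K := Nat.cast_pos.2 finrank_pos
  have big : ∀ (w : ℂ) (hw : w ∈ K), ¬ Hb w H → H * finrank ℚ K < logHeight₁ (⟨w, hw⟩ : K) := by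
    intro w hw h
    unfold Hb at h
    push Not at h
    obtain ⟨K', _, _, φ', w', h1, h2⟩ := h
    have e := nh_unique φ φ' (⟨w, hw⟩ : K) w' (by rw [h1]; rfl)
    rw [← e] at h2
    unfold Leh2.nh at h2
    rwa [lt_div_iff₀ hd] at h2
  have hrel := fix_rel2 hx hx1 hmi hz hz1 hR hz' hz1' hR'
  have hrelK : CITNF.Rel2 (⟨z, m2⟩ : K) (⟨z', m3⟩ : K) := by
    obtain ⟨a, b, h1, h2, h3⟩ := hrel
    have key : ∀ a : Fin 4 → ℤ, CITNF.R z z' a = φ (CITNF.R (⟨z, m2⟩ : K) (⟨z', m3⟩ : K) a) := by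
      intro a
      unfold CITNF.R
      rw [map_mul, map_mul, map_mul, map_zpow₀, map_zpow₀, map_zpow₀, map_zpow₀, map_sub, map_sub,
        map_one]
      rfl
    refine ⟨a, b, h1, φ.injective ?_, φ.injective ?_⟩
    · rw [← key, h2, map_one]
    · rw [← key, h3, map_one]
  have hne : ∀ (w : ℂ) (hw : w ∈ K), w ≠ 0 → (⟨w, hw⟩ : K) ≠ 0 := by
    intro w hw h h0
    exact h (congrArg Subtype.val h0)
  have hne1 : ∀ (w : ℂ) (hw : w ∈ K), w ≠ 1 → (⟨w, hw⟩ : K) ≠ 1 := by
    intro w hw h h0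
    exact h (congrArg Subtype.val h0)
  by_contra hcon
  have hE : ¬ CITNF.Eqv (⟨z, m2⟩ : K) (⟨z', m3⟩ : K) := by
    intro h
    apply hcon
    unfold CITNF.Eqv at h ⊢
    rcases h with h | h | h | h | h | h <;> have h' := congrArg φ h <;>
      try simp only [map_sub, map_one, map_inv₀, map_div₀] at h'
    · exact Or.inl h'
    · exact Or.inr (Or.inl h')
    · exact Or.inr (Or.inr (Or.inl h'))
    · exact Or.inr (Or.inr (Or.inr (Or.inl h')))
    · exact Or.inr (Or.inr (Or.inr (Or.inr (Or.inl h'))))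
    · exact Or.inr (Or.inr (Or.inr (Or.inr (Or.inr h'))))
  have e := hH K _ _ (hne z m2 hz) (hne1 z m2 hz1) (hne z' m3 hz') (hne1 z' m3 hz1') hrelK hE
  have g1 := big z m2 hb
  have g2 := big z' m3 hb'
  rcases min_le_iff.1 e with e | e <;> linarith

private theorem eqv_finite {F : Type} [Field F] (z : F) : {z' : F | CITNF.Eqv z z'}.Finite := by
  refine (Set.toFinite ({z, 1 - z, z⁻¹, (1 - z)⁻¹, z / (z - 1), (z - 1) / z} : Set F)).subset ?_
  intro z' h
  simp only [Set.mem_insert_iff, Set.mem_singleton_iff]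
  exact h

/-- **FIX**, algebraic case. -/
theorem fix_algebraic {x : ℂ} (halg : IsAlgebraic ℚ x) (hx : x ≠ 0) (hx1 : x ≠ 1)
    (hmi : CITNF.MI x) : {z : ℂ | z ≠ 0 ∧ z ≠ 1 ∧ RankLe 2 (co ![x, z])}.Finite := by
  obtain ⟨H, hH⟩ := fix_big halg hx hx1 hmi
  by_cases hex : ∃ z : ℂ, z ≠ 0 ∧ z ≠ 1 ∧ RankLe 2 (co ![x, z]) ∧ ¬ Hb z H
  · obtain ⟨z, hz, hz1, hR, hb⟩ := hex
    refine ((fix_small halg hx hx1 hmi H).union (eqv_finite z)).subset ?_
    rintro z' ⟨hz', hz1', hR'⟩
    by_cases hb' : Hb z' H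
    · exact Or.inl ⟨hz', hz1', hR', hb'⟩
    · exact Or.inr (hH z z' hz hz1 hR hb hz' hz1' hR' hb')
  · push Not at hex
    refine (fix_small halg hx hx1 hmi H).subset ?_
    rintro z ⟨hz, hz1, hR⟩
    exact ⟨hz, hz1, hR, hex z hz hz1 hR⟩

/-! ### The transcendental case -/

open IntermediateField in
private theorem embed_gen {k E Ω : Type} [Field k] [Field E] [Algebra k E] [Field Ω] [Algebra k Ω]
    (x : E) (h : Transcendental k x) (t : Ω) (ht : Transcendental k t) :
    ∃ g : k⟮x⟯ →+* Ω, g (AdjoinSimple.gen k x) = t := by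
  let e1 := RatFunc.algEquivOfTranscendental x h
  let e2 := RatFunc.algEquivOfTranscendental t ht
  refine ⟨(algebraMap k⟮t⟯ Ω).comp (e2.toRingEquiv.toRingHom.comp
    e1.symm.toRingEquiv.toRingHom), ?_⟩
  change algebraMap k⟮t⟯ Ω (e2 (e1.symm _)) = t
  rw [RatFunc.algEquivOfTranscendental_symm_gen]
  exact RatFunc.algEquivOfTranscendental_X t ht

private theorem lift_gen {F L Ω : Type} [Field F] [Field L] [Field Ω] [IsAlgClosed Ω] [Algebra F L]
    {z : L} (hz : IsIntegral F z) (g : F →+* Ω) :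
    ∃ f : (IntermediateField.adjoin F {z}) →+* Ω, ∀ a : F, f (algebraMap F _ a) = g a := by
  let _ : Algebra F Ω := g.toAlgebra
  have hMalg : Algebra.IsAlgebraic F (IntermediateField.adjoin F {z}) :=
    IntermediateField.isAlgebraic_adjoin_simple hz
  let f : (IntermediateField.adjoin F {z}) →ₐ[F] Ω := IsAlgClosed.lift
  exact ⟨f.toRingHom, fun a => f.commutes a⟩

/-- A field generated over `ℚ(x)`, `x` transcendental, by an algebraic element embeds into a field
which contains `ℂ`, with `x` transcendental over `ℂ`. -/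
private theorem fix_embed {x : ℂ} (htr : Transcendental ℚ x) {z : ℂ}
    (hz : IsAlgebraic (IntermediateField.adjoin ℚ {x}) z) :
    ∃ (Ω : Type) (_ : Field Ω) (_ : Algebra ℂ Ω) (M : Subfield ℂ) (f : M →+* Ω) (hx : x ∈ M)
      (_ : z ∈ M), Transcendental ℂ (f ⟨x, hx⟩) := by
  let Ω := AlgebraicClosure (RatFunc ℂ)
  let t : Ω := algebraMap (RatFunc ℂ) Ω RatFunc.X
  have ht : Transcendental ℂ t :=
    (transcendental_algebraMap_iff (algebraMap (RatFunc ℂ) Ω).injective).2 RatFunc.transcendental_X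
  have : CharZero Ω := charZero_of_injective_algebraMap (algebraMap ℂ Ω).injective
  have htQ : Transcendental ℚ t := by
    intro h
    apply ht
    obtain ⟨p, hp0, hp⟩ := h
    refine ⟨p.map (algebraMap ℚ ℂ), ?_, ?_⟩
    · rwa [Ne, Polynomial.map_eq_zero]
    · rw [Polynomial.aeval_map_algebraMap]
      exact hp
  obtain ⟨g, hg⟩ := embed_gen x htr t htQ
  obtain ⟨f, hf⟩ := lift_gen hz.isIntegral g
  have hxM : x ∈ IntermediateField.adjoin (IntermediateField.adjoin ℚ {x}) {z} :=
    IntermediateField.algebraMap_mem _ (IntermediateField.AdjoinSimple.gen ℚ x)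
  refine ⟨Ω, inferInstance, inferInstance,
    (IntermediateField.adjoin (IntermediateField.adjoin ℚ {x}) {z}).toSubfield, f, hxM,
    IntermediateField.subset_adjoin _ _ rfl, ?_⟩
  have e3 : f ⟨x, hxM⟩ = t := by
    have := hf (IntermediateField.AdjoinSimple.gen ℚ x)
    rw [hg] at this
    exact this
  rw [e3]
  exact ht

private theorem eqv_symm {F : Type} [Field F] {x y : F} (hy : y ≠ 0) (hy1 : y ≠ 1)
    (h : CITNF.Eqv y x) : CITNF.Eqv x y := by
  have h1 : 1 - y ≠ 0 := sub_ne_zero.2 (Ne.symm hy1)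
  have h1' : y - 1 ≠ 0 := sub_ne_zero.2 hy1
  unfold CITNF.Eqv at h ⊢
  rcases h with h | h | h | h | h | h
  · left; exact h.symm
  · right; left; rw [h]; ring
  · right; right; left; rw [h, inv_inv]
  · right; right; right; right; right
    rw [h, eq_div_iff (inv_ne_zero h1)]
    field_simp
    ring
  · right; right; right; right; left
    have h2 : y / (y - 1) - 1 ≠ 0 := by
      rw [div_sub_one h1']
      exact div_ne_zero (by ring_nf; exact one_ne_zero) h1'
    rw [h, eq_div_iff h2]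
    field_simp
    ring
  · right; right; right; left
    rw [h]
    field_simp
    ring

private theorem eqv_of_hom {F G : Type} [Field F] [Field G] (f : F →+* G) {x y : F}
    (h : LThree.Eqv (f x) (f y)) : CITNF.Eqv x y := by
  unfold LThree.Eqv at h
  unfold CITNF.Eqv
  rcases h with h | h | h | h | h | h
  · exact Or.inl (f.injective h)
  · refine Or.inr (Or.inl (f.injective ?_))
    rw [h, map_sub, map_one]
  · refine Or.inr (Or.inr (Or.inl (f.injective ?_)))
    rw [h, map_inv₀]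
  · refine Or.inr (Or.inr (Or.inr (Or.inl (f.injective ?_))))
    rw [h, map_inv₀, map_sub, map_one]
  · refine Or.inr (Or.inr (Or.inr (Or.inr (Or.inl (f.injective ?_)))))
    rw [h, map_div₀, map_sub, map_one]
  · refine Or.inr (Or.inr (Or.inr (Or.inr (Or.inr (f.injective ?_)))))
    rw [h, map_div₀, map_sub, map_one]

/-- **FIX**, transcendental case: `z` is equivalent to `x` or a sixth root of unity. -/
theorem fix_transcendental {x z : ℂ} (htr : Transcendental ℚ x) (hz : z ≠ 0) (hz1 : z ≠ 1)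
    (hmi : CITNF.MI x) (h : RankLe 2 (co ![x, z])) : CITNF.Eqv x z ∨ z ^ 6 = 1 := by
  have hx : x ≠ 0 := by
    rintro rfl
    exact htr isAlgebraic_zero
  have hx1 : x ≠ 1 := by
    rintro rfl
    exact htr isAlgebraic_one
  have h1x : 1 - x ≠ 0 := sub_ne_zero.2 (Ne.symm hx1)
  have h1z : 1 - z ≠ 0 := sub_ne_zero.2 (Ne.symm hz1)
  obtain ⟨⟨N, a, b, hN, e⟩, ⟨N', a', b', hN', e'⟩⟩ := fix_power hx hx1 hmi hz hz1 h
  -- `z` is algebraic over `ℚ(x)`
  have hzalg : IsAlgebraic (IntermediateField.adjoin ℚ {x}) z := by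
    set F0 := IntermediateField.adjoin ℚ {x} with hF0
    have hxF : x ∈ F0 := IntermediateField.subset_adjoin ℚ _ rfl
    have hc : x ^ a * (1 - x) ^ b ∈ F0 :=
      mul_mem (zpow_mem hxF a) (zpow_mem (sub_mem (one_mem _) hxF) b)
    have h2 : IsAlgebraic F0 (z ^ N) := by
      rw [e]
      exact isAlgebraic_algebraMap (⟨_, hc⟩ : F0)
    have h3 : IsAlgebraic F0 (z ^ N.natAbs) := by
      rcases Int.le_total 0 N with hn | hn
      · have : N = (N.natAbs : ℤ) := by omega
        rw [this, zpow_natCast] at h2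
        exact h2
      · have : N = -(N.natAbs : ℤ) := by omega
        rw [this, zpow_neg, zpow_natCast] at h2
        exact (IsAlgebraic.inv_iff).1 h2
    exact IsAlgebraic.of_pow (by omega) h3
  obtain ⟨Ω, _, _, M, f, hxM, hzM, ht⟩ := fix_embed htr hzalg
  set X : M := ⟨x, hxM⟩
  set Z : M := ⟨z, hzM⟩
  have hX : X ≠ 0 := fun h => hx (congrArg Subtype.val h)
  have hX1 : X ≠ 1 := fun h => hx1 (congrArg Subtype.val h)
  have hZ : Z ≠ 0 := fun h => hz (congrArg Subtype.val h)
  have hZ1 : Z ≠ 1 := fun h => hz1 (congrArg Subtype.val h)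
  have hval : ∀ (i j k l : ℤ), x ^ i * (1 - x) ^ j * (z ^ k * (1 - z) ^ l) = 1 →
      f X ^ i * (1 - f X) ^ j * (f Z ^ k * (1 - f Z) ^ l) = 1 := by
    intro i j k l hh
    have h2 : X ^ i * (1 - X) ^ j * (Z ^ k * (1 - Z) ^ l) = 1 := by
      apply Subtype.ext
      push_cast
      exact hh
    have h3 := congrArg f h2
    simpa only [map_mul, map_zpow₀, map_sub, map_one] using h3
  let ξ : Fin 2 → Ω := ![f X, f Z]
  have hξ0 : ∀ i, ξ i ≠ 0 := by
    intro i
    fin_cases i
    · exact (map_ne_zero f).2 hX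
    · exact (map_ne_zero f).2 hZ
  have hξ1 : ∀ i, ξ i ≠ 1 := by
    intro i
    fin_cases i
    · intro h0
      exact hX1 (f.injective (by rw [map_one]; exact h0))
    · intro h0
      exact hZ1 (f.injective (by rw [map_one]; exact h0))
  let u : Fin 2 ⊕ Fin 2 → ℤ := Sum.elim ![-a, N] ![-b, 0]
  let v : Fin 2 ⊕ Fin 2 → ℤ := Sum.elim ![-a', 0] ![-b', N']
  have hu : mono (co ξ) u = 1 := by
    rw [show ξ = ![f X, f Z] from rfl, fix_mono]
    refine hval (-a) (-b) N 0 ?_
    rw [e, zpow_zero, mul_one, zpow_neg, zpow_neg]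
    field_simp
  have hv : mono (co ξ) v = 1 := by
    rw [show ξ = ![f X, f Z] from rfl, fix_mono]
    refine hval (-a') (-b') 0 N' ?_
    rw [e', zpow_zero, one_mul, zpow_neg, zpow_neg]
    field_simp
  have hind : LinearIndependent ℤ ![u, v] := by
    rw [LinearIndependent.pair_iff]
    intro s t hst
    have q1 := congrFun hst (Sum.inl 1)
    have q2 := congrFun hst (Sum.inr 1)
    simp only [Pi.add_apply, Pi.smul_apply, smul_eq_mul, u, v, Sum.elim_inl, Sum.elim_inr,
      Matrix.cons_val_one, Pi.zero_apply] at q1 q2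
    have q1' : s * N + t * 0 = 0 := q1
    have q2' : s * 0 + t * N' = 0 := q2
    rw [mul_zero, add_zero] at q1'
    rw [mul_zero, zero_add] at q2'
    exact ⟨(mul_eq_zero.1 q1').resolve_right hN, (mul_eq_zero.1 q2').resolve_right hN'⟩
  have hsub : ∀ {y w : M}, CITNF.Eqv y w → CITNF.Eqv (y : ℂ) (w : ℂ) := by
    intro y w hh
    unfold CITNF.Eqv at hh ⊢
    rcases hh with h | h | h | h | h | h <;> have h' := congrArg Subtype.val h <;>
      try push_cast at h'
    · exact Or.inl h'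
    · exact Or.inr (Or.inl h')
    · exact Or.inr (Or.inr (Or.inl h'))
    · exact Or.inr (Or.inr (Or.inr (Or.inl h')))
    · exact Or.inr (Or.inr (Or.inr (Or.inr (Or.inl h'))))
    · exact Or.inr (Or.inr (Or.inr (Or.inr (Or.inr h'))))
  rcases RelC.ff_pair ξ hξ0 hξ1 ⟨0, ht⟩ u v hind hu hv with h2 | h2 | h2 | h2
  · exact Or.inl (hsub (eqv_of_hom f h2))
  · exact Or.inl (eqv_symm hz hz1 (hsub (eqv_of_hom f h2)))
  · exfalso
    have h3 : f X ^ 6 = 1 := h2
    exact ht ⟨Polynomial.X ^ 6 - 1,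
      (Polynomial.monic_X_pow_sub_C (1 : ℂ) (by norm_num)).ne_zero, by simp [h3]⟩
  · right
    have h3 : f Z ^ 6 = 1 := h2
    have h4 : Z ^ 6 = 1 := f.injective (by rw [map_pow, h3, map_one])
    have h5 := congrArg Subtype.val h4
    push_cast at h5
    exact h5

/-- **FIX.** If `x, 1 - x` are multiplicatively independent then `x, 1 - x, z, 1 - z` have rank two
for finitely many `z` only. -/
theorem fix_finite {x : ℂ} (hmi : CITNF.MI x) :
    {z : ℂ | z ≠ 0 ∧ z ≠ 1 ∧ RankLe 2 (co ![x, z])}.Finite := by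
  classical
  have hx : x ≠ 0 := by
    rintro rfl
    have := hmi 0 1 (by simp)
    exact one_ne_zero this.2
  have hx1 : x ≠ 1 := by
    rintro rfl
    have := hmi 1 0 (by simp)
    exact one_ne_zero this.1
  by_cases halg : IsAlgebraic ℚ x
  · exact fix_algebraic halg hx hx1 hmi
  · have h6 : {z : ℂ | z ^ 6 = 1}.Finite := by
      have hp : (Polynomial.X ^ 6 - 1 : Polynomial ℂ) ≠ 0 :=
        (Polynomial.monic_X_pow_sub_C (1 : ℂ) (by norm_num)).ne_zero
      refine ((Polynomial.X ^ 6 - 1 : Polynomial ℂ).roots.toFinset.finite_toSet).subset ?_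
      intro z hz
      rw [Finset.mem_coe, Multiset.mem_toFinset, Polynomial.mem_roots hp]
      have hz' : z ^ 6 = 1 := hz
      simp [Polynomial.IsRoot.def, hz']
    refine ((eqv_finite x).union h6).subset ?_
    rintro z ⟨hz, hz1, hR⟩
    exact fix_transcendental halg hz hz1 hmi hR

end Pool.Agent.L3S
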