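import Pool.Agent.L3S.Cfg
import Pool.Agent.LThree.Good

set_option autoImplicit false

/-! Package U3: the large coordinate is exponentially small at many places, up to symmetry. -/

namespace Pool.Agent.L3S

open NumberField Height Real Module Pool.Agent.LThree

private theorem gm_place {K : Type} [Field K] (v : InfinitePlace K) (x : K) :
    v x = ‖v.embedding x‖ := (InfinitePlace.norm_embedding_eq v x).symm

private theorem gm_sixth {K : Type} [Field K] (v : InfinitePlace K) (x : K) (hx : x ≠ 0)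
    (hx1 : x ≠ 1) (δ : ℝ) (hδ : δ ≤ 1) (h0 : |log (v x)| ≤ δ) (h1 : |log (v (1 - x))| ≤ δ) :
    v (x ^ 2 - x + 1) ≤ 40 * δ := by
  have hw0 : v.embedding x ≠ 0 := fun h => hx (by simpa using h)
  have hw1 : v.embedding x ≠ 1 := fun h => hx1 (by
    apply v.embedding.injective; rw [h, map_one])
  have := near_sixth (v.embedding x) hw0 hw1 δ hδ (by rw [← gm_place]; exact h0)
    (by
      have : ‖1 - v.embedding x‖ = v (1 - x) := by rw [gm_place, map_sub, map_one]
      rw [this]; exact h1)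
  rw [gm_place]
  simpa using this

/-- one number between two exponentials -/
private theorem gm_pl {K : Type} [Field K] (v : InfinitePlace K) (w : K) {M H t0 : ℝ}
    (hH : 0 < H) (hM : 32 ≤ M) (ht : 1 / M ≤ t0) (hw : 0 < v w)
    (h1 : -(32 * H) ≤ log (v w)) (h2 : log (v w) ≤ -(t0 * H)) : Pl M H w v := by
  constructor
  · rw [← le_log_iff_exp_le hw]
    have : 32 * H ≤ M * H := mul_le_mul_of_nonneg_right hM hH.le
    linarith
  · rw [← log_le_iff_le_exp hw]
    have h3 : 1 / M * H ≤ t0 * H := mul_le_mul_of_nonneg_right ht hH.le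
    have h4 : H / M = 1 / M * H := by ring
    rw [h4]
    linarith

/-- The local statement. -/
private theorem gm_local {K : Type} [Field K] [NumberField K] (v : InfinitePlace K) (x z : K)
    (α β α' β' : ℝ) (hx : x ≠ 0) (hx1 : x ≠ 1) (hz : z ≠ 0) (hz1 : z ≠ 1)
    (hT : Tied z x α β) (hT' : Tied z (1 - x) α' β') (M H U t0 δ : ℝ) (hH : 0 < H)
    (hL : log 2 ≤ t0 * H) (hM : 32 ≤ M) (ht : 1 / M ≤ t0)
    (h1 : |α| * H ≤ U / 2) (h2 : |β| * H ≤ U / 2) (h1' : |α'| * H ≤ U / 2)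
    (h2' : |β'| * H ≤ U / 2) (hz2 : |log (v z)| < 32 * H) (hz3 : |log (v (1 - z))| < 32 * H)
    (hδ1 : δ ≤ 1) (hδ : 2 * U * (t0 * H) ≤ δ * H) :
    ((Pl M H z v ∨ Pl M H (1 - z) v) ∨ Pl M H z⁻¹ v) ∨ v (x ^ 2 - x + 1) ≤ 40 * δ := by
  have hL0 : 0 < t0 * H := lt_of_lt_of_le (log_pos (by norm_num)) hL
  have hw0 : v.embedding z ≠ 0 := fun h => hz (by simpa using h)
  have hw1 : v.embedding z ≠ 1 := fun h => hz1 (by
    apply v.embedding.injective; rw [h, map_one])
  have hz' : ‖v.embedding z‖ = v z := (gm_place v z).symm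
  have h1z' : ‖1 - v.embedding z‖ = v (1 - z) := by
    rw [gm_place, map_sub, map_one]
  have htri := trichotomy (v.embedding z) hw0 hw1 (t0 * H) hL
  rw [hz', h1z'] at htri
  have hvz : 0 < v z := InfinitePlace.pos_iff.mpr hz
  have hv1z : 0 < v (1 - z) := InfinitePlace.pos_iff.mpr (sub_ne_zero.mpr (Ne.symm hz1))
  rw [abs_lt] at hz2 hz3
  rcases htri with ⟨a, -⟩ | ⟨a, -⟩ | ⟨a, -⟩ | ⟨a, b⟩
  · refine Or.inl (Or.inl (Or.inl (gm_pl v z hH hM ht hvz hz2.1.le ?_)))
    rw [← log_exp (-(t0 * H))]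
    exact log_le_log hvz a
  · refine Or.inl (Or.inl (Or.inr (gm_pl v (1 - z) hH hM ht hv1z hz3.1.le ?_)))
    rw [← log_exp (-(t0 * H))]
    exact log_le_log hv1z a
  · refine Or.inl (Or.inr (gm_pl v z⁻¹ hH hM ht ?_ ?_ ?_))
    · exact InfinitePlace.pos_iff.mpr (inv_ne_zero hz)
    · rw [map_inv₀, log_inv]
      linarith [hz2.2]
    · rw [map_inv₀, log_inv]
      have h3 : t0 * H ≤ log (v z) := by
        rw [← log_exp (t0 * H)]
        exact log_le_log (exp_pos _) a
      linarith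
  · right
    have key : ∀ (f : K) (a' b' : ℝ), Tied z f a' b' → |a'| * H ≤ U / 2 → |b'| * H ≤ U / 2 →
        |log (v f)| ≤ δ := by
      intro f a' b' hf ha hb
      have ha' : |a'| ≤ U / 2 / H := by rwa [le_div_iff₀ hH]
      have hb' : |b'| ≤ U / 2 / H := by rwa [le_div_iff₀ hH]
      have hU : 0 ≤ U / 2 / H := (abs_nonneg a').trans ha'
      rw [hf.inf v]
      have e1 : |a' * log (v z)| ≤ U / 2 / H * (2 * (t0 * H)) := by
        rw [abs_mul]; exact mul_le_mul ha' a (abs_nonneg _) hU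
      have e2 : |b' * log (v (1 - z))| ≤ U / 2 / H * (2 * (t0 * H)) := by
        rw [abs_mul]; exact mul_le_mul hb' b (abs_nonneg _) hU
      have e3 : U / 2 / H * (2 * (t0 * H)) + U / 2 / H * (2 * (t0 * H)) ≤ δ := by
        have : U / 2 / H * (2 * (t0 * H)) + U / 2 / H * (2 * (t0 * H)) =
            2 * U * (t0 * H) / H := by ring
        rw [this, div_le_iff₀ hH]
        exact hδ
      exact (abs_add_le _ _).trans ((add_le_add e1 e2).trans e3)
    exact gm_sixth v x hx hx1 δ hδ1 (key x α β hT h1 h2) (key (1 - x) α' β' hT' h1' h2')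

/-- **Good places.** The proof of `LThree.good_places` (`LThree/Good.lean`) gives this: a place
`v` is bad only if (i) `|log (v z)| ≥ 32 H` or `|log (v (1-z))| ≥ 32 H` (mass `≤ D/4` by
`mass_large`), or (ii) it is in the fourth case of `trichotomy` with `L = t0 H` (then
`|log (v x)|`, `|log (v (1-x))|` are `≤ δ`, so `v (x² - x + 1) ≤ 40 δ`, mass `≤ D/4` by
`mass_sixth`, `sixth_of_small`). In the first case of `trichotomy`
`exp (-(32 H)) ≤ v z ≤ exp (-(t0 H))`, in the second the same for `1 - z`, in the third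
`v z ≥ exp (t0 H)`, `v z⁻¹ ≤ exp (-(t0 H))`. Take `M = max 32 (1 / t0)`.
(`|log (v (1 - z))| ≤ 32 H` etc. give the lower bounds.) -/
theorem good_mass (H0 : ℝ) (hH0 : 0 ≤ H0) : ∃ M H1 : ℝ, 1 ≤ M ∧
    ∀ (H : ℝ), H1 ≤ H → ∀ (K : Type) [Field K] [NumberField K] (x z : K) (α β α' β' : ℝ),
      x ≠ 0 → x ≠ 1 → z ≠ 0 → z ≠ 1 → x ^ 2 - x + 1 ≠ 0 →
      Tied z x α β → Tied z (1 - x) α' β' → logHeight₁ x ≤ H0 * finrank ℚ K →
      logHeight₁ z = H * finrank ℚ K →
      (finrank ℚ K : ℝ) ≤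
        2 * (mass K (Pl M H z) + mass K (Pl M H (1 - z)) + mass K (Pl M H z⁻¹)) := by
  set U : ℝ := 4 * (H0 + 1) with hUdef
  have hU : 0 < U := by positivity
  set δ' : ℝ := exp (-(4 * (3 * H0 + 2))) with hδ'def
  have hδ'0 : 0 < δ' := exp_pos _
  have hδ'1 : δ' < 1 := by
    rw [hδ'def, exp_lt_one_iff]; linarith
  set δ : ℝ := δ' / 40 with hδdef
  have hδ0 : 0 < δ := by positivity
  have hδ1 : δ ≤ 1 := by rw [hδdef]; linarith
  set t0 : ℝ := δ / (2 * U) with ht0def
  have ht0 : 0 < t0 := by positivity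
  have hlog2 : log 2 ≤ 1 := by have := log_two_lt_d9; linarith
  have hlog2' : 0 < log 2 := log_pos (by norm_num)
  have hMM : 32 ≤ max 32 (1 / t0) := le_max_left _ _
  have hMt : 1 / max 32 (1 / t0) ≤ t0 := by
    rw [div_le_iff₀ (by linarith)]
    have h1 : t0 * (1 / t0) ≤ t0 * max 32 (1 / t0) :=
      mul_le_mul_of_nonneg_left (le_max_right _ _) ht0.le
    rwa [mul_one_div_cancel ht0.ne'] at h1
  refine ⟨max 32 (1 / t0), 4 + 1 / t0, by linarith, ?_⟩
  generalize max 32 (1 / t0) = M at hMM hMt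
  intro H hH1 K _ _ x z α β α' β' hx hx1 hz hz1 hsix hT hT' hxH hHD
  set D : ℝ := (finrank ℚ K : ℝ) with hD
  have hD0 : 0 < D := by rw [hD]; exact_mod_cast (finrank_pos : 0 < finrank ℚ K)
  have hp2 : 0 < 1 / t0 := by positivity
  have hH4 : 4 ≤ H := by linarith
  have hH0' : 0 < H := by linarith
  have h1x : 1 - x ≠ 0 := sub_ne_zero.mpr (Ne.symm hx1)
  have hxH' : logHeight₁ x ≤ (H0 + 1) * D := by nlinarith
  have hx1H' : logHeight₁ (1 - x) ≤ (H0 + 1) * D := by
    have := CITNF.height_le_one_sub (1 - x)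
    rw [sub_sub_cancel] at this
    have h2 : D * log 2 ≤ D * 1 := mul_le_mul_of_nonneg_left hlog2 hD0.le
    nlinarith
  have hbig : 4 * log 2 * D ≤ logHeight₁ z := by
    rw [hHD]
    have : 4 * log 2 ≤ H := by linarith
    exact mul_le_mul_of_nonneg_right this hD0.le
  have hco : ∀ (f : K) (a b : ℝ), f ≠ 0 → Tied z f a b → logHeight₁ f ≤ (H0 + 1) * D →
      |a| * H ≤ U / 2 ∧ |b| * H ≤ U / 2 := by
    intro f a b hf hTf h3
    obtain ⟨h1, h2⟩ := coef_le z f hz hz1 hf a b hTf hbig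
    rw [hHD] at h1 h2
    constructor
    · have : |a| * H * D ≤ U / 2 * D := by
        rw [hUdef]; nlinarith
      exact le_of_mul_le_mul_right this hD0
    · have : |b| * H * D ≤ U / 2 * D := by
        rw [hUdef]; nlinarith
      exact le_of_mul_le_mul_right this hD0
  obtain ⟨c1, c2⟩ := hco x α β hx hT hxH'
  obtain ⟨c1', c2'⟩ := hco (1 - x) α' β' h1x hT' hx1H'
  have hL : log 2 ≤ t0 * H := by
    have : 1 / t0 ≤ H := by linarith
    rw [div_le_iff₀ ht0] at this
    linarith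
  have hδL : 2 * U * (t0 * H) ≤ δ * H := by
    rw [ht0def]
    apply le_of_eq
    field_simp
  have hsplit := mass_not K (fun v => (Pl M H z v ∨ Pl M H (1 - z) v) ∨ Pl M H z⁻¹ v)
  have hgood : mass K (fun v => (Pl M H z v ∨ Pl M H (1 - z) v) ∨ Pl M H z⁻¹ v) ≤
      mass K (Pl M H z) + mass K (Pl M H (1 - z)) + mass K (Pl M H z⁻¹) := by
    refine (mass_or_le K _ _).trans ?_
    have := mass_or_le K (Pl M H z) (Pl M H (1 - z))
    linarith
  have hbad : mass K (fun v => ¬ ((Pl M H z v ∨ Pl M H (1 - z) v) ∨ Pl M H z⁻¹ v)) ≤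
      mass K (fun v => 32 * H ≤ |log (v z)|) + mass K (fun v => 32 * H ≤ |log (v (1 - z))|) +
        mass K (fun v => v (x ^ 2 - x + 1) ≤ δ') := by
    have h1 : mass K (fun v => ¬ ((Pl M H z v ∨ Pl M H (1 - z) v) ∨ Pl M H z⁻¹ v)) ≤
        mass K (fun v => (32 * H ≤ |log (v z)| ∨ 32 * H ≤ |log (v (1 - z))|) ∨
          v (x ^ 2 - x + 1) ≤ δ') := by
      apply mass_mono
      intro v hv
      by_contra hcon
      push Not at hcon
      obtain ⟨⟨h1, h2⟩, h3⟩ := hcon
      have h5 : 40 * δ = δ' := by rw [hδdef]; ring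
      rcases gm_local v x z α β α' β' hx hx1 hz hz1 hT hT' M H U t0 δ hH0' hL hMM hMt
        c1 c2 c1' c2' h1 h2 hδ1 hδL with h4 | h4
      · exact hv h4
      · rw [h5] at h4
        exact absurd h4 (not_le.mpr h3)
    refine h1.trans ((mass_or_le K _ _).trans ?_)
    have := mass_or_le K (fun v => 32 * H ≤ |log (v z)|) (fun v => 32 * H ≤ |log (v (1 - z))|)
    linarith
  have hm1 := mass_large K z hz (32 * H) (by positivity)
  have hm2 := mass_large K (1 - z) (sub_ne_zero.mpr (Ne.symm hz1)) (32 * H) (by positivity)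
  have hm3 := mass_sixth K x hsix δ' hδ'0 hδ'1
  have hz2 : logHeight₁ (1 - z) ≤ (H + log 2) * D := by
    have := CITNF.height_le_one_sub (1 - z)
    rw [sub_sub_cancel, hHD] at this
    calc logHeight₁ (1 - z) ≤ H * D + D * log 2 := this
      _ = (H + log 2) * D := by ring
  have hlogδ : -log δ' = 4 * (3 * H0 + 2) := by rw [hδ'def, log_exp]; ring
  rw [hlogδ] at hm3
  have hb3 : mass K (fun v => v (x ^ 2 - x + 1) ≤ δ') ≤ D / 4 := by
    have h1 : 0 < 3 * H0 + 2 := by linarith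
    have h2 : mass K (fun v => v (x ^ 2 - x + 1) ≤ δ') * (4 * (3 * H0 + 2)) ≤
        D / 4 * (4 * (3 * H0 + 2)) := by
      refine hm3.trans ?_
      have : D / 4 * (4 * (3 * H0 + 2)) = 3 * (H0 * D) + 2 * D := by ring
      rw [this]
      linarith
    exact le_of_mul_le_mul_right h2 (by linarith)
  have hb1 : mass K (fun v => 32 * H ≤ |log (v z)|) ≤ D / 16 := by
    have h2 : mass K (fun v => 32 * H ≤ |log (v z)|) * (32 * H) ≤ D / 16 * (32 * H) := by
      refine hm1.trans ?_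
      rw [hHD]
      apply le_of_eq; ring
    exact le_of_mul_le_mul_right h2 (by positivity)
  have hb2 : mass K (fun v => 32 * H ≤ |log (v (1 - z))|) ≤ D / 8 := by
    have h2 : mass K (fun v => 32 * H ≤ |log (v (1 - z))|) * (32 * H) ≤ D / 8 * (32 * H) := by
      refine hm2.trans ?_
      have h3 : (H + log 2) * D ≤ 2 * H * D := by
        apply mul_le_mul_of_nonneg_right _ hD0.le
        linarith
      calc 2 * logHeight₁ (1 - z) ≤ 2 * (2 * H * D) := by linarith
        _ = D / 8 * (32 * H) := by ring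
    exact le_of_mul_le_mul_right h2 (by positivity)
  linarith

end Pool.Agent.L3S
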