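import Pool.Agent.L3S.Arc

set_option autoImplicit false

/-! Package T7: the identity given by a degenerate relation. -/

namespace Pool.Agent.L3S

open Real Complex

/-! ### Logarithmic derivatives -/

private lemma keyId_zpow (x : ℝ → ℂ) (a : ℂ) (s : ℝ) (m : ℤ) (hx : x s ≠ 0)
    (h : HasDerivAt x (x s * a) s) :
    HasDerivAt (fun t => x t ^ m) (x s ^ m * (m * a)) s := by
  have h1 := (hasDerivAt_zpow m (x s) (Or.inl hx)).comp s h
  have h2 : (m : ℂ) * x s ^ (m - 1) * (x s * a) = x s ^ m * (m * a) := by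
    rw [zpow_sub_one₀ hx]
    field_simp
  rw [h2] at h1
  exact h1

private lemma keyId_mo (x y : ℝ → ℂ) (a b c d : ℂ) (s : ℝ) (r : Fin 4 → ℤ)
    (hx : x s ≠ 0) (hx1 : 1 - x s ≠ 0) (hy : y s ≠ 0) (hy1 : 1 - y s ≠ 0)
    (ha : HasDerivAt x (x s * a) s) (hb : HasDerivAt (fun t => 1 - x t) ((1 - x s) * b) s)
    (hc : HasDerivAt y (y s * c) s) (hd : HasDerivAt (fun t => 1 - y t) ((1 - y s) * d) s) :
    HasDerivAt (fun t => mo (x t) (y t) r)
      (mo (x s) (y s) r * (r 0 * a + r 1 * b + r 2 * c + r 3 * d)) s := by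
  have h1 := ((keyId_zpow x a s (r 0) hx ha).mul
    (keyId_zpow (fun t => 1 - x t) b s (r 1) hx1 hb)).mul
    ((keyId_zpow y c s (r 2) hy hc).mul (keyId_zpow (fun t => 1 - y t) d s (r 3) hy1 hd))
  refine h1.congr_deriv ?_
  simp only [mo, Pi.mul_apply]
  ring

private lemma keyId_zero (x y : ℝ → ℂ) (a b c d : ℂ) (s : ℝ) (r : Fin 4 → ℤ)
    (hx : x s ≠ 0) (hx1 : 1 - x s ≠ 0) (hy : y s ≠ 0) (hy1 : 1 - y s ≠ 0)
    (ha : HasDerivAt x (x s * a) s) (hb : HasDerivAt (fun t => 1 - x t) ((1 - x s) * b) s)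
    (hc : HasDerivAt y (y s * c) s) (hd : HasDerivAt (fun t => 1 - y t) ((1 - y s) * d) s)
    (h1 : ∀ᶠ t in nhds s, mo (x t) (y t) r = 1) :
    (r 0 * a + r 1 * b + r 2 * c + r 3 * d : ℂ) = 0 := by
  have h2 := keyId_mo x y a b c d s r hx hx1 hy hy1 ha hb hc hd
  have h3 : HasDerivAt (fun t => mo (x t) (y t) r) 0 s :=
    (hasDerivAt_const s (1 : ℂ)).congr_of_eventuallyEq h1
  have h4 := h2.unique h3
  rw [h1.self_of_nhds, one_mul] at h4
  exact h4

private lemma keyId_conj (y : ℝ → ℂ) (c : ℂ) (s : ℝ) (h : HasDerivAt y (y s * c) s) :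
    HasDerivAt (fun t => (starRingEnd ℂ) (y t))
      ((starRingEnd ℂ) (y s) * (starRingEnd ℂ) c) s := by
  have h1 := h.star
  rw [← map_mul]
  exact h1

/-! ### The two logarithmic derivatives of the third vertex -/

/-- numerator of the imaginary part of `x' / x` -/
private noncomputable def ea (A B s : ℝ) : ℝ :=
  A - A * Real.exp (2 * s * A) + (2 * B - A) * Real.exp (2 * s * B)

/-- numerator of the imaginary part of `-(1 - x)' / (1 - x)` -/
private noncomputable def eb (A B s : ℝ) : ℝ :=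
  B - B * Real.exp (2 * s * B) + (2 * A - B) * Real.exp (2 * s * A)

private lemma ea_eb (ρ σ A B s : ℝ) : ρ * ea A B s - σ * eb A B s = RR ρ σ A B s := by
  simp only [ea, eb, RR]
  ring

private lemma keyId_vx (A B s : ℝ) (h : 0 < DD A B s) :
    HasDerivAt (vx A B)
      (vx A B s * ((A : ℂ) + ((ea A B s / Real.sqrt (DD A B s) : ℝ) : ℂ) * I)) s := by
  have h1 := hasDerivAt_vx A B s h
  refine h1.congr_deriv ?_
  simp only [ea]
  push_cast
  ring

private lemma keyId_vx' (A B s : ℝ) (h : 0 < DD A B s) :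
    HasDerivAt (fun t => 1 - vx A B t)
      ((1 - vx A B s) * ((B : ℂ) + ((-(eb A B s / Real.sqrt (DD A B s)) : ℝ) : ℂ) * I)) s := by
  have h1 := (hasDerivAt_const s (1 : ℂ)).sub (hasDerivAt_vx' A B s h)
  refine h1.congr_deriv ?_
  simp only [eb]
  push_cast
  ring

private lemma keyId_cj (A η : ℝ) : (starRingEnd ℂ) ((A : ℂ) + (η : ℂ) * I) =
    (A : ℂ) + ((-η : ℝ) : ℂ) * I := by
  simp only [map_add, map_mul, conj_ofReal, conj_I]
  push_cast
  ring

private lemma keyId_one_sub_conj (z : ℂ) :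
    (starRingEnd ℂ) (1 - z) = 1 - (starRingEnd ℂ) z := by
  rw [map_sub, map_one]

private lemma keyId_vxc (A B s : ℝ) (h : 0 < DD A B s) :
    HasDerivAt (fun t => (starRingEnd ℂ) (vx A B t))
      ((starRingEnd ℂ) (vx A B s) *
        ((A : ℂ) + ((-(ea A B s / Real.sqrt (DD A B s)) : ℝ) : ℂ) * I)) s := by
  have h1 := keyId_conj _ _ s (keyId_vx A B s h)
  rw [keyId_cj] at h1
  exact h1

private lemma keyId_vxc' (A B s : ℝ) (h : 0 < DD A B s) :
    HasDerivAt (fun t => 1 - (starRingEnd ℂ) (vx A B t))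
      ((1 - (starRingEnd ℂ) (vx A B s)) *
        ((B : ℂ) + ((eb A B s / Real.sqrt (DD A B s) : ℝ) : ℂ) * I)) s := by
  have h1 := keyId_conj _ _ s (keyId_vx' A B s h)
  rw [keyId_cj, neg_neg] at h1
  simp only [keyId_one_sub_conj] at h1
  exact h1

private lemma keyId_ne (A B s : ℝ) (h : 0 < DD A B s) : vx A B s ≠ 0 ∧ 1 - vx A B s ≠ 0 ∧
    (starRingEnd ℂ) (vx A B s) ≠ 0 ∧ 1 - (starRingEnd ℂ) (vx A B s) ≠ 0 := by
  have h1 := vx_mul_conj A B s h.le
  have h2 := one_sub_vx_mul_conj A B s h.le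
  have e1 : ((Real.exp (2 * s * A) : ℝ) : ℂ) ≠ 0 := by
    exact_mod_cast (Real.exp_pos _).ne'
  have e2 : ((Real.exp (2 * s * B) : ℝ) : ℂ) ≠ 0 := by
    exact_mod_cast (Real.exp_pos _).ne'
  rw [← h1] at e1
  rw [← h2] at e2
  exact ⟨left_ne_zero_of_mul e1, left_ne_zero_of_mul e2, right_ne_zero_of_mul e1,
    right_ne_zero_of_mul e2⟩

/-! ### Evaluation of the polynomials -/

private lemma keyId_aeval (x y : ℂ) (r : Fin 4 → ℤ) :
    MvPolynomial.aeval ![x, y] (rp r) =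
      x ^ (r 0).toNat * (1 - x) ^ (r 1).toNat * (y ^ (r 2).toNat * (1 - y) ^ (r 3).toNat) -
      x ^ (-r 0).toNat * (1 - x) ^ (-r 1).toNat *
        (y ^ (-r 2).toNat * (1 - y) ^ (-r 3).toNat) := by
  simp only [rp, map_mul, map_sub, map_one, map_pow, MvPolynomial.aeval_X, Fin.isValue,
    Matrix.cons_val_zero, Matrix.cons_val_one]

private lemma keyId_aeval_conj (x y : ℂ) (r : Fin 4 → ℤ) :
    MvPolynomial.aeval ![(starRingEnd ℂ) x, (starRingEnd ℂ) y] (rp r) =
      (starRingEnd ℂ) (MvPolynomial.aeval ![x, y] (rp r)) := by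
  simp only [keyId_aeval, map_sub, map_mul, map_pow, map_one]

private lemma keyId_Ev {n : ℕ} (G : MvPolynomial (Fin n) ℤ) (A : Fin n → ℝ) (s : ℝ) :
    MvPolynomial.aeval (fun k => ((Real.exp (2 * s * A k) : ℝ) : ℂ)) G =
      ((Ev G A s : ℝ) : ℂ) := by
  have h := MvPolynomial.aeval_algebraMap_apply (R := ℤ) (A := ℝ) ℂ
    (fun k => Real.exp (2 * s * A k)) G
  exact h

private lemma keyId_an (x y : ℝ → ℂ) (r : Fin 4 → ℤ) (s : ℝ) (hx : AnalyticAt ℝ x s)
    (hy : AnalyticAt ℝ y s) :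
    AnalyticAt ℝ (fun t => MvPolynomial.aeval ![x t, y t] (rp r)) s := by
  simp only [keyId_aeval]
  have h1 : AnalyticAt ℝ (fun t => 1 - x t) s := analyticAt_const.sub hx
  have h2 : AnalyticAt ℝ (fun t => 1 - y t) s := analyticAt_const.sub hy
  exact (((hx.pow _).mul (h1.pow _)).mul ((hy.pow _).mul (h2.pow _))).sub
    (((hx.pow _).mul (h1.pow _)).mul ((hy.pow _).mul (h2.pow _)))

private lemma keyId_an_exp (A s : ℝ) : AnalyticAt ℝ (fun t => Real.exp (2 * t * A)) s := by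
  have h1 : AnalyticAt ℝ (fun t : ℝ => 2 * t * A) s :=
    (analyticAt_const.mul analyticAt_id).mul analyticAt_const
  exact h1.rexp

private lemma keyId_an_RR (ρ σ A B s : ℝ) : AnalyticAt ℝ (fun t => RR ρ σ A B t) s := by
  have h1 := keyId_an_exp A s
  have h2 := keyId_an_exp B s
  simp only [RR]
  exact (analyticAt_const.sub (analyticAt_const.mul h1)).add (analyticAt_const.mul h2)

private lemma keyId_an_DD (A B s : ℝ) : AnalyticAt ℝ (fun t => DD A B t) s := by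
  have h1 := keyId_an_exp A s
  have h2 := keyId_an_exp B s
  simp only [DD]
  exact (analyticAt_const.mul h1).sub (((analyticAt_const.add h1).sub h2).pow 2)

/-- **The key identity.** If the norm of the relation vanishes identically on the curve then
`R₁² Δ₂ = R₂² Δ₁`.

Proof. Near `s = 0` let `x = vx (A 0) (A 1) s`, `y = vx (A 2) (A 3) s`. By `G4_spec` (over `ℂ`, with the
conjugates, `vx_mul_conj`) the product of the four functions `aeval ![x^±, y^±] (rp r)` is
`(Ev (G4 r) A s : ℂ) = 0` near `0`; they are real analytic near `0` (`analyticAt_vx`; polynomials in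
them, conjugation is a continuous real linear map), so one of them vanishes near `0`
(`AnalyticAt.eventually_eq_zero_or_eventually_ne_zero`, four times). As `rp r` has integer coefficients, taking
complex conjugates we may assume it is the one of `(x, y)` or of `(x, ȳ)`. By `aeval_rp` then
`mo x y r = 1` (or `mo x ȳ r = 1`) near `0` (`x, 1 - x, y, 1 - y ≠ 0` as their squares of absolute value
are exponentials). Differentiate (product rule for `zpow`, `hasDerivAt_vx`, `hasDerivAt_vx'`), divide by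
`mo = 1`: `r₀ (A₀ + i η₀) + r₁ (A₁ + i η₁) + r₂ (A₂ ± i η₂) + r₃ (A₃ ± i η₃) = 0`, where
`r₀ η₀ + r₁ η₁ = RR r₀ r₁ A₀ A₁ s / √DD A₀ A₁ s` and `r₂ η₂ + r₃ η₃ = RR r₂ r₃ A₂ A₃ s / √DD A₂ A₃ s`.
Imaginary parts, and square: the identity near `0`. Both sides are real analytic functions of `s ∈ ℝ`:
`AnalyticOnNhd.eq_of_eventuallyEq`. -/
theorem key_identity (r : Fin 4 → ℤ) (A : Fin 4 → ℝ) (h : ∀ s, Ev (G4 r) A s = 0) (s : ℝ) :
    RR (r 0) (r 1) (A 0) (A 1) s ^ 2 * DD (A 2) (A 3) s =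
      RR (r 2) (r 3) (A 2) (A 3) s ^ 2 * DD (A 0) (A 1) s := by
  have hD1 := DD_pos (A 0) (A 1)
  have hD2 := DD_pos (A 2) (A 3)
  -- the product of two of the functions vanishes
  have hprod : ∀ᶠ t in nhds (0 : ℝ),
      MvPolynomial.aeval ![vx (A 0) (A 1) t, vx (A 2) (A 3) t] (rp r) = 0 ∨
      MvPolynomial.aeval ![vx (A 0) (A 1) t, (starRingEnd ℂ) (vx (A 2) (A 3) t)] (rp r) = 0 := by
    filter_upwards [hD1, hD2] with t h1 h2
    have g := G4_spec r ℂ (vx (A 0) (A 1) t) ((starRingEnd ℂ) (vx (A 0) (A 1) t))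
      (vx (A 2) (A 3) t) ((starRingEnd ℂ) (vx (A 2) (A 3) t))
    rw [vx_mul_conj _ _ _ h1.le, one_sub_vx_mul_conj _ _ _ h1.le, vx_mul_conj _ _ _ h2.le,
      one_sub_vx_mul_conj _ _ _ h2.le] at g
    have e : (![((Real.exp (2 * t * A 0) : ℝ) : ℂ), ((Real.exp (2 * t * A 1) : ℝ) : ℂ),
        ((Real.exp (2 * t * A 2) : ℝ) : ℂ), ((Real.exp (2 * t * A 3) : ℝ) : ℂ)] : Fin 4 → ℂ) =
        fun k => ((Real.exp (2 * t * A k) : ℝ) : ℂ) := by
      funext k
      fin_cases k <;> rfl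
    rw [e, keyId_Ev, h t, ofReal_zero] at g
    have g1 := keyId_aeval_conj (vx (A 0) (A 1) t) (vx (A 2) (A 3) t) r
    have g2 := keyId_aeval_conj (vx (A 0) (A 1) t) ((starRingEnd ℂ) (vx (A 2) (A 3) t)) r
    rw [conj_conj] at g2
    rw [g1, g2] at g
    have g3 := g.symm
    rcases mul_eq_zero.1 g3 with g4 | g4
    · rcases mul_eq_zero.1 g4 with g5 | g5
      · exact Or.inl g5
      · exact Or.inr ((map_eq_zero _).1 g5)
    · rcases mul_eq_zero.1 g4 with g5 | g5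
      · exact Or.inr g5
      · exact Or.inl ((map_eq_zero _).1 g5)
  have hx : AnalyticAt ℝ (vx (A 0) (A 1)) 0 := analyticAt_vx _ _ _ hD1.self_of_nhds
  have hy : AnalyticAt ℝ (vx (A 2) (A 3)) 0 := analyticAt_vx _ _ _ hD2.self_of_nhds
  have hyc : AnalyticAt ℝ (fun t => (starRingEnd ℂ) (vx (A 2) (A 3) t)) 0 :=
    (Complex.conjCLE.toContinuousLinearMap.analyticAt _).comp hy
  have a1 := keyId_an _ _ r 0 hx hy
  have a2 := keyId_an _ _ r 0 hx hyc
  have hone : (∀ᶠ t in nhds (0 : ℝ),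
      MvPolynomial.aeval ![vx (A 0) (A 1) t, vx (A 2) (A 3) t] (rp r) = 0) ∨
      (∀ᶠ t in nhds (0 : ℝ),
      MvPolynomial.aeval ![vx (A 0) (A 1) t, (starRingEnd ℂ) (vx (A 2) (A 3) t)] (rp r) = 0) := by
    rcases a1.eventually_eq_zero_or_eventually_ne_zero with b1 | b1
    · exact Or.inl b1
    rcases a2.eventually_eq_zero_or_eventually_ne_zero with b2 | b2
    · exact Or.inr b2
    exfalso
    have h3 := (hprod.filter_mono nhdsWithin_le_nhds : ∀ᶠ t in nhdsWithin (0 : ℝ) {0}ᶜ, _)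
    obtain ⟨t, ht1, ht2, ht3⟩ := (b1.and (b2.and h3)).exists
    rcases ht3 with ht3 | ht3
    · exact ht1 ht3
    · exact ht2 ht3
  -- the identity near `0`
  have hnear : ∀ᶠ t in nhds (0 : ℝ), RR (r 0) (r 1) (A 0) (A 1) t ^ 2 * DD (A 2) (A 3) t =
      RR (r 2) (r 3) (A 2) (A 3) t ^ 2 * DD (A 0) (A 1) t := by
    have fin : ∀ (t : ℝ), 0 < DD (A 0) (A 1) t → 0 < DD (A 2) (A 3) t → ∀ (e : ℝ), e ^ 2 = 1 →
        r 0 * (ea (A 0) (A 1) t / Real.sqrt (DD (A 0) (A 1) t)) +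
          r 1 * (-(eb (A 0) (A 1) t / Real.sqrt (DD (A 0) (A 1) t))) +
          e * (r 2 * (ea (A 2) (A 3) t / Real.sqrt (DD (A 2) (A 3) t)) +
          r 3 * (-(eb (A 2) (A 3) t / Real.sqrt (DD (A 2) (A 3) t)))) = 0 →
        RR (r 0) (r 1) (A 0) (A 1) t ^ 2 * DD (A 2) (A 3) t =
          RR (r 2) (r 3) (A 2) (A 3) t ^ 2 * DD (A 0) (A 1) t := by
      intro t h1 h2 e he heq
      have s1 := Real.sq_sqrt h1.le
      have s2 := Real.sq_sqrt h2.le
      have p1 := Real.sqrt_pos.2 h1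
      have p2 := Real.sqrt_pos.2 h2
      rw [← ea_eb, ← ea_eb]
      set S1 := Real.sqrt (DD (A 0) (A 1) t)
      set S2 := Real.sqrt (DD (A 2) (A 3) t)
      rw [← s1, ← s2]
      have k : (r 0 * ea (A 0) (A 1) t - r 1 * eb (A 0) (A 1) t) * S2 =
          -(e * ((r 2 * ea (A 2) (A 3) t - r 3 * eb (A 2) (A 3) t) * S1)) := by
        field_simp at heq
        linear_combination heq
      calc (r 0 * ea (A 0) (A 1) t - r 1 * eb (A 0) (A 1) t) ^ 2 * S2 ^ 2 =
          ((r 0 * ea (A 0) (A 1) t - r 1 * eb (A 0) (A 1) t) * S2) ^ 2 := by ring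
        _ = e ^ 2 * ((r 2 * ea (A 2) (A 3) t - r 3 * eb (A 2) (A 3) t) ^ 2 * S1 ^ 2) := by
          rw [k]; ring
        _ = _ := by rw [he, one_mul]
    rcases hone with h3 | h3
    · filter_upwards [hD1.eventually_nhds, hD2.eventually_nhds, h3.eventually_nhds]
        with t h1 h2 h4
      have h1' := h1.self_of_nhds
      have h2' := h2.self_of_nhds
      obtain ⟨n1, n2, -, -⟩ := keyId_ne _ _ _ h1'
      obtain ⟨n3, n4, -, -⟩ := keyId_ne _ _ _ h2'
      have hm : ∀ᶠ u in nhds t, mo (vx (A 0) (A 1) u) (vx (A 2) (A 3) u) r = 1 := by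
        filter_upwards [h1, h2, h4] with u g1 g2 g3
        obtain ⟨m1, m2, -, -⟩ := keyId_ne _ _ _ g1
        obtain ⟨m3, m4, -, -⟩ := keyId_ne _ _ _ g2
        exact (aeval_rp _ _ m1 (Ne.symm (sub_ne_zero.1 m2)) m3 (Ne.symm (sub_ne_zero.1 m4)) r).1
          g3
      have hz := keyId_zero (vx (A 0) (A 1)) (vx (A 2) (A 3)) _ _ _ _ t r n1 n2 n3 n4
        (keyId_vx _ _ _ h1') (keyId_vx' _ _ _ h1') (keyId_vx _ _ _ h2') (keyId_vx' _ _ _ h2') hm
      have hi := congrArg Complex.im hz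
      simp only [add_im, mul_im, intCast_re, intCast_im, zero_mul, add_zero, ofReal_re,
        ofReal_im, I_re, I_im, mul_zero, mul_one, zero_add, zero_im] at hi
      refine fin t h1' h2' 1 (by norm_num) ?_
      linear_combination hi
    · filter_upwards [hD1.eventually_nhds, hD2.eventually_nhds, h3.eventually_nhds]
        with t h1 h2 h4
      have h1' := h1.self_of_nhds
      have h2' := h2.self_of_nhds
      obtain ⟨n1, n2, -, -⟩ := keyId_ne _ _ _ h1'
      obtain ⟨-, -, n3, n4⟩ := keyId_ne _ _ _ h2'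
      have hm : ∀ᶠ u in nhds t,
          mo (vx (A 0) (A 1) u) ((starRingEnd ℂ) (vx (A 2) (A 3) u)) r = 1 := by
        filter_upwards [h1, h2, h4] with u g1 g2 g3
        obtain ⟨m1, m2, -, -⟩ := keyId_ne _ _ _ g1
        obtain ⟨-, -, m3, m4⟩ := keyId_ne _ _ _ g2
        exact (aeval_rp _ _ m1 (Ne.symm (sub_ne_zero.1 m2)) m3 (Ne.symm (sub_ne_zero.1 m4)) r).1
          g3
      have hz := keyId_zero (vx (A 0) (A 1)) (fun u => (starRingEnd ℂ) (vx (A 2) (A 3) u))
        _ _ _ _ t r n1 n2 n3 n4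
        (keyId_vx _ _ _ h1') (keyId_vx' _ _ _ h1') (keyId_vxc _ _ _ h2')
        (keyId_vxc' _ _ _ h2') hm
      have hi := congrArg Complex.im hz
      simp only [add_im, mul_im, intCast_re, intCast_im, zero_mul, add_zero, ofReal_re,
        ofReal_im, I_re, I_im, mul_zero, mul_one, zero_add, zero_im] at hi
      refine fin t h1' h2' (-1) (by norm_num) ?_
      linear_combination hi
  have b1 : AnalyticOnNhd ℝ (fun t => RR (r 0) (r 1) (A 0) (A 1) t ^ 2 * DD (A 2) (A 3) t)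
      Set.univ := fun t _ => ((keyId_an_RR _ _ _ _ t).pow 2).mul (keyId_an_DD _ _ t)
  have b2 : AnalyticOnNhd ℝ (fun t => RR (r 2) (r 3) (A 2) (A 3) t ^ 2 * DD (A 0) (A 1) t)
      Set.univ := fun t _ => ((keyId_an_RR _ _ _ _ t).pow 2).mul (keyId_an_DD _ _ t)
  exact congrFun (b1.eq_of_eventuallyEq b2 hnear) s

/-- The same for a pair of conjugates: near `0`, `mo x x̄ r = 1` (or its conjugate) with
`x = vx A B s`, so `r₀ (A + i η) + r₁ (B + i η') + r₂ (A - i η) + r₃ (B - i η') = 0`. -/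
theorem key_identity_two (r : Fin 4 → ℤ) (A B : ℝ) (h : ∀ s, Ev (G2 r) ![A, B] s = 0) (s : ℝ) :
    RR (r 0 - r 2) (r 1 - r 3) A B s = 0 := by
  have hD := DD_pos A B
  have hprod : ∀ᶠ t in nhds (0 : ℝ),
      MvPolynomial.aeval ![vx A B t, (starRingEnd ℂ) (vx A B t)] (rp r) = 0 := by
    filter_upwards [hD] with t h1
    have g := G2_spec r ℂ (vx A B t) ((starRingEnd ℂ) (vx A B t))
    rw [vx_mul_conj _ _ _ h1.le, one_sub_vx_mul_conj _ _ _ h1.le] at g
    have e : (![((Real.exp (2 * t * A) : ℝ) : ℂ), ((Real.exp (2 * t * B) : ℝ) : ℂ)] :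
        Fin 2 → ℂ) = fun k => ((Real.exp (2 * t * (![A, B] : Fin 2 → ℝ) k) : ℝ) : ℂ) := by
      funext k
      fin_cases k <;> rfl
    rw [e, keyId_Ev, h t, ofReal_zero] at g
    have g2 := keyId_aeval_conj (vx A B t) ((starRingEnd ℂ) (vx A B t)) r
    rw [conj_conj] at g2
    rw [g2] at g
    rcases mul_eq_zero.1 g.symm with g5 | g5
    · exact g5
    · exact (map_eq_zero _).1 g5
  have hnear : ∀ᶠ t in nhds (0 : ℝ), RR (r 0 - r 2) (r 1 - r 3) A B t = 0 := by
    filter_upwards [hD.eventually_nhds, hprod.eventually_nhds] with t h1 h4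
    have h1' := h1.self_of_nhds
    obtain ⟨n1, n2, n3, n4⟩ := keyId_ne _ _ _ h1'
    have hm : ∀ᶠ u in nhds t, mo (vx A B u) ((starRingEnd ℂ) (vx A B u)) r = 1 := by
      filter_upwards [h1, h4] with u g1 g3
      obtain ⟨m1, m2, m3, m4⟩ := keyId_ne _ _ _ g1
      exact (aeval_rp _ _ m1 (Ne.symm (sub_ne_zero.1 m2)) m3 (Ne.symm (sub_ne_zero.1 m4)) r).1
        g3
    have hz := keyId_zero (vx A B) (fun u => (starRingEnd ℂ) (vx A B u))
      _ _ _ _ t r n1 n2 n3 n4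
      (keyId_vx _ _ _ h1') (keyId_vx' _ _ _ h1') (keyId_vxc _ _ _ h1')
      (keyId_vxc' _ _ _ h1') hm
    have hi := congrArg Complex.im hz
    simp only [add_im, mul_im, intCast_re, intCast_im, zero_mul, add_zero, ofReal_re,
      ofReal_im, I_re, I_im, mul_zero, mul_one, zero_add, zero_im] at hi
    rw [← ea_eb]
    have p1 := Real.sqrt_pos.2 h1'
    field_simp at hi
    linear_combination hi
  have b1 : AnalyticOnNhd ℝ (fun t => RR (r 0 - r 2) (r 1 - r 3) A B t)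
      Set.univ := fun t _ => keyId_an_RR _ _ _ _ t
  have b2 : AnalyticOnNhd ℝ (fun _ : ℝ => (0 : ℝ)) Set.univ := fun t _ => analyticAt_const
  exact congrFun (b1.eq_of_eventuallyEq b2 hnear) s

end Pool.Agent.L3S
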