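import Pool.Agent.L3S.Defs
import Pool.Agent.LThree.Ext
import Pool.Agent.MinHt.ThmA

set_option autoImplicit false

/-! Package U2: Kummer theory for a large coordinate. -/

namespace Pool.Agent.L3S

open NumberField Height Real Module Pool.Agent.LThree

/-- Two different embeddings which agree on a proper subfield. -/
private theorem kum_emb {K : Type} [Field K] [NumberField K] (L : IntermediateField ℚ K)
    (hL : L ≠ ⊤) : ∃ (E : Type) (_ : Field E) (_ : NumberField E) (f g : K →+* E),
      (∀ a ∈ L, f a = g a) ∧ f ≠ g := by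
  have h1 : finrank L K ≠ 1 := fun h => hL (IntermediateField.finrank_eq_one_iff_eq_top.1 h)
  have h0 : 0 < finrank L K := finrank_pos
  have h2 : Fintype.card (K →ₐ[L] AlgebraicClosure K) = finrank L K := AlgHom.card L K _
  have h3 : 1 < Fintype.card (K →ₐ[L] AlgebraicClosure K) := by omega
  obtain ⟨f, g, hfg⟩ := Fintype.exists_pair_of_one_lt_card h3
  let f' : K →ₐ[ℚ] AlgebraicClosure K := (f : K →+* AlgebraicClosure K).toRatAlgHom
  let g' : K →ₐ[ℚ] AlgebraicClosure K := (g : K →+* AlgebraicClosure K).toRatAlgHom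
  let E : IntermediateField ℚ (AlgebraicClosure K) := f'.fieldRange ⊔ g'.fieldRange
  haveI : FiniteDimensional ℚ f'.fieldRange :=
    (AlgEquiv.ofInjectiveField f').toLinearEquiv.finiteDimensional
  haveI : FiniteDimensional ℚ g'.fieldRange :=
    (AlgEquiv.ofInjectiveField g').toLinearEquiv.finiteDimensional
  haveI : FiniteDimensional ℚ E := IntermediateField.finiteDimensional_sup _ _
  haveI : NumberField E := ⟨⟩
  have hf : ∀ a, f' a ∈ E := fun a => (le_sup_left : f'.fieldRange ≤ E) ⟨a, rfl⟩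
  have hg : ∀ a, g' a ∈ E := fun a => (le_sup_right : g'.fieldRange ≤ E) ⟨a, rfl⟩
  refine ⟨E, inferInstance, inferInstance,
    (f' : K →+* AlgebraicClosure K).codRestrict E hf,
    (g' : K →+* AlgebraicClosure K).codRestrict E hg, ?_, ?_⟩
  · intro a ha
    apply Subtype.ext
    show f a = g a
    have e1 : f (algebraMap L K ⟨a, ha⟩) = algebraMap L _ ⟨a, ha⟩ := f.commutes _
    have e2 : g (algebraMap L K ⟨a, ha⟩) = algebraMap L _ ⟨a, ha⟩ := g.commutes _
    exact e1.trans e2.symm
  · intro h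
    apply hfg
    ext a
    have e := congrArg (fun t : E => (t : AlgebraicClosure K)) (RingHom.congr_fun h a)
    exact e

private theorem kum_nh {K E : Type} [Field K] [NumberField K] [Field E] [NumberField E]
    (f : K →+* E) (z : K) : logHeight₁ (f z) * finrank ℚ K = logHeight₁ z * finrank ℚ E := by
  letI := f.toAlgebra
  have h := Leh2.nh_algebraMap (K := K) (L := E) z
  have h1 : (0 : ℝ) < finrank ℚ K := Nat.cast_pos.2 finrank_pos
  have h2 : (0 : ℝ) < finrank ℚ E := Nat.cast_pos.2 finrank_pos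
  unfold Leh2.nh at h
  rw [div_eq_div_iff h2.ne' h1.ne'] at h
  exact h

/-- In the five cases there is a relation of one coordinate. -/
private theorem kum_mi {E : Type} [Field E] {z w : E} {n : ℕ} (hz : z ≠ 0) (hz1 : z ≠ 1)
    (hn : 0 < n) (hne : w ≠ z) (h1 : w ^ n = z ^ n) (h2 : (1 - w) ^ n = (1 - z) ^ n)
    (he : CITNF.Eqv z w) : ¬ CITNF.MI z := by
  have hz1' : 1 - z ≠ 0 := sub_ne_zero.2 (Ne.symm hz1)
  have hz1'' : z - 1 ≠ 0 := sub_ne_zero.2 hz1
  intro hM
  have hn' : (n : ℤ) ≠ 0 := by exact_mod_cast hn.ne'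
  have neg : ∀ t : E, (-t) ^ (2 * n) = t ^ (2 * n) := fun t => by
    rw [pow_mul, pow_mul, neg_sq]
  rcases he with h | h | h | h | h | h
  · exact hne h
  · subst h
    have e := hM n (-n) (by
      rw [zpow_neg, zpow_natCast, zpow_natCast, ← h1]
      exact mul_inv_cancel₀ (pow_ne_zero _ hz1'))
    exact hn' e.1
  · subst h
    have e := hM (2 * n) 0 (by
      rw [zpow_zero, mul_one]
      have e1 : z ^ (n : ℕ) * z ^ (n : ℕ) = 1 := by
        nth_rewrite 1 [← h1]
        rw [inv_pow]
        exact inv_mul_cancel₀ (pow_ne_zero _ hz)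
      rw [← e1, two_mul, zpow_add₀ hz, zpow_natCast])
    omega
  · subst h
    have e := hM n n (by
      rw [zpow_natCast, zpow_natCast, ← h1, inv_pow]
      exact inv_mul_cancel₀ (pow_ne_zero _ hz1'))
    exact hn' e.1
  · subst h
    have e := hM 0 (2 * n) (by
      rw [zpow_zero, one_mul]
      have e1 : z ^ (2 * n) = z ^ (2 * n) / (1 - z) ^ (2 * n) := by
        have : (z / (z - 1)) ^ (2 * n) = z ^ (2 * n) := by
          rw [mul_comm, pow_mul, h1, ← pow_mul]
        nth_rewrite 1 [← this]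
        rw [div_pow, ← neg_sub 1 z, neg]
      have e2 : (1 - z) ^ (2 * n) = 1 := by
        have e3 : (1 - z) ^ (2 * n) ≠ 0 := pow_ne_zero _ hz1'
        have e4 : z ^ (2 * n) ≠ 0 := pow_ne_zero _ hz
        rw [eq_div_iff e3] at e1
        exact mul_left_cancel₀ e4 (by rw [e1, mul_one])
      exact_mod_cast e2)
    omega
  · subst h
    have e := hM (4 * n) (-(2 * n)) (by
      have e1 : z ^ (4 * n) = (1 - z) ^ (2 * n) := by
        have : ((z - 1) / z) ^ (2 * n) = z ^ (2 * n) := by
          rw [mul_comm, pow_mul, h1, ← pow_mul]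
        rw [div_pow, ← neg_sub 1 z, neg, div_eq_iff (pow_ne_zero _ hz), ← pow_add] at this
        rw [this]
        congr 1
        ring
      rw [zpow_neg]
      have e2 : z ^ (4 * (n : ℤ)) = (1 - z) ^ (2 * (n : ℤ)) := by exact_mod_cast e1
      rw [e2]
      exact mul_inv_cancel₀ (zpow_ne_zero _ hz1'))
    omega

/-- **A large coordinate lies in the field of the other two.**

Proof. Let `H0'` be from `MinHt.min_height`, `H0 = max H0' 3`. Let `L = adjoin ℚ {x, y}` and suppose
`L ≠ ⊤`. Let `E` be a finite Galois extension of `ℚ` containing `K` (the normal closure of `K` in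
`AlgebraicClosure K`; a number field). If every `σ ∈ Gal(E/L)` fixed `z` then `z ∈ L` and
`L = adjoin ℚ {x, y, z} = ⊤`. So there is `σ` fixing `x` and `y` with `z' = σ z ≠ z`; `z'^n = z^n` and
`(1 - z')^n = (1 - z)^n` as these lie in `L`. So `(n, 0, -n, 0)` and `(0, n, 0, -n)` are two independent
relations of `z, 1 - z, z', 1 - z'`: `CITNF.Rel2 z z'` in `E`. The normalised heights
(`Leh2.nh_algebraMap`, for the two embeddings of `K` in `E`) satisfy `nh z' = nh z ≥ H0`, so
(strictly `>`) `MinHt.min_height` gives `CITNF.Eqv z z'`. In each of the five cases `z' ≠ z`: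
`z' = 1 - z`: `z^n = (1-z)^n`; `z' = z⁻¹`: `z^(2n) = 1`; `z' = (1-z)⁻¹`: `z^n (1-z)^n = 1`;
`z' = z/(z-1)`: `(1-z)^(2n) = 1`; `z' = (z-1)/z`: `z^(4n) = (1-z)^(2n)`: so `¬ CITNF.MI z` and
`MinHt.rank_one_unif` gives `nh z ≤ 3 log 2 < 3`, a contradiction. -/
theorem kummer : ∃ H0 : ℝ, ∀ (K : Type) [Field K] [NumberField K] (x y z : K) (n : ℕ),
    z ≠ 0 → z ≠ 1 → 0 < n → z ^ n ∈ IntermediateField.adjoin ℚ {x, y} →
    (1 - z) ^ n ∈ IntermediateField.adjoin ℚ {x, y} →
    IntermediateField.adjoin ℚ {x, y, z} = ⊤ → H0 * finrank ℚ K < logHeight₁ z →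
    IntermediateField.adjoin ℚ {x, y} = ⊤ := by
  obtain ⟨H0, hH0, hH⟩ := MinHt.min_height
  refine ⟨max H0 3, ?_⟩
  intro K _ _ x y z n hz hz1 hn h1 h2 htop hbig
  by_contra hL
  obtain ⟨E, _, _, f, g, hfg, hne⟩ := kum_emb _ hL
  have hx : f x = g x := hfg x (IntermediateField.subset_adjoin _ _ (by simp))
  have hy : f y = g y := hfg y (IntermediateField.subset_adjoin _ _ (by simp))
  have hzn : g z ≠ f z := by
    intro h
    apply hne
    have e1 : IntermediateField.adjoin ℚ {x, y, z} ≤
        (AlgHom.equalizer f.toRatAlgHom g.toRatAlgHom).toIntermediateField (by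
          intro a ha
          have ha' : f a = g a := ha
          show f a⁻¹ = g a⁻¹
          rw [map_inv₀, map_inv₀, ha']) := by
      rw [IntermediateField.adjoin_le_iff]
      rintro a (rfl | rfl | rfl)
      · exact hx
      · exact hy
      · exact h.symm
    ext a
    have e2 : a ∈ IntermediateField.adjoin ℚ {x, y, z} := by
      rw [htop]
      trivial
    exact e1 e2
  have hn1 : g z ^ n = f z ^ n := by
    rw [← map_pow, ← map_pow]
    exact (hfg _ h1).symm
  have hn2 : (1 - g z) ^ n = (1 - f z) ^ n := by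
    have e := (hfg _ h2).symm
    simpa only [map_pow, map_sub, map_one] using e
  have hf0 : f z ≠ 0 := (map_ne_zero f).2 hz
  have hg0 : g z ≠ 0 := (map_ne_zero g).2 hz
  have hf1 : f z ≠ 1 := fun h => hz1 (f.injective (by rw [h, map_one]))
  have hg1 : g z ≠ 1 := fun h => hz1 (g.injective (by rw [h, map_one]))
  have hf1' : 1 - f z ≠ 0 := sub_ne_zero.2 (Ne.symm hf1)
  have hrel : CITNF.Rel2 (f z) (g z) := by
    refine ⟨![n, 0, -n, 0], ![0, n, 0, -n], ?_, ?_, ?_⟩
    · intro s t hst
      have e0 := congrFun hst 0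
      have e1 := congrFun hst 1
      have hn' : (n : ℤ) ≠ 0 := by exact_mod_cast hn.ne'
      simp only [Pi.add_apply, Pi.smul_apply, smul_eq_mul, Matrix.cons_val_zero,
        Matrix.cons_val_one, Matrix.cons_val, Pi.zero_apply, mul_zero, add_zero, zero_add] at e0 e1
      exact ⟨(mul_eq_zero.1 e0).resolve_right hn', (mul_eq_zero.1 e1).resolve_right hn'⟩
    · unfold CITNF.R
      simp only [Matrix.cons_val_zero, Matrix.cons_val_one, Matrix.cons_val, zpow_zero, mul_one,
        zpow_neg, zpow_natCast]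
      rw [hn1]
      exact mul_inv_cancel₀ (pow_ne_zero _ hf0)
    · unfold CITNF.R
      simp only [Matrix.cons_val_zero, Matrix.cons_val_one, Matrix.cons_val, zpow_zero, mul_one,
        one_mul, zpow_neg, zpow_natCast]
      rw [hn2]
      exact mul_inv_cancel₀ (pow_ne_zero _ hf1')
  have d1 : (0 : ℝ) < finrank ℚ K := Nat.cast_pos.2 finrank_pos
  have d2 : (0 : ℝ) < finrank ℚ E := Nat.cast_pos.2 finrank_pos
  have hF := kum_nh f z
  have hG := kum_nh g z
  have bF : max H0 3 * finrank ℚ E < logHeight₁ (f z) := by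
    have e := mul_lt_mul_of_pos_right hbig d2
    rw [← hF] at e
    have e' : max H0 3 * finrank ℚ E * finrank ℚ K < logHeight₁ (f z) * finrank ℚ K := by
      linarith
    exact lt_of_mul_lt_mul_right e' d1.le
  have bG : max H0 3 * finrank ℚ E < logHeight₁ (g z) := by
    have e := mul_lt_mul_of_pos_right hbig d2
    rw [← hG] at e
    have e' : max H0 3 * finrank ℚ E * finrank ℚ K < logHeight₁ (g z) * finrank ℚ K := by
      linarith
    exact lt_of_mul_lt_mul_right e' d1.le
  have hE : CITNF.Eqv (f z) (g z) := by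
    by_contra hc
    have e := hH E (f z) (g z) hf0 hf1 hg0 hg1 hrel hc
    have e2 : H0 * finrank ℚ E ≤ max H0 3 * finrank ℚ E :=
      mul_le_mul_of_nonneg_right (le_max_left _ _) d2.le
    rcases min_le_iff.1 e with e | e <;> linarith
  have hMI := kum_mi hf0 hf1 hn hzn hn1 hn2 hE
  have hR := MinHt.rank_one_unif E (f z) hf0 hf1 hMI
  have e2 : 3 * (finrank ℚ E : ℝ) ≤ max H0 3 * finrank ℚ E :=
    mul_le_mul_of_nonneg_right (le_max_right _ _) d2.le
  have e3 : log 2 ≤ 1 := by
    have := Real.log_two_lt_d9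
    linarith
  have e4 : 3 * (finrank ℚ E * log 2) ≤ 3 * (finrank ℚ E : ℝ) := by
    have := mul_le_mul_of_nonneg_left e3 d2.le
    linarith
  linarith

end Pool.Agent.L3S
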