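import Pool.Agent.L3S.Cfg
import Pool.Agent.CITNF.Basic

set_option autoImplicit false

/-! Package T1: the symmetries of configurations. -/

namespace Pool.Agent.L3S

open NumberField Height Real Module Pool.Agent.LThree

variable {M H : ℝ} {K : Type} [Field K] [NumberField K] {x y z : K} {N : ℕ} {a b r : Fin 4 → ℤ}

private theorem mv_mass_nonneg (p : InfinitePlace K → Prop) : 0 ≤ mass K p := by
  classical
  unfold mass
  refine Finset.sum_nonneg fun v _ => ?_
  split_ifs
  · exact Nat.cast_nonneg _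
  · exact le_rfl

private theorem mv_pl {M' : ℝ} (hM : 1 ≤ M) (hMM : M ≤ M') (hH : 2 ≤ H) (z : K)
    (h : (finrank ℚ K : ℝ) ≤ M * mass K (Pl M H z)) :
    (finrank ℚ K : ℝ) ≤ M' * mass K (Pl M' H z) := by
  refine h.trans (mul_le_mul hMM (mass_mono K _ _ fun v hv => ?_) (mv_mass_nonneg _)
    (by linarith))
  have hM0 : 0 < M := by linarith
  have hM0' : 0 < M' := by linarith
  refine ⟨le_trans (exp_le_exp.2 ?_) hv.1, hv.2.trans (exp_le_exp.2 ?_)⟩
  · have : M * H ≤ M' * H := mul_le_mul_of_nonneg_right hMM (by linarith)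
    linarith
  · have : H / M' ≤ H / M := div_le_div_of_nonneg_left (by linarith) hM0 hMM
    linarith

private theorem mv_pow {M' : ℝ} (hMM : M ≤ M') (hH : 2 ≤ H) : H ^ M ≤ H ^ M' :=
  rpow_le_rpow_of_exponent_le (by linarith) hMM

private theorem mv_two_pow (hM : 1 ≤ M) (hH : 2 ≤ H) : 2 * H ^ M ≤ H ^ (2 * M) := by
  have h1 : (2 : ℝ) ≤ H ^ M := by
    have h2 : H ^ (1 : ℝ) ≤ H ^ M := rpow_le_rpow_of_exponent_le (by linarith) hM
    rw [rpow_one] at h2
    linarith
  have h3 : H ^ (2 * M) = H ^ M * H ^ M := by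
    rw [two_mul, rpow_add (by linarith)]
  rw [h3]
  exact mul_le_mul_of_nonneg_right h1 (rpow_nonneg (by linarith) _)

private theorem Cfg.mono_le {M' : ℝ} (hM : 1 ≤ M) (hMM : M ≤ M') (hH : 2 ≤ H)
    (h : Cfg M H K x y z N a b r) : Cfg M' H K x y z N a b r where
  x0 := h.x0
  x1 := h.x1
  y0 := h.y0
  y1 := h.y1
  z0 := h.z0
  z1 := h.z1
  xs := h.xs
  ys := h.ys
  ne := h.ne
  hx := h.hx.trans (mul_le_mul_of_nonneg_right hMM (Nat.cast_nonneg _))
  hy := h.hy.trans (mul_le_mul_of_nonneg_right hMM (Nat.cast_nonneg _))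
  N0 := h.N0
  Ne := h.Ne
  NH := h.NH.trans (mv_pow hMM hH)
  aH k := (h.aH k).trans (mv_pow hMM hH)
  bH k := (h.bH k).trans (mv_pow hMM hH)
  ex := h.ex
  ca k := (h.ca k).trans (mul_le_mul_of_nonneg_right hMM (Nat.cast_nonneg _))
  cb k := (h.cb k).trans (mul_le_mul_of_nonneg_right hMM (Nat.cast_nonneg _))
  r0 := h.r0
  re := h.re
  rM k := (h.rM k).trans hMM
  rel := h.rel
  ra := h.ra
  pl := mv_pl hM hMM hH z h.pl
  rank := h.rank
  gen := h.gen

omit [NumberField K] in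
/-- transfer of the rank condition along an injective linear map -/
private theorem mv_rank {x' y' : K} (f : (Fin 4 → ℤ) →ₗ[ℤ] (Fin 4 → ℤ))
    (hf : Function.Injective f) (hm : ∀ u, mo x' y' u = 1 → mo x y (f u) = 1)
    (h : ∀ u : Fin 3 → (Fin 4 → ℤ), LinearIndependent ℤ u → ¬ ∀ t, mo x y (u t) = 1) :
    ∀ u : Fin 3 → (Fin 4 → ℤ), LinearIndependent ℤ u → ¬ ∀ t, mo x' y' (u t) = 1 := by
  intro u hu hall
  exact h (f ∘ u) (hu.map' f (LinearMap.ker_eq_bot.2 hf)) fun t => hm _ (hall t)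

private def mv_lswap : (Fin 4 → ℤ) →ₗ[ℤ] (Fin 4 → ℤ) where
  toFun u := ![u 2, u 3, u 0, u 1]
  map_add' u v := by
    ext k
    fin_cases k <;> simp
  map_smul' c u := by
    ext k
    fin_cases k <;> simp

private def mv_lone : (Fin 4 → ℤ) →ₗ[ℤ] (Fin 4 → ℤ) where
  toFun u := ![u 1, u 0, u 2, u 3]
  map_add' u v := by
    ext k
    fin_cases k <;> simp
  map_smul' c u := by
    ext k
    fin_cases k <;> simp

private def mv_linv : (Fin 4 → ℤ) →ₗ[ℤ] (Fin 4 → ℤ) where
  toFun u := ![2 * (-u 0 - u 1), 2 * u 1, 2 * u 2, 2 * u 3]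
  map_add' u v := by
    ext k
    fin_cases k <;> simp <;> ring
  map_smul' c u := by
    ext k
    fin_cases k <;> simp <;> ring

/-- Exchange `x` and `y` (`¬ Eqv` is symmetric; the relations are permuted). -/
theorem Cfg.swap (h : Cfg M H K x y z N a b r) :
    Cfg M H K y x z N ![a 2, a 3, a 0, a 1] ![b 2, b 3, b 0, b 1] ![r 2, r 3, r 0, r 1] where
  x0 := h.y0
  x1 := h.y1
  y0 := h.x0
  y1 := h.x1
  z0 := h.z0
  z1 := h.z1
  xs := h.ys
  ys := h.xs
  ne := by
    intro he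
    apply h.ne
    have hx := h.x0
    have hy := h.y0
    have hx1 : 1 - x ≠ 0 := sub_ne_zero.2 h.x1.symm
    have hy1 : 1 - y ≠ 0 := sub_ne_zero.2 h.y1.symm
    have hx1' : x - 1 ≠ 0 := sub_ne_zero.2 h.x1
    have hy1' : y - 1 ≠ 0 := sub_ne_zero.2 h.y1
    rcases he with e | e | e | e | e | e
    · exact Or.inl e.symm
    · exact Or.inr (Or.inl (by rw [e]; ring))
    · exact Or.inr (Or.inr (Or.inl (by rw [e, inv_inv])))
    · refine Or.inr (Or.inr (Or.inr (Or.inr (Or.inr ?_))))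
      rw [e]
      field_simp
      ring
    · refine Or.inr (Or.inr (Or.inr (Or.inr (Or.inl ?_))))
      rw [eq_div_iff hx1']
      have e2 : x * (y - 1) = y := by rw [e]; field_simp
      linear_combination e2
    · refine Or.inr (Or.inr (Or.inr (Or.inl ?_)))
      rw [eq_comm, inv_eq_iff_eq_inv, eq_comm, inv_eq_iff_eq_inv]
      have e2 : x * y = y - 1 := by rw [e]; field_simp
      have e3 : y * (1 - x) = 1 := by linear_combination -e2
      exact eq_inv_of_mul_eq_one_left e3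
  hx := h.hy
  hy := h.hx
  N0 := h.N0
  Ne := h.Ne
  NH := h.NH
  aH k := by
    fin_cases k
    · exact h.aH 2
    · exact h.aH 3
    · exact h.aH 0
    · exact h.aH 1
  bH k := by
    fin_cases k
    · exact h.bH 2
    · exact h.bH 3
    · exact h.bH 0
    · exact h.bH 1
  ex k := by
    fin_cases k
    · exact h.ex 2
    · exact h.ex 3
    · exact h.ex 0
    · exact h.ex 1
  ca k := by
    fin_cases k
    · exact h.ca 2
    · exact h.ca 3
    · exact h.ca 0
    · exact h.ca 1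
  cb k := by
    fin_cases k
    · exact h.cb 2
    · exact h.cb 3
    · exact h.cb 0
    · exact h.cb 1
  r0 := by
    intro h0
    apply h.r0
    ext k
    fin_cases k
    · exact congrFun h0 2
    · exact congrFun h0 3
    · exact congrFun h0 0
    · exact congrFun h0 1
  re k := by
    fin_cases k
    · exact h.re 2
    · exact h.re 3
    · exact h.re 0
    · exact h.re 1
  rM k := by
    fin_cases k
    · exact h.rM 2
    · exact h.rM 3
    · exact h.rM 0
    · exact h.rM 1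
  rel := by
    have h1 := h.rel
    unfold mo at h1 ⊢
    rw [mul_comm] at h1
    exact h1
  ra := by
    have h1 := h.ra
    rw [Fin.sum_univ_four] at h1 ⊢
    change r 2 * a 2 + r 3 * a 3 + r 0 * a 0 + r 1 * a 1 = 0
    linarith
  pl := h.pl
  rank := by
    refine mv_rank mv_lswap ?_ ?_ h.rank
    · intro u v huv
      ext k
      fin_cases k
      · exact congrFun huv 2
      · exact congrFun huv 3
      · exact congrFun huv 0
      · exact congrFun huv 1
    · intro u hu
      unfold mo at hu ⊢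
      rw [mul_comm] at hu
      exact hu
  gen := by
    rw [Set.pair_comm]
    exact h.gen

/-- `x ↦ 1 - x` (`CITNF.height_one_sub_le`, `log 2 ≤ 1`). -/
theorem Cfg.one_sub (hM : 1 ≤ M) (hH : 2 ≤ H) (h : Cfg M H K x y z N a b r) :
    Cfg (2 * M) H K (1 - x) y z N ![a 1, a 0, a 2, a 3] ![b 1, b 0, b 2, b 3]
      ![r 1, r 0, r 2, r 3] := by
  have hMM : M ≤ 2 * M := by linarith
  have h2 := h.mono_le hM hMM hH
  refine
  { x0 := sub_ne_zero.2 h.x1.symm
    x1 := fun e => h.x0 (by linear_combination -e)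
    y0 := h.y0
    y1 := h.y1
    z0 := h.z0
    z1 := h.z1
    xs := ?_
    ys := h.ys
    ne := ?_
    hx := ?_
    hy := h2.hy
    N0 := h.N0
    Ne := h.Ne
    NH := h2.NH
    aH := ?_
    bH := ?_
    ex := ?_
    ca := ?_
    cb := ?_
    r0 := ?_
    re := ?_
    rM := ?_
    rel := ?_
    ra := ?_
    pl := h2.pl
    rank := ?_
    gen := ?_ }
  · intro e
    exact h.xs (by linear_combination e)
  · intro he
    apply h.ne
    have hx := h.x0
    have hx1 : 1 - x ≠ 0 := sub_ne_zero.2 h.x1.symm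
    have hx1' : x - 1 ≠ 0 := sub_ne_zero.2 h.x1
    rcases he with e | e | e | e | e | e
    · exact Or.inr (Or.inl e)
    · exact Or.inl (by rw [e]; ring)
    · exact Or.inr (Or.inr (Or.inr (Or.inl e)))
    · exact Or.inr (Or.inr (Or.inl (by rw [e, sub_sub_cancel])))
    · refine Or.inr (Or.inr (Or.inr (Or.inr (Or.inr ?_))))
      rw [e]
      have h3 : 1 - x - 1 = -x := by ring
      rw [h3]
      field_simp
      ring
    · refine Or.inr (Or.inr (Or.inr (Or.inr (Or.inl ?_))))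
      rw [e]
      have h3 : 1 - x - 1 = -x := by ring
      rw [h3]
      field_simp
      ring
  · have h3 := Pool.Agent.CITNF.height_one_sub_le x
    have h4 : log 2 ≤ 1 := by
      have := Real.log_two_lt_d9
      linarith
    have h5 : (finrank ℚ K : ℝ) * log 2 ≤ finrank ℚ K * M :=
      mul_le_mul_of_nonneg_left (by linarith) (Nat.cast_nonneg _)
    have h6 := h.hx
    nlinarith
  · intro k
    fin_cases k
    · exact h2.aH 1
    · exact h2.aH 0
    · exact h2.aH 2
    · exact h2.aH 3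
  · intro k
    fin_cases k
    · exact h2.bH 1
    · exact h2.bH 0
    · exact h2.bH 2
    · exact h2.bH 3
  · intro k
    fin_cases k
    · exact h.ex 1
    · have h3 := h.ex 0
      have h4 : fo (1 - x) y 1 = fo x y 0 := sub_sub_cancel 1 x
      change fo (1 - x) y 1 ^ N = z ^ a 0 * (1 - z) ^ b 0
      rw [h4]
      exact h3
    · exact h.ex 2
    · exact h.ex 3
  · intro k
    fin_cases k
    · exact h2.ca 1
    · exact h2.ca 0
    · exact h2.ca 2
    · exact h2.ca 3
  · intro k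
    fin_cases k
    · exact h2.cb 1
    · exact h2.cb 0
    · exact h2.cb 2
    · exact h2.cb 3
  · intro h0
    apply h.r0
    ext k
    fin_cases k
    · exact congrFun h0 1
    · exact congrFun h0 0
    · exact congrFun h0 2
    · exact congrFun h0 3
  · intro k
    fin_cases k
    · exact h.re 1
    · exact h.re 0
    · exact h.re 2
    · exact h.re 3
  · intro k
    fin_cases k
    · exact h2.rM 1
    · exact h2.rM 0
    · exact h2.rM 2
    · exact h2.rM 3
  · have h1 := h.rel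
    unfold mo at h1 ⊢
    rw [sub_sub_cancel]
    change (1 - x) ^ r 1 * x ^ r 0 * (y ^ r 2 * (1 - y) ^ r 3) = 1
    rw [mul_comm ((1 - x) ^ r 1)]
    exact h1
  · have h1 := h.ra
    rw [Fin.sum_univ_four] at h1 ⊢
    change r 1 * a 1 + r 0 * a 0 + r 2 * a 2 + r 3 * a 3 = 0
    linarith
  · refine mv_rank mv_lone ?_ ?_ h.rank
    · intro u v huv
      ext k
      fin_cases k
      · exact congrFun huv 1
      · exact congrFun huv 0
      · exact congrFun huv 2
      · exact congrFun huv 3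
    · intro u hu
      unfold mo at hu ⊢
      rw [sub_sub_cancel] at hu
      change x ^ u 1 * (1 - x) ^ u 0 * (y ^ u 2 * (1 - y) ^ u 3) = 1
      rw [mul_comm (x ^ u 1)]
      exact hu
  · rw [eq_top_iff, ← h.gen, IntermediateField.adjoin_le_iff]
    rintro w (rfl | rfl)
    · have h3 : 1 - w ∈ IntermediateField.adjoin ℚ {1 - w, y} :=
        IntermediateField.subset_adjoin _ _ (Set.mem_insert _ _)
      have h4 := sub_mem (one_mem (IntermediateField.adjoin ℚ {1 - w, y})) h3
      rwa [sub_sub_cancel] at h4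
    · exact IntermediateField.subset_adjoin _ _ (Set.mem_insert_of_mem _ rfl)

/-- `x ↦ x⁻¹`: `1 - x⁻¹ = -(1 - x) / x`, and `N` and the `r k` are even. For `rank`: if
`mo x⁻¹ y u = 1` then `mo x y (2 (-u 0 - u 1, u 1, u 2, u 3)) = 1`, and this linear map is
injective. `2 * H ^ M ≤ H ^ (2 * M)` as `2 ≤ H`, `1 ≤ M`. -/
theorem Cfg.inv (hM : 1 ≤ M) (hH : 2 ≤ H) (h : Cfg M H K x y z N a b r) :
    Cfg (2 * M) H K x⁻¹ y z N ![-a 0, a 1 - a 0, a 2, a 3] ![-b 0, b 1 - b 0, b 2, b 3]
      ![-r 0 - r 1, r 1, r 2, r 3] := by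
  have hMM : M ≤ 2 * M := by linarith
  have h2 := h.mono_le hM hMM hH
  have hx := h.x0
  have hx1 : 1 - x ≠ 0 := sub_ne_zero.2 h.x1.symm
  have hx1' : x - 1 ≠ 0 := sub_ne_zero.2 h.x1
  have hz := h.z0
  have hz1 : 1 - z ≠ 0 := sub_ne_zero.2 h.z1.symm
  have hinv : 1 - x⁻¹ = -((1 - x) / x) := by
    field_simp
    ring
  -- the monomial of the inverse with an even exponent of `1 - x⁻¹`
  have hmo : ∀ u : Fin 4 → ℤ, Even (u 1) →
      mo x⁻¹ y u = mo x y ![-u 0 - u 1, u 1, u 2, u 3] := by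
    intro u hu
    unfold mo
    rw [hinv, hu.neg_zpow, div_zpow, inv_zpow]
    change (x ^ u 0)⁻¹ * ((1 - x) ^ u 1 / x ^ u 1) * (y ^ u 2 * (1 - y) ^ u 3) =
      x ^ (-u 0 - u 1) * (1 - x) ^ u 1 * (y ^ u 2 * (1 - y) ^ u 3)
    rw [zpow_sub₀ hx, zpow_neg]
    field_simp
  refine
  { x0 := inv_ne_zero hx
    x1 := fun e => h.x1 (by rw [← inv_inv x, e, inv_one])
    y0 := h.y0
    y1 := h.y1
    z0 := h.z0
    z1 := h.z1
    xs := ?_
    ys := h.ys
    ne := ?_
    hx := ?_
    hy := h2.hy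
    N0 := h.N0
    Ne := h.Ne
    NH := h2.NH
    aH := ?_
    bH := ?_
    ex := ?_
    ca := ?_
    cb := ?_
    r0 := ?_
    re := ?_
    rM := ?_
    rel := ?_
    ra := ?_
    pl := h2.pl
    rank := ?_
    gen := ?_ }
  · intro e
    apply h.xs
    have h3 : x ^ 2 - x + 1 = x ^ 2 * (x⁻¹ ^ 2 - x⁻¹ + 1) := by
      field_simp
      ring
    rw [h3, e, mul_zero]
  · intro he
    apply h.ne
    rcases he with e | e | e | e | e | e
    · exact Or.inr (Or.inr (Or.inl e))
    · refine Or.inr (Or.inr (Or.inr (Or.inr (Or.inr ?_))))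
      rw [e]
      field_simp
    · exact Or.inl (by rw [e, inv_inv])
    · refine Or.inr (Or.inr (Or.inr (Or.inr (Or.inl ?_))))
      rw [e, hinv, ← neg_div, inv_div]
      congr 1
      ring
    · refine Or.inr (Or.inr (Or.inr (Or.inl ?_)))
      rw [e]
      have h3 : x⁻¹ - 1 = (1 - x) / x := by field_simp
      rw [h3]
      field_simp
    · refine Or.inr (Or.inl ?_)
      rw [e]
      field_simp
  · rw [logHeight₁_inv]
    exact h2.hx
  · intro k
    fin_cases k
    · change |((-a 0 : ℤ) : ℝ)| ≤ _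
      rw [Int.cast_neg, abs_neg]
      exact h2.aH 0
    · change |((a 1 - a 0 : ℤ) : ℝ)| ≤ _
      rw [Int.cast_sub]
      have h3 := mv_two_pow hM hH
      have h4 := h.aH 0
      have h5 := h.aH 1
      have h6 := abs_sub (a 1 : ℝ) (a 0 : ℝ)
      linarith
    · exact h2.aH 2
    · exact h2.aH 3
  · intro k
    fin_cases k
    · change |((-b 0 : ℤ) : ℝ)| ≤ _
      rw [Int.cast_neg, abs_neg]
      exact h2.bH 0
    · change |((b 1 - b 0 : ℤ) : ℝ)| ≤ _
      rw [Int.cast_sub]
      have h3 := mv_two_pow hM hH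
      have h4 := h.bH 0
      have h5 := h.bH 1
      have h6 := abs_sub (b 1 : ℝ) (b 0 : ℝ)
      linarith
    · exact h2.bH 2
    · exact h2.bH 3
  · have h30 : x ^ N = z ^ a 0 * (1 - z) ^ b 0 := h.ex 0
    have h31 : (1 - x) ^ N = z ^ a 1 * (1 - z) ^ b 1 := h.ex 1
    intro k
    fin_cases k
    · change x⁻¹ ^ N = z ^ (-a 0) * (1 - z) ^ (-b 0)
      rw [inv_pow, h30, zpow_neg, zpow_neg, mul_inv]
    · change (1 - x⁻¹) ^ N = z ^ (a 1 - a 0) * (1 - z) ^ (b 1 - b 0)
      rw [hinv, h.Ne.neg_pow, div_pow, h30, h31, zpow_sub₀ hz, zpow_sub₀ hz1]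
      have h5 := zpow_ne_zero (a 0) hz
      have h6 := zpow_ne_zero (b 0) hz1
      field_simp
    · exact h.ex 2
    · exact h.ex 3
  · intro k
    fin_cases k
    · change |((-a 0 : ℤ) : ℝ)| * H ≤ _
      rw [Int.cast_neg, abs_neg]
      exact h2.ca 0
    · change |((a 1 - a 0 : ℤ) : ℝ)| * H ≤ _
      rw [Int.cast_sub]
      have h4 := h.ca 0
      have h5 := h.ca 1
      have h6 := mul_le_mul_of_nonneg_right (abs_sub (a 1 : ℝ) (a 0 : ℝ))
        (show (0 : ℝ) ≤ H by linarith)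
      linarith
    · exact h2.ca 2
    · exact h2.ca 3
  · intro k
    fin_cases k
    · change |((-b 0 : ℤ) : ℝ)| * H ≤ _
      rw [Int.cast_neg, abs_neg]
      exact h2.cb 0
    · change |((b 1 - b 0 : ℤ) : ℝ)| * H ≤ _
      rw [Int.cast_sub]
      have h4 := h.cb 0
      have h5 := h.cb 1
      have h6 := mul_le_mul_of_nonneg_right (abs_sub (b 1 : ℝ) (b 0 : ℝ))
        (show (0 : ℝ) ≤ H by linarith)
      linarith
    · exact h2.cb 2
    · exact h2.cb 3
  · intro h0
    apply h.r0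
    have e0 : -r 0 - r 1 = 0 := congrFun h0 0
    have e1 : r 1 = 0 := congrFun h0 1
    ext k
    fin_cases k
    · change r 0 = 0
      omega
    · exact e1
    · exact congrFun h0 2
    · exact congrFun h0 3
  · intro k
    fin_cases k
    · exact ((h.re 0).neg).sub (h.re 1)
    · exact h.re 1
    · exact h.re 2
    · exact h.re 3
  · intro k
    fin_cases k
    · change |((-r 0 - r 1 : ℤ) : ℝ)| ≤ _
      rw [Int.cast_sub, Int.cast_neg]
      have h4 := h.rM 0
      have h5 := h.rM 1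
      have h6 := abs_sub (-(r 0 : ℝ)) (r 1 : ℝ)
      rw [abs_neg] at h6
      linarith
    · exact h2.rM 1
    · exact h2.rM 2
    · exact h2.rM 3
  · rw [hmo ![-r 0 - r 1, r 1, r 2, r 3] (h.re 1)]
    have h1 := h.rel
    unfold mo at h1 ⊢
    change x ^ (-(-r 0 - r 1) - r 1) * (1 - x) ^ r 1 * (y ^ r 2 * (1 - y) ^ r 3) = 1
    have h3 : -(-r 0 - r 1) - r 1 = r 0 := by ring
    rw [h3]
    exact h1
  · have h1 := h.ra
    rw [Fin.sum_univ_four] at h1 ⊢
    change (-r 0 - r 1) * (-a 0) + r 1 * (a 1 - a 0) + r 2 * a 2 + r 3 * a 3 = 0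
    linear_combination h1
  · refine mv_rank mv_linv ?_ ?_ h.rank
    · intro u v huv
      have e0 : 2 * (-u 0 - u 1) = 2 * (-v 0 - v 1) := congrFun huv 0
      have e1 : 2 * u 1 = 2 * v 1 := congrFun huv 1
      have e2 : 2 * u 2 = 2 * v 2 := congrFun huv 2
      have e3 : 2 * u 3 = 2 * v 3 := congrFun huv 3
      ext k
      fin_cases k
      · change u 0 = v 0
        omega
      · change u 1 = v 1
        omega
      · change u 2 = v 2
        omega
      · change u 3 = v 3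
        omega
    · intro u hu
      have h3 : mo x⁻¹ y ![2 * u 0, 2 * u 1, 2 * u 2, 2 * u 3] = 1 := by
        have h4 : mo x⁻¹ y ![2 * u 0, 2 * u 1, 2 * u 2, 2 * u 3] = mo x⁻¹ y u ^ (2 : ℤ) := by
          unfold mo
          change x⁻¹ ^ (2 * u 0) * (1 - x⁻¹) ^ (2 * u 1) * (y ^ (2 * u 2) * (1 - y) ^ (2 * u 3)) =
            (x⁻¹ ^ u 0 * (1 - x⁻¹) ^ u 1 * (y ^ u 2 * (1 - y) ^ u 3)) ^ (2 : ℤ)
          rw [mul_zpow, mul_zpow, mul_zpow, ← zpow_mul, ← zpow_mul, ← zpow_mul, ← zpow_mul,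
            mul_comm (u 0), mul_comm (u 1), mul_comm (u 2), mul_comm (u 3)]
        rw [h4, hu, one_zpow]
      rw [hmo _ (even_two_mul (u 1))] at h3
      have h5 : mv_linv u = ![-(2 * u 0) - 2 * u 1, 2 * u 1, 2 * u 2, 2 * u 3] := by
        change ![2 * (-u 0 - u 1), 2 * u 1, 2 * u 2, 2 * u 3] = _
        congr 1
        ring
      rw [h5]
      exact h3
  · rw [eq_top_iff, ← h.gen, IntermediateField.adjoin_le_iff]
    rintro w (rfl | rfl)
    · have h3 : w⁻¹ ∈ IntermediateField.adjoin ℚ {w⁻¹, y} :=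
        IntermediateField.subset_adjoin _ _ (Set.mem_insert _ _)
      have h4 := inv_mem h3
      rwa [inv_inv] at h4
    · exact IntermediateField.subset_adjoin _ _ (Set.mem_insert_of_mem _ rfl)

/-- **Normal form of the first coordinate**: by at most three moves `one_sub`, `inv` the three
numbers `a 1 ≤ 0 ≤ a 0` are sorted (the moves act on `(0, a 0, a 1)` modulo translation by all
permutations: cases by the order of `0, a 0, a 1`; e.g. `0 ≤ a 1 ≤ a 0`: `x / (x - 1)`, that is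
`one_sub`, `inv`, `one_sub`, gives `(a 0 - a 1, - a 1)`). -/
theorem Cfg.normal_left (hM : 1 ≤ M) (hH : 2 ≤ H) (h : Cfg M H K x y z N a b r) :
    ∃ (x' : K) (a' b' r' : Fin 4 → ℤ), Cfg (8 * M) H K x' y z N a' b' r' ∧ 0 ≤ a' 0 ∧ a' 1 ≤ 0 ∧
      a' 2 = a 2 ∧ a' 3 = a 3 := by
  have hM2 : 1 ≤ 2 * M := by linarith
  have hM4 : 1 ≤ 2 * (2 * M) := by linarith
  have hM8 : 1 ≤ 2 * (2 * (2 * M)) := by linarith
  rcases le_total (a 1) 0 with h1 | h1
  · rcases le_total 0 (a 0) with h0 | h0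
    · exact ⟨x, a, b, r, h.mono_le hM (by linarith) hH, h0, h1, rfl, rfl⟩
    · rcases le_total (a 1) (a 0) with h2 | h2
      · refine ⟨_, _, _, _, (h.inv hM hH).mono_le hM2 (by linarith) hH, ?_, ?_, rfl, rfl⟩
        · change 0 ≤ -a 0
          omega
        · change a 1 - a 0 ≤ 0
          omega
      · refine ⟨_, _, _, _, ((h.one_sub hM hH).inv hM2 hH).mono_le hM4 (by linarith) hH, ?_, ?_,
          rfl, rfl⟩
        · change 0 ≤ -a 1
          omega
        · change a 0 - a 1 ≤ 0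
          omega
  · rcases le_total (a 0) 0 with h0 | h0
    · exact ⟨_, _, _, _, (h.one_sub hM hH).mono_le hM2 (by linarith) hH, h1, h0, rfl, rfl⟩
    · rcases le_total (a 1) (a 0) with h2 | h2
      · refine ⟨_, _, _, _, (((h.one_sub hM hH).inv hM2 hH).one_sub hM4 hH).mono_le hM8
          (by linarith) hH, ?_, ?_, rfl, rfl⟩
        · change 0 ≤ a 0 - a 1
          omega
        · change -a 1 ≤ 0
          omega
      · refine ⟨_, _, _, _, ((h.inv hM hH).one_sub hM2 hH).mono_le hM4 (by linarith) hH, ?_, ?_,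
          rfl, rfl⟩
        · change 0 ≤ a 1 - a 0
          omega
        · change -a 0 ≤ 0
          omega

/-- **Normal form**: `normal_left`, `swap`, `normal_left`, `swap`. -/
theorem Cfg.normal (hM : 1 ≤ M) (hH : 2 ≤ H) (h : Cfg M H K x y z N a b r) :
    ∃ (x' y' : K) (a' b' r' : Fin 4 → ℤ), Cfg (64 * M) H K x' y' z N a' b' r' ∧
      0 ≤ a' 0 ∧ a' 1 ≤ 0 ∧ 0 ≤ a' 2 ∧ a' 3 ≤ 0 := by
  obtain ⟨x', a', b', r', h1, p0, p1, -, -⟩ := h.normal_left hM hH
  obtain ⟨y', a'', b'', r'', h2, q0, q1, q2, q3⟩ := h1.swap.normal_left (by linarith) hH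
  refine ⟨x', y', _, _, _, h2.swap.mono_le (by linarith) (by linarith) hH, ?_, ?_, q0, q1⟩
  · change 0 ≤ a'' 2
    rw [q2]
    exact p0
  · change a'' 3 ≤ 0
    rw [q3]
    exact p1

end Pool.Agent.L3S
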