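import Pool.Agent.L3S.Types
import Pool.Agent.L3S.Moves
import Pool.Agent.L3S.Bdd
import Pool.Agent.L3S.EvClu
import Pool.Agent.L3S.Classify

set_option autoImplicit false

/-! Assembly: there are no configurations of large height. -/

namespace Pool.Agent.L3S

open NumberField Height Real Module Pool.Agent.LThree

theorem mass_le_finrank (K : Type) [Field K] [NumberField K] (p : InfinitePlace K → Prop) :
    mass K p ≤ finrank ℚ K := by
  have h1 := mass_not K p
  have h2 : 0 ≤ mass K (fun v => ¬ p v) := by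
    unfold mass
    exact Finset.sum_nonneg fun v _ => by split_ifs <;> positivity
  linarith

/-- Splitting the good places. -/
theorem mass_split (K : Type) [Field K] [NumberField K] (M : ℝ) (hM : 0 ≤ M)
    (p q s : InfinitePlace K → Prop) (h : (finrank ℚ K : ℝ) ≤ M * mass K p)
    (hpq : ∀ v, p v → q v ∨ s v) : (finrank ℚ K : ℝ) ≤ 2 * M * mass K q ∨
      (finrank ℚ K : ℝ) ≤ 2 * M * mass K s := by
  by_contra hcon
  push Not at hcon
  obtain ⟨h1, h2⟩ := hcon
  have h3 := (mass_mono K p _ hpq).trans (mass_or_le K q s)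
  have h4 : M * mass K p ≤ M * (mass K q + mass K s) := mul_le_mul_of_nonneg_left h3 hM
  linarith

theorem exp_small (c C : ℝ) (hc : 0 < c) (hC : 0 < C) (B : ℝ) : ∃ H2 : ℝ, ∀ H : ℝ, H2 ≤ H →
    C * exp (-(c * H)) ≤ exp (-B) := by
  refine ⟨(B + log C) / c, fun H hH => ?_⟩
  rw [div_le_iff₀ hc] at hH
  calc C * exp (-(c * H)) = exp (log C) * exp (-(c * H)) := by rw [exp_log hC]
    _ = exp (log C - c * H) := by rw [← exp_add]; ring_nf
    _ ≤ exp (-B) := exp_le_exp.2 (by linarith)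

theorem exp_small' (c C c' : ℝ) (hc : c' < c) (hC : 0 < C) : ∃ H2 : ℝ, ∀ H : ℝ, H2 ≤ H →
    C * exp (-(c * H)) ≤ exp (-(c' * H)) := by
  refine ⟨log C / (c - c'), fun H hH => ?_⟩
  rw [div_le_iff₀ (by linarith)] at hH
  calc C * exp (-(c * H)) = exp (log C) * exp (-(c * H)) := by rw [exp_log hC]
    _ = exp (log C - c * H) := by rw [← exp_add]; ring_nf
    _ ≤ exp (-(c' * H)) := exp_le_exp.2 (by nlinarith)

theorem Near.mono {A : Fin 4 → ℝ} {s ρ ρ' : ℝ} {x y : ℂ} (h : Near A s ρ x y) (hρ : ρ ≤ ρ') :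
    Near A s ρ' x y := fun k => (h k).trans hρ

theorem emb_ne {K : Type} [Field K] [NumberField K] (v : InfinitePlace K) {x : K} (h0 : x ≠ 0)
    (h1 : x ≠ 1) : v.embedding x ≠ 0 ∧ v.embedding x ≠ 1 :=
  ⟨fun h => h0 (by simpa using h), fun h => h1 (v.embedding.injective (by rw [h, map_one]))⟩

theorem dir_le {M H : ℝ} {K : Type} [Field K] [NumberField K] {x y z : K} {N : ℕ}
    {a b r : Fin 4 → ℤ} (h : Cfg M H K x y z N a b r) (hH : 0 ≤ H) (k : Fin 4) :
    |dir H N a k| ≤ M := by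
  have hN : (0 : ℝ) < N := by exact_mod_cast h.N0
  unfold dir
  rw [abs_neg, abs_div, abs_mul, abs_of_nonneg hH, abs_of_pos hN, div_le_iff₀ hN]
  exact h.ca k

/-- Clusters of the parameter: bounded degree, so bounded height. -/
theorem clusters_false (M κ : ℝ) (hM : 1 ≤ M) (hκ : 0 < κ) (k : ℕ) : ∃ H2 : ℝ, ∀ H : ℝ, H2 ≤ H →
    ∀ (K : Type) [Field K] [NumberField K] (x y z : K) (N : ℕ) (a b r : Fin 4 → ℤ),
      Cfg M H K x y z N a b r → ∀ T : Finset ℝ, T.card ≤ k →
      (finrank ℚ K : ℝ) ≤ 4 * M * mass K (fun v => Pl M H z v ∧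
        ∃ u ∈ T, |sv H z v - u| ≤ exp (-(κ * H))) → False := by
  obtain ⟨Hn, hnear⟩ := cfg_near M hM
  obtain ⟨C, hC, hcp⟩ := cluster_points M
  obtain ⟨C1, hC1, hdeg⟩ := deg_of_clusters (4 * M) (by linarith)
  set k1 : ℕ := 2 * k + 1 with hk1
  obtain ⟨Hb, hb⟩ := cfg_bounded M hM ⌈(C1 * k1) ^ 2⌉₊
  set κ' : ℝ := min κ (1 / (2 * M)) with hκ'
  have hM0 : 0 < M := by linarith
  have hκ'0 : 0 < κ' := lt_min hκ (by positivity)
  obtain ⟨He, he⟩ := exp_small (κ' / 2) C (by positivity) hC (C1 * k1)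
  refine ⟨max 1 (max Hn (max Hb He)), ?_⟩
  intro H hH K _ _ x y z N a b r hc T hT hmass
  have h1H : 1 ≤ H := (le_max_left _ _).trans hH
  have hH1 : Hn ≤ H := (le_max_left _ _).trans ((le_max_right _ _).trans hH)
  have hH2 : Hb ≤ H := (le_max_left _ _).trans ((le_max_right _ _).trans
    ((le_max_right _ _).trans hH))
  have hH3 : He ≤ H := (le_max_right _ _).trans ((le_max_right _ _).trans
    ((le_max_right _ _).trans hH))
  set ρ : ℝ := exp (-(κ' * H)) with hρ
  have hρ0 : 0 ≤ ρ := (exp_pos _).le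
  have hρ1 : ρ ≤ 1 := by
    rw [hρ, exp_le_one_iff]
    nlinarith
  have hρa : exp (-(κ * H)) ≤ ρ := by
    rw [hρ, exp_le_exp]
    have : κ' ≤ κ := min_le_left _ _
    nlinarith
  have hρb : exp (-(H / (2 * M))) ≤ ρ := by
    rw [hρ, exp_le_exp]
    have h2 : κ' ≤ 1 / (2 * M) := min_le_right _ _
    have h3 : H / (2 * M) = 1 / (2 * M) * H := by ring
    rw [h3]
    nlinarith
  have hsq : C * √ρ ≤ exp (-(C1 * k1)) := by
    have h2 : √ρ = exp (-(κ' / 2 * H)) := by
      rw [hρ, Real.sqrt_eq_rpow, ← Real.exp_mul]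
      congr 1
      ring
    rw [h2]
    exact he H hH3
  obtain ⟨U, V, hU, hV, hUV⟩ := hcp (dir H N a) T ρ (dir_le hc (by linarith)) hρ0 hρ1
  have key : ∀ v : InfinitePlace K, (Pl M H z v ∧ ∃ u ∈ T, |sv H z v - u| ≤ exp (-(κ * H))) →
      (∃ t ∈ U, ‖v.embedding x - t‖ ≤ exp (-(C1 * k1))) ∧
        ∃ t ∈ V, ‖v.embedding y - t‖ ≤ exp (-(C1 * k1)) := by
    rintro v ⟨hv, u, hu, hvu⟩
    obtain ⟨s1, s2, hs⟩ := hnear H hH1 K x y z N a b r hc v hv
    have hs0 : |sv H z v| ≤ M := by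
      have h2 : 0 < 1 / M := by positivity
      rw [abs_of_nonneg (h2.le.trans s1)]
      exact s2
    obtain ⟨hx0, hx1⟩ := emb_ne v hc.x0 hc.x1
    obtain ⟨hy0, hy1⟩ := emb_ne v hc.y0 hc.y1
    obtain ⟨⟨t, ht, ht'⟩, ⟨t2, ht2, ht2'⟩⟩ := hUV (sv H z v) (v.embedding x) (v.embedding y) hs0
      hx0 hx1 hy0 hy1 ⟨u, hu, hvu.trans hρa⟩ (hs.mono hρb)
    exact ⟨⟨t, ht, ht'.trans hsq⟩, ⟨t2, ht2, ht2'.trans hsq⟩⟩
  have h4M : (1 : ℝ) ≤ 4 * M := by linarith
  have hxM : logHeight₁ x ≤ 4 * M * finrank ℚ K := by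
    have := hc.hx
    have h2 : (0 : ℝ) ≤ finrank ℚ K := Nat.cast_nonneg _
    nlinarith
  have hyM : logHeight₁ y ≤ 4 * M * finrank ℚ K := by
    have := hc.hy
    have h2 : (0 : ℝ) ≤ finrank ℚ K := Nat.cast_nonneg _
    nlinarith
  have dx := hdeg K x k1 U (by omega) (by omega) hxM (hmass.trans (mul_le_mul_of_nonneg_left
    (mass_mono K _ _ fun v hv => (key v hv).1) (by linarith)))
  have dy := hdeg K y k1 V (by omega) (by omega) hyM (hmass.trans (mul_le_mul_of_nonneg_left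
    (mass_mono K _ _ fun v hv => (key v hv).2) (by linarith)))
  refine hb H hH2 K x y z N a b r hc ?_
  have h5 := finrank_le_mul K x y hc.gen
  have h6 : (finrank ℚ K : ℝ) ≤ (C1 * k1) ^ 2 := by
    calc (finrank ℚ K : ℝ) ≤ ((minpoly ℚ x).natDegree : ℝ) * (minpoly ℚ y).natDegree := by
          exact_mod_cast h5
      _ ≤ (C1 * k1) * (C1 * k1) := mul_le_mul dx dy (Nat.cast_nonneg _) (by positivity)
      _ = (C1 * k1) ^ 2 := by ring
  exact_mod_cast h6.trans (Nat.le_ceil _)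


/-! ### Heights -/

theorem log_two_le : log 2 ≤ 1 := by
  have := log_two_lt_d9
  linarith

theorem ht_sub {K : Type} [Field K] [NumberField K] (x y : K) (a b : ℝ)
    (hx : logHeight₁ x ≤ a * finrank ℚ K) (hy : logHeight₁ y ≤ b * finrank ℚ K) :
    logHeight₁ (x - y) ≤ (a + b + 1) * finrank ℚ K := by
  have h := logHeight₁_sub_le (K := K) x y
  rw [totalWeight_eq_finrank] at h
  have h2 : (0 : ℝ) ≤ finrank ℚ K := Nat.cast_nonneg _
  have h3 := log_two_le
  nlinarith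

theorem ht_mul {K : Type} [Field K] [NumberField K] (x y : K) (a b : ℝ)
    (hx : logHeight₁ x ≤ a * finrank ℚ K) (hy : logHeight₁ y ≤ b * finrank ℚ K) :
    logHeight₁ (x * y) ≤ (a + b) * finrank ℚ K := by
  have h := logHeight₁_mul_le (K := K) x y
  linarith

theorem ht_one {K : Type} [Field K] [NumberField K] :
    logHeight₁ (1 : K) ≤ 0 * finrank ℚ K := by
  rw [logHeight₁_one, zero_mul]

theorem ht_mono {K : Type} [Field K] [NumberField K] {x : K} {a b : ℝ} (hab : a ≤ b)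
    (hx : logHeight₁ x ≤ a * finrank ℚ K) : logHeight₁ x ≤ b * finrank ℚ K :=
  hx.trans (mul_le_mul_of_nonneg_right hab (Nat.cast_nonneg _))

/-! ### Excluded coincidences -/

theorem cfg_scale {M H : ℝ} {K : Type} [Field K] [NumberField K] {x y z : K} {N : ℕ}
    {a b r : Fin 4 → ℤ} (h : Cfg M H K x y z N a b r) (hH : 1 ≤ H) (hM : 1 ≤ M) {M' : ℝ}
    (hM' : M ≤ M') (j : Fin 4) : (N : ℝ) ≤ H ^ M' ∧ |(a j : ℝ)| * H ≤ M' * N := by
  refine ⟨h.NH.trans (rpow_le_rpow_of_exponent_le hH hM'), (h.ca j).trans ?_⟩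
  exact mul_le_mul_of_nonneg_right hM' (Nat.cast_nonneg _)

theorem dir_eq_zero {H : ℝ} {N : ℕ} {a : Fin 4 → ℤ} {k : Fin 4} (hH : 0 < H) (hN : 0 < N)
    (h : dir H N a k = 0) : a k = 0 := by
  unfold dir at h
  have hN' : (N : ℝ) ≠ 0 := by exact_mod_cast hN.ne'
  have h1 : (a k : ℝ) * H / N = 0 := by linarith
  rw [div_eq_zero_iff] at h1
  rcases h1 with h1 | h1
  · rcases mul_eq_zero.1 h1 with h2 | h2
    · exact_mod_cast h2
    · exact absurd h2 hH.ne'
  · exact absurd h1 hN'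

theorem dir_eq {H : ℝ} {N : ℕ} {a : Fin 4 → ℤ} {k l : Fin 4} (hH : 0 < H) (hN : 0 < N)
    (h : dir H N a k = dir H N a l) : a k = a l := by
  unfold dir at h
  have hN' : (N : ℝ) ≠ 0 := by exact_mod_cast hN.ne'
  have h1 : (a k : ℝ) * H / N = a l * H / N := by linarith
  rw [div_left_inj' hN'] at h1
  have := mul_right_cancel₀ hH.ne' h1
  exact_mod_cast this

/-- Near conjugates with `|x| ≈ 1` (resp. `|1 - x| ≈ 1`). -/
theorem near_one (x y : ℂ) (B ρ η : ℝ) (hB : ‖x‖ ≤ B) (hy : ‖y - (starRingEnd ℂ) x‖ ≤ ρ)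
    (hx : |‖x‖ ^ 2 - 1| ≤ η) : ‖x * y - 1‖ ≤ B * ρ + η := by
  have h1 : x * y - 1 = x * (y - (starRingEnd ℂ) x) + (x * (starRingEnd ℂ) x - 1) := by ring
  have h2 : x * (starRingEnd ℂ) x - 1 = ((‖x‖ ^ 2 - 1 : ℝ) : ℂ) := by
    rw [Complex.mul_conj, Complex.normSq_eq_norm_sq]
    push_cast
    ring
  rw [h1, h2]
  refine (norm_add_le _ _).trans (add_le_add ?_ ?_)
  · rw [norm_mul]
    exact mul_le_mul hB hy (norm_nonneg _) ((norm_nonneg _).trans hB)
  · rw [Complex.norm_real]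
    exact hx

theorem sq_near_one (t ρ : ℝ) (ht : 0 < t) (hρ : ρ ≤ 1 / 2) (h : |log t| ≤ ρ) :
    |t ^ 2 - 1| ≤ 4 * ρ ∧ t ≤ 2 := by
  have h1 : t ^ 2 = exp (2 * log t) := by
    rw [two_mul, exp_add, exp_log ht]
    ring
  have h2 : |2 * log t| ≤ 1 := by
    rw [abs_mul, abs_two]
    linarith
  have h3 := Real.abs_exp_sub_one_le h2
  rw [← h1, abs_mul, abs_two] at h3
  refine ⟨by linarith, ?_⟩
  have h4 : |t ^ 2 - 1| ≤ 2 := by linarith
  have h5 := (abs_le.1 h4).2
  nlinarith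


/-! ### The pair `(x, conj x)` with `|x| ≈ 1` -/

/-- Excluded: `y ≈ x̄` and `a 0 = 0` (so `|x| ≈ 1`). -/
theorem conj_circle_false (M : ℝ) (hM : 1 ≤ M) : ∃ H2 : ℝ, ∀ H : ℝ, H2 ≤ H →
    ∀ (K : Type) [Field K] [NumberField K] (x y z : K) (N : ℕ) (a b r : Fin 4 → ℤ),
      Cfg M H K x y z N a b r → a 0 = 0 →
      (finrank ℚ K : ℝ) ≤ 4 * M * mass K (fun v => Pl M H z v ∧
        ‖v.embedding y - (starRingEnd ℂ) (v.embedding x)‖ ≤ exp (-(H / (8 * M)))) → False := by
  have hM0 : 0 < M := by linarith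
  obtain ⟨Hn, hnear⟩ := cfg_near M hM
  obtain ⟨Hs, hs⟩ := not_small (16 * M) (by linarith)
  obtain ⟨He, he⟩ := exp_small' (1 / (8 * M)) 6 (1 / (16 * M)) (by
    apply one_div_lt_one_div_of_lt <;> linarith) (by norm_num)
  obtain ⟨Hf, hf⟩ := exp_small (1 / (2 * M)) 2 (by positivity) (by norm_num) 0
  refine ⟨max 1 (max Hn (max Hs (max He Hf))), ?_⟩
  intro H hH K _ _ x y z N a b r hc ha0 hmass
  have h1H : 1 ≤ H := (le_max_left _ _).trans hH
  have hH' := (le_max_right _ _).trans hH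
  have hH1 : Hn ≤ H := (le_max_left _ _).trans hH'
  have hH'' := (le_max_right _ _).trans hH'
  have hH2 : Hs ≤ H := (le_max_left _ _).trans hH''
  have hH''' := (le_max_right _ _).trans hH''
  have hH3 : He ≤ H := (le_max_left _ _).trans hH'''
  have hH4 : Hf ≤ H := (le_max_right _ _).trans hH'''
  have hw : x * y - 1 ≠ 0 := by
    intro h
    apply hc.ne
    right; right; left
    exact eq_inv_of_mul_eq_one_right (by linear_combination h)
  have hht : logHeight₁ (x * y - 1) ≤ 16 * M * finrank ℚ K :=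
    ht_mono (by linarith) (ht_sub _ _ _ _ (ht_mul _ _ _ _ hc.hx hc.hy) ht_one)
  refine hs H hH2 K _ hw hht (hmass.trans ?_)
  have hfin : (0 : ℝ) ≤ mass K (fun v => v (x * y - 1) ≤ exp (-(H / (16 * M)))) := by
    unfold mass
    exact Finset.sum_nonneg fun v _ => by split_ifs <;> positivity
  refine le_trans (mul_le_mul_of_nonneg_left (mass_mono K _
    (fun v => v (x * y - 1) ≤ exp (-(H / (16 * M)))) ?_) (by linarith)) ?_
  · rintro v ⟨hv, hconj⟩
    obtain ⟨s1, s2, hA⟩ := hnear H hH1 K x y z N a b r hc v hv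
    have h0 := hA 0
    have hd : dir H N a 0 = 0 := by
      unfold dir
      rw [ha0]
      simp
    rw [hd, mul_zero, sub_zero] at h0
    have hx0 : v.embedding x ≠ 0 := (emb_ne v hc.x0 hc.x1).1
    have hfo : fo (v.embedding x) (v.embedding y) 0 = v.embedding x := rfl
    rw [hfo] at h0
    have hρ2 : exp (-(H / (2 * M))) ≤ 1 / 2 := by
      have := hf H hH4
      rw [neg_zero, exp_zero] at this
      have e : 1 / (2 * M) * H = H / (2 * M) := by ring
      rw [e] at this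
      linarith
    obtain ⟨q1, q2⟩ := sq_near_one _ _ (norm_pos_iff.2 hx0) hρ2 h0
    have hfinal := near_one _ _ 2 _ _ q2 hconj q1
    have hval : v (x * y - 1) = ‖v.embedding x * v.embedding y - 1‖ := by
      rw [← InfinitePlace.norm_embedding_eq, map_sub, map_mul, map_one]
    rw [hval]
    refine hfinal.trans ?_
    have e1 : exp (-(H / (2 * M))) ≤ exp (-(H / (8 * M))) := by
      rw [exp_le_exp]
      have : H / (8 * M) ≤ H / (2 * M) := by
        apply div_le_div_of_nonneg_left (by linarith) (by linarith) (by linarith)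
      linarith
    have e2 := he H hH3
    have e3 : 1 / (8 * M) * H = H / (8 * M) := by ring
    have e4 : 1 / (16 * M) * H = H / (16 * M) := by ring
    rw [e3, e4] at e2
    linarith
  · nlinarith

/-- Excluded: `y ≈ x`. -/
theorem same_false (M : ℝ) (hM : 1 ≤ M) : ∃ H2 : ℝ, ∀ H : ℝ, H2 ≤ H →
    ∀ (K : Type) [Field K] [NumberField K] (x y z : K) (N : ℕ) (a b r : Fin 4 → ℤ),
      Cfg M H K x y z N a b r →
      (finrank ℚ K : ℝ) ≤ 2 * M * mass K (fun v =>
        ‖v.embedding y - v.embedding x‖ ≤ exp (-(H / (8 * M)))) → False := by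
  have hM0 : 0 < M := by linarith
  obtain ⟨Hs, hs⟩ := not_small (8 * M) (by linarith)
  refine ⟨Hs, ?_⟩
  intro H hH K _ _ x y z N a b r hc hmass
  have hw : y - x ≠ 0 := fun h => hc.ne (Or.inl (sub_eq_zero.1 h))
  have hht : logHeight₁ (y - x) ≤ 8 * M * finrank ℚ K :=
    ht_mono (by linarith) (ht_sub _ _ _ _ hc.hy hc.hx)
  refine hs H hH K _ hw hht (hmass.trans ?_)
  have hfin : (0 : ℝ) ≤ mass K (fun v => v (y - x) ≤ exp (-(H / (8 * M)))) := by
    unfold mass
    exact Finset.sum_nonneg fun v _ => by split_ifs <;> positivity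
  refine le_trans (mul_le_mul_of_nonneg_left (mass_mono K _
    (fun v => v (y - x) ≤ exp (-(H / (8 * M)))) ?_) (by linarith)) ?_
  · intro v hv
    have hval : v (y - x) = ‖v.embedding y - v.embedding x‖ := by
      rw [← InfinitePlace.norm_embedding_eq, map_sub]
    rw [hval]
    exact hv
  · nlinarith

theorem Cfg.scale {M H : ℝ} {K : Type} [Field K] [NumberField K] {x y z : K} {N : ℕ}
    {a b r : Fin 4 → ℤ} (h : Cfg M H K x y z N a b r) (hH : 1 ≤ H) (hM : 1 ≤ M) {M' : ℝ}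
    (hM' : M ≤ M') : Cfg M' H K x y z N a b r where
  x0 := h.x0
  x1 := h.x1
  y0 := h.y0
  y1 := h.y1
  z0 := h.z0
  z1 := h.z1
  xs := h.xs
  ys := h.ys
  ne := h.ne
  hx := ht_mono hM' h.hx
  hy := ht_mono hM' h.hy
  N0 := h.N0
  Ne := h.Ne
  NH := h.NH.trans (rpow_le_rpow_of_exponent_le hH hM')
  aH := fun k => (h.aH k).trans (rpow_le_rpow_of_exponent_le hH hM')
  bH := fun k => (h.bH k).trans (rpow_le_rpow_of_exponent_le hH hM')
  ex := h.ex
  ca := fun k => (h.ca k).trans (mul_le_mul_of_nonneg_right hM' (Nat.cast_nonneg _))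
  cb := fun k => (h.cb k).trans (mul_le_mul_of_nonneg_right hM' (Nat.cast_nonneg _))
  r0 := h.r0
  re := h.re
  rM := fun k => (h.rM k).trans hM'
  rel := h.rel
  ra := h.ra
  pl := by
    have h1 : mass K (Pl M H z) ≤ mass K (Pl M' H z) := by
      refine mass_mono K _ _ fun v hv => ⟨le_trans ?_ hv.1, hv.2.trans ?_⟩
      · rw [exp_le_exp]
        nlinarith
      · rw [exp_le_exp]
        have : H / M' ≤ H / M :=
          div_le_div_of_nonneg_left (by linarith) (by linarith) hM'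
        linarith
    have h2 : 0 ≤ mass K (Pl M H z) := by
      unfold mass
      exact Finset.sum_nonneg fun v _ => by split_ifs <;> positivity
    have h3 := h.pl
    nlinarith
  rank := h.rank
  gen := h.gen


/-! ### The norm polynomial of the relation -/

/-- Either the direction is degenerate or the height is bounded. -/
theorem degenerate (M : ℝ) (hM : 1 ≤ M) (r : Fin 4 → ℤ) : ∃ H2 : ℝ, ∀ H : ℝ, H2 ≤ H →
    ∀ (K : Type) [Field K] [NumberField K] (x y z : K) (N : ℕ) (a b : Fin 4 → ℤ),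
      Cfg M H K x y z N a b r → ∀ s, Ev (G4 r) (dir H N a) s = 0 := by
  have hM0 : 0 < M := by linarith
  obtain ⟨Hn, hnear⟩ := cfg_near M hM
  obtain ⟨C, hC, hse⟩ := small_ev r M
  obtain ⟨k, κ, He, hκ, hev⟩ := ev_clusters (G4 r) (4 * M) (by linarith)
  obtain ⟨Hc, hcl⟩ := clusters_false M κ hM hκ k
  obtain ⟨Hx, hx⟩ := exp_small' (1 / (2 * M)) C (1 / (4 * M)) (by
    apply one_div_lt_one_div_of_lt <;> linarith) hC
  refine ⟨max 1 (max Hn (max He (max Hc Hx))), ?_⟩
  intro H hH K _ _ x y z N a b hc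
  have h1H : 1 ≤ H := (le_max_left _ _).trans hH
  have hH' := (le_max_right _ _).trans hH
  have hH1 : Hn ≤ H := (le_max_left _ _).trans hH'
  have hH'' := (le_max_right _ _).trans hH'
  have hH2 : He ≤ H := (le_max_left _ _).trans hH''
  have hH''' := (le_max_right _ _).trans hH''
  have hH3 : Hc ≤ H := (le_max_left _ _).trans hH'''
  have hH4 : Hx ≤ H := (le_max_right _ _).trans hH'''
  rcases hev H N a hH2 hc.N0 (hc.NH.trans (rpow_le_rpow_of_exponent_le h1H (by linarith)))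
    (fun j => (hc.ca j).trans (mul_le_mul_of_nonneg_right (by linarith) (Nat.cast_nonneg _)))
    with h | ⟨T, hT, hT'⟩
  · exact h
  · exfalso
    refine hcl H hH3 K x y z N a b r hc T hT ?_
    have h1 : mass K (Pl M H z) ≤ mass K (fun v => Pl M H z v ∧
        ∃ u ∈ T, |sv H z v - u| ≤ exp (-(κ * H))) := by
      refine mass_mono K _ _ fun v hv => ⟨hv, ?_⟩
      obtain ⟨s1, s2, hA⟩ := hnear H hH1 K x y z N a b r hc v hv
      have hs0 : |sv H z v| ≤ M := by
        have h2 : 0 < 1 / M := by positivity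
        rw [abs_of_nonneg (h2.le.trans s1)]
        exact s2
      obtain ⟨hx0, hx1⟩ := emb_ne v hc.x0 hc.x1
      obtain ⟨hy0, hy1⟩ := emb_ne v hc.y0 hc.y1
      refine hT' _ (by linarith) ?_
      have hrel : mo (v.embedding x) (v.embedding y) r = 1 := by
        have := congrArg v.embedding hc.rel
        rw [map_one] at this
        rw [← this]
        simp [mo]
      have h3 := hse (dir H N a) (sv H z v) (exp (-(H / (2 * M)))) (v.embedding x)
        (v.embedding y) (dir_le hc (by linarith)) hs0 (exp_pos _).le (by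
          rw [exp_le_one_iff]
          have : 0 ≤ H / (2 * M) := by positivity
          linarith) hx0 hx1 hy0 hy1 hrel hA
      have h4 := hx H hH4
      have e1 : 1 / (2 * M) * H = H / (2 * M) := by ring
      have e2 : 1 / (4 * M) * H = H / (4 * M) := by ring
      rw [e1, e2] at h4
      exact h3.trans h4
    have h2 : 0 ≤ mass K (Pl M H z) := by
      unfold mass
      exact Finset.sum_nonneg fun v _ => by split_ifs <;> positivity
    have h3 := hc.pl
    nlinarith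

/-- **Equal directions**: type II or nothing. -/
theorem equal_case (M : ℝ) (hM : 1 ≤ M) (r : Fin 4 → ℤ) : ∃ H2 : ℝ, ∀ H : ℝ, H2 ≤ H →
    ∀ (K : Type) [Field K] [NumberField K] (x y z : K) (N : ℕ) (a b : Fin 4 → ℤ),
      Cfg M H K x y z N a b r → a 0 = a 2 → a 1 = a 3 → 0 ≤ a 0 → a 1 ≤ 0 →
      ¬ (a 0 = 0 ∧ a 1 = 0) →
      (r 2 = r 0 ∧ r 3 = r 1 ∧ r 0 * a 0 + r 1 * a 1 = 0 ∧ r 0 ≠ 0 ∧ r 1 ≠ 0 ∧
        r 0 + r 1 ≠ 0) := by
  have hM0 : 0 < M := by linarith
  obtain ⟨Hn, hnear⟩ := cfg_near M hM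
  obtain ⟨C, hC, hse⟩ := small_ev_two r M
  obtain ⟨Cq, hCq, heq⟩ := equal_sizes M
  obtain ⟨k, κ, He, hκ, hev⟩ := ev_clusters (G2 r) (16 * M) (by linarith)
  obtain ⟨Hc, hcl⟩ := clusters_false M κ hM hκ k
  obtain ⟨Hx, hx⟩ := exp_small' (1 / (8 * M)) C (1 / (16 * M)) (by
    apply one_div_lt_one_div_of_lt <;> linarith) hC
  obtain ⟨Hy, hy⟩ := exp_small' (1 / (4 * M)) Cq (1 / (8 * M)) (by
    apply one_div_lt_one_div_of_lt <;> linarith) hCq
  obtain ⟨Hs, hs⟩ := same_false M hM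
  obtain ⟨Hcc, hcc⟩ := conj_circle_false M hM
  obtain ⟨Hcc', hcc'⟩ := conj_circle_false (2 * (2 * M)) (by linarith)
  refine ⟨max 2 (max Hn (max He (max Hc (max Hx (max Hy (max Hs (max Hcc Hcc'))))))), ?_⟩
  intro H hH K _ _ x y z N a b hc h02 h13 hn0 hn1 hnz
  have h2H : 2 ≤ H := (le_max_left _ _).trans hH
  have h1H : 1 ≤ H := by linarith
  have g1 := (le_max_right _ _).trans hH
  have hH1 : Hn ≤ H := (le_max_left _ _).trans g1
  have g2 := (le_max_right _ _).trans g1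
  have hH2 : He ≤ H := (le_max_left _ _).trans g2
  have g3 := (le_max_right _ _).trans g2
  have hH3 : Hc ≤ H := (le_max_left _ _).trans g3
  have g4 := (le_max_right _ _).trans g3
  have hH4 : Hx ≤ H := (le_max_left _ _).trans g4
  have g5 := (le_max_right _ _).trans g4
  have hH5 : Hy ≤ H := (le_max_left _ _).trans g5
  have g6 := (le_max_right _ _).trans g5
  have hH6 : Hs ≤ H := (le_max_left _ _).trans g6
  have g7 := (le_max_right _ _).trans g6
  have hH7 : Hcc ≤ H := (le_max_left _ _).trans g7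
  have hH8 : Hcc' ≤ H := (le_max_right _ _).trans g7
  have hH0 : 0 < H := by linarith
  have hN0 : (0 : ℝ) < N := by exact_mod_cast hc.N0
  -- the good places
  have hplace : ∀ v, Pl M H z v → (‖v.embedding y - v.embedding x‖ ≤ exp (-(H / (8 * M)))) ∨
      (Pl M H z v ∧
        ‖v.embedding y - (starRingEnd ℂ) (v.embedding x)‖ ≤ exp (-(H / (8 * M)))) := by
    intro v hv
    obtain ⟨s1, s2, hA⟩ := hnear H hH1 K x y z N a b r hc v hv
    have hs0 : |sv H z v| ≤ M := by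
      have h2 : 0 < 1 / M := by positivity
      rw [abs_of_nonneg (h2.le.trans s1)]
      exact s2
    obtain ⟨hx0, hx1⟩ := emb_ne v hc.x0 hc.x1
    obtain ⟨hy0, hy1⟩ := emb_ne v hc.y0 hc.y1
    have hsq : Cq * √(exp (-(H / (2 * M)))) ≤ exp (-(H / (8 * M))) := by
      have h2 : √(exp (-(H / (2 * M)))) = exp (-(1 / (4 * M) * H)) := by
        rw [Real.sqrt_eq_rpow, ← Real.exp_mul]
        congr 1
        field_simp
        ring
      rw [h2]
      have h3 := hy H hH5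
      have e2 : 1 / (8 * M) * H = H / (8 * M) := by ring
      rw [e2] at h3
      exact h3
    rcases heq (dir H N a) (sv H z v) (exp (-(H / (2 * M)))) (v.embedding x)
      (v.embedding y) (dir_le hc hH0.le) hs0 (exp_pos _).le (by
        rw [exp_le_one_iff]
        have : 0 ≤ H / (2 * M) := by positivity
        linarith) hx0 hx1 hy0 hy1 (by unfold dir; rw [h02]) (by unfold dir; rw [h13]) hA with h | h
    · exact Or.inl (h.trans hsq)
    · exact Or.inr ⟨hv, h.trans hsq⟩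
  have hconj : (finrank ℚ K : ℝ) ≤ 2 * M * mass K (fun v => Pl M H z v ∧
      ‖v.embedding y - (starRingEnd ℂ) (v.embedding x)‖ ≤ exp (-(H / (8 * M)))) := by
    rcases mass_split K M hM0.le _ _ _ hc.pl hplace with h | h
    · exact absurd (hs H hH6 K x y z N a b r hc h) id
    · exact h
  have hnn : ∀ p : InfinitePlace K → Prop, 0 ≤ mass K p := by
    intro p
    unfold mass
    exact Finset.sum_nonneg fun v _ => by split_ifs <;> positivity
  have hconj4 : (finrank ℚ K : ℝ) ≤ 4 * M * mass K (fun v => Pl M H z v ∧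
      ‖v.embedding y - (starRingEnd ℂ) (v.embedding x)‖ ≤ exp (-(H / (8 * M)))) := by
    refine hconj.trans (mul_le_mul_of_nonneg_right (by linarith) (hnn _))
  -- the circles are excluded
  have hx_ne : a 0 ≠ 0 := fun h => hcc H hH7 K x y z N a b r hc h hconj4
  have hy_ne : a 1 ≠ 0 := by
    intro h
    have hc1 := (hc.one_sub hM h2H).swap
    have hc2 := (hc1.one_sub (by linarith) h2H).swap
    refine hcc' H hH8 K _ _ z N _ _ _ hc2 h (hconj4.trans ?_)
    refine mul_le_mul (by linarith) (mass_mono K _ _ ?_) (hnn _) (by linarith)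
    rintro v ⟨hv, hvc⟩
    have e3 : H / (2 * (2 * M)) ≤ H / M := by
      apply div_le_div_of_nonneg_left (by linarith) (by linarith) (by linarith)
    refine ⟨⟨le_trans ?_ hv.1, hv.2.trans ?_⟩, ?_⟩
    · rw [exp_le_exp]
      nlinarith
    · rw [exp_le_exp]
      linarith
    · have e4 : v.embedding (1 - y) - (starRingEnd ℂ) (v.embedding (1 - x)) =
          -(v.embedding y - (starRingEnd ℂ) (v.embedding x)) := by
        rw [map_sub, map_sub, map_sub, map_one, map_one]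
        ring
      rw [e4, norm_neg]
      refine hvc.trans ?_
      rw [exp_le_exp]
      have : H / (8 * (2 * (2 * M))) ≤ H / (8 * M) := by
        apply div_le_div_of_nonneg_left (by linarith) (by linarith) (by linarith)
      linarith
  -- the norm polynomial
  have hdeg : ∀ s, Ev (G2 r) ![dir H N a 0, dir H N a 1] s = 0 := by
    have hfun : (fun j : Fin 2 => -((![a 0, a 1] j : ℤ) * H / N : ℝ)) =
        ![dir H N a 0, dir H N a 1] := by
      funext j
      fin_cases j <;> rfl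
    rcases hev H N ![a 0, a 1] hH2 hc.N0
      (hc.NH.trans (rpow_le_rpow_of_exponent_le h1H (by linarith)))
      (fun j => by
        have h3 : ∀ i, |(a i : ℝ)| * H ≤ 16 * M * N := fun i => (hc.ca i).trans
          (mul_le_mul_of_nonneg_right (by linarith) hN0.le)
        fin_cases j
        · exact h3 0
        · exact h3 1) with h | ⟨T, hT, hT'⟩
    · rw [hfun] at h
      exact h
    · exfalso
      rw [hfun] at hT'
      refine hcl H hH3 K x y z N a b r hc T hT (hconj4.trans (mul_le_mul_of_nonneg_left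
        (mass_mono K _ _ ?_) (by linarith)))
      rintro v ⟨hv, hvc⟩
      refine ⟨hv, ?_⟩
      obtain ⟨s1, s2, hA⟩ := hnear H hH1 K x y z N a b r hc v hv
      have hs0 : |sv H z v| ≤ M := by
        have h2 : 0 < 1 / M := by positivity
        rw [abs_of_nonneg (h2.le.trans s1)]
        exact s2
      obtain ⟨hx0, hx1⟩ := emb_ne v hc.x0 hc.x1
      obtain ⟨hy0, hy1⟩ := emb_ne v hc.y0 hc.y1
      refine hT' _ (by linarith) ?_
      have hrel : mo (v.embedding x) (v.embedding y) r = 1 := by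
        have := congrArg v.embedding hc.rel
        rw [map_one] at this
        rw [← this]
        simp [mo]
      have hle : exp (-(H / (2 * M))) ≤ exp (-(H / (8 * M))) := by
        rw [exp_le_exp]
        have : H / (8 * M) ≤ H / (2 * M) := by
          apply div_le_div_of_nonneg_left (by linarith) (by linarith) (by linarith)
        linarith
      have h3 := hse (dir H N a) (sv H z v) (exp (-(H / (8 * M)))) (v.embedding x)
        (v.embedding y) (dir_le hc hH0.le) hs0 (exp_pos _).le (by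
          rw [exp_le_one_iff]
          have : 0 ≤ H / (8 * M) := by positivity
          linarith) hx0 hx1 hy0 hy1 hrel (hA.mono hle) hvc
      have h4 := hx H hH4
      have e1 : 1 / (8 * M) * H = H / (8 * M) := by ring
      have e2 : 1 / (16 * M) * H = H / (16 * M) := by ring
      rw [e1, e2] at h4
      exact h3.trans h4
  have hraZ := hc.ra
  rw [Fin.sum_univ_four, ← h02, ← h13] at hraZ
  have hdle0 : dir H N a 0 ≤ 0 := by
    unfold dir
    have : (0 : ℝ) ≤ a 0 := by exact_mod_cast hn0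
    have : 0 ≤ (a 0 : ℝ) * H / N := by positivity
    linarith
  have hdle1 : 0 ≤ dir H N a 1 := by
    unfold dir
    have h3 : (a 1 : ℝ) ≤ 0 := by exact_mod_cast hn1
    have : (a 1 : ℝ) * H / N ≤ 0 := div_nonpos_of_nonpos_of_nonneg
      (mul_nonpos_of_nonpos_of_nonneg h3 hH0.le) hN0.le
    linarith
  have hsum : ((r 0 : ℝ) + r 2) * dir H N a 0 + (r 1 + r 3) * dir H N a 1 = 0 := by
    have h3 : ((r 0 : ℝ) * a 0 + r 1 * a 1 + r 2 * a 0 + r 3 * a 1) = 0 := by
      exact_mod_cast hraZ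
    unfold dir
    have e : ((r 0 : ℝ) + r 2) * -(a 0 * H / N) + (r 1 + r 3) * -(a 1 * H / N) =
        -((r 0 : ℝ) * a 0 + r 1 * a 1 + r 2 * a 0 + r 3 * a 1) * H / N := by ring
    rw [e, h3]
    simp
  rcases classify_two r hc.r0 (dir H N a 0) (dir H N a 1) hsum hdle0 hdle1
    (fun h => hnz ⟨dir_eq_zero hH0 hc.N0 h.1, dir_eq_zero hH0 hc.N0 h.2⟩) hdeg
    with h | h | ⟨q1, q2, q3, q4, q5, q6⟩
  · exact absurd (dir_eq_zero hH0 hc.N0 h) hx_ne
  · exact absurd (dir_eq_zero hH0 hc.N0 h) hy_ne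
  · refine ⟨q1, q2, ?_, q4, q5, q6⟩
    rw [q1, q2] at hraZ
    have : 2 * (r 0 * a 0 + r 1 * a 1) = 0 := by linarith
    omega


/-! ### The theorem -/

theorem cons_zero {α : Type} (a b c d : α) : ![a, b, c, d] 0 = a := rfl

/-- **Both circles**: type I. -/
theorem circle_case (h1 : TwoLog) (h2 : TorsArc) (M : ℝ) (hM : 1 ≤ M) (r : Fin 4 → ℤ) :
    ∃ H2 : ℝ, ∀ H : ℝ, H2 ≤ H →
    ∀ (K : Type) [Field K] [NumberField K] (x y z : K) (N : ℕ) (a b : Fin 4 → ℤ),
      Cfg M H K x y z N a b r →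
      (a 0 = 0 ∧ r 1 = -2 * r 0 ∧ r 0 ≠ 0 ∨ a 1 = 0 ∧ r 0 = -2 * r 1 ∧ r 1 ≠ 0) →
      (a 2 = 0 ∧ r 3 = -2 * r 2 ∧ r 2 ≠ 0 ∨ a 3 = 0 ∧ r 2 = -2 * r 3 ∧ r 3 ≠ 0) → False := by
  obtain ⟨Ha, ha⟩ := type_one h1 h2 M hM r
  obtain ⟨Hb, hb⟩ := type_one h1 h2 (2 * M) (by linarith) ![r 1, r 0, r 2, r 3]
  obtain ⟨Hc, hc⟩ := type_one h1 h2 (2 * M) (by linarith) ![r 3, r 2, r 0, r 1]
  obtain ⟨Hd, hd⟩ := type_one h1 h2 (2 * (2 * M)) (by linarith) ![r 3, r 2, r 1, r 0]
  refine ⟨max 2 (max Ha (max Hb (max Hc Hd))), ?_⟩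
  intro H hH K _ _ x y z N a b hcf hx hy
  have h2H : 2 ≤ H := (le_max_left _ _).trans hH
  have g1 := (le_max_right _ _).trans hH
  have hH1 : Ha ≤ H := (le_max_left _ _).trans g1
  have g2 := (le_max_right _ _).trans g1
  have hH2 : Hb ≤ H := (le_max_left _ _).trans g2
  have g3 := (le_max_right _ _).trans g2
  have hH3 : Hc ≤ H := (le_max_left _ _).trans g3
  have hH4 : Hd ≤ H := (le_max_right _ _).trans g3
  rcases hx with ⟨x1, x2, x3⟩ | ⟨x1, x2, x3⟩ <;> rcases hy with ⟨y1, y2, y3⟩ | ⟨y1, y2, y3⟩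
  · exact ha H hH1 K x y z N a b hcf x1 y1 x2 y2 x3 y3
  · exact hc H hH3 K _ _ z N _ _ (hcf.swap.one_sub hM h2H) y1 x1 y2 x2 y3 x3
  · exact hb H hH2 K _ _ z N _ _ (hcf.one_sub hM h2H) x1 y1 x2 y2 x3 y3
  · exact hd H hH4 K _ _ z N _ _ ((hcf.one_sub hM h2H).swap.one_sub (by linarith) h2H)
      y1 x1 y2 x2 y3 x3

/-- **No configurations in normal form.** -/
theorem no_cfg_normal (h1 : TwoLog) (h2 : TorsArc) (M : ℝ) (hM : 1 ≤ M) (r : Fin 4 → ℤ) :
    ∃ H2 : ℝ, ∀ H : ℝ, H2 ≤ H →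
    ∀ (K : Type) [Field K] [NumberField K] (x y z : K) (N : ℕ) (a b : Fin 4 → ℤ),
      Cfg M H K x y z N a b r → 0 ≤ a 0 → a 1 ≤ 0 → 0 ≤ a 2 → a 3 ≤ 0 → False := by
  obtain ⟨Ha, ha⟩ := degenerate M hM r
  obtain ⟨Hb, hb⟩ := cfg_ne_zero M hM
  obtain ⟨Hc, hc⟩ := equal_case M hM r
  obtain ⟨Hd, hd⟩ := type_two h1 h2 M hM r
  obtain ⟨He, he⟩ := circle_case h1 h2 M hM r
  refine ⟨max 2 (max Ha (max Hb (max Hc (max Hd He)))), ?_⟩
  intro H hH K _ _ x y z N a b hcf n0 n1 n2 n3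
  have h2H : 2 ≤ H := (le_max_left _ _).trans hH
  have g1 := (le_max_right _ _).trans hH
  have hH1 : Ha ≤ H := (le_max_left _ _).trans g1
  have g2 := (le_max_right _ _).trans g1
  have hH2 : Hb ≤ H := (le_max_left _ _).trans g2
  have g3 := (le_max_right _ _).trans g2
  have hH3 : Hc ≤ H := (le_max_left _ _).trans g3
  have g4 := (le_max_right _ _).trans g3
  have hH4 : Hd ≤ H := (le_max_left _ _).trans g4
  have hH5 : He ≤ H := (le_max_right _ _).trans g4
  have hH0 : 0 < H := by linarith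
  have hN0 : (0 : ℝ) < N := by exact_mod_cast hcf.N0
  have hdeg := ha H hH1 K x y z N a b hcf
  have hz01 := hb H hH2 K x y z N a b r hcf
  have hz23 : ¬ (a 2 = 0 ∧ a 3 = 0) := hb H hH2 K y x z N _ _ _ hcf.swap
  have hneg : ∀ k, 0 ≤ a k → dir H N a k ≤ 0 := by
    intro k hk
    unfold dir
    have : (0 : ℝ) ≤ a k := by exact_mod_cast hk
    have : 0 ≤ (a k : ℝ) * H / N := by positivity
    linarith
  have hpos : ∀ k, a k ≤ 0 → 0 ≤ dir H N a k := by
    intro k hk
    unfold dir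
    have h3 : (a k : ℝ) ≤ 0 := by exact_mod_cast hk
    have : (a k : ℝ) * H / N ≤ 0 := div_nonpos_of_nonpos_of_nonneg
      (mul_nonpos_of_nonpos_of_nonneg h3 hH0.le) hN0.le
    linarith
  have hsum : ∑ k, (r k : ℝ) * dir H N a k = 0 := by
    have h3 : (∑ k, (r k : ℝ) * a k) = 0 := by exact_mod_cast hcf.ra
    have h4 : ∑ k, (r k : ℝ) * dir H N a k = -(∑ k, (r k : ℝ) * a k) * H / N := by
      rw [← Finset.sum_neg_distrib, Finset.sum_mul, Finset.sum_div]
      refine Finset.sum_congr rfl fun k _ => ?_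
      unfold dir
      ring
    rw [h4, h3]
    simp
  rcases classify r hcf.r0 (dir H N a) hsum (hneg 0 n0) (hpos 1 n1) (hneg 2 n2) (hpos 3 n3)
    (fun h => hz01 ⟨dir_eq_zero hH0 hcf.N0 h.1, dir_eq_zero hH0 hcf.N0 h.2⟩)
    (fun h => hz23 ⟨dir_eq_zero hH0 hcf.N0 h.1, dir_eq_zero hH0 hcf.N0 h.2⟩) hdeg
    with ⟨e0, e1⟩ | ⟨hx, hy⟩
  · have e0' := dir_eq hH0 hcf.N0 e0
    have e1' := dir_eq hH0 hcf.N0 e1
    obtain ⟨q1, q2, q3, q4, q5, q6⟩ := hc H hH3 K x y z N a b hcf e0' e1' n0 n1 hz01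
    exact hd H hH4 K x y z N a b hcf e0' e1' q1 q2 q3 q4 q5 q6
  · refine he H hH5 K x y z N a b hcf ?_ ?_
    · rcases hx with ⟨x1, x2, x3⟩ | ⟨x1, x2, x3⟩
      · exact Or.inl ⟨dir_eq_zero hH0 hcf.N0 x1, by exact_mod_cast x2, by exact_mod_cast x3⟩
      · exact Or.inr ⟨dir_eq_zero hH0 hcf.N0 x1, by exact_mod_cast x2, by exact_mod_cast x3⟩
    · rcases hy with ⟨x1, x2, x3⟩ | ⟨x1, x2, x3⟩
      · exact Or.inl ⟨dir_eq_zero hH0 hcf.N0 x1, by exact_mod_cast x2, by exact_mod_cast x3⟩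
      · exact Or.inr ⟨dir_eq_zero hH0 hcf.N0 x1, by exact_mod_cast x2, by exact_mod_cast x3⟩

/-- **There are no configurations of large height.** -/
theorem no_cfg (h1 : TwoLog) (h2 : TorsArc) (M : ℝ) (hM : 1 ≤ M) :
    ∃ H2 : ℝ, ∀ H : ℝ, H2 ≤ H →
    ∀ (K : Type) [Field K] [NumberField K] (x y z : K) (N : ℕ) (a b r : Fin 4 → ℤ),
      ¬ Cfg M H K x y z N a b r := by
  classical
  choose H2 hH2 using no_cfg_normal h1 h2 (64 * M) (by linarith)
  set B : ℕ := ⌊64 * M⌋₊ with hB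
  set S : Finset (Fin 4 → ℤ) := Fintype.piFinset fun _ => Finset.Icc (-(B : ℤ)) B with hS
  have hSne : S.Nonempty := ⟨0, by rw [hS, Fintype.mem_piFinset]; intro k; simp⟩
  refine ⟨max 2 (S.sup' hSne H2), ?_⟩
  intro H hH K _ _ x y z N a b r hc
  have h2H : 2 ≤ H := (le_max_left _ _).trans hH
  obtain ⟨x', y', a', b', r', hc', n0, n1, n2, n3⟩ := hc.normal hM h2H
  have hr : r' ∈ S := by
    rw [hS, Fintype.mem_piFinset]
    intro k
    have h3 := hc'.rM k
    have h4 : (r' k).natAbs ≤ B := by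
      rw [hB]
      apply Nat.le_floor
      rw [Nat.cast_natAbs, Int.cast_abs]
      exact h3
    rw [Finset.mem_Icc]
    omega
  exact hH2 r' H ((Finset.le_sup' H2 hr).trans ((le_max_right _ _).trans hH)) K x' y' z N a' b'
    hc' n0 n1 n2 n3

end Pool.Agent.L3S
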