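import Pool.Agent.L3S.Defs
import Pool.Agent.RelC.Counts

set_option autoImplicit false

/-! Package U1: short relations with an explicit dependence on the height. -/

namespace Pool.Agent.L3S

open NumberField Height Real Module Pool.Agent.LThree

/-- **Few classes.** `RelC.few_of_count` (`RelC/Rel.lean`) with the dependence on the height explicit:
its proof gives the constant `max 1 (C0 ((s + 1) H) ^ k)`. -/
theorem few_of_count_height {k : ℕ} (hC : Count k) {ε : ℝ} (hε : 0 < ε) (s : ℕ) :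
    ∃ C : ℝ, 1 ≤ C ∧ ∀ (H : ℝ), 1 ≤ H → ∀ (K : Type) [Field K] [NumberField K] (ι : Type)
      [Fintype ι] (z : ι → K) (hz : ∀ i, z i ≠ 0), Fintype.card ι ≤ s → RankLe k z →
      (∀ i, logHeight₁ (z i) ≤ H * finrank ℚ K) →
      RelC.Few k (RelC.relLat z hz) (C * H ^ k * (finrank ℚ K : ℝ) ^ (1 + ε)) := by
  obtain ⟨C0, hC0, hcount⟩ := hC ε hε
  refine ⟨max 1 (C0 * (s + 1) ^ k), le_max_left _ _, ?_⟩
  intro H hH1 K _ _ ι _ z hz hs hrk hht B hB T hT hcard
  have hD : (0 : ℝ) < finrank ℚ K := by exact_mod_cast finrank_pos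
  have hBR : (1 : ℝ) ≤ B := by exact_mod_cast hB
  have hH0 : (0 : ℝ) ≤ H := by linarith
  set X : ℝ := (s + 1) * B * H with hX
  have hX1 : 1 ≤ X := by
    have h1 : (1 : ℝ) ≤ s + 1 := by
      have : (0 : ℝ) ≤ s := Nat.cast_nonneg _
      linarith
    calc (1 : ℝ) = 1 * 1 * 1 := by norm_num
      _ ≤ _ := by
        rw [hX]
        gcongr
  obtain ⟨hfin, hle⟩ := hcount K ι z hz hrk X hX1
  set S := {g : K | (∃ u : ι → ℤ, g = mono z u) ∧ logHeight₁ g ≤ X * finrank ℚ K} with hS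
  have hmaps : ∀ u ∈ T, mono z u ∈ S := by
    intro u hu
    refine ⟨⟨u, rfl⟩, ?_⟩
    have h1 := RelC.height_mono_le z hht u (B := B) (fun i => by
      have := hT u hu i
      omega)
    refine h1.trans ?_
    rw [hX]
    have h2 : ((Fintype.card ι : ℕ) : ℝ) ≤ s + 1 := by
      have : ((Fintype.card ι : ℕ) : ℝ) ≤ s := by exact_mod_cast hs
      linarith
    calc (Fintype.card ι : ℝ) * B * (H * finrank ℚ K) ≤ (s + 1) * B * (H * finrank ℚ K) := by gcongr
      _ = _ := by ring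
  have hnotinj : ¬ Set.InjOn (mono z) (T : Set (ι → ℤ)) := by
    intro hinj
    have h1 : T.card ≤ Nat.card S := by
      classical
      have h2 : (T.image (mono z)).card = T.card := Finset.card_image_of_injOn hinj
      rw [← h2, Nat.card_coe_set_eq]
      rw [← Set.ncard_coe_finset]
      apply Set.ncard_le_ncard _ hfin
      intro g hg
      rw [Finset.mem_coe, Finset.mem_image] at hg
      obtain ⟨u, hu, rfl⟩ := hg
      exact hmaps u hu
    have h3 : (T.card : ℝ) ≤ C0 * X ^ k * (finrank ℚ K : ℝ) ^ (1 + ε) := by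
      refine le_trans ?_ hle
      exact_mod_cast h1
    have h4 : C0 * X ^ k * (finrank ℚ K : ℝ) ^ (1 + ε) =
        (C0 * (s + 1) ^ k) * H ^ k * (finrank ℚ K : ℝ) ^ (1 + ε) * (B : ℝ) ^ k := by
      have h6 : X = ((s + 1) * H) * B := by rw [hX]; ring
      rw [h6, mul_pow, mul_pow]
      ring
    have h5 : (C0 * (s + 1) ^ k) * H ^ k * (finrank ℚ K : ℝ) ^ (1 + ε) * (B : ℝ) ^ k ≤
        max 1 (C0 * (s + 1) ^ k) * H ^ k * (finrank ℚ K : ℝ) ^ (1 + ε) * (B : ℝ) ^ k := by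
      gcongr
      exact le_max_right _ _
    linarith
  rw [Set.InjOn] at hnotinj
  push Not at hnotinj
  obtain ⟨a, ha, b, hb, hab, hne⟩ := hnotinj
  refine ⟨a, ha, b, hb, hne, ?_⟩
  rw [RelC.mem_relLat, RelC.mono_sub hz, hab, div_self (RelC.mono_ne_zero hz b)]

private theorem rh_rpow_of_pow_le {x M : ℝ} (hx : 0 ≤ x) (hM : 0 ≤ M) (a b : ℕ) (ha : 0 < a)
    (h : x ^ a ≤ M ^ b) : x ≤ M ^ ((b : ℝ) / a) := by
  have ha' : (0 : ℝ) < a := by exact_mod_cast ha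
  have h1 : x = (x ^ a) ^ ((1 : ℝ) / a) := by
    rw [← Real.rpow_natCast, ← Real.rpow_mul hx, mul_one_div_cancel ha'.ne', Real.rpow_one]
  rw [h1]
  have h2 : M ^ ((b : ℝ) / a) = (M ^ b) ^ ((1 : ℝ) / a) := by
    rw [← Real.rpow_natCast, ← Real.rpow_mul hM]
    congr 1
    ring
  rw [h2]
  exact Real.rpow_le_rpow (by positivity) h (by positivity)

private theorem rh_const_mul_le {C D e t : ℝ} (hC : 1 ≤ C) (hD : 1 ≤ D) (ht1 : t ≤ 1) :
    (C * D ^ e) ^ t ≤ C * D ^ (e * t) := by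
  have hC0 : 0 ≤ C := by linarith
  have hD0 : 0 ≤ D := by linarith
  rw [Real.mul_rpow hC0 (Real.rpow_nonneg hD0 _), ← Real.rpow_mul hD0]
  apply mul_le_mul_of_nonneg_right _ (Real.rpow_nonneg hD0 _)
  calc C ^ t ≤ C ^ (1 : ℝ) := Real.rpow_le_rpow_of_exponent_le hC ht1
    _ = C := Real.rpow_one C

/-- **Three relations of a triple of rank at most two.** As `RelC.three_relations'` (`RelC/Rel.lean`) and
`RelC.short_three` (`RelC/Short.lean`) with `few_of_count_height RelC.count_two` (`k = 2`, `ε = 1/6`): with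
`M = C H² D^(7/6)` the product of the three norms is `≤ (8 M)^(3/4) ≤ C' H² D^(7/8)`. -/
theorem three_rel : ∃ C : ℝ, 1 ≤ C ∧ ∀ (H : ℝ), 1 ≤ H → ∀ (K : Type) [Field K] [NumberField K]
    (x : Fin 3 → K), (∀ i, x i ≠ 0 ∧ x i ≠ 1) → RankLe 2 (co x) →
    (∀ i, logHeight₁ (x i) ≤ H * finrank ℚ K) →
    ∃ u : Fin 3 → (Fin 3 ⊕ Fin 3 → ℤ), LinearIndependent ℤ u ∧ (∀ j, mono (co x) (u j) = 1) ∧
      ((∏ j, nrm (u j) : ℕ) : ℝ) ≤ C * H ^ 2 * (finrank ℚ K : ℝ) ^ (7 / 8 : ℝ) := by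
  obtain ⟨C, hC1, h⟩ := few_of_count_height RelC.count_two (ε := 1 / 6) (by norm_num) 6
  refine ⟨32 * C, by linarith, fun H hH K _ _ x hx hrk hht => ?_⟩
  have hD : (1 : ℝ) ≤ finrank ℚ K := by exact_mod_cast (finrank_pos (R := ℚ) (M := K))
  have hH2 : (1 : ℝ) ≤ 2 * H := by linarith
  have hz : ∀ i, co x i ≠ 0 := by
    intro i
    rcases i with i | i
    · exact (hx i).1
    · exact sub_ne_zero.2 (Ne.symm (hx i).2)
  have hheight : ∀ i, logHeight₁ (co x i) ≤ (2 * H) * finrank ℚ K := by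
    have hlog : log 2 ≤ H := by
      have := Real.log_two_lt_d9
      linarith
    have hlog' : (finrank ℚ K : ℝ) * log 2 ≤ finrank ℚ K * H := by gcongr
    have hHD : 0 ≤ H * (finrank ℚ K : ℝ) := by positivity
    intro i
    rcases i with i | i
    · have h1 := hht i
      change logHeight₁ (x i) ≤ _
      linarith
    · have h1 := hht i
      have h2 := Pool.Agent.CITNF.height_one_sub_le (x i)
      change logHeight₁ (1 - x i) ≤ _
      linarith
  have hfew := h (2 * H) hH2 K (Fin 3 ⊕ Fin 3) (co x) hz (by simp) hrk hheight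
  have hM : 1 ≤ C * (2 * H) ^ 2 * (finrank ℚ K : ℝ) ^ (1 + 1 / 6 : ℝ) :=
    one_le_mul_of_one_le_of_one_le (one_le_mul_of_one_le_of_one_le hC1 (one_le_pow₀ hH2))
      (Real.one_le_rpow hD (by norm_num))
  obtain ⟨u, hu, v, hv, w, hw, hind, h12, h23, -, -, hle⟩ :=
    RelC.exists_three (k := 2) (by simp) hM hfew
  refine ⟨![u, v, w], hind, fun j => ?_, ?_⟩
  · fin_cases j
    · exact hu
    · exact hv
    · exact hw
  rw [Fin.prod_univ_three]
  simp only [Matrix.cons_val_zero, Matrix.cons_val_one, Matrix.cons_val_two, Matrix.head_cons,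
    Matrix.tail_cons]
  push_cast
  have hcard : Fintype.card (Fin 3 ⊕ Fin 3) - (2 + 2) = 2 := by simp
  rw [hcard] at hle
  change (LThree.nrm u : ℝ) * LThree.nrm v * (LThree.nrm w : ℝ) ^ 2 ≤ _ at hle
  change LThree.nrm u ≤ LThree.nrm v at h12
  change LThree.nrm v ≤ LThree.nrm w at h23
  set a : ℝ := (LThree.nrm u : ℝ) with ha
  set b : ℝ := (LThree.nrm v : ℝ) with hb
  set c : ℝ := (LThree.nrm w : ℝ) with hc
  have ha0 : 0 ≤ a := Nat.cast_nonneg _
  have hb0 : 0 ≤ b := Nat.cast_nonneg _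
  have hc0 : 0 ≤ c := Nat.cast_nonneg _
  have hab : a ≤ b := by
    rw [ha, hb]
    exact_mod_cast h12
  have hbc : b ≤ c := by
    rw [hb, hc]
    exact_mod_cast h23
  set A : ℝ := 32 * C * H ^ 2 with hA
  have hA1 : 1 ≤ A := by
    have h1 : (1 : ℝ) ≤ H ^ 2 := one_le_pow₀ hH
    have h2 : (1 : ℝ) ≤ C * H ^ 2 := one_le_mul_of_one_le_of_one_le hC1 h1
    rw [hA]
    linarith
  have hMM : 8 * (C * (2 * H) ^ 2 * (finrank ℚ K : ℝ) ^ (1 + 1 / 6 : ℝ)) =
      A * (finrank ℚ K : ℝ) ^ (7 / 6 : ℝ) := by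
    rw [hA, show (1 + 1 / 6 : ℝ) = 7 / 6 by norm_num]
    ring
  rw [hMM] at hle
  set M := A * (finrank ℚ K : ℝ) ^ (7 / 6 : ℝ) with hM'
  have hM0 : 0 ≤ M := mul_nonneg (by linarith) (Real.rpow_nonneg (by linarith) _)
  have h1 : (a * b * c) ^ 4 ≤ M ^ 3 := by
    have h3 : (a * b * c) ^ 4 ≤ (a * b * c ^ 2) ^ 3 := by
      calc (a * b * c) ^ 4 = (a * b) ^ 3 * c ^ 4 * (a * b) := by ring
        _ ≤ (a * b) ^ 3 * c ^ 4 * (c * c) := by
          gcongr
          exact hab.trans hbc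
        _ = (a * b * c ^ 2) ^ 3 := by ring
    refine h3.trans ?_
    gcongr
  have h2 := rh_rpow_of_pow_le (by positivity) hM0 4 3 (by norm_num) h1
  refine h2.trans ?_
  have h3 := rh_const_mul_le (e := 7 / 6) (t := 3 / 4) hA1 hD (by norm_num)
  have h4 : (7 / 6 : ℝ) * (3 / 4) = 7 / 8 := by norm_num
  rw [h4] at h3
  simpa using h3

/-- **One relation of three numbers of rank at most two** (`RelC.exists_one` with `k = 2`, three
numbers, `ε = 1`). -/
theorem one_rel : ∃ C : ℝ, 1 ≤ C ∧ ∀ (H : ℝ), 1 ≤ H → ∀ (K : Type) [Field K] [NumberField K]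
    (w : Fin 3 → K), (∀ i, w i ≠ 0) → RankLe 2 w → (∀ i, logHeight₁ (w i) ≤ H * finrank ℚ K) →
    ∃ u : Fin 3 → ℤ, u ≠ 0 ∧ mono w u = 1 ∧ (nrm u : ℝ) ≤ C * H ^ 2 * (finrank ℚ K : ℝ) ^ 2 := by
  obtain ⟨C, hC1, h⟩ := few_of_count_height RelC.count_two (ε := 1) one_pos 3
  refine ⟨C, hC1, fun H hH K _ _ w hw hrk hht => ?_⟩
  have hD : (1 : ℝ) ≤ finrank ℚ K := by exact_mod_cast (finrank_pos (R := ℚ) (M := K))
  have hfew := h H hH K (Fin 3) w hw (by simp) hrk hht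
  have e : (1 + 1 : ℝ) = ((2 : ℕ) : ℝ) := by norm_num
  rw [e, Real.rpow_natCast] at hfew
  have hM : 1 ≤ C * H ^ 2 * (finrank ℚ K : ℝ) ^ 2 :=
    one_le_mul_of_one_le_of_one_le (one_le_mul_of_one_le_of_one_le hC1 (one_le_pow₀ hH))
      (one_le_pow₀ hD)
  obtain ⟨u, hu, hu0, -, hle⟩ := RelC.exists_one (k := 2) (by simp) hM hfew
  refine ⟨u, hu0, hu, ?_⟩
  have hcard : Fintype.card (Fin 3) - 2 = 1 := by simp
  rw [hcard, pow_one] at hle
  exact hle

end Pool.Agent.L3S
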