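import Pool.Agent.L3S.Prep
import Pool.Agent.L3S.NoCfg
import Pool.Agent.L3S.RelH
import Pool.Agent.LThree.Triples

set_option autoImplicit false

/-! Assembly: algebraic points of `L^3` of rank at most two, off the special and the
positive-dimensional part, have bounded height and degree. -/

namespace Pool.Agent.L3S

open NumberField Height Real Module Pool.Agent.LThree

/-- Permuting the coordinates. -/
theorem rankLe_perm {K : Type} [Field K] (x : Fin 3 → K) (hx : ∀ i, x i ≠ 0 ∧ x i ≠ 1)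
    (h : RankLe 2 (co x)) (i j k : Fin 3) (hij : i ≠ j) (hik : i ≠ k) (hjk : j ≠ k) :
    RankLe 2 (co ![x i, x j, x k]) := by
  have hz : ∀ s, co x s ≠ 0 := by
    rintro (l | l)
    · exact (hx l).1
    · exact sub_ne_zero.2 (Ne.symm (hx l).2)
  have hinj3 : Function.Injective ![i, j, k] := by
    intro a b hab
    fin_cases a <;> fin_cases b <;> simp_all
  have hinj : Function.Injective (Sum.map ![i, j, k] ![i, j, k]) := hinj3.sumMap hinj3
  have h1 := RankLe.comp hz h (Sum.map ![i, j, k] ![i, j, k]) hinj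
  have hco : co x ∘ Sum.map ![i, j, k] ![i, j, k] = co ![x i, x j, x k] := by
    funext l
    rcases l with l | l <;> fin_cases l <;> simp [co]
  rwa [hco] at h1

theorem range_perm {K : Type} (x : Fin 3 → K) (i j k : Fin 3) (hij : i ≠ j) (hik : i ≠ k)
    (hjk : j ≠ k) : Set.range x = {x i, x j, x k} := by
  ext w
  constructor
  · rintro ⟨l, rfl⟩
    have : l = i ∨ l = j ∨ l = k := by
      revert i j k l
      decide
    rcases this with rfl | rfl | rfl <;> simp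
  · rintro (rfl | rfl | rfl)
    · exact ⟨i, rfl⟩
    · exact ⟨j, rfl⟩
    · exact ⟨k, rfl⟩

/-- **One large coordinate is impossible.** -/
theorem large_bounded (h1 : TwoLog) (h2 : TorsArc) (C c : ℝ) : ∃ H2 : ℝ,
    ∀ (K : Type) [Field K] [NumberField K] (x : Fin 3 → K), (∀ i, x i ≠ 0 ∧ x i ≠ 1) →
      RankLe 2 (co x) → ¬ Spec x → IntermediateField.adjoin ℚ (Set.range x) = ⊤ →
      (∀ i j, i ≠ j → ¬ RankLe 1 (co ![x i, x j])) →
      (∀ H : ℝ, 1 ≤ H → (∀ i, logHeight₁ (x i) ≤ H * finrank ℚ K) →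
        (finrank ℚ K : ℝ) ≤ C * H ^ c) →
      ∀ i, logHeight₁ (x i) ≤ H2 * finrank ℚ K := by
  obtain ⟨H0, hH0, hmin⟩ := MinHt.min_height
  obtain ⟨M, Ha, hM, hcfg⟩ := exists_cfg H0 C c hH0.le
  obtain ⟨Hb, hno⟩ := no_cfg h1 h2 M hM
  refine ⟨max H0 (max 1 (max Ha Hb)), ?_⟩
  intro K _ _ x hx hr hsp hgen hpair hdeg k
  by_contra hk
  push Not at hk
  have hD : (0 : ℝ) < finrank ℚ K := by exact_mod_cast (finrank_pos : 0 < finrank ℚ K)
  set D : ℝ := (finrank ℚ K : ℝ) with hDdef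
  set H : ℝ := logHeight₁ (x k) / D with hH
  have hHD : logHeight₁ (x k) = H * D := by
    rw [hH]
    field_simp
  have hHlt : max H0 (max 1 (max Ha Hb)) < H := by
    rw [hHD] at hk
    exact lt_of_mul_lt_mul_right hk hD.le
  have g0 : H0 < H := lt_of_le_of_lt (le_max_left _ _) hHlt
  have g1 : 1 < H := lt_of_le_of_lt ((le_max_left _ _).trans (le_max_right _ _)) hHlt
  have g2 : Ha < H := lt_of_le_of_lt ((le_max_left _ _).trans ((le_max_right _ _).trans
    (le_max_right _ _))) hHlt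
  have g3 : Hb < H := lt_of_le_of_lt ((le_max_right _ _).trans ((le_max_right _ _).trans
    (le_max_right _ _))) hHlt
  have hspE : ∀ i j, i ≠ j → ¬ Eqv (x i) (x j) := fun i j hij h => hsp (Or.inl ⟨i, j, hij, h⟩)
  have hspS : ∀ i, x i ^ 2 - x i + 1 ≠ 0 := fun i h => hsp (Or.inr ⟨i, h⟩)
  have hother : ∀ i, i ≠ k → logHeight₁ (x i) ≤ H0 * D := by
    intro i hik
    have h3 := hmin K (x i) (x k) (hx i).1 (hx i).2 (hx k).1 (hx k).2
      (rel2_of_rankLe x hx hr i k hik) (hspE i k hik)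
    rcases min_le_iff.1 h3 with h4 | h4
    · exact h4
    · exfalso
      rw [hHD] at h4
      have := le_of_mul_le_mul_right h4 hD
      linarith
  have hall : ∀ i, logHeight₁ (x i) ≤ H * D := by
    intro i
    by_cases hik : i = k
    · rw [hik, hHD]
    · exact (hother i hik).trans (mul_le_mul_of_nonneg_right g0.le hD.le)
  have hdec : ∀ k : Fin 3, ∃ i j : Fin 3, i ≠ j ∧ i ≠ k ∧ j ≠ k := by decide
  obtain ⟨i, j, hij, hik, hjk⟩ := hdec k
  obtain ⟨z', N, a, b, r, hc⟩ := hcfg H g2.le K (x i) (x j) (x k) (hx i).1 (hx i).2 (hx j).1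
    (hx j).2 (hx k).1 (hx k).2 (hspS i) (hspS j) (hspE i j hij)
    (rankLe_perm x hx hr i j k hij hik hjk) (hpair i j hij)
    (by rw [← range_perm x i j k hij hik hjk]; exact hgen) (hother i hik) (hother j hjk) hHD
    (hdeg H g1.le hall)
  exact hno H g3.le K _ _ _ N a b r hc

/-- A conjugate of `x` is a specialisation of a nonconstant point with three relations. -/
def PosAt {K : Type} [Field K] (x : Fin 3 → K) : Prop :=
  ∃ (φ : K →+* ℂ) (Ω : Type) (_ : Field Ω) (_ : Algebra ℂ Ω) (ξ : Fin 3 → Ω)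
    (u : Fin 3 → (Fin 3 ⊕ Fin 3 → ℤ)), LinearIndependent ℤ u ∧
    (∀ j, MvPolynomial.aeval ξ (MvPolynomial.map (algebraMap ℚ ℂ) (relPoly (u j))) = 0) ∧
    (∃ i, Transcendental ℂ (ξ i)) ∧
    ∀ p : MvPolynomial (Fin 3) ℂ, MvPolynomial.aeval ξ p = 0 →
      MvPolynomial.eval (fun i => φ (x i)) p = 0

/-- **Algebraic points of rank at most two.** -/
theorem alg_nf (h1 : TwoLog) (h2 : TorsArc) : ∃ (D0 : ℕ) (H2 : ℝ),
    ∀ (K : Type) [Field K] [NumberField K] (x : Fin 3 → K), (∀ i, x i ≠ 0 ∧ x i ≠ 1) →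
      RankLe 2 (co x) → IntermediateField.adjoin ℚ (Set.range x) = ⊤ →
      Spec x ∨ (∃ i j, i ≠ j ∧ RankLe 1 (co ![x i, x j])) ∨ PosAt x ∨
        (finrank ℚ K ≤ D0 ∧ ∀ i, logHeight₁ (x i) ≤ H2 * finrank ℚ K) := by
  obtain ⟨C, hC, h3⟩ := three_rel
  obtain ⟨H2, hlb⟩ := large_bounded h1 h2 ((343 * C) ^ 8) 16
  set H3 : ℝ := max H2 1 with hH3
  refine ⟨⌈(343 * C) ^ 8 * H3 ^ (16 : ℝ)⌉₊, H3, ?_⟩
  intro K _ _ x hx hr hgen
  by_cases hsp : Spec x
  · exact Or.inl hsp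
  by_cases hpair : ∃ i j, i ≠ j ∧ RankLe 1 (co ![x i, x j])
  · exact Or.inr (Or.inl hpair)
  by_cases hpos : PosAt x
  · exact Or.inr (Or.inr (Or.inl hpos))
  right; right; right
  have hD : (0 : ℝ) < finrank ℚ K := by exact_mod_cast (finrank_pos : 0 < finrank ℚ K)
  have hdeg : ∀ H : ℝ, 1 ≤ H → (∀ i, logHeight₁ (x i) ≤ H * finrank ℚ K) →
      (finrank ℚ K : ℝ) ≤ (343 * C) ^ 8 * H ^ (16 : ℝ) := by
    intro H hH hh
    obtain ⟨u, hui, hur, hun⟩ := h3 H hH K x hx hr hh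
    have hu0 : ∀ j, u j ≠ 0 := fun j => hui.ne_zero j
    have hun1 : ∀ j, 1 ≤ nrm (u j) := by
      intro j
      by_contra hlt
      have h0 : nrm (u j) = 0 := by omega
      exact hu0 j (RelC.nrm_eq_zero.1 h0)
    rcases RelC.orbit_or_generic K x hgen (fun j => relPoly (u j))
      (fun j => (aeval_relPoly x hx (u j)).2 (hur j)) (fun j => 6 * nrm (u j) + 1)
      (fun j => by
        have h1 := totalDegree_relPoly (u j)
        rw [Fintype.card_fin] at h1
        omega) with hd | ⟨ψ, Ω, i1, i2, ξ, e1, e2, e4⟩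
    · have h5 : ∏ j, (6 * nrm (u j) + 1) ≤ 343 * ∏ j, nrm (u j) := by
        have h6 : ∏ j, (6 * nrm (u j) + 1) ≤ ∏ j, (7 * nrm (u j)) :=
          Finset.prod_le_prod' fun j _ => by have := hun1 j; omega
        refine h6.trans (le_of_eq ?_)
        rw [Finset.prod_mul_distrib, Finset.prod_const, Finset.card_univ, Fintype.card_fin]
        norm_num
      have h7 : (finrank ℚ K : ℝ) ≤ 343 * (C * H ^ 2 * (finrank ℚ K : ℝ) ^ (7 / 8 : ℝ)) := by
        have h8 : (finrank ℚ K : ℝ) ≤ 343 * ((∏ j, nrm (u j) : ℕ) : ℝ) := by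
          exact_mod_cast hd.trans h5
        exact h8.trans (mul_le_mul_of_nonneg_left hun (by norm_num))
      have h9 : (finrank ℚ K : ℝ) ^ (1 / 8 : ℝ) ≤ 343 * C * H ^ 2 := by
        have h10 : (0 : ℝ) < (finrank ℚ K : ℝ) ^ (7 / 8 : ℝ) := Real.rpow_pos_of_pos hD _
        have h11 : (finrank ℚ K : ℝ) = (finrank ℚ K : ℝ) ^ (1 / 8 : ℝ) *
            (finrank ℚ K : ℝ) ^ (7 / 8 : ℝ) := by
          rw [← Real.rpow_add hD]
          norm_num
        have h12 : (finrank ℚ K : ℝ) ^ (1 / 8 : ℝ) * (finrank ℚ K : ℝ) ^ (7 / 8 : ℝ) ≤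
            343 * C * H ^ 2 * (finrank ℚ K : ℝ) ^ (7 / 8 : ℝ) := by
          rw [← h11]
          linarith
        exact le_of_mul_le_mul_right h12 h10
      calc (finrank ℚ K : ℝ) = ((finrank ℚ K : ℝ) ^ (1 / 8 : ℝ)) ^ 8 := by
            rw [← Real.rpow_natCast, ← Real.rpow_mul hD.le]
            norm_num
        _ ≤ (343 * C * H ^ 2) ^ 8 :=
          pow_le_pow_left₀ (Real.rpow_nonneg hD.le _) h9 8
        _ = (343 * C) ^ 8 * H ^ (16 : ℝ) := by
          have : H ^ (16 : ℝ) = H ^ 16 := by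
            rw [← Real.rpow_natCast]
            norm_num
          rw [this]
          ring
    · exact absurd ⟨ψ, Ω, i1, i2, ξ, u, hui, e1, e2, e4⟩ hpos
  have hb := hlb K x hx hr hsp hgen (fun i j hij h => hpair ⟨i, j, hij, h⟩) hdeg
  have hb3 : ∀ i, logHeight₁ (x i) ≤ H3 * finrank ℚ K := fun i =>
    (hb i).trans (mul_le_mul_of_nonneg_right (le_max_left _ _) hD.le)
  refine ⟨?_, hb3⟩
  have := hdeg H3 (le_max_right _ _) hb3
  exact_mod_cast this.trans (Nat.le_ceil _)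

end Pool.Agent.L3S
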