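import Pool.Agent.L3S.Norms
import Pool.Agent.L3S.Arc

set_option autoImplicit false

/-! Package T9: the four sizes at a good place. -/

namespace Pool.Agent.L3S

open NumberField Height Real Module Pool.Agent.LThree

private theorem loc_log {t : ℝ} (ht : |t - 1| ≤ 1 / 2) : |log t| ≤ 2 * |t - 1| := by
  obtain ⟨h1, h2⟩ := abs_le.1 ht
  have ht0 : 0 < t := by linarith
  have hu := Real.log_le_sub_one_of_pos ht0
  have hl := Real.one_sub_inv_le_log_of_pos ht0
  have hinv : 1 - t⁻¹ = (t - 1) / t := by field_simp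
  rw [hinv] at hl
  have h3 : -(2 * |t - 1|) ≤ (t - 1) / t := by
    rw [le_div_iff₀ ht0]
    have h4 : |t - 1| * 1 ≤ |t - 1| * (2 * t) :=
      mul_le_mul_of_nonneg_left (by linarith) (abs_nonneg _)
    have h5 := neg_abs_le (t - 1)
    linarith
  have h6 := le_abs_self (t - 1)
  have h7 := abs_nonneg (t - 1)
  rw [abs_le]
  constructor <;> linarith

private theorem loc_place {K : Type} [Field K] (v : InfinitePlace K) (x : K) :
    ‖v.embedding x‖ = v x := InfinitePlace.norm_embedding_eq v x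

private theorem loc_one_sub {K : Type} [Field K] (v : InfinitePlace K) (z : K)
    (h : v z ≤ 1 / 2) : |log (v (1 - z))| ≤ 2 * v z := by
  have h1 : |v (1 - z) - 1| ≤ v z := by
    have := abs_norm_sub_norm_le (v.embedding (1 - z)) 1
    rw [norm_one, loc_place] at this
    refine this.trans (le_of_eq ?_)
    rw [map_sub, map_one, show (1 : ℂ) - v.embedding z - 1 = -v.embedding z by ring, norm_neg,
      loc_place]
  have h2 := loc_log (t := v (1 - z)) (h1.trans h)
  linarith

private theorem loc_fo {K : Type} [Field K] (v : InfinitePlace K) (x y : K) (k : Fin 4) :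
    ‖fo (v.embedding x) (v.embedding y) k‖ = v (fo x y k) := by
  rw [← loc_place]
  fin_cases k <;> simp [fo]

/-- **The sizes at a good place.** `s = sv H z v = -log (v z) / H ∈ [1/M, M]` by the definition of
`Pl`. From `ex`: `N log (v f_k) = a k log (v z) + b k log (v (1 - z))`, so
`log (v f_k) = s (-(a k) H / N) + (b k / N) log (v (1 - z))` and `|b k / N| ≤ M / H ≤ M`,
`|log (v (1 - z))| ≤ 2 v z ≤ 2 exp (-(H/M))`; `2 M exp (-(H/M)) ≤ exp (-(H/(2 M)))` for `H ≥ H2`.
(`v w = ‖v.embedding w‖`, `InfinitePlace.norm_embedding_eq`.) -/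
theorem cfg_near (M : ℝ) (hM : 1 ≤ M) : ∃ H2 : ℝ, ∀ (H : ℝ), H2 ≤ H →
    ∀ (K : Type) [Field K] [NumberField K] (x y z : K) (N : ℕ) (a b r : Fin 4 → ℤ),
      Cfg M H K x y z N a b r → ∀ v : InfinitePlace K, Pl M H z v →
      1 / M ≤ sv H z v ∧ sv H z v ≤ M ∧
        Near (dir H N a) (sv H z v) (exp (-(H / (2 * M)))) (v.embedding x) (v.embedding y) := by
  have hM0 : 0 < M := by linarith
  refine ⟨4 * M ^ 2, ?_⟩
  intro H hH K _ _ x y z N a b r hc v hv
  obtain ⟨hv1, hv2⟩ := hv
  have hH1 : 1 ≤ H := by nlinarith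
  have hHM : M ≤ H := by nlinarith
  have hH0 : 0 < H := by linarith
  have hz : 0 < v z := v.pos_iff.2 hc.z0
  have h1z : 0 < v (1 - z) := v.pos_iff.2 (sub_ne_zero.2 (Ne.symm hc.z1))
  have hl1 : -(M * H) ≤ log (v z) := by
    rw [← log_exp (-(M * H))]
    exact log_le_log (exp_pos _) hv1
  have hl2 : log (v z) ≤ -(H / M) := by
    rw [← log_exp (-(H / M))]
    exact log_le_log hz hv2
  have hs1 : 1 / M ≤ sv H z v := by
    unfold sv
    rw [le_div_iff₀ hH0]
    have : 1 / M * H = H / M := by ring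
    rw [this]
    linarith
  have hs2 : sv H z v ≤ M := by
    unfold sv
    rw [div_le_iff₀ hH0]
    linarith
  refine ⟨hs1, hs2, fun k => ?_⟩
  -- `exp (-(H/M)) ≤ 1/2`
  have hq1 : 1 ≤ H / M := by rw [le_div_iff₀ hM0]; linarith
  have hE : exp (-(H / M)) ≤ 1 / 2 := by
    rw [Real.exp_neg, inv_eq_one_div]
    refine one_div_le_one_div_of_le (by norm_num) ?_
    have := Real.add_one_le_exp (H / M)
    linarith
  have hlz := loc_one_sub v z (hv2.trans hE)
  have hN : (0 : ℝ) < N := by exact_mod_cast hc.N0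
  -- the equation for the logarithms
  have hex : (N : ℝ) * log (v (fo x y k)) = a k * log (v z) + b k * log (v (1 - z)) := by
    have h1 := congrArg (fun w => log (v w)) (hc.ex k)
    simp only [map_pow, map_mul, map_zpow₀] at h1
    rw [log_pow, log_mul (zpow_ne_zero _ hz.ne') (zpow_ne_zero _ h1z.ne'), log_zpow,
      log_zpow] at h1
    exact h1
  have hdiff : log ‖fo (v.embedding x) (v.embedding y) k‖ - sv H z v * dir H N a k =
      b k / N * log (v (1 - z)) := by
    rw [loc_fo]
    have e1 : log (v (fo x y k)) = (a k * log (v z) + b k * log (v (1 - z))) / N := by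
      rw [← hex]
      field_simp
    rw [e1]
    unfold sv dir
    field_simp
    ring
  rw [hdiff, abs_mul, abs_div, abs_of_pos hN]
  have hb : |(b k : ℝ)| / N ≤ M := by
    rw [div_le_iff₀ hN]
    have h1 := hc.cb k
    have h2 : |(b k : ℝ)| * 1 ≤ |(b k : ℝ)| * H :=
      mul_le_mul_of_nonneg_left hH1 (abs_nonneg _)
    linarith
  have hfin : M * (2 * exp (-(H / M))) ≤ exp (-(H / (2 * M))) := by
    have h1 : exp (-(H / M)) = exp (-(H / (2 * M))) * exp (-(H / (2 * M))) := by
      rw [← Real.exp_add]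
      congr 1
      field_simp
      ring
    have h2 : 2 * M ≤ exp (H / (2 * M)) := by
      have h3 := Real.add_one_le_exp (H / (2 * M))
      have h4 : 2 * M ≤ H / (2 * M) := by
        rw [le_div_iff₀ (by positivity)]
        nlinarith
      linarith
    have h5 : 2 * M * exp (-(H / (2 * M))) ≤ 1 := by
      rw [Real.exp_neg]
      rw [← div_eq_mul_inv, div_le_one (exp_pos _)]
      exact h2
    have h6 := exp_pos (-(H / (2 * M)))
    rw [h1]
    calc M * (2 * (exp (-(H / (2 * M))) * exp (-(H / (2 * M))))) =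
        2 * M * exp (-(H / (2 * M))) * exp (-(H / (2 * M))) := by ring
      _ ≤ 1 * exp (-(H / (2 * M))) := mul_le_mul_of_nonneg_right h5 h6.le
      _ = exp (-(H / (2 * M))) := one_mul _
  refine le_trans ?_ hfin
  refine mul_le_mul hb ?_ (abs_nonneg _) hM0.le
  linarith

/-- The product formula: a nonzero number of bounded height is not tiny at many places
(`height_ge_mass` with `E = H / M`: `D / M * (H / M) ≤ M D`; take `H2 = M ^ 3 + 1`). -/
theorem not_small (M : ℝ) (hM : 1 ≤ M) : ∃ H2 : ℝ, ∀ (H : ℝ), H2 ≤ H →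
    ∀ (K : Type) [Field K] [NumberField K] (w : K), w ≠ 0 →
      logHeight₁ w ≤ M * finrank ℚ K →
      (finrank ℚ K : ℝ) ≤ M * mass K (fun v => v w ≤ exp (-(H / M))) → False := by
  have hM0 : 0 < M := by linarith
  refine ⟨M ^ 3 + 1, ?_⟩
  intro H hH K _ _ w hw hh hm
  have hD0 : (0 : ℝ) < finrank ℚ K := by exact_mod_cast (finrank_pos : 0 < finrank ℚ K)
  have hH0 : 0 < H := by have := pow_pos hM0 3; linarith
  have h1 := height_ge_mass K w hw (H / M) (by positivity)
  have h2 : (finrank ℚ K : ℝ) * H ≤ finrank ℚ K * M ^ 3 := by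
    have h3 : (finrank ℚ K : ℝ) * (H / M) ≤
        M * mass K (fun v => v w ≤ exp (-(H / M))) * (H / M) :=
      mul_le_mul_of_nonneg_right hm (by positivity)
    have h4 : M * mass K (fun v => v w ≤ exp (-(H / M))) * (H / M) ≤
        M * (M * finrank ℚ K) := by
      rw [mul_assoc]
      exact mul_le_mul_of_nonneg_left (h1.trans hh) hM0.le
    have h5 : (finrank ℚ K : ℝ) * H = finrank ℚ K * (H / M) * M := by
      field_simp
    rw [h5]
    calc (finrank ℚ K : ℝ) * (H / M) * M ≤ M * (M * finrank ℚ K) * M :=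
          mul_le_mul_of_nonneg_right (h3.trans h4) hM0.le
      _ = finrank ℚ K * M ^ 3 := by ring
  have h6 := le_of_mul_le_mul_left h2 hD0
  linarith

private theorem loc_sixth {K : Type} [Field K] (v : InfinitePlace K) (x : K) (hx : x ≠ 0)
    (hx1 : x ≠ 1) (δ : ℝ) (hδ : δ ≤ 1) (h0 : |log (v x)| ≤ δ) (h1 : |log (v (1 - x))| ≤ δ) :
    v (x ^ 2 - x + 1) ≤ 40 * δ := by
  have hw0 : v.embedding x ≠ 0 := fun h => hx (by simpa using h)
  have hw1 : v.embedding x ≠ 1 := fun h => hx1 (by
    apply v.embedding.injective; rw [h, map_one])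
  have := near_sixth (v.embedding x) hw0 hw1 δ hδ (by rw [loc_place]; exact h0)
    (by
      have : ‖1 - v.embedding x‖ = v (1 - x) := by rw [← loc_place, map_sub, map_one]
      rw [this]; exact h1)
  rw [← loc_place]
  simpa using this

/-- Not both `a 0` and `a 1` vanish: otherwise `v (x² - x + 1) ≤ 40 exp (-(H/(2M)))` at all good places
(`near_sixth` as in `LThree/Good.lean`, `sixth_of_small`), against `not_small` (the height of
`x² - x + 1` is at most `(3 M + 2) D`, see `mass_sixth`). -/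
theorem cfg_ne_zero (M : ℝ) (hM : 1 ≤ M) : ∃ H2 : ℝ, ∀ (H : ℝ), H2 ≤ H →
    ∀ (K : Type) [Field K] [NumberField K] (x y z : K) (N : ℕ) (a b r : Fin 4 → ℤ),
      Cfg M H K x y z N a b r → ¬ (a 0 = 0 ∧ a 1 = 0) := by
  have hM0 : 0 < M := by linarith
  obtain ⟨H2, hnear⟩ := cfg_near M hM
  refine ⟨max H2 (160 * M + (4 * M ^ 2 * (3 * M + 2) + 1)), ?_⟩
  intro H hH K _ _ x y z N a b r hc ha
  have hpos : 0 < 4 * M ^ 2 * (3 * M + 2) := by positivity
  have hHH := (le_max_right _ _).trans hH
  have hH160 : 160 * M ≤ H := by linarith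
  have hHM : 4 * M ^ 2 * (3 * M + 2) < H := by linarith
  have hH0 : 0 < H := by linarith
  have hD0 : (0 : ℝ) < finrank ℚ K := by exact_mod_cast (finrank_pos : 0 < finrank ℚ K)
  have hpl : ∀ v : InfinitePlace K, Pl M H z v → v (x ^ 2 - x + 1) ≤ exp (-(H / (4 * M))) := by
    intro v hv
    obtain ⟨-, -, h3⟩ := hnear H ((le_max_left _ _).trans hH) K x y z N a b r hc v hv
    have h0 := h3 0
    have h1 := h3 1
    rw [loc_fo] at h0 h1
    have e0 : dir H N a 0 = 0 := by
      unfold dir
      rw [ha.1]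
      simp
    have e1 : dir H N a 1 = 0 := by
      unfold dir
      rw [ha.2]
      simp
    rw [e0, mul_zero, sub_zero] at h0
    rw [e1, mul_zero, sub_zero] at h1
    have hδ1 : exp (-(H / (2 * M))) ≤ 1 := by
      rw [Real.exp_le_one_iff]
      have : 0 < H / (2 * M) := by positivity
      linarith
    have h4 := loc_sixth v x hc.x0 hc.x1 _ hδ1 h0 h1
    refine h4.trans ?_
    have h5 : exp (-(H / (2 * M))) = exp (-(H / (4 * M))) * exp (-(H / (4 * M))) := by
      rw [← Real.exp_add]
      congr 1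
      field_simp
      ring
    have h6 : 40 ≤ exp (H / (4 * M)) := by
      have h7 := Real.add_one_le_exp (H / (4 * M))
      have h8 : 40 ≤ H / (4 * M) := by
        rw [le_div_iff₀ (by positivity)]
        linarith
      linarith
    have h9 : 40 * exp (-(H / (4 * M))) ≤ 1 := by
      rw [Real.exp_neg, ← div_eq_mul_inv, div_le_one (exp_pos _)]
      exact h6
    rw [h5]
    calc 40 * (exp (-(H / (4 * M))) * exp (-(H / (4 * M)))) =
        40 * exp (-(H / (4 * M))) * exp (-(H / (4 * M))) := by ring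
      _ ≤ 1 * exp (-(H / (4 * M))) := mul_le_mul_of_nonneg_right h9 (exp_pos _).le
      _ = exp (-(H / (4 * M))) := one_mul _
  have hq : 0 < H / (4 * M) := by positivity
  have h1 := mass_sixth K x hc.xs (exp (-(H / (4 * M)))) (exp_pos _) (by
    rw [Real.exp_lt_one_iff]
    linarith)
  rw [log_exp, neg_neg] at h1
  have h2 : (finrank ℚ K : ℝ) ≤
      M * mass K (fun v => v (x ^ 2 - x + 1) ≤ exp (-(H / (4 * M)))) :=
    hc.pl.trans (mul_le_mul_of_nonneg_left (mass_mono K _ _ hpl) hM0.le)
  have hx := hc.hx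
  have h3 : (finrank ℚ K : ℝ) * (H / (4 * M)) ≤ M * ((3 * M + 2) * finrank ℚ K) := by
    refine (mul_le_mul_of_nonneg_right h2 hq.le).trans ?_
    rw [mul_assoc]
    refine mul_le_mul_of_nonneg_left (h1.trans ?_) hM0.le
    linarith
  have h4 : (finrank ℚ K : ℝ) * H ≤ finrank ℚ K * (4 * M ^ 2 * (3 * M + 2)) := by
    have h5 : (finrank ℚ K : ℝ) * H = finrank ℚ K * (H / (4 * M)) * (4 * M) := by
      field_simp
    rw [h5]
    calc (finrank ℚ K : ℝ) * (H / (4 * M)) * (4 * M) ≤
          M * ((3 * M + 2) * finrank ℚ K) * (4 * M) :=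
          mul_le_mul_of_nonneg_right h3 (by positivity)
      _ = finrank ℚ K * (4 * M ^ 2 * (3 * M + 2)) := by ring
  have h6 := le_of_mul_le_mul_left h4 hD0
  linarith

end Pool.Agent.L3S
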