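import Pool.Agent.L3S.Defs
import Pool.Agent.RelC.PairsOne
import Pool.Agent.RelC.Counts

set_option autoImplicit false

/-! Package S1: pairs of rank at most one satisfy two independent bounded relations. -/

namespace Pool.Agent.L3S

open Pool.Agent.LThree NumberField Height Real Module

/-- The relation with exponents `a, c` of the coordinates and `b, d` of the complements. -/
private def vec (a b c d : ℤ) : Fin 2 ⊕ Fin 2 → ℤ := Sum.elim ![a, c] ![b, d]

private theorem mono_vec {K : Type} [Field K] (x : Fin 2 → K) (a b c d : ℤ) :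
    mono (co x) (vec a b c d) = x 0 ^ a * (1 - x 0) ^ b * (x 1 ^ c * (1 - x 1) ^ d) := by
  unfold mono co vec
  rw [Fintype.prod_sum_type, Fin.prod_univ_two, Fin.prod_univ_two]
  simp only [Sum.elim_inl, Sum.elim_inr, Matrix.cons_val_zero, Matrix.cons_val_one]
  ring

private theorem nrm_vec {a b c d : ℤ} {B : ℕ} (ha : a.natAbs ≤ B) (hb : b.natAbs ≤ B)
    (hc : c.natAbs ≤ B) (hd : d.natAbs ≤ B) : LThree.nrm (vec a b c d) ≤ B := by
  unfold LThree.nrm
  refine Finset.sup_le fun i _ => ?_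
  rcases i with i | i <;> fin_cases i
  · exact ha
  · exact hc
  · exact hb
  · exact hd

private theorem ind_of_minor {ι : Type} {u v : ι → ℤ} (i j : ι) (h : u i * v j - u j * v i ≠ 0) :
    LinearIndependent ℤ ![u, v] := by
  rw [LinearIndependent.pair_iff]
  intro s t hst
  have h1 := congrFun hst i
  have h2 := congrFun hst j
  simp only [Pi.add_apply, Pi.smul_apply, smul_eq_mul, Pi.zero_apply] at h1 h2
  constructor
  · have e : s * (u i * v j - u j * v i) = 0 := by linear_combination v j * h1 - v i * h2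
    exact (mul_eq_zero.1 e).resolve_right h
  · have e : t * (u i * v j - u j * v i) = 0 := by linear_combination u i * h2 - u j * h1
    exact (mul_eq_zero.1 e).resolve_right h

private theorem two_of_vec {K : Type} [Field K] {x : Fin 2 → K} {a b c d a' b' c' d' : ℤ}
    (hB : a.natAbs ≤ 6 ∧ b.natAbs ≤ 6 ∧ c.natAbs ≤ 6 ∧ d.natAbs ≤ 6)
    (hB' : a'.natAbs ≤ 6 ∧ b'.natAbs ≤ 6 ∧ c'.natAbs ≤ 6 ∧ d'.natAbs ≤ 6)
    (h : a * b' - b * a' ≠ 0 ∨ a * c' - c * a' ≠ 0 ∨ a * d' - d * a' ≠ 0 ∨ b * c' - c * b' ≠ 0 ∨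
      b * d' - d * b' ≠ 0 ∨ c * d' - d * c' ≠ 0)
    (h1 : x 0 ^ a * (1 - x 0) ^ b * (x 1 ^ c * (1 - x 1) ^ d) = 1)
    (h2 : x 0 ^ a' * (1 - x 0) ^ b' * (x 1 ^ c' * (1 - x 1) ^ d') = 1) : Two 6 x := by
  refine ⟨vec a b c d, vec a' b' c' d', ?_, nrm_vec hB.1 hB.2.1 hB.2.2.1 hB.2.2.2,
    nrm_vec hB'.1 hB'.2.1 hB'.2.2.1 hB'.2.2.2, by rw [mono_vec, h1], by rw [mono_vec, h2]⟩
  rcases h with h | h | h | h | h | h
  · exact ind_of_minor (Sum.inl 0) (Sum.inr 0) (by simpa [vec] using h)
  · exact ind_of_minor (Sum.inl 0) (Sum.inl 1) (by simpa [vec] using h)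
  · exact ind_of_minor (Sum.inl 0) (Sum.inr 1) (by simpa [vec] using h)
  · exact ind_of_minor (Sum.inr 0) (Sum.inl 1) (by simpa [vec] using h)
  · exact ind_of_minor (Sum.inr 0) (Sum.inr 1) (by simpa [vec] using h)
  · exact ind_of_minor (Sum.inl 1) (Sum.inr 1) (by simpa [vec] using h)

private theorem two_of_eqv {K : Type} [Field K] {x : Fin 2 → K} (h0 : ∀ i, x i ≠ 0)
    (h1 : ∀ i, x i ≠ 1) (h : Eqv (x 0) (x 1)) : Two 6 x := by
  have hx : x 0 ≠ 0 := h0 0
  have hx1 : 1 - x 0 ≠ 0 := sub_ne_zero.2 (Ne.symm (h1 0))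
  have hx1' : x 0 - 1 ≠ 0 := sub_ne_zero.2 (h1 0)
  unfold Eqv at h
  rcases h with h | h | h | h | h | h
  · refine two_of_vec (a := 1) (b := 0) (c := -1) (d := 0) (a' := 0) (b' := 1) (c' := 0)
      (d' := -1) (by norm_num) (by norm_num) (by norm_num) ?_ ?_
    · rw [h]
      simp [hx]
    · rw [h]
      simp [hx1]
  · have e : 1 - x 1 = x 0 := by rw [h]; ring
    refine two_of_vec (a := 0) (b := 1) (c := -1) (d := 0) (a' := 1) (b' := 0) (c' := 0)
      (d' := -1) (by norm_num) (by norm_num) (by norm_num) ?_ ?_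
    · rw [h]
      simp [hx1]
    · rw [e]
      simp [hx]
  · have e : 1 - x 1 = -(1 - x 0) / x 0 := by
      rw [h]
      field_simp
      ring
    refine two_of_vec (a := 1) (b := 0) (c := 1) (d := 0) (a' := 2) (b' := -2) (c' := 0)
      (d' := 2) (by norm_num) (by norm_num) (by norm_num) ?_ ?_
    · rw [h]
      simp [hx]
    · rw [e]
      simp only [zpow_zero, one_mul, zpow_neg]
      rw [show (2 : ℤ) = ((2 : ℕ) : ℤ) from rfl]
      simp only [zpow_natCast]
      field_simp
      try ring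
  · have e : 1 - x 1 = -(x 0) / (1 - x 0) := by
      rw [h]
      field_simp
      ring
    refine two_of_vec (a := 0) (b := 1) (c := 1) (d := 0) (a' := -2) (b' := 2) (c' := 0)
      (d' := 2) (by norm_num) (by norm_num) (by norm_num) ?_ ?_
    · rw [h]
      simp [hx1]
    · rw [e]
      simp only [zpow_zero, one_mul, zpow_neg]
      rw [show (2 : ℤ) = ((2 : ℕ) : ℤ) from rfl]
      simp only [zpow_natCast]
      field_simp
      try ring
  · have e : 1 - x 1 = (1 - x 0)⁻¹ := by
      rw [h]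
      field_simp
      ring
    have e' : x 1 = -(x 0) / (1 - x 0) := by
      rw [h, div_eq_div_iff hx1' hx1]
      ring
    refine two_of_vec (a := 0) (b := 1) (c := 0) (d := 1) (a' := -2) (b' := 2) (c' := 2)
      (d' := 0) (by norm_num) (by norm_num) (by norm_num) ?_ ?_
    · rw [e]
      simp [hx1]
    · rw [e']
      simp only [zpow_zero, mul_one, zpow_neg]
      rw [show (2 : ℤ) = ((2 : ℕ) : ℤ) from rfl]
      simp only [zpow_natCast]
      field_simp
      try ring
  · have e : 1 - x 1 = (x 0)⁻¹ := by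
      rw [h]
      field_simp
      ring
    have e' : x 1 = -(1 - x 0) / x 0 := by
      rw [h]
      congr 1
      ring
    refine two_of_vec (a := 1) (b := 0) (c := 0) (d := 1) (a' := 2) (b' := -2) (c' := 2)
      (d' := 0) (by norm_num) (by norm_num) (by norm_num) ?_ ?_
    · rw [e]
      simp [hx]
    · rw [e']
      simp only [zpow_zero, mul_one, zpow_neg]
      rw [show (2 : ℤ) = ((2 : ℕ) : ℤ) from rfl]
      simp only [zpow_natCast]
      field_simp
      try ring

private theorem eqv_symm {F : Type} [Field F] {x y : F} (hy : y ≠ 0) (hy1 : y ≠ 1)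
    (h : Eqv y x) : Eqv x y := by
  have h1 : 1 - y ≠ 0 := sub_ne_zero.2 (Ne.symm hy1)
  have h1' : y - 1 ≠ 0 := sub_ne_zero.2 hy1
  unfold Eqv at h ⊢
  rcases h with h | h | h | h | h | h
  · left; exact h.symm
  · right; left; rw [h]; ring
  · right; right; left; rw [h, inv_inv]
  · right; right; right; right; right
    rw [h, eq_div_iff (inv_ne_zero h1)]
    field_simp
    ring
  · right; right; right; right; left
    have h2 : y / (y - 1) - 1 ≠ 0 := by
      rw [div_sub_one h1']
      exact div_ne_zero (by ring_nf; exact one_ne_zero) h1'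
    rw [h, eq_div_iff h2]
    field_simp
    ring
  · right; right; right; left
    rw [h]
    field_simp
    ring

private theorem eqv_one_sub {F : Type} [Field F] {x y : F} (hx : x ≠ 0) (hx1 : x ≠ 1)
    (h : Eqv (1 - x) y) : Eqv x y := by
  have h1 : 1 - x ≠ 0 := sub_ne_zero.2 (Ne.symm hx1)
  have h1' : x - 1 ≠ 0 := sub_ne_zero.2 hx1
  unfold Eqv at h ⊢
  have e : 1 - (1 - x) = x := by ring
  have e' : 1 - x - 1 = -x := by ring
  rw [e, e'] at h
  rcases h with h | h | h | h | h | h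
  · right; left; exact h
  · left; exact h
  · right; right; right; left; exact h
  · right; right; left; exact h
  · right; right; right; right; right
    rw [h, div_eq_div_iff (neg_ne_zero.2 hx) hx]
    ring
  · right; right; right; right; left
    rw [h, div_eq_div_iff h1 h1']
    ring

/-- a constant first coordinate -/
private theorem two_of_six {Ω : Type} [Field Ω] [Algebra ℂ Ω] (x : Fin 2 → Ω) (h0 : ∀ i, x i ≠ 0)
    (h1 : ∀ i, x i ≠ 1) (htr : ∃ i, Transcendental ℂ (x i)) (u v : Fin 2 ⊕ Fin 2 → ℤ)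
    (hind : LinearIndependent ℤ ![u, v]) (hu : mono (co x) u = 1) (hv : mono (co x) v = 1)
    (h6 : x 0 ^ 6 = 1) : Two 6 x := by
  have hx : x 0 ≠ 0 := h0 0
  have hx1 : 1 - x 0 ≠ 0 := sub_ne_zero.2 (Ne.symm (h1 0))
  -- exchange of `x 0` and `1 - x 0`
  let x' : Fin 2 → Ω := ![1 - x 0, x 1]
  let sw : (Fin 2 ⊕ Fin 2 → ℤ) → Fin 2 ⊕ Fin 2 → ℤ := fun w =>
    vec (w (Sum.inr 0)) (w (Sum.inl 0)) (w (Sum.inl 1)) (w (Sum.inr 1))
  have hw : ∀ w : Fin 2 ⊕ Fin 2 → ℤ,
      w = vec (w (Sum.inl 0)) (w (Sum.inr 0)) (w (Sum.inl 1)) (w (Sum.inr 1)) := by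
    intro w
    funext i
    rcases i with i | i <;> fin_cases i <;> rfl
  have hsw : ∀ w, mono (co x) w = 1 → mono (co x') (sw w) = 1 := by
    intro w h
    rw [hw w, mono_vec] at h
    rw [mono_vec]
    show (1 - x 0) ^ w (Sum.inr 0) * (1 - (1 - x 0)) ^ w (Sum.inl 0) *
      (x 1 ^ w (Sum.inl 1) * (1 - x 1) ^ w (Sum.inr 1)) = 1
    rw [sub_sub_cancel, mul_comm ((1 - x 0) ^ w (Sum.inr 0))]
    exact h
  have hx'0 : ∀ i, x' i ≠ 0 := by
    intro i
    fin_cases i
    · exact hx1
    · exact h0 1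
  have hx'1 : ∀ i, x' i ≠ 1 := by
    intro i
    fin_cases i
    · show 1 - x 0 ≠ 1
      intro h
      apply hx
      linear_combination -h
    · exact h1 1
  have htr1 : Transcendental ℂ (x 1) := by
    obtain ⟨i, hi⟩ := htr
    fin_cases i
    · exfalso
      apply hi
      refine ⟨Polynomial.X ^ 6 - 1, (Polynomial.monic_X_pow_sub_C (1 : ℂ) (by norm_num)).ne_zero,
        ?_⟩
      simp [h6]
    · exact hi
  have hind' : LinearIndependent ℤ ![sw u, sw v] := by
    rw [LinearIndependent.pair_iff] at hind ⊢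
    intro s t hst
    refine hind s t ?_
    have e : ∀ i, s * sw u i + t * sw v i = 0 := by
      intro i
      have := congrFun hst i
      simpa using this
    funext i
    simp only [Pi.add_apply, Pi.smul_apply, smul_eq_mul, Pi.zero_apply]
    rcases i with i | i <;> fin_cases i
    · exact e (Sum.inr 0)
    · exact e (Sum.inl 1)
    · exact e (Sum.inl 0)
    · exact e (Sum.inr 1)
  rcases RelC.ff_pair x' hx'0 hx'1 ⟨1, htr1⟩ (sw u) (sw v) hind' (hsw u hu) (hsw v hv)
    with h | h | h | h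
  · exact two_of_eqv h0 h1 (eqv_one_sub hx (h1 0) h)
  · refine two_of_eqv h0 h1 (eqv_one_sub hx (h1 0) ?_)
    exact eqv_symm (hx'0 1) (hx'1 1) h
  · have h' : (1 - x 0) ^ 6 = 1 := h
    refine two_of_vec (a := 6) (b := 0) (c := 0) (d := 0) (a' := 0) (b' := 6) (c' := 0)
      (d' := 0) (by norm_num) (by norm_num) (by norm_num) ?_ ?_
    · simp only [zpow_zero, mul_one]
      exact_mod_cast h6
    · simp only [zpow_zero, mul_one, one_mul]
      exact_mod_cast h'
  · have h' : x 1 ^ 6 = 1 := h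
    refine two_of_vec (a := 6) (b := 0) (c := 0) (d := 0) (a' := 0) (b' := 0) (c' := 6)
      (d' := 0) (by norm_num) (by norm_num) (by norm_num) ?_ ?_
    · simp only [zpow_zero, mul_one]
      exact_mod_cast h6
    · simp only [zpow_zero, mul_one, one_mul]
      exact_mod_cast h'

/-- exchange of the coordinates -/
private theorem two_swap {K : Type} [Field K] {B : ℕ} {x : Fin 2 → K} (h : Two B ![x 1, x 0]) :
    Two B x := by
  obtain ⟨u, v, hind, hu, hv, hu1, hv1⟩ := h
  let sw : (Fin 2 ⊕ Fin 2 → ℤ) → Fin 2 ⊕ Fin 2 → ℤ := fun w =>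
    vec (w (Sum.inl 1)) (w (Sum.inr 1)) (w (Sum.inl 0)) (w (Sum.inr 0))
  have hw : ∀ w : Fin 2 ⊕ Fin 2 → ℤ,
      w = vec (w (Sum.inl 0)) (w (Sum.inr 0)) (w (Sum.inl 1)) (w (Sum.inr 1)) := by
    intro w
    funext i
    rcases i with i | i <;> fin_cases i <;> rfl
  have hsw : ∀ w, mono (co ![x 1, x 0]) w = 1 → mono (co x) (sw w) = 1 := by
    intro w h
    rw [hw w, mono_vec] at h
    rw [mono_vec, mul_comm]
    exact h
  have hn : ∀ w : Fin 2 ⊕ Fin 2 → ℤ, LThree.nrm w ≤ B → LThree.nrm (sw w) ≤ B := by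
    intro w h
    have hle : ∀ i, (w i).natAbs ≤ B := fun i =>
      (Finset.le_sup (f := fun i => (w i).natAbs) (Finset.mem_univ i)).trans h
    exact nrm_vec (hle _) (hle _) (hle _) (hle _)
  refine ⟨sw u, sw v, ?_, hn u hu, hn v hv, hsw u hu1, hsw v hv1⟩
  rw [LinearIndependent.pair_iff] at hind ⊢
  intro s t hst
  refine hind s t ?_
  have e : ∀ i, s * sw u i + t * sw v i = 0 := by
    intro i
    have := congrFun hst i
    simpa using this
  funext i
  simp only [Pi.add_apply, Pi.smul_apply, smul_eq_mul, Pi.zero_apply]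
  rcases i with i | i <;> fin_cases i
  · exact e (Sum.inl 1)
  · exact e (Sum.inl 0)
  · exact e (Sum.inr 1)
  · exact e (Sum.inr 0)

/-- nonconstant points -/
private theorem two_generic {Ω : Type} [Field Ω] [Algebra ℂ Ω] (x : Fin 2 → Ω)
    (h0 : ∀ i, x i ≠ 0) (h1 : ∀ i, x i ≠ 1) (htr : ∃ i, Transcendental ℂ (x i))
    (u v : Fin 2 ⊕ Fin 2 → ℤ) (hind : LinearIndependent ℤ ![u, v]) (hu : mono (co x) u = 1)
    (hv : mono (co x) v = 1) : Two 6 x := by
  rcases RelC.ff_pair x h0 h1 htr u v hind hu hv with h | h | h | h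
  · exact two_of_eqv h0 h1 h
  · exact two_of_eqv h0 h1 (eqv_symm (h0 1) (h1 1) h)
  · exact two_of_six x h0 h1 htr u v hind hu hv h
  · apply two_swap
    let sw : (Fin 2 ⊕ Fin 2 → ℤ) → Fin 2 ⊕ Fin 2 → ℤ := fun w =>
      vec (w (Sum.inl 1)) (w (Sum.inr 1)) (w (Sum.inl 0)) (w (Sum.inr 0))
    have hw : ∀ w : Fin 2 ⊕ Fin 2 → ℤ,
        w = vec (w (Sum.inl 0)) (w (Sum.inr 0)) (w (Sum.inl 1)) (w (Sum.inr 1)) := by
      intro w
      funext i
      rcases i with i | i <;> fin_cases i <;> rfl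
    have hsw : ∀ w, mono (co x) w = 1 → mono (co ![x 1, x 0]) (sw w) = 1 := by
      intro w h
      rw [hw w, mono_vec] at h
      rw [mono_vec, mul_comm]
      exact h
    refine two_of_six ![x 1, x 0] ?_ ?_ ?_ (sw u) (sw v) ?_ (hsw u hu) (hsw v hv) h
    · intro i
      fin_cases i
      · exact h0 1
      · exact h0 0
    · intro i
      fin_cases i
      · exact h1 1
      · exact h1 0
    · obtain ⟨i, hi⟩ := htr
      fin_cases i
      · exact ⟨1, hi⟩
      · exact ⟨0, hi⟩
    · rw [LinearIndependent.pair_iff] at hind ⊢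
      intro s t hst
      refine hind s t ?_
      have e : ∀ i, s * sw u i + t * sw v i = 0 := by
        intro i
        have := congrFun hst i
        simpa using this
      funext i
      simp only [Pi.add_apply, Pi.smul_apply, smul_eq_mul, Pi.zero_apply]
      rcases i with i | i <;> fin_cases i
      · exact e (Sum.inl 1)
      · exact e (Sum.inl 0)
      · exact e (Sum.inr 1)
      · exact e (Sum.inr 0)

/-- Pairs of bounded degree and bounded height with two independent relations have two bounded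
independent relations. -/
private theorem finite_two (D : ℕ) (H : ℝ) : ∃ B : ℕ,
    ∀ (K : Type) [Field K] [NumberField K] (x : Fin 2 → K), finrank ℚ K ≤ D →
      (∀ i, logHeight₁ (x i) ≤ H) → (∃ u v, LinearIndependent ℤ ![u, v] ∧ mono (co x) u = 1 ∧
        mono (co x) v = 1) → Two B x := by
  classical
  obtain ⟨Z, hZ, hZK⟩ := RelC.northcott D H
  have hT : (Set.univ.pi fun _ : Fin 2 => Z).Finite := Set.Finite.pi fun _ => hZ
  have hch : ∀ p : Fin 2 → ℂ, ∃ B : ℕ, (∃ u v : Fin 2 ⊕ Fin 2 → ℤ, LinearIndependent ℤ ![u, v] ∧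
      mono (co p) u = 1 ∧ mono (co p) v = 1) → Two B p := by
    intro p
    by_cases h : ∃ u v : Fin 2 ⊕ Fin 2 → ℤ, LinearIndependent ℤ ![u, v] ∧
      mono (co p) u = 1 ∧ mono (co p) v = 1
    · obtain ⟨u, v, h1, h2, h3⟩ := h
      exact ⟨max (LThree.nrm u) (LThree.nrm v), fun _ => ⟨u, v, h1, le_max_left _ _,
        le_max_right _ _, h2, h3⟩⟩
    · exact ⟨0, fun h' => absurd h' h⟩
  choose r hr using hch
  refine ⟨hT.toFinset.sup r, ?_⟩
  intro K _ _ x hD hh hw
  obtain ⟨φ⟩ : Nonempty (K →+* ℂ) := inferInstance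
  have hmap : ∀ w : Fin 2 ⊕ Fin 2 → ℤ, mono (co fun i => φ (x i)) w = φ (mono (co x) w) := by
    intro w
    unfold mono co
    rw [map_prod]
    refine Finset.prod_congr rfl fun i _ => ?_
    rw [map_zpow₀]
    rcases i with i | i
    · rfl
    · simp only [Sum.elim_inr, map_sub, map_one]
  obtain ⟨u, v, hind, hu, hv⟩ := hw
  obtain ⟨u', v', h1, h2, h3, h4, h5⟩ := hr (fun i => φ (x i))
    ⟨u, v, hind, by rw [hmap, hu, map_one], by rw [hmap, hv, map_one]⟩
  have hle : r (fun i => φ (x i)) ≤ hT.toFinset.sup r := by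
    refine Finset.le_sup (f := r) ?_
    rw [Set.Finite.mem_toFinset, Set.mem_univ_pi]
    exact fun i => hZK K hD (x i) (hh i) φ
  rw [hmap] at h4 h5
  exact ⟨u', v', h1, h2.trans hle, h3.trans hle, φ.injective (by rw [h4, map_one]),
    φ.injective (by rw [h5, map_one])⟩

private theorem two_bound {C D t : ℝ} (hD : 1 ≤ D) (ht : t < 1) (h : D ≤ C * D ^ t) :
    D ≤ C ^ (1 / (1 - t)) := by
  have hD0 : 0 < D := by linarith
  have h1 : 0 < D ^ t := Real.rpow_pos_of_pos hD0 t
  have h2 : D ^ (1 - t) ≤ C := by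
    rw [Real.rpow_sub hD0, Real.rpow_one, div_le_iff₀ h1]
    exact h
  have h3 : 0 < 1 - t := by linarith
  calc D = (D ^ (1 - t)) ^ (1 / (1 - t)) := by
        rw [← Real.rpow_mul hD0.le, mul_one_div_cancel h3.ne', Real.rpow_one]
    _ ≤ C ^ (1 / (1 - t)) := Real.rpow_le_rpow (by positivity) h2 (by positivity)

/-- Pairs of bounded height generating their field. -/
private theorem alg_pairs (H : ℝ) : ∃ B : ℕ, ∀ (K : Type) [Field K] [NumberField K]
    (x : Fin 2 → K), (∀ i, x i ≠ 0) → (∀ i, x i ≠ 1) →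
      IntermediateField.adjoin ℚ (Set.range x) = ⊤ → RankLe 1 (co x) →
      (∀ i, logHeight₁ (co x i) ≤ H * finrank ℚ K) → Two B x := by
  classical
  obtain ⟨C, hC1, hrel⟩ := RelC.two_relations' RelC.count_one (ε := 1 / 4) (by norm_num) H
  set D0 : ℕ := ⌈(25 * C) ^ (6 : ℝ)⌉₊ with hD0
  obtain ⟨B1, hB1⟩ := finite_two D0 (max H 0 * D0)
  refine ⟨max 6 B1, ?_⟩
  intro K _ _ x hx0 hx1 hgen hrk hht
  have hz : ∀ i, co x i ≠ 0 := by
    rintro (i | i)
    · exact hx0 i
    · exact sub_ne_zero.2 (Ne.symm (hx1 i))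
  have hD : (1 : ℝ) ≤ finrank ℚ K := by exact_mod_cast (finrank_pos (R := ℚ) (M := K))
  obtain ⟨u, v, hind, hu, hv, hle⟩ := hrel K (Fin 2 ⊕ Fin 2) (co x) hz (by simp) hrk hht
  have hpos : ∀ w : Fin 2 ⊕ Fin 2 → ℤ, w ≠ 0 → 1 ≤ LThree.nrm w := by
    intro w hw
    by_contra hcon
    push Not at hcon
    apply hw
    funext i
    have h1 : (w i).natAbs ≤ LThree.nrm w :=
      Finset.le_sup (f := fun i => (w i).natAbs) (Finset.mem_univ i)
    have h2 : (w i).natAbs = 0 := by omega
    exact Int.natAbs_eq_zero.1 h2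
  have hu1 := hpos u (hind.ne_zero 0)
  have hv1 := hpos v (hind.ne_zero 1)
  rcases RelC.degree_or_generic K x hgen hx0 hx1 ![u, v] (fun j => by
      fin_cases j
      · exact hu
      · exact hv) with h | ⟨Ω, _, _, ξ, hξ0, hξ1, htr, hξ, hsp⟩
  · -- bounded degree
    rw [Fin.prod_univ_two] at h
    simp only [Matrix.cons_val_zero, Matrix.cons_val_one] at h
    have h2 : (finrank ℚ K : ℝ) ≤ 25 * (LThree.nrm u * LThree.nrm v) := by
      have h3 : finrank ℚ K ≤ 25 * (LThree.nrm u * LThree.nrm v) := by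
        refine h.trans ?_
        have e1 : 2 * (2 * LThree.nrm u) + 1 ≤ 5 * LThree.nrm u := by omega
        have e2 : 2 * (2 * LThree.nrm v) + 1 ≤ 5 * LThree.nrm v := by omega
        calc _ ≤ (5 * LThree.nrm u) * (5 * LThree.nrm v) := Nat.mul_le_mul e1 e2
          _ = _ := by ring
      exact_mod_cast h3
    have h3 : (finrank ℚ K : ℝ) ≤ (25 * C) * (finrank ℚ K : ℝ) ^ (5 / 6 : ℝ) := by
      have e3 : (1 + 1 / 4 : ℝ) * (2 / 3) = 5 / 6 := by norm_num
      rw [e3] at hle
      calc (finrank ℚ K : ℝ) ≤ 25 * (LThree.nrm u * LThree.nrm v) := h2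
        _ ≤ 25 * (C * (finrank ℚ K : ℝ) ^ (5 / 6 : ℝ)) := by gcongr
        _ = _ := by ring
    have h4 := two_bound hD (by norm_num) h3
    have h5 : finrank ℚ K ≤ D0 := by
      have e4 : (1 / (1 - 5 / 6) : ℝ) = 6 := by norm_num
      rw [e4] at h4
      exact Nat.cast_le.1 (h4.trans (Nat.le_ceil _))
    refine (hB1 K x h5 (fun i => by
      have h6 := hht (Sum.inl i)
      have h7 : (finrank ℚ K : ℝ) ≤ D0 := by exact_mod_cast h5
      calc logHeight₁ (x i) ≤ H * finrank ℚ K := h6
        _ ≤ max H 0 * finrank ℚ K := by gcongr; exact le_max_left _ _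
        _ ≤ max H 0 * D0 := by gcongr) ⟨u, v, hind, hu, hv⟩).mono_le (le_max_right _ _)
  · obtain ⟨u', v', h1, h2, h3, h4, h5⟩ := (two_generic ξ hξ0 hξ1 htr u v hind (hξ 0)
      (hξ 1)).mono_le (le_max_left 6 B1)
    exact ⟨u', v', h1, h2, h3, hsp u' h4, hsp v' h5⟩

/-- **Pairs of rank one, two relations.**

Proof: as `RelC.pairs_one` (`RelC/PairsOne.lean`), with TWO relations at every step.
Pass to the field generated by `x` (`LThree.exists_generated`, `RankLe.of_map`). The heights of the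
coordinates are bounded (`MinHt.rank_one_unif` or the way used in `PairsOne.lean`).
`RelC.two_relations' RelC.count_one` (`k = 1`, four numbers) with `ε` small gives two independent exact
relations `u, v` with `nrm u * nrm v ≤ C D ^ ((1 + ε) 2/3)`. `RelC.degree_or_generic` or
`RelC.orbit_or_generic` (`n = 2`, `f = relPoly`):
* the degree is at most the product of the two total degrees, `≤ C' D ^ (3/4)`, so `D ≤ D0`:
  by `LThree.northcott_set` (`North.lean`) the images of `x 0, x 1` in `ℂ` lie in a finite set; for each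
  pair `(a, b)` of complex numbers of this finite set which is the image of SOME pair with `RankLe 1`
  choose two independent exact relations (the property `mono (co x) u = 1` only depends on the image
  in `ℂ`), and take the maximum of the sizes (a finite set of choices);
* or a conjugate of `x` is a specialisation of a nonconstant `ξ` over `ℂ` satisfying `u, v`;
  `RelC.ff_pair` (`RelC/Pair.lean`; used in `PairsOne.lean`) gives that `ξ 0, ξ 1` are equivalent or
  one of them is a primitive sixth root of unity: two independent relations of size `≤ 6` for `ξ`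
  (e.g. `y = x`: `y / x = 1`, `(1-y)/(1-x) = 1`; `y = x/(x-1)`: `(y (1-x)/x)^2 = 1`, `(1-x)(1-y) = 1`;
  sixth root `x`: `x^6 = 1`, `x (1-x) = 1`), and they specialise to `x`. -/
theorem pairs_two : ∃ B : ℕ, ∀ (K : Type) [Field K] [NumberField K] (x : Fin 2 → K),
    (∀ i, x i ≠ 0) → (∀ i, x i ≠ 1) → RankLe 1 (co x) → Two B x := by
  obtain ⟨B, hB⟩ := alg_pairs (4 * log 2)
  refine ⟨B, ?_⟩
  -- the points generating their field
  have key : ∀ (K : Type) [Field K] [NumberField K] (x : Fin 2 → K), (∀ i, x i ≠ 0) →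
      (∀ i, x i ≠ 1) → IntermediateField.adjoin ℚ (Set.range x) = ⊤ →
      RankLe 1 (co x) → Two B x := by
    intro K _ _ x h0 h1 hgen hrk
    refine hB K x h0 h1 hgen hrk ?_
    have hz : ∀ i, co x i ≠ 0 := by
      rintro (i | i)
      · exact h0 i
      · exact sub_ne_zero.2 (Ne.symm (h1 i))
    have hlog : 0 ≤ (finrank ℚ K : ℝ) * log 2 :=
      mul_nonneg (Nat.cast_nonneg _) (Real.log_nonneg (by norm_num))
    have hMI : ∀ i, ¬ Pool.Agent.CITNF.MI (x i) := by
      classical
      intro i hmi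
      obtain ⟨c, hc0, hc⟩ := RelC.dep_of_rankLe hz hrk
        ![Pi.single (Sum.inl i) 1, Pi.single (Sum.inr i) 1]
      rw [Fin.prod_univ_two] at hc
      have hs : ∀ j : Fin 2 ⊕ Fin 2, mono (co x) (Pi.single j 1) = co x j := by
        intro j
        unfold mono
        rw [Finset.prod_eq_single j]
        · rw [Pi.single_eq_same, zpow_one]
        · intro k _ hk
          rw [Pi.single_eq_of_ne hk, zpow_zero]
        · intro h
          exact absurd (Finset.mem_univ _) h
      simp only [Matrix.cons_val_zero, Matrix.cons_val_one] at hc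
      rw [hs, hs] at hc
      obtain ⟨e0, e1⟩ := hmi (c 0) (c 1) hc
      apply hc0
      funext j
      fin_cases j
      · exact e0
      · exact e1
    rintro (i | i)
    · have h2 := Pool.Agent.MinHt.rank_one_unif K (x i) (h0 i) (h1 i) (hMI i)
      change logHeight₁ (x i) ≤ _
      linarith
    · have h2 := Pool.Agent.MinHt.rank_one_unif K (x i) (h0 i) (h1 i) (hMI i)
      have h3 := Pool.Agent.CITNF.height_one_sub_le (x i)
      change logHeight₁ (1 - x i) ≤ _
      linarith
  intro K _ _ x h0 h1 hrk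
  obtain ⟨y, hy, hgen⟩ := RelC.adjoin_top x
  obtain ⟨u, v, h2, h3, h4, h5, h6⟩ := key (IntermediateField.adjoin ℚ (Set.range x)) y
    (fun i h => h0 i (by rw [← hy, h]; rfl)) (fun i h => h1 i (by rw [← hy, h]; rfl)) hgen
    (RelC.rankLe_sub y hy hrk)
  refine ⟨u, v, h2, h3, h4, ?_, ?_⟩
  · rw [← RelC.mono_sub_field y hy u, h5]
    rfl
  · rw [← RelC.mono_sub_field y hy v, h6]
    rfl

end Pool.Agent.L3S
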