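import Pool.Agent.L3S.TransS
import Pool.Agent.CITLines.Spread
import Pool.Agent.CITLines.Cut
import Pool.Agent.CITLines.Sys
import Pool.Agent.CITLines.DimFormula

set_option autoImplicit false

/-! Definitions and a lemma for the positive-dimensional atypical subvarieties of `L^3`. -/

namespace Pool.Agent.L3S

open MvPolynomial Pool.Agent.LThree Pool.Agent.CITLines

/-- An atypical subvariety of `L^3`, as a prime ideal. -/
def At (q : Ideal (MvPolynomial (Fin (3 + 3)) ℂ)) : Prop :=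
  TP q ∧ LI 3 ≤ q ∧ 3 < dm q + rhoP q

/-- The point `(x, 1 - x)` of the torus. -/
def wp {F : Type} [Field F] (x : Fin 3 → F) : Fin (3 + 3) → F := Fin.append x fun i => 1 - x i

private theorem wp_ne {F : Type} [Field F] (x : Fin 3 → F) (h0 : ∀ i, x i ≠ 0)
    (h1 : ∀ i, x i ≠ 1) (i : Fin (3 + 3)) : wp x i ≠ 0 := by
  unfold wp
  refine Fin.addCases (fun j => ?_) (fun j => ?_) i
  · rw [Fin.append_left]
    exact h0 j
  · rw [Fin.append_right, sub_ne_zero]
    exact (h1 j).symm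

/-- the change of the index set -/
private def tr : (Fin 3 ⊕ Fin 3 → ℤ) ≃ₗ[ℤ] (Fin (3 + 3) → ℤ) :=
  LinearEquiv.funCongrLeft ℤ ℤ finSumFinEquiv.symm

private theorem mon_tr {F : Type} [Field F] (x : Fin 3 → F) (u : Fin 3 ⊕ Fin 3 → ℤ) :
    mon (wp x) (tr u) = mono (co x) u := by
  unfold mon mono
  refine (Fintype.prod_equiv finSumFinEquiv _ _ fun s => ?_).symm
  have e1 : tr u (finSumFinEquiv s) = u s := by
    change u (finSumFinEquiv.symm (finSumFinEquiv s)) = u s
    rw [Equiv.symm_apply_apply]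
  rw [e1]
  congr 1
  unfold wp co
  cases s with
  | inl i => rw [finSumFinEquiv_apply_left, Fin.append_left, Sum.elim_inl]
  | inr i => rw [finSumFinEquiv_apply_right, Fin.append_right, Sum.elim_inr]

/-- integer vectors as rational vectors, linear map -/
private def cstL : (Fin (3 + 3) → ℤ) →ₗ[ℤ] (Fin (3 + 3) → ℚ) where
  toFun := cst
  map_add' a b := by
    funext i
    simp [cst]
  map_smul' c a := by
    funext i
    simp [cst]

private theorem cstL_ker : LinearMap.ker cstL = ⊥ :=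
  LinearMap.ker_eq_bot.2 cst_injective

private theorem dm_wp {F : Type} [Field F] [Algebra ℂ F] (x : Fin 3 → F) :
    dm (kr ℂ (wp x)) = dm (kr ℂ x) := by
  have h1 := dm_kr (k := ℂ) (wp x)
  have h2 := dm_kr (k := ℂ) x
  have h3 : rk ℂ (Set.range (wp x)) = rk ℂ (Set.range x) := by
    refine le_antisymm (rk_le_of_algebraic ?_) (rk_mono ?_)
    · rintro _ ⟨i, rfl⟩
      have hmem : wp x i ∈ Algebra.adjoin ℂ (Set.range x) := by
        unfold wp
        refine Fin.addCases (fun j => ?_) (fun j => ?_) i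
        · rw [Fin.append_left]
          exact Algebra.subset_adjoin ⟨j, rfl⟩
        · rw [Fin.append_right]
          exact sub_mem (one_mem _) (Algebra.subset_adjoin ⟨j, rfl⟩)
      exact isAlgebraic_algebraMap (⟨wp x i, hmem⟩ : Algebra.adjoin ℂ (Set.range x))
    · rintro _ ⟨i, rfl⟩
      exact ⟨Fin.castAdd 3 i, by unfold wp; rw [Fin.append_left]⟩
  rw [h3, ← h2] at h1
  exact_mod_cast h1

private theorem exists_ind {F : Type} [Field F] [Algebra ℂ F] (x : Fin 3 → F) :
    ∃ I : Finset (Fin 3), dm (kr ℂ x) = I.card ∧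
      AlgebraicIndependent ℂ (fun i : I => x i.1) := by
  obtain ⟨I, hI, hind⟩ := exists_indep_finset (kr ℂ x)
  refine ⟨I, hI, ?_⟩
  let φ : (MvPolynomial (Fin 3) ℂ ⧸ kr ℂ x) →ₐ[ℂ] F :=
    Ideal.Quotient.liftₐ (kr ℂ x) (aeval x) (fun a ha => ha)
  have hφ : Function.Injective φ := by
    rw [injective_iff_map_eq_zero]
    intro a ha
    obtain ⟨b, rfl⟩ := Ideal.Quotient.mk_surjective a
    exact Ideal.Quotient.eq_zero_iff_mem.mpr ha
  have h1 := hind.map' (f := φ) hφ
  have h2 : (φ ∘ fun i : I => Ideal.Quotient.mkₐ ℂ (kr ℂ x) (X i.1)) = fun i : I => x i.1 := by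
    funext i
    change (aeval x : MvPolynomial (Fin 3) ℂ →ₐ[ℂ] F) (X i.1) = x i.1
    rw [aeval_X]
  rwa [h2] at h1

private theorem card_le_of_ind {F : Type} [Field F] [Algebra ℂ F] (x : Fin 3 → F) {κ : Type}
    [Fintype κ] (y : κ → F) (hy : AlgebraicIndependent ℂ y) (h : ∀ i, ∃ j, x j = y i) :
    Fintype.card κ ≤ dm (kr ℂ x) := by
  have h1 := rk_range_of_indep y hy
  have h2 : rk ℂ (Set.range y) ≤ rk ℂ (Set.range x) := by
    apply rk_mono
    rintro _ ⟨i, rfl⟩
    obtain ⟨j, hj⟩ := h i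
    exact ⟨j, hj⟩
  rw [h1, ← dm_kr] at h2
  exact_mod_cast h2

/-- Package V1. Independent exact relations of the point are counted by `rhoP`
(`rhoP_kr`, `cst_mem_QS`; the bijection `Fin 3 ⊕ Fin 3 ≃ Fin (3 + 3)` is `finSumFinEquiv`). -/
theorem le_rhoP {F : Type} [Field F] [Algebra ℂ F] (x : Fin 3 → F) (h0 : ∀ i, x i ≠ 0)
    (h1 : ∀ i, x i ≠ 1) (n : ℕ) (u : Fin n → (Fin 3 ⊕ Fin 3 → ℤ)) (hu : LinearIndependent ℤ u)
    (hrel : ∀ t, mono (co x) (u t) = 1) : n ≤ rhoP (kr ℂ (wp x)) := by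
  rw [rhoP_kr (wp_ne x h0 h1)]
  have hmem : ∀ t, tr (u t) ∈ relZ (wp x) := by
    intro t
    rw [mem_relZ, mon_tr, hrel t]
    exact RU.one
  have h2 : LinearIndependent ℤ fun t => cstL (tr (u t)) :=
    (hu.map' tr.toLinearMap tr.ker).map' cstL cstL_ker
  have h3 : LinearIndependent ℚ fun t => cstL (tr (u t)) :=
    (LinearIndependent.iff_fractionRing ℤ ℚ).1 h2
  let v : Fin n → QS (relZ (wp x)) := fun t => ⟨cstL (tr (u t)), cst_mem_QS (hmem t)⟩
  have h4 : LinearIndependent ℚ v :=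
    LinearIndependent.of_comp (QS (relZ (wp x))).subtype h3
  have h5 := h4.fintype_card_le_finrank
  rwa [Fintype.card_fin] at h5

/-- Package V1. Conversely `n ≤ rhoP` gives `n` independent exact relations (multiples of elements of
`relZ`: every element of `relZ (wp x)` has a multiple with monomial `1`). -/
theorem exists_of_rhoP {F : Type} [Field F] [Algebra ℂ F] (x : Fin 3 → F) (h0 : ∀ i, x i ≠ 0)
    (h1 : ∀ i, x i ≠ 1) (n : ℕ) (h : n ≤ rhoP (kr ℂ (wp x))) :
    ∃ u : Fin n → (Fin 3 ⊕ Fin 3 → ℤ), LinearIndependent ℤ u ∧ ∀ t, mono (co x) (u t) = 1 := by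
  rw [rhoP_kr (wp_ne x h0 h1)] at h
  have hb := (Module.finBasis ℚ (QS (relZ (wp x)))).linearIndependent
  have hv : LinearIndependent ℚ fun t : Fin n =>
      ((Module.finBasis ℚ (QS (relZ (wp x))) (Fin.castLE h t) : QS (relZ (wp x))) :
        Fin (3 + 3) → ℚ) :=
    (hb.comp _ (Fin.castLE_injective h)).map' (QS (relZ (wp x))).subtype
      (Submodule.ker_subtype _)
  have hex : ∀ v : QS (relZ (wp x)), ∃ (c : ℚ) (b : Fin (3 + 3) → ℤ), c ≠ 0 ∧
      cstL b = c • (v : Fin (3 + 3) → ℚ) ∧ mon (wp x) b = 1 := by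
    rintro ⟨v, hv⟩
    obtain ⟨k, hk, a, ha, hka⟩ := exists_mult_mem hv
    obtain ⟨m, hm, h2⟩ := mem_relZ.1 ha
    refine ⟨m * k, (m : ℤ) • a, mul_ne_zero (by exact_mod_cast hm.ne') (by exact_mod_cast hk),
      ?_, ?_⟩
    · funext i
      change (((m : ℤ) • a) i : ℚ) = (m * k : ℚ) * v i
      rw [Pi.smul_apply, smul_eq_mul, Int.cast_mul, hka i, Int.cast_natCast, mul_assoc]
    · rw [mon_smul, zpow_natCast, h2]
  choose c b hc hcb hmb using hex
  refine ⟨fun t => tr.symm (b (Module.finBasis ℚ (QS (relZ (wp x))) (Fin.castLE h t))), ?_, ?_⟩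
  · have h3 : LinearIndependent ℚ fun t : Fin n =>
        cstL (b (Module.finBasis ℚ (QS (relZ (wp x))) (Fin.castLE h t))) := by
      have h4 := hv.units_smul fun t : Fin n =>
        Units.mk0 (c (Module.finBasis ℚ (QS (relZ (wp x))) (Fin.castLE h t))) (hc _)
      convert h4 using 1
      funext t
      exact hcb _
    have h5 : LinearIndependent ℤ fun t : Fin n =>
        cstL (b (Module.finBasis ℚ (QS (relZ (wp x))) (Fin.castLE h t))) :=
      (LinearIndependent.iff_fractionRing ℤ ℚ).2 h3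
    have h6 : LinearIndependent ℤ fun t : Fin n =>
        b (Module.finBasis ℚ (QS (relZ (wp x))) (Fin.castLE h t)) :=
      LinearIndependent.of_comp cstL h5
    exact h6.map' tr.symm.toLinearMap tr.symm.ker
  · intro t
    rw [← mon_tr, LinearEquiv.apply_symm_apply]
    exact hmb _

/-- Package V1. A prime `q ≥ LI 3` of the torus is the ideal of `wp x`, `x i = gen q (castAdd 3 i)`. -/
theorem exists_generic (q : Ideal (MvPolynomial (Fin (3 + 3)) ℂ)) (hq : TP q) (hL : LI 3 ≤ q) :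
    ∃ (F : Type) (_ : Field F) (_ : Algebra ℂ F) (x : Fin 3 → F), (∀ i, x i ≠ 0) ∧
      (∀ i, x i ≠ 1) ∧ q = kr ℂ (wp x) := by
  have hp := hq.prime
  have hsum : ∀ j : Fin 3, gen q (Fin.castAdd 3 j) + gen q (Fin.natAdd 3 j) = 1 := by
    rw [← LI_le_kr (r := 3) (gen q), kr_gen]
    exact hL
  have hw : wp (fun i => gen q (Fin.castAdd 3 i)) = gen q := by
    funext i
    unfold wp
    refine Fin.addCases (fun j => ?_) (fun j => ?_) i
    · rw [Fin.append_left]
    · rw [Fin.append_right, ← hsum j, add_sub_cancel_left]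
  refine ⟨Kf q, inferInstance, inferInstance, fun i => gen q (Fin.castAdd 3 i),
    fun i => hq.gen_ne_zero _, fun i h => ?_, ?_⟩
  · have h2 := hsum i
    change gen q (Fin.castAdd 3 i) = 1 at h
    rw [h, add_eq_left] at h2
    exact hq.gen_ne_zero _ h2
  · rw [hw, kr_gen]

/-- Package V1. `kr ℂ (wp x)` is a prime of the torus containing `LI 3`. -/
theorem wp_props {F : Type} [Field F] [Algebra ℂ F] (x : Fin 3 → F) (h0 : ∀ i, x i ≠ 0)
    (h1 : ∀ i, x i ≠ 1) : TP (kr ℂ (wp x)) ∧ LI 3 ≤ kr ℂ (wp x) := by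
  refine ⟨TP.kr (wp_ne x h0 h1), (LI_le_kr _).2 fun j => ?_⟩
  unfold wp
  rw [Fin.append_left, Fin.append_right, add_sub_cancel]

/-- Package V1. The dimension is the transcendence degree of the three coordinates:
`dm ≥ 1` iff some coordinate is transcendental. -/
theorem one_le_dm_iff {F : Type} [Field F] [Algebra ℂ F] (x : Fin 3 → F) :
    1 ≤ dm (kr ℂ (wp x)) ↔ ∃ i, Transcendental ℂ (x i) := by
  rw [dm_wp]
  constructor
  · intro h
    obtain ⟨I, hI, hind⟩ := exists_ind x
    rw [hI] at h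
    obtain ⟨i, hi⟩ := Finset.card_pos.1 h
    exact ⟨i, hind.transcendental ⟨i, hi⟩⟩
  · rintro ⟨i, hi⟩
    have h1 : AlgebraicIndependent ℂ (fun _ : Unit => x i) :=
      (algebraicIndependent_unique_type_iff).2 hi
    have h2 := card_le_of_ind x _ h1 fun _ => ⟨i, rfl⟩
    simpa using h2

/-- Package V1. `dm ≥ 2` gives an algebraically independent pair of coordinates, and conversely. -/
theorem two_le_dm_iff {F : Type} [Field F] [Algebra ℂ F] (x : Fin 3 → F) :
    2 ≤ dm (kr ℂ (wp x)) ↔ ∃ i j, AlgebraicIndependent ℂ ![x i, x j] := by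
  rw [dm_wp]
  constructor
  · intro h
    obtain ⟨I, hI, hind⟩ := exists_ind x
    rw [hI] at h
    obtain ⟨i, hi, j, hj, hij⟩ := Finset.one_lt_card.1 h
    refine ⟨i, j, ?_⟩
    have h1 := hind.comp (![⟨i, hi⟩, ⟨j, hj⟩] : Fin 2 → I) (by
      intro a b hab
      fin_cases a <;> fin_cases b
      · rfl
      · exact absurd (congrArg Subtype.val hab) hij
      · exact absurd (congrArg Subtype.val hab).symm hij
      · rfl)
    convert h1 using 1
    funext a
    fin_cases a <;> rfl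
  · rintro ⟨i, j, hij⟩
    have h2 := card_le_of_ind x _ hij fun a => by
      fin_cases a
      · exact ⟨i, rfl⟩
      · exact ⟨j, rfl⟩
    rwa [Fintype.card_fin] at h2

/-- Package V1. `dm ≤ 3`, and `dm = 3` iff the coordinates are algebraically independent. -/
theorem dm_wp_le {F : Type} [Field F] [Algebra ℂ F] (x : Fin 3 → F) :
    dm (kr ℂ (wp x)) ≤ 3 ∧ (3 ≤ dm (kr ℂ (wp x)) → AlgebraicIndependent ℂ x) := by
  rw [dm_wp]
  refine ⟨by simpa using dm_le_card (kr ℂ x), fun h => ?_⟩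
  obtain ⟨I, hI, hind⟩ := exists_ind x
  rw [hI] at h
  have hIu : I = Finset.univ := by
    apply Finset.eq_univ_of_card
    have h2 := Finset.card_le_univ I
    rw [Fintype.card_fin] at h2 ⊢
    omega
  have h1 := hind.comp (fun i : Fin 3 => (⟨i, by rw [hIu]; exact Finset.mem_univ i⟩ : I)) (by
    intro a b hab
    exact congrArg Subtype.val hab)
  exact h1

end Pool.Agent.L3S
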