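import Pool.Agent.L3S.Rels
import Pool.Agent.L3S.Kummer
import Pool.Agent.L3S.GoodMass
import Pool.Agent.LThree.CaseB
import Pool.Agent.LThreeC.CaseA
import Pool.Agent.RelC.Counts

set_option autoImplicit false

/-! Package U5: a triple with one large coordinate gives a configuration. -/

namespace Pool.Agent.L3S

open NumberField Height Real Module Pool.Agent.LThree

private theorem prep_mo {K : Type} [Field K] (x y : K) (u : Fin 4 → ℤ) :
    mo x y u = ∏ k, fo x y k ^ u k := by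
  rw [Fin.prod_univ_four]
  simp [mo, fo, mul_assoc]

private theorem prep_zpow {K : Type} [Field K] {z w : K} {N : ℕ} (hz : z ≠ 0) (hw : w ≠ 0)
    (f : Fin 4 → K) (a b u : Fin 4 → ℤ) (ex : ∀ k, f k ^ N = z ^ a k * w ^ b k) :
    ∏ k, f k ^ ((N : ℤ) * u k) = z ^ (∑ k, u k * a k) * w ^ (∑ k, u k * b k) := by
  have h3 : ∀ k, f k ^ ((N : ℤ) * u k) = z ^ (u k * a k) * w ^ (u k * b k) := by
    intro k
    rw [zpow_mul, zpow_natCast, ex, mul_zpow, ← zpow_mul, ← zpow_mul, mul_comm (a k),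
      mul_comm (b k)]
  have h4 : ∀ (g : Fin 4 → ℤ) (t : K), t ≠ 0 → ∏ k, t ^ g k = t ^ ∑ k, g k := by
    intro g t ht
    rw [Fin.prod_univ_four, Fin.sum_univ_four, zpow_add₀ ht, zpow_add₀ ht, zpow_add₀ ht]
  rw [Finset.prod_congr rfl fun k _ => h3 k, Finset.prod_mul_distrib, h4 _ z hz, h4 _ w hw]

/-- The vectors `(a k, b k)` span the plane (copy of the proof of `cfg_det`). -/
private theorem prep_det {K : Type} [Field K] {x y z : K} {N : ℕ} (hN0 : 0 < N) (z0 : z ≠ 0)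
    (z1 : z ≠ 1) {a b : Fin 4 → ℤ} (ex : ∀ k, fo x y k ^ N = z ^ a k * (1 - z) ^ b k)
    (rank : ∀ u : Fin 3 → (Fin 4 → ℤ), LinearIndependent ℤ u → ¬ ∀ t, mo x y (u t) = 1) :
    ∃ k l, a k * b l - a l * b k ≠ 0 := by
  classical
  by_contra hcon
  push Not at hcon
  have hc : ∃ (c : Fin 4 → ℤ) (k : Fin 4), c k ≠ 0 ∧
      ∀ l, c k * a l = c l * a k ∧ c k * b l = c l * b k := by
    by_cases ha : ∃ k, a k ≠ 0
    · obtain ⟨k, hk⟩ := ha
      exact ⟨a, k, hk, fun l => ⟨mul_comm _ _, by have := hcon k l; linarith⟩⟩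
    by_cases hb : ∃ k, b k ≠ 0
    · obtain ⟨k, hk⟩ := hb
      exact ⟨b, k, hk, fun l => ⟨by have := hcon k l; linarith, mul_comm _ _⟩⟩
    push Not at ha hb
    exact ⟨fun _ => 1, 0, one_ne_zero, fun l => by simp [ha, hb]⟩
  obtain ⟨c, k, hck, hcl⟩ := hc
  have hN : (N : ℤ) ≠ 0 := by exact_mod_cast hN0.ne'
  obtain ⟨w, hw⟩ : ∃ w : Fin 3 → Fin 4 → ℤ, w = fun t =>
      Pi.single (k.succAbove t) (c k) - Pi.single k (c (k.succAbove t)) := ⟨_, rfl⟩
  have hsum : ∀ (g : Fin 4 → ℤ) (t : Fin 3), ∑ j, w t j * g j =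
      c k * g (k.succAbove t) - c (k.succAbove t) * g k := by
    intro g t
    simp only [hw, Pi.sub_apply, sub_mul, Finset.sum_sub_distrib, Pi.single_apply, ite_mul,
      zero_mul, Finset.sum_ite_eq', Finset.mem_univ, if_true]
  refine rank (fun t j => (N : ℤ) * w t j) ?_ ?_
  · rw [Fintype.linearIndependent_iff]
    intro g hg t
    have h1 := congrFun hg (k.succAbove t)
    simp only [Finset.sum_apply, Pi.smul_apply, smul_eq_mul, Pi.zero_apply] at h1
    rw [Finset.sum_eq_single t] at h1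
    · have h2 : w t (k.succAbove t) = c k := by
        rw [hw]
        simp [Fin.succAbove_ne]
      rw [h2] at h1
      rcases mul_eq_zero.1 h1 with h3 | h3
      · exact h3
      · exact absurd h3 (mul_ne_zero hN hck)
    · intro s _ hs
      have h2 : w s (k.succAbove t) = 0 := by
        rw [hw]
        have h3 : k.succAbove t ≠ k.succAbove s := fun he =>
          hs (Fin.succAbove_right_injective he).symm
        simp [h3, Fin.succAbove_ne]
      rw [h2, mul_zero, mul_zero]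
    · intro ht
      exact absurd (Finset.mem_univ t) ht
  · intro t
    rw [prep_mo, prep_zpow z0 (sub_ne_zero.2 z1.symm) (fo x y) a b (w t) ex, hsum, hsum,
      (hcl _).1, (hcl _).2, sub_self, sub_self, zpow_zero, zpow_zero, mul_one]

/-- The four indices. -/
private def ix : Fin 2 ⊕ Fin 2 → Fin 4
  | .inl i => ![0, 2] i
  | .inr i => ![1, 3] i

private theorem ix_mono {K : Type} [Field K] (x y : K) (u : Fin 4 → ℤ) :
    mono (co ![x, y]) (u ∘ ix) = mo x y u := by
  rw [mono, Fintype.prod_sum_type, Fin.prod_univ_two, Fin.prod_univ_two]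
  simp only [co, Sum.elim_inl, Sum.elim_inr, Matrix.cons_val_zero, Matrix.cons_val_one,
    Function.comp, ix, mo]
  ring

private theorem ix_surj : Function.Surjective ix := by
  intro k
  fin_cases k
  · exact ⟨Sum.inl 0, rfl⟩
  · exact ⟨Sum.inr 0, rfl⟩
  · exact ⟨Sum.inl 1, rfl⟩
  · exact ⟨Sum.inr 1, rfl⟩

private theorem prep_rank {K : Type} [Field K] {x y : K} (x0 : x ≠ 0) (x1 : x ≠ 1) (y0 : y ≠ 0)
    (y1 : y ≠ 1) (hR : ¬ RankLe 1 (co ![x, y])) (u : Fin 3 → (Fin 4 → ℤ))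
    (hu : LinearIndependent ℤ u) : ¬ ∀ t, mo x y (u t) = 1 := by
  intro h
  apply hR
  refine LThreeC.caseA_rank (co ![x, y]) ?_ (fun t => u t ∘ ix) ?_ (by simp) ?_
  · rintro (i | i)
    · fin_cases i
      · exact x0
      · exact y0
    · fin_cases i
      · exact sub_ne_zero.2 x1.symm
      · exact sub_ne_zero.2 y1.symm
  · have h1 : LinearMap.ker (LinearMap.funLeft ℤ ℤ ix) = ⊥ :=
      LinearMap.ker_eq_bot.2 (LinearMap.funLeft_injective_of_surjective ℤ ℤ ix ix_surj)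
    exact hu.map' _ h1
  · intro t
    rw [ix_mono]
    exact h t

private theorem prep_gen {K : Type} [Field K] [NumberField K] {x y z : K} {N : ℕ}
    (z0 : z ≠ 0) (z1 : z ≠ 1) {a b : Fin 4 → ℤ}
    (ex : ∀ k, fo x y k ^ N = z ^ a k * (1 - z) ^ b k) {k l : Fin 4}
    (hkl : a k * b l - a l * b k ≠ 0) :
    z ^ (a k * b l - a l * b k).natAbs ∈ IntermediateField.adjoin ℚ {x, y} ∧
    (1 - z) ^ (a k * b l - a l * b k).natAbs ∈ IntermediateField.adjoin ℚ {x, y} := by
  have hx : x ∈ IntermediateField.adjoin ℚ {x, y} :=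
    IntermediateField.subset_adjoin ℚ _ (Set.mem_insert _ _)
  have hy : y ∈ IntermediateField.adjoin ℚ {x, y} :=
    IntermediateField.subset_adjoin ℚ _ (Set.mem_insert_of_mem _ rfl)
  have hf : ∀ k, fo x y k ∈ IntermediateField.adjoin ℚ {x, y} := by
    intro k
    fin_cases k
    · exact hx
    · exact sub_mem (one_mem _) hx
    · exact hy
    · exact sub_mem (one_mem _) hy
  have w0 : (1 - z) ≠ 0 := sub_ne_zero.2 z1.symm
  have hnat : ∀ (t : K) (Δ : ℤ), t ^ Δ ∈ IntermediateField.adjoin ℚ {x, y} →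
      t ^ Δ.natAbs ∈ IntermediateField.adjoin ℚ {x, y} := by
    intro t Δ h
    rcases Int.natAbs_eq Δ with h1 | h1
    · rw [h1, zpow_natCast] at h
      exact h
    · rw [h1, zpow_neg, zpow_natCast] at h
      have := inv_mem h
      rwa [inv_inv] at this
  have h1 : z ^ (a k * b l - a l * b k) =
      (fo x y k ^ N) ^ b l * (fo x y l ^ N) ^ (-b k) := by
    rw [ex, ex, mul_zpow, mul_zpow, ← zpow_mul, ← zpow_mul, ← zpow_mul, ← zpow_mul]
    rw [show z ^ (a k * b l) * (1 - z) ^ (b k * b l) * (z ^ (a l * -b k) * (1 - z) ^ (b l * -b k))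
      = (z ^ (a k * b l) * z ^ (a l * -b k)) * ((1 - z) ^ (b k * b l) * (1 - z) ^ (b l * -b k))
      by ring, ← zpow_add₀ z0, ← zpow_add₀ w0,
      show b k * b l + b l * -b k = 0 by ring, zpow_zero, mul_one]
    congr 1
    ring
  have h2 : (1 - z) ^ (a k * b l - a l * b k) =
      (fo x y k ^ N) ^ (-a l) * (fo x y l ^ N) ^ (a k) := by
    rw [ex, ex, mul_zpow, mul_zpow, ← zpow_mul, ← zpow_mul, ← zpow_mul, ← zpow_mul]
    rw [show z ^ (a k * -a l) * (1 - z) ^ (b k * -a l) * (z ^ (a l * a k) * (1 - z) ^ (b l * a k))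
      = (z ^ (a k * -a l) * z ^ (a l * a k)) * ((1 - z) ^ (b k * -a l) * (1 - z) ^ (b l * a k))
      by ring, ← zpow_add₀ z0, ← zpow_add₀ w0,
      show a k * -a l + a l * a k = 0 by ring, zpow_zero, one_mul]
    congr 1
    ring
  refine ⟨hnat _ _ ?_, hnat _ _ ?_⟩
  · rw [h1]
    exact mul_mem (zpow_mem (pow_mem (hf k) _) _) (zpow_mem (pow_mem (hf l) _) _)
  · rw [h2]
    exact mul_mem (zpow_mem (pow_mem (hf k) _) _) (zpow_mem (pow_mem (hf l) _) _)

private theorem prep_size {C' C c H D M : ℝ} (hC' : 1 ≤ C') (hH : 1 ≤ H) (hD : 0 < D)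
    (hDC : D ≤ C * H ^ c) (hH2 : 2 * C' * (max C 1) ^ (16 : ℝ) ≤ H) (hM : 17 + 16 * c ≤ M) :
    2 * (C' * (H * D) ^ (16 : ℝ)) ≤ H ^ M := by
  have hH0 : 0 < H := by linarith
  have hC1 : (1 : ℝ) ≤ max C 1 := le_max_right _ _
  have hC0 : (0 : ℝ) < max C 1 := by linarith
  have hHc : 0 < H ^ c := rpow_pos_of_pos hH0 c
  have h1 : H * D ≤ max C 1 * H ^ (1 + c) := by
    have h2 : D ≤ max C 1 * H ^ c :=
      hDC.trans (mul_le_mul_of_nonneg_right (le_max_left _ _) hHc.le)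
    calc H * D ≤ H * (max C 1 * H ^ c) := mul_le_mul_of_nonneg_left h2 hH0.le
      _ = max C 1 * (H ^ (1 : ℝ) * H ^ c) := by rw [rpow_one]; ring
      _ = max C 1 * H ^ (1 + c) := by rw [← rpow_add hH0]
  have h3 : (H * D) ^ (16 : ℝ) ≤ (max C 1) ^ (16 : ℝ) * H ^ ((1 + c) * 16) := by
    calc (H * D) ^ (16 : ℝ) ≤ (max C 1 * H ^ (1 + c)) ^ (16 : ℝ) :=
          rpow_le_rpow (by positivity) h1 (by norm_num)
      _ = (max C 1) ^ (16 : ℝ) * H ^ ((1 + c) * 16) := by
          rw [mul_rpow hC0.le (rpow_nonneg hH0.le _), ← rpow_mul hH0.le]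
  have h4 : 0 < H ^ ((1 + c) * 16) := rpow_pos_of_pos hH0 _
  calc 2 * (C' * (H * D) ^ (16 : ℝ))
      ≤ 2 * (C' * ((max C 1) ^ (16 : ℝ) * H ^ ((1 + c) * 16))) := by gcongr
    _ = (2 * C' * (max C 1) ^ (16 : ℝ)) * H ^ ((1 + c) * 16) := by ring
    _ ≤ H * H ^ ((1 + c) * 16) := mul_le_mul_of_nonneg_right hH2 h4.le
    _ = H ^ (1 + (1 + c) * 16) := by rw [rpow_add hH0, rpow_one]
    _ ≤ H ^ M := rpow_le_rpow_of_exponent_le hH (by linarith)

private theorem prep_pl {K : Type} [Field K] [NumberField K] {M0 M H D : ℝ} (hM0 : 1 ≤ M0)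
    (hM : M0 ≤ M) (hM6 : 6 ≤ M) (hH : 0 ≤ H) (z : K) (h : D ≤ 6 * mass K (Pl M0 H z)) :
    D ≤ M * mass K (Pl M H z) := by
  have h1 : mass K (Pl M0 H z) ≤ mass K (Pl M H z) := by
    refine mass_mono K _ _ fun v hv => ⟨le_trans ?_ hv.1, hv.2.trans ?_⟩
    · exact exp_le_exp.2 (neg_le_neg (mul_le_mul_of_nonneg_right hM hH))
    · exact exp_le_exp.2 (neg_le_neg (div_le_div_of_nonneg_left hH (by linarith) hM))
  have h2 : 0 ≤ mass K (Pl M H z) := Finset.sum_nonneg fun v _ => by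
    positivity
  calc D ≤ 6 * mass K (Pl M0 H z) := h
    _ ≤ 6 * mass K (Pl M H z) := by linarith
    _ ≤ M * mass K (Pl M H z) := mul_le_mul_of_nonneg_right hM6 h2

/-- **A configuration from a triple.**

Proof. `exists_rels` gives `N, a, b`. `big_third RelC.shortOne H0` (`LThree/CaseB.lean`) gives a relation
`u` from a finite set `E1` for the pair `(x, y)`; put `r = 2 (u (inl 0), u (inr 0), u (inl 1), u (inr 1))`.
`1 = (mo x y r) ^ N = z ^ (∑ r_k a_k) (1 - z) ^ (∑ r_k b_k)` and `z, 1 - z` are multiplicatively independent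
(`MinHt.rank_one_unif`), so `∑ r_k a_k = ∑ r_k b_k = 0`. `rank`: three independent exact relations of
`fo x y` give `RankLe 1 (co ![x, y])` (`LThreeC.caseA_rank`), excluded. So the vectors `(a k, b k)`
span the plane (as in `cfg_det`, `L3S/Bdd.lean`: otherwise three independent relations), there are `k, l`
with `Δ = a k b l - a l b k ≠ 0` and `z ^ (±Δ)`, `(1 - z) ^ (±Δ)` are monomials in the
`fo x y ^ N ∈ adjoin ℚ {x, y}`: `kummer` gives `gen`. `good_mass` (with
`Tied z x (a 0 / N) (b 0 / N)`, `Tied z (1 - x) (a 1 / N) (b 1 / N)`): one of the three numbers `z' = z, 1 - z, z⁻¹`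
has `D ≤ 6 mass (Pl M0 H z')`. For `z' = 1 - z` exchange `a` and `b`; for `z' = z⁻¹`: `1 - z = -(1 - z') / z'`, so
`f ^ N = z' ^ (-a - b) (1 - z') ^ b` (`b` even); the sums `∑ r_k a'_k` vanish too. Sizes: `D ≤ C H ^ c`, so
`C' (H D) ^ 16 ≤ H ^ M / 2` for `M` large and `H ≥ H2`; `M` is the maximum of `6 M0`, twice the constants and
the entries of the `r`. -/
theorem exists_cfg (H0 C c : ℝ) (hH0 : 0 ≤ H0) : ∃ M H2 : ℝ, 1 ≤ M ∧
    ∀ (H : ℝ), H2 ≤ H → ∀ (K : Type) [Field K] [NumberField K] (x y z : K),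
      x ≠ 0 → x ≠ 1 → y ≠ 0 → y ≠ 1 → z ≠ 0 → z ≠ 1 →
      x ^ 2 - x + 1 ≠ 0 → y ^ 2 - y + 1 ≠ 0 → ¬ Eqv x y →
      RankLe 2 (co ![x, y, z]) → ¬ RankLe 1 (co ![x, y]) →
      IntermediateField.adjoin ℚ {x, y, z} = ⊤ →
      logHeight₁ x ≤ H0 * finrank ℚ K → logHeight₁ y ≤ H0 * finrank ℚ K →
      logHeight₁ z = H * finrank ℚ K → (finrank ℚ K : ℝ) ≤ C * H ^ c →
      ∃ (z' : K) (N : ℕ) (a b r : Fin 4 → ℤ), Cfg M H K x y z' N a b r := by
  classical
  obtain ⟨C', hC', hrels⟩ := exists_rels H0 hH0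
  obtain ⟨H1, E, hE, hthird⟩ := big_third RelC.shortOne H0 hH0
  obtain ⟨Hk, hkum⟩ := kummer
  obtain ⟨M0, H3, hM0, hgood⟩ := good_mass H0 hH0
  set B : ℝ := ∑ u ∈ E, (nrm u : ℝ) with hB
  have hB0 : 0 ≤ B := Finset.sum_nonneg fun _ _ => Nat.cast_nonneg _
  have habs : 0 ≤ |17 + 16 * c| := abs_nonneg _
  set M : ℝ := M0 + 6 + H0 + 2 * C' + |17 + 16 * c| + 2 * B with hM
  refine ⟨M, max (max 4 H1) (max (Hk + 1) (max H3 (2 * C' * (max C 1) ^ (16 : ℝ)))), by linarith,
    ?_⟩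
  intro H hH K _ _ x y z x0 x1 y0 y1 z0 z1 xs ys hne hR2 hR1 hadj hx hy hz hDC
  have hH4 : 4 ≤ H := (le_max_left _ _).trans ((le_max_left _ _).trans hH)
  have hH1 : H1 ≤ H := (le_max_right _ _).trans ((le_max_left _ _).trans hH)
  have hHk : Hk + 1 ≤ H := (le_max_left _ _).trans ((le_max_right _ _).trans hH)
  have hH3 : H3 ≤ H := (le_max_left _ _).trans
    ((le_max_right _ _).trans ((le_max_right _ _).trans hH))
  have hH5 : 2 * C' * (max C 1) ^ (16 : ℝ) ≤ H := (le_max_right _ _).trans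
    ((le_max_right _ _).trans ((le_max_right _ _).trans hH))
  set D : ℝ := (finrank ℚ K : ℝ) with hD
  have hD0 : 0 < D := by
    rw [hD]
    exact_mod_cast finrank_pos
  have w0 : (1 - z) ≠ 0 := sub_ne_zero.2 z1.symm
  obtain ⟨N, a, b, hN, hNe, hae, hbe, hex, hNC, haC, hbC, haH, hbH, htied⟩ :=
    hrels H hH4 K x y z x0 x1 y0 y1 z0 z1 hR2 hx hy hz
  have hsize : 2 * (C' * (H * D) ^ (16 : ℝ)) ≤ H ^ M :=
    prep_size hC' (by linarith) hD0 hDC hH5 (by
      have := le_abs_self (17 + 16 * c)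
      linarith)
  have hT0 : 0 ≤ C' * (H * D) ^ (16 : ℝ) :=
    mul_nonneg (by linarith) (rpow_nonneg (mul_nonneg (by linarith) hD0.le) _)
  have hTM : C' * (H * D) ^ (16 : ℝ) ≤ H ^ M := by linarith
  -- multiplicative independence
  have hMI : CITNF.MI z := by
    by_contra hcon
    have h1 := MinHt.rank_one_unif K z z0 z1 hcon
    have h2 : log 2 < 1 := by
      have := Real.log_two_lt_d9
      linarith
    rw [hz] at h1
    nlinarith
  -- the relation of bounded size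
  have hall : ∀ i : Fin 3, ![x, y, z] i ≠ 0 ∧ ![x, y, z] i ≠ 1 := by
    intro i
    fin_cases i
    · exact ⟨x0, x1⟩
    · exact ⟨y0, y1⟩
    · exact ⟨z0, z1⟩
  obtain ⟨u, huE, hu1⟩ := hthird K ![x, y, z] hall hR2 0 1 2 (by decide) (by decide) (by decide)
    hx hy (by
      have h1 : H1 * D ≤ H * D := mul_le_mul_of_nonneg_right hH1 hD0.le
      exact h1.trans_eq hz.symm)
  have hu0 : u ≠ 0 := fun h => hE (h ▸ huE)
  set r : Fin 4 → ℤ := ![2 * u (Sum.inl 0), 2 * u (Sum.inr 0), 2 * u (Sum.inl 1),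
    2 * u (Sum.inr 1)] with hr
  have hr0 : r ≠ 0 := by
    intro h
    apply hu0
    funext i
    rcases i with i | i
    · fin_cases i
      · have := congrFun h 0
        simpa [hr] using this
      · have := congrFun h 2
        simpa [hr] using this
    · fin_cases i
      · have := congrFun h 1
        simpa [hr] using this
      · have := congrFun h 3
        simpa [hr] using this
  have hre : ∀ k, Even (r k) := by
    intro k
    fin_cases k
    · exact even_two_mul _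
    · exact even_two_mul _
    · exact even_two_mul _
    · exact even_two_mul _
  have hub : ∀ i, |(u i : ℝ)| ≤ B := by
    intro i
    have h1 : (u i).natAbs ≤ nrm u := Finset.le_sup (f := fun i => (u i).natAbs) (Finset.mem_univ i)
    have h2 : |(u i : ℝ)| = ((u i).natAbs : ℝ) := by
      rw [← Int.cast_abs, Int.abs_eq_natAbs]
      rfl
    rw [h2]
    have h3 : (nrm u : ℝ) ≤ B :=
      Finset.single_le_sum (f := fun u => (nrm u : ℝ)) (fun _ _ => Nat.cast_nonneg _) huE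
    have h4 : ((u i).natAbs : ℝ) ≤ (nrm u : ℝ) := by exact_mod_cast h1
    exact h4.trans h3
  have hrM : ∀ k, |(r k : ℝ)| ≤ M := by
    have h1 : ∀ i, |((2 * u i : ℤ) : ℝ)| ≤ M := by
      intro i
      push_cast
      rw [abs_mul, abs_two]
      have := hub i
      linarith
    intro k
    fin_cases k
    · exact h1 _
    · exact h1 _
    · exact h1 _
    · exact h1 _
  have hrel : mo x y r = 1 := by
    have h1 : mo x y r = mono (co ![x, y]) u ^ 2 := by
      rw [mono, Fintype.prod_sum_type, Fin.prod_univ_two, Fin.prod_univ_two]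
      simp only [co, Sum.elim_inl, Sum.elim_inr, Matrix.cons_val_zero, Matrix.cons_val_one, mo, hr]
      have h2 : ∀ (t : K) (e : ℤ), t ^ (2 * e) = (t ^ e) ^ 2 := by
        intro t e
        rw [mul_comm, zpow_mul]
        exact_mod_cast zpow_natCast (t ^ e) 2
      simp only [Matrix.cons_val]
      rw [h2, h2, h2, h2]
      ring
    rw [h1]
    have h3 : mono (co ![x, y]) u = 1 := hu1
    rw [h3, one_pow]
  have hsums : ∑ k, r k * a k = 0 ∧ ∑ k, r k * b k = 0 := by
    have h1 := prep_zpow (N := N) z0 w0 (fo x y) a b r hex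
    have h2 : ∏ k, fo x y k ^ ((N : ℤ) * r k) = 1 := by
      calc ∏ k, fo x y k ^ ((N : ℤ) * r k) = (∏ k, fo x y k ^ r k) ^ N := by
            rw [← Finset.prod_pow]
            refine Finset.prod_congr rfl fun k _ => ?_
            rw [mul_comm, zpow_mul, zpow_natCast]
        _ = 1 := by rw [← prep_mo, hrel, one_pow]
    rw [h2] at h1
    exact hMI _ _ h1.symm
  have hrank := prep_rank x0 x1 y0 y1 hR1
  obtain ⟨k, l, hkl⟩ := prep_det hN z0 z1 hex hrank
  have hgen : IntermediateField.adjoin ℚ {x, y} = ⊤ := by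
    obtain ⟨h1, h2⟩ := prep_gen (N := N) z0 z1 hex hkl
    refine hkum K x y z _ z0 z1 (Int.natAbs_pos.2 hkl) h1 h2 hadj ?_
    rw [hz]
    exact mul_lt_mul_of_pos_right (by linarith) hD0
  have hNM : (N : ℝ) ≤ H ^ M := hNC.trans hTM
  have hM6 : 6 ≤ M := by linarith
  have mk : ∀ (z' : K) (a' b' : Fin 4 → ℤ), z' ≠ 0 → z' ≠ 1 →
      (∀ k, |(a' k : ℝ)| ≤ H ^ M) → (∀ k, |(b' k : ℝ)| ≤ H ^ M) →
      (∀ k, fo x y k ^ N = z' ^ a' k * (1 - z') ^ b' k) →
      (∀ k, |(a' k : ℝ)| * H ≤ M * N) → (∀ k, |(b' k : ℝ)| * H ≤ M * N) →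
      ∑ k, r k * a' k = 0 → D ≤ 6 * mass K (Pl M0 H z') →
      ∃ (z' : K) (N : ℕ) (a b r : Fin 4 → ℤ), Cfg M H K x y z' N a b r := by
    intro z' a' b' z0' z1' aH bH ex ca cb ra pl
    exact ⟨z', N, a', b', r, {
      x0 := x0
      x1 := x1
      y0 := y0
      y1 := y1
      z0 := z0'
      z1 := z1'
      xs := xs
      ys := ys
      ne := hne
      hx := hx.trans (mul_le_mul_of_nonneg_right (by linarith) hD0.le)
      hy := hy.trans (mul_le_mul_of_nonneg_right (by linarith) hD0.le)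
      N0 := hN
      Ne := hNe
      NH := hNM
      aH := aH
      bH := bH
      ex := ex
      ca := ca
      cb := cb
      r0 := hr0
      re := hre
      rM := hrM
      rel := hrel
      ra := ra
      pl := prep_pl hM0 (by linarith) hM6 (by linarith) z' pl
      rank := hrank
      gen := hgen }⟩
  have hN0r : (0 : ℝ) ≤ N := Nat.cast_nonneg N
  have hca : ∀ k, |(a k : ℝ)| * H ≤ M * N := fun k =>
    (haH k).trans (mul_le_mul_of_nonneg_right (by linarith) hN0r)
  have hcb : ∀ k, |(b k : ℝ)| * H ≤ M * N := fun k =>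
    (hbH k).trans (mul_le_mul_of_nonneg_right (by linarith) hN0r)
  have hgm := hgood H hH3 K x z (a 0 / N) (b 0 / N) (a 1 / N) (b 1 / N) x0 x1 z0 z1 xs
    (htied 0) (htied 1) hx hz
  have hcases : D ≤ 6 * mass K (Pl M0 H z) ∨ D ≤ 6 * mass K (Pl M0 H (1 - z)) ∨
      D ≤ 6 * mass K (Pl M0 H z⁻¹) := by
    by_contra hcon
    push Not at hcon
    obtain ⟨h1, h2, h3⟩ := hcon
    linarith
  rcases hcases with h | h | h
  · exact mk z a b z0 z1 (fun k => (haC k).trans hTM) (fun k => (hbC k).trans hTM) hex hca hcb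
      hsums.1 h
  · refine mk (1 - z) b a w0 ?_ (fun k => (hbC k).trans hTM) (fun k => (haC k).trans hTM) ?_ hcb hca
      hsums.2 h
    · intro h1
      apply z0
      linear_combination -h1
    · intro k
      rw [hex k, sub_sub_cancel, mul_comm]
  · refine mk z⁻¹ (fun k => -a k - b k) b (inv_ne_zero z0) ?_ ?_ (fun k => (hbC k).trans hTM) ?_ ?_
      hcb ?_ h
    · intro h1
      exact z1 (inv_eq_one.1 h1)
    · intro k
      push_cast
      have h1 : |(-(a k : ℝ) - b k)| ≤ |(a k : ℝ)| + |(b k : ℝ)| := by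
        calc |(-(a k : ℝ) - b k)| ≤ |(-(a k : ℝ))| + |(b k : ℝ)| := abs_sub _ _
          _ = _ := by rw [abs_neg]
      have h2 := haC k
      have h3 := hbC k
      linarith
    · intro k
      rw [hex k]
      obtain ⟨e, he⟩ := hbe k
      have h1 : (1 - z) ^ b k = (z⁻¹) ^ (-b k) * (1 - z⁻¹) ^ b k := by
        have h2 : 1 - z = -(z * (1 - z⁻¹)) := by
          field_simp
          ring
        have h3 : (-(z * (1 - z⁻¹))) ^ b k = (z * (1 - z⁻¹)) ^ b k :=
          Even.neg_zpow (hbe k) _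
        rw [h2, h3, mul_zpow, inv_zpow, zpow_neg, inv_inv]
      have h4 : z ^ a k = (z⁻¹) ^ (-a k) := by
        rw [inv_zpow, zpow_neg, inv_inv]
      rw [h1, h4, ← mul_assoc, ← zpow_add₀ (inv_ne_zero z0)]
      congr 2
    · intro k
      push_cast
      have h1 : |(-(a k : ℝ) - b k)| ≤ |(a k : ℝ)| + |(b k : ℝ)| := by
        calc |(-(a k : ℝ) - b k)| ≤ |(-(a k : ℝ))| + |(b k : ℝ)| := abs_sub _ _
          _ = _ := by rw [abs_neg]
      calc |(-(a k : ℝ) - b k)| * H ≤ (|(a k : ℝ)| + |(b k : ℝ)|) * H :=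
            mul_le_mul_of_nonneg_right h1 (by linarith)
        _ = |(a k : ℝ)| * H + |(b k : ℝ)| * H := by ring
        _ ≤ C' * N + C' * N := add_le_add (haH k) (hbH k)
        _ = (2 * C') * N := by ring
        _ ≤ M * N := mul_le_mul_of_nonneg_right (by linarith) hN0r
    · have h1 : ∑ k, r k * (-a k - b k) = -(∑ k, r k * a k) - ∑ k, r k * b k := by
        rw [← Finset.sum_neg_distrib, ← Finset.sum_sub_distrib]
        exact Finset.sum_congr rfl fun k _ => by ring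
      rw [h1, hsums.1, hsums.2]
      simp

end Pool.Agent.L3S
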