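import Pool.Agent.L3S.RelH
import Pool.Agent.L3S.Cfg
import Pool.Agent.LThree.Tied
import Pool.Agent.LThree.Coef
import Pool.Agent.LThree.Ext

set_option autoImplicit false

/-! Package U4: the exact relations of a pair with a large number. -/

namespace Pool.Agent.L3S

open NumberField Height Real Module Pool.Agent.LThree

/-- the position of the triple `f, z, 1 - z` in `co ![x, y, z]` -/
private def rels_ix (k : Fin 4) : Fin 3 → Fin 3 ⊕ Fin 3 :=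
  ![(![Sum.inl 0, Sum.inr 0, Sum.inl 1, Sum.inr 1] : Fin 4 → Fin 3 ⊕ Fin 3) k,
    Sum.inl 2, Sum.inr 2]

private theorem rels_ix_inj (k : Fin 4) : Function.Injective (rels_ix k) := by
  intro i j hij
  revert hij
  unfold rels_ix
  fin_cases k <;> fin_cases i <;> fin_cases j <;> simp

private theorem rels_co {K : Type} [Field K] (x y z : K) (k : Fin 4) :
    (co ![x, y, z]) ∘ rels_ix k = ![fo x y k, z, 1 - z] := by
  funext i
  fin_cases k <;> fin_cases i <;> rfl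

/-- the four numbers are not zero -/
private theorem rels_fo {K : Type} [Field K] {x y : K} (x0 : x ≠ 0) (x1 : x ≠ 1) (y0 : y ≠ 0)
    (y1 : y ≠ 1) (k : Fin 4) : fo x y k ≠ 0 := by
  fin_cases k
  · exact x0
  · exact sub_ne_zero.2 x1.symm
  · exact y0
  · exact sub_ne_zero.2 y1.symm

private theorem rels_lt (K : Type) [Field K] [NumberField K] :
    (finrank ℚ K : ℝ) * log 2 ≤ finrank ℚ K := by
  have h1 : log (2 : ℝ) ≤ 1 := by
    have := Real.log_two_lt_d9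
    linarith
  have h2 : (0 : ℝ) ≤ finrank ℚ K := Nat.cast_nonneg _
  nlinarith

private theorem rels_ht {K : Type} [Field K] [NumberField K] {x y : K} {H0 : ℝ}
    (hx : logHeight₁ x ≤ H0 * finrank ℚ K) (hy : logHeight₁ y ≤ H0 * finrank ℚ K)
    (k : Fin 4) : logHeight₁ (fo x y k) ≤ (H0 + 1) * finrank ℚ K := by
  have h1 := rels_lt K
  have h2 : (0 : ℝ) ≤ finrank ℚ K := Nat.cast_nonneg _
  have hs : ∀ t : K, logHeight₁ t ≤ H0 * finrank ℚ K →
      logHeight₁ (1 - t) ≤ (H0 + 1) * finrank ℚ K := by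
    intro t ht
    have := CITNF.height_le_one_sub (1 - t)
    rw [sub_sub_cancel] at this
    linarith
  have hs' : ∀ t : K, logHeight₁ t ≤ H0 * finrank ℚ K →
      logHeight₁ t ≤ (H0 + 1) * finrank ℚ K := by
    intro t ht
    linarith
  fin_cases k
  · exact hs' x hx
  · exact hs x hx
  · exact hs' y hy
  · exact hs y hy

private theorem rels_tied {K : Type} [Field K] [NumberField K] {z f : K} (hz : z ≠ 0)
    (hz1 : z ≠ 1) {N : ℕ} (hN : 0 < N) {a b : ℤ}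
    (h : f ^ N = z ^ a * (1 - z) ^ b) : Tied z f (a / N) (b / N) := by
  have hN' : (N : ℝ) ≠ 0 := Nat.cast_ne_zero.2 hN.ne'
  have hz' : 1 - z ≠ 0 := sub_ne_zero.2 hz1.symm
  have key : ∀ p q r : ℝ, (N : ℝ) * p = a * q + b * r → p = a / N * q + b / N * r := by
    intro p q r hp
    field_simp
    linarith
  constructor
  · intro v
    apply key
    have h1 : v f ^ N = v z ^ a * v (1 - z) ^ b := by
      rw [← map_pow, h, map_mul, map_zpow₀, map_zpow₀]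
    have h2 := congrArg Real.log h1
    rw [Real.log_pow, Real.log_mul, Real.log_zpow, Real.log_zpow] at h2
    · exact h2
    · exact zpow_ne_zero _ (v.pos_iff.2 hz).ne'
    · exact zpow_ne_zero _ (v.pos_iff.2 hz').ne'
  · intro v
    apply key
    have h1 : v f ^ N = v z ^ a * v (1 - z) ^ b := by
      rw [← map_pow, h, map_mul, map_zpow₀, map_zpow₀]
    have h2 := congrArg Real.log h1
    rw [Real.log_pow, Real.log_mul, Real.log_zpow, Real.log_zpow] at h2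
    · exact h2
    · exact zpow_ne_zero _ ((map_ne_zero v).2 hz)
    · exact zpow_ne_zero _ ((map_ne_zero v).2 hz')

/-- one relation -/
private theorem rels_one {C1 : ℝ}
    (h1 : ∀ (H : ℝ), 1 ≤ H → ∀ (K : Type) [Field K] [NumberField K] (w : Fin 3 → K),
      (∀ i, w i ≠ 0) → RankLe 2 w → (∀ i, logHeight₁ (w i) ≤ H * finrank ℚ K) →
      ∃ u : Fin 3 → ℤ, u ≠ 0 ∧ mono w u = 1 ∧
        (nrm u : ℝ) ≤ C1 * H ^ 2 * (finrank ℚ K : ℝ) ^ 2)
    {H0 : ℝ} (hH0 : 0 ≤ H0) {H : ℝ} (hH : 4 ≤ H) (K : Type) [Field K] [NumberField K]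
    {f z : K} (hf : f ≠ 0) (z0 : z ≠ 0) (z1 : z ≠ 1) (hr : RankLe 2 ![f, z, 1 - z])
    (hfh : logHeight₁ f ≤ (H0 + 1) * finrank ℚ K) (hz : logHeight₁ z = H * finrank ℚ K) :
    ∃ (N : ℕ) (a b : ℤ), 0 < N ∧ f ^ N = z ^ a * (1 - z) ^ b ∧
      (N : ℝ) ≤ C1 * (H + H0 + 1) ^ 2 * (finrank ℚ K : ℝ) ^ 2 ∧
      |(a : ℝ)| ≤ C1 * (H + H0 + 1) ^ 2 * (finrank ℚ K : ℝ) ^ 2 ∧
      |(b : ℝ)| ≤ C1 * (H + H0 + 1) ^ 2 * (finrank ℚ K : ℝ) ^ 2 := by
  have hD : (0 : ℝ) < finrank ℚ K := Nat.cast_pos.2 finrank_pos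
  have hz' : 1 - z ≠ 0 := sub_ne_zero.2 z1.symm
  have hlt := rels_lt K
  obtain ⟨u, hu0, hu1, hun⟩ := h1 (H + H0 + 1) (by linarith) K ![f, z, 1 - z]
    (by
      intro i
      fin_cases i
      · exact hf
      · exact z0
      · exact hz') hr
    (by
      intro i
      fin_cases i
      · refine hfh.trans ?_
        gcongr
        linarith
      · refine hz.le.trans ?_
        gcongr
        linarith
      · have h2 := CITNF.height_le_one_sub (1 - z)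
        rw [sub_sub_cancel, hz] at h2
        show logHeight₁ (1 - z) ≤ _
        nlinarith)
  have hm : f ^ u 0 * z ^ u 1 * (1 - z) ^ u 2 = 1 := by
    have h2 : mono ![f, z, 1 - z] u = f ^ u 0 * z ^ u 1 * (1 - z) ^ u 2 := by
      unfold mono
      rw [Fin.prod_univ_three]
      rfl
    rw [← h2, hu1]
  have hn : ∀ i, |(u i : ℝ)| ≤ C1 * (H + H0 + 1) ^ 2 * (finrank ℚ K : ℝ) ^ 2 := by
    intro i
    refine le_trans ?_ hun
    rw [← Int.cast_abs, Int.abs_eq_natAbs]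
    exact_mod_cast Finset.le_sup (f := fun i => (u i).natAbs) (Finset.mem_univ i)
  have hmi : CITNF.MI z := by
    by_contra hc
    have h2 := MinHt.rank_one_unif K z z0 z1 hc
    rw [hz] at h2
    nlinarith
  have hu : u 0 ≠ 0 := by
    intro h0
    apply hu0
    rw [h0, zpow_zero, one_mul] at hm
    obtain ⟨h2, h3⟩ := hmi _ _ hm
    funext i
    fin_cases i
    · exact h0
    · exact h2
    · exact h3
  rcases lt_or_gt_of_ne hu with hneg | hpos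
  · refine ⟨(u 0).natAbs, u 1, u 2, Int.natAbs_pos.2 hu, ?_, ?_, hn 1, hn 2⟩
    · have h2 : ((u 0).natAbs : ℤ) = -u 0 := by omega
      rw [← zpow_natCast, h2, zpow_neg]
      have h3 : f ^ u 0 ≠ 0 := zpow_ne_zero _ hf
      rw [inv_eq_iff_eq_inv]
      rw [mul_assoc] at hm
      exact eq_inv_of_mul_eq_one_left hm
    · have h2 := hn 0
      rwa [← Int.cast_abs, Int.abs_eq_natAbs, Int.cast_natCast] at h2
  · refine ⟨(u 0).natAbs, -u 1, -u 2, Int.natAbs_pos.2 hu, ?_, ?_, ?_, ?_⟩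
    · have h2 : ((u 0).natAbs : ℤ) = u 0 := by omega
      rw [← zpow_natCast, h2, zpow_neg, zpow_neg, ← mul_inv]
      rw [mul_assoc] at hm
      exact eq_inv_of_mul_eq_one_left hm
    · have h2 := hn 0
      rwa [← Int.cast_abs, Int.abs_eq_natAbs, Int.cast_natCast] at h2
    · rw [Int.cast_neg, abs_neg]
      exact hn 1
    · rw [Int.cast_neg, abs_neg]
      exact hn 2

/-- **The exact relations.** There is a common even exponent `N` with `f ^ N = z ^ a (1 - z) ^ b` for the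
four numbers `f = x, 1 - x, y, 1 - y`, with `a, b` even, all at most `T = C (H D) ^ 16`, and
`|a| H, |b| H ≤ M N`.

Proof. For each of the four `f` the triple `![f, z, 1 - z]` has `RankLe 2` (`RankLe.comp`, a sub-family of
`co ![x, y, z]`) and heights `≤ (H + H0 + 1) D`; `one_rel` gives `u ≠ 0` with
`f ^ (u 0) z ^ (u 1) (1 - z) ^ (u 2) = 1`, `nrm u ≤ C (H + H0 + 1)^2 D^2`. `z` is multiplicatively
independent of `1 - z` (`MinHt.rank_one_unif`, `H > 3`): `u 0 ≠ 0`. So (changing signs)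
`f ^ N_f = z ^ a_f (1 - z) ^ b_f`, `N_f > 0`. Put `N = 2 ∏ N_f`, `a = a_f N / N_f`, `b = b_f N / N_f`.
`Tied z f (a / N) (b / N)` (take logarithms of the absolute values; `LThree.Tied`), and `coef_le` gives
`|a / N| H D ≤ 2 logHeight₁ f ≤ 2 (H0 + 1) D`. -/
theorem exists_rels (H0 : ℝ) (hH0 : 0 ≤ H0) : ∃ C : ℝ, 1 ≤ C ∧
    ∀ (H : ℝ), 4 ≤ H → ∀ (K : Type) [Field K] [NumberField K] (x y z : K),
      x ≠ 0 → x ≠ 1 → y ≠ 0 → y ≠ 1 → z ≠ 0 → z ≠ 1 → RankLe 2 (co ![x, y, z]) →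
      logHeight₁ x ≤ H0 * finrank ℚ K → logHeight₁ y ≤ H0 * finrank ℚ K →
      logHeight₁ z = H * finrank ℚ K →
      ∃ (N : ℕ) (a b : Fin 4 → ℤ), 0 < N ∧ Even N ∧ (∀ k, Even (a k)) ∧ (∀ k, Even (b k)) ∧
        (∀ k, fo x y k ^ N = z ^ a k * (1 - z) ^ b k) ∧
        (N : ℝ) ≤ C * (H * finrank ℚ K) ^ (16 : ℝ) ∧
        (∀ k, |(a k : ℝ)| ≤ C * (H * finrank ℚ K) ^ (16 : ℝ)) ∧
        (∀ k, |(b k : ℝ)| ≤ C * (H * finrank ℚ K) ^ (16 : ℝ)) ∧
        (∀ k, |(a k : ℝ)| * H ≤ C * N) ∧ (∀ k, |(b k : ℝ)| * H ≤ C * N) ∧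
        (∀ k, Tied z (fo x y k) (a k / N) (b k / N)) := by
  obtain ⟨C1, hC1, h1⟩ := one_rel
  have hC1' : 1 ≤ C1 ^ 4 := one_le_pow₀ hC1
  have hH02 : (1 : ℝ) ≤ H0 + 2 := by linarith
  have hH08 : H0 + 2 ≤ (H0 + 2) ^ 8 := le_self_pow₀ hH02 (by norm_num)
  have hCC : 2 * (H0 + 1) ≤ 2 * C1 ^ 4 * (H0 + 2) ^ 8 := by nlinarith
  refine ⟨2 * C1 ^ 4 * (H0 + 2) ^ 8, by nlinarith, ?_⟩
  intro H hH K _ _ x y z x0 x1 y0 y1 z0 z1 hr hx hy hz
  have hD : (1 : ℝ) ≤ finrank ℚ K := by exact_mod_cast Nat.succ_le_of_lt (finrank_pos (R := ℚ))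
  have hD0 : (0 : ℝ) < finrank ℚ K := by linarith
  have hco : ∀ i, co ![x, y, z] i ≠ 0 := by
    rintro (i | i) <;> fin_cases i
    · exact x0
    · exact y0
    · exact z0
    · exact sub_ne_zero.2 x1.symm
    · exact sub_ne_zero.2 y1.symm
    · exact sub_ne_zero.2 z1.symm
  have hfo := rels_fo x0 x1 y0 y1
  have hfh := rels_ht hx hy
  have hone : ∀ k : Fin 4, ∃ (N : ℕ) (a b : ℤ), 0 < N ∧
      fo x y k ^ N = z ^ a * (1 - z) ^ b ∧
      (N : ℝ) ≤ C1 * (H + H0 + 1) ^ 2 * (finrank ℚ K : ℝ) ^ 2 ∧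
      |(a : ℝ)| ≤ C1 * (H + H0 + 1) ^ 2 * (finrank ℚ K : ℝ) ^ 2 ∧
      |(b : ℝ)| ≤ C1 * (H + H0 + 1) ^ 2 * (finrank ℚ K : ℝ) ^ 2 := by
    intro k
    refine rels_one h1 hH0 hH K (hfo k) z0 z1 ?_ (hfh k) hz
    rw [← rels_co x y z k]
    exact RankLe.comp hco hr _ (rels_ix_inj k)
  choose n a' b' hn hex hnB haB hbB using hone
  set B : ℝ := C1 * (H + H0 + 1) ^ 2 * (finrank ℚ K : ℝ) ^ 2 with hB
  have hB0 : 0 ≤ B := by positivity
  -- the final bound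
  have hX : (H * (finrank ℚ K : ℝ)) ^ (16 : ℝ) = (H * (finrank ℚ K : ℝ)) ^ 16 := by
    exact_mod_cast Real.rpow_natCast _ 16
  have hHD : 1 ≤ H * (finrank ℚ K : ℝ) := by nlinarith
  have hBle : B ≤ C1 * (H0 + 2) ^ 2 * (H * (finrank ℚ K : ℝ)) ^ 2 := by
    have h2 : H + H0 + 1 ≤ (H0 + 2) * H := by nlinarith
    have h3 : (H + H0 + 1) ^ 2 ≤ ((H0 + 2) * H) ^ 2 := by gcongr
    calc B ≤ C1 * ((H0 + 2) * H) ^ 2 * (finrank ℚ K : ℝ) ^ 2 := by rw [hB]; gcongr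
      _ = _ := by ring
  have hB4 : 2 * B ^ 4 ≤ 2 * C1 ^ 4 * (H0 + 2) ^ 8 * (H * (finrank ℚ K : ℝ)) ^ (16 : ℝ) := by
    rw [hX]
    have h2 : B ^ 4 ≤ (C1 * (H0 + 2) ^ 2 * (H * (finrank ℚ K : ℝ)) ^ 2) ^ 4 := by gcongr
    have h3 : (H * (finrank ℚ K : ℝ)) ^ 8 ≤ (H * (finrank ℚ K : ℝ)) ^ 16 :=
      pow_le_pow_right₀ hHD (by norm_num)
    calc 2 * B ^ 4 ≤ 2 * (C1 * (H0 + 2) ^ 2 * (H * (finrank ℚ K : ℝ)) ^ 2) ^ 4 := by linarith
      _ = 2 * C1 ^ 4 * (H0 + 2) ^ 8 * (H * (finrank ℚ K : ℝ)) ^ 8 := by ring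
      _ ≤ _ := by gcongr
  -- the cofactors
  set m : Fin 4 → ℕ := fun k => 2 * ∏ j ∈ Finset.univ.erase k, n j with hm
  have hnm : ∀ k, n k * m k = 2 * ∏ j, n j := by
    intro k
    rw [hm, ← Finset.mul_prod_erase Finset.univ n (Finset.mem_univ k)]
    ring
  have hprod : ∀ k, ((∏ j ∈ Finset.univ.erase k, n j : ℕ) : ℝ) ≤ B ^ 3 := by
    intro k
    push_cast
    calc ∏ j ∈ Finset.univ.erase k, (n j : ℝ) ≤ ∏ j ∈ Finset.univ.erase k, B :=
          Finset.prod_le_prod (fun j _ => Nat.cast_nonneg _) fun j _ => hnB j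
      _ = B ^ 3 := by
          rw [Finset.prod_const, Finset.card_erase_of_mem (Finset.mem_univ k)]
          rfl
  have hmB : ∀ k, (m k : ℝ) ≤ 2 * B ^ 3 := by
    intro k
    rw [hm]
    push_cast
    have := hprod k
    push_cast at this
    linarith
  have hN : 0 < 2 * ∏ j, n j := Nat.mul_pos two_pos (Finset.prod_pos fun j _ => hn j)
  have hmul : ∀ (c : ℤ) k, |(c : ℝ)| ≤ B → |((c * (m k : ℤ) : ℤ) : ℝ)| ≤ 2 * B ^ 4 := by
    intro c k hc
    rw [Int.cast_mul, abs_mul, Int.cast_natCast, abs_of_nonneg (Nat.cast_nonneg (m k) : (0 : ℝ) ≤ _)]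
    calc |(c : ℝ)| * (m k : ℝ) ≤ B * (2 * B ^ 3) :=
          mul_le_mul hc (hmB k) (Nat.cast_nonneg _) hB0
      _ = 2 * B ^ 4 := by ring
  have hev : ∀ (c : ℤ) k, Even (c * (m k : ℤ)) := by
    intro c k
    refine Even.mul_left ?_ c
    rw [hm]
    push_cast
    exact even_two_mul _
  have hex' : ∀ k, fo x y k ^ (2 * ∏ j, n j) =
      z ^ (a' k * (m k : ℤ)) * (1 - z) ^ (b' k * (m k : ℤ)) := by
    intro k
    rw [← hnm k, pow_mul, hex k, mul_pow, zpow_mul, zpow_mul, zpow_natCast, zpow_natCast]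
  have htied : ∀ k, Tied z (fo x y k) ((a' k * (m k : ℤ) : ℤ) / (2 * ∏ j, n j : ℕ))
      ((b' k * (m k : ℤ) : ℤ) / (2 * ∏ j, n j : ℕ)) := fun k =>
    rels_tied z0 z1 hN (hex' k)
  have hcoef : ∀ k, |((a' k * (m k : ℤ) : ℤ) : ℝ)| * H ≤
      2 * C1 ^ 4 * (H0 + 2) ^ 8 * ((2 * ∏ j, n j : ℕ) : ℝ) ∧
      |((b' k * (m k : ℤ) : ℤ) : ℝ)| * H ≤
      2 * C1 ^ 4 * (H0 + 2) ^ 8 * ((2 * ∏ j, n j : ℕ) : ℝ) := by
    intro k
    have hlt := rels_lt K
    have h2 := coef_le z (fo x y k) z0 z1 (hfo k) _ _ (htied k) (by rw [hz]; nlinarith)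
    have hNR : (0 : ℝ) < ((2 * ∏ j, n j : ℕ) : ℝ) := Nat.cast_pos.2 hN
    have key : ∀ c : ℝ, |c / ((2 * ∏ j, n j : ℕ) : ℝ)| * logHeight₁ z ≤
        2 * logHeight₁ (fo x y k) → |c| * H ≤
        2 * C1 ^ 4 * (H0 + 2) ^ 8 * ((2 * ∏ j, n j : ℕ) : ℝ) := by
      intro c hc
      rw [abs_div, abs_of_pos hNR, hz] at hc
      have h3 : |c| / ((2 * ∏ j, n j : ℕ) : ℝ) * H * (finrank ℚ K : ℝ) ≤
          (2 * (H0 + 1)) * (finrank ℚ K : ℝ) := by
        have := hfh k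
        calc _ = |c| / ((2 * ∏ j, n j : ℕ) : ℝ) * (H * (finrank ℚ K : ℝ)) := by ring
          _ ≤ 2 * logHeight₁ (fo x y k) := hc
          _ ≤ _ := by linarith
      have h4 := le_of_mul_le_mul_right h3 hD0
      have h5 : |c| / ((2 * ∏ j, n j : ℕ) : ℝ) * H = |c| * H / ((2 * ∏ j, n j : ℕ) : ℝ) := by
        ring
      rw [h5, div_le_iff₀ hNR] at h4
      refine h4.trans ?_
      gcongr
    exact ⟨key _ h2.1, key _ h2.2⟩
  refine ⟨2 * ∏ j, n j, fun k => a' k * (m k : ℤ), fun k => b' k * (m k : ℤ), hN,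
    even_two_mul _, fun k => hev _ k, fun k => hev _ k, hex', ?_, fun k => ?_, fun k => ?_,
    fun k => (hcoef k).1, fun k => (hcoef k).2, htied⟩
  · refine le_trans ?_ hB4
    rw [← hnm 0, Nat.cast_mul]
    calc (n 0 : ℝ) * (m 0 : ℝ) ≤ B * (2 * B ^ 3) :=
          mul_le_mul (hnB 0) (hmB 0) (Nat.cast_nonneg _) hB0
      _ = 2 * B ^ 4 := by ring
  · exact (hmul _ k (haB k)).trans hB4
  · exact (hmul _ k (hbB k)).trans hB4

end Pool.Agent.L3S
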