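import Pool.Agent.L3S.Norms
import Pool.Agent.L3S.Arc

set_option autoImplicit false

/-! Package T10: approximate solutions and the norm polynomials; clusters of points (elementary). -/

namespace Pool.Agent.L3S

open Real Complex

open MvPolynomial in
/-- Polynomials are bounded and Lipschitz on bounded sets. -/
private theorem smallEv_lip {E : Type} [NormedField E] {n : ℕ} (G : MvPolynomial (Fin n) ℤ)
    (K : ℝ) : ∃ C : ℝ, 0 < C ∧ (∀ p : Fin n → E, (∀ k, ‖p k‖ ≤ K) → ‖aeval p G‖ ≤ C) ∧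
      ∀ (p q : Fin n → E) (δ : ℝ), 0 ≤ δ → (∀ k, ‖p k‖ ≤ K) → (∀ k, ‖q k‖ ≤ K) →
        (∀ k, ‖p k - q k‖ ≤ δ) → ‖aeval p G - aeval q G‖ ≤ C * δ := by
  induction G using MvPolynomial.induction_on with
  | C a =>
    refine ⟨‖(algebraMap ℤ E a)‖ + 1, by positivity, fun p _ => ?_, fun p q δ hδ _ _ _ => ?_⟩
    · rw [aeval_C]
      linarith
    · rw [aeval_C, aeval_C, sub_self, norm_zero]
      positivity
  | add P Q hP hQ =>
    obtain ⟨C₁, h1, h1b, h1l⟩ := hP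
    obtain ⟨C₂, h2, h2b, h2l⟩ := hQ
    refine ⟨C₁ + C₂, by positivity, fun p hp => ?_, fun p q δ hδ hp hq hpq => ?_⟩
    · rw [map_add]
      exact (norm_add_le _ _).trans (add_le_add (h1b p hp) (h2b p hp))
    · rw [map_add, map_add, add_sub_add_comm, add_mul]
      exact (norm_add_le _ _).trans
        (add_le_add (h1l p q δ hδ hp hq hpq) (h2l p q δ hδ hp hq hpq))
  | mul_X P i hP =>
    obtain ⟨C₁, h1, h1b, h1l⟩ := hP
    have hK : K ≤ |K| := le_abs_self K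
    have hK0 : 0 ≤ |K| := abs_nonneg K
    refine ⟨C₁ * (|K| + 1), by positivity, fun p hp => ?_, fun p q δ hδ hp hq hpq => ?_⟩
    · rw [map_mul, aeval_X, norm_mul]
      refine (mul_le_mul (h1b p hp) (hp i) (norm_nonneg _) h1.le).trans ?_
      exact mul_le_mul_of_nonneg_left (by linarith) h1.le
    · rw [map_mul, map_mul, aeval_X, aeval_X]
      have e : aeval p P * p i - aeval q P * q i =
          (aeval p P - aeval q P) * p i + aeval q P * (p i - q i) := by ring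
      rw [e]
      refine (norm_add_le _ _).trans ?_
      rw [norm_mul, norm_mul]
      have h3 : ‖aeval p P - aeval q P‖ * ‖p i‖ ≤ C₁ * δ * |K| :=
        mul_le_mul (h1l p q δ hδ hp hq hpq) ((hp i).trans hK) (norm_nonneg _) (by positivity)
      have h4 : ‖aeval q P‖ * ‖p i - q i‖ ≤ C₁ * δ :=
        mul_le_mul (h1b q hq) (hpq i) (norm_nonneg _) h1.le
      calc ‖aeval p P - aeval q P‖ * ‖p i‖ + ‖aeval q P‖ * ‖p i - q i‖ ≤
          C₁ * δ * |K| + C₁ * δ := add_le_add h3 h4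
        _ = C₁ * (|K| + 1) * δ := by ring

private theorem smallEv_exp {N p q δ : ℝ} (hp : p ≤ N) (hq : q ≤ N) (h : |p - q| ≤ δ) :
    |Real.exp p - Real.exp q| ≤ Real.exp N * δ := by
  have key : ∀ p q : ℝ, p ≤ N → q ≤ p → Real.exp p - Real.exp q ≤ Real.exp N * (p - q) := by
    intro p q hp hqp
    have h1 := Real.add_one_le_exp (q - p)
    have h2 : Real.exp q = Real.exp p * Real.exp (q - p) := by
      rw [← Real.exp_add]
      congr 1
      ring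
    have h3 : Real.exp p ≤ Real.exp N := Real.exp_le_exp.2 hp
    have h4 : 0 < Real.exp p := Real.exp_pos p
    calc Real.exp p - Real.exp q = Real.exp p * (1 - Real.exp (q - p)) := by rw [h2]; ring
      _ ≤ Real.exp p * (p - q) := mul_le_mul_of_nonneg_left (by linarith) h4.le
      _ ≤ Real.exp N * (p - q) := mul_le_mul_of_nonneg_right h3 (by linarith)
  have hN : 0 ≤ Real.exp N := (Real.exp_pos N).le
  obtain ⟨h1, h2⟩ := abs_le.1 h
  rcases le_total q p with hqp | hqp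
  · rw [abs_of_nonneg (sub_nonneg.2 (Real.exp_le_exp.2 hqp))]
    exact (key p q hp hqp).trans (mul_le_mul_of_nonneg_left h2 hN)
  · rw [abs_sub_comm, abs_of_nonneg (sub_nonneg.2 (Real.exp_le_exp.2 hqp))]
    exact (key q p hq hqp).trans (mul_le_mul_of_nonneg_left (by linarith) hN)

/-- The constant. -/
private noncomputable def sC (M : ℝ) : ℝ := Real.exp (2 * |M| * (|M| + 1) + 2) * (3 + 2 * |M|)

private theorem sC_one (M : ℝ) : 1 ≤ sC M := by
  have h0 : 0 ≤ |M| := abs_nonneg M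
  have h1 : 1 ≤ Real.exp (2 * |M| * (|M| + 1) + 2) := Real.one_le_exp (by positivity)
  unfold sC
  nlinarith

/-- The squares of the absolute values. -/
private theorem smallEv_q {M a s u ρ : ℝ} {z : ℂ} (ha : |a| ≤ M) (hs : |s| ≤ M) (h0 : 0 ≤ ρ)
    (h1 : ρ ≤ 1) (hsu : |s - u| ≤ ρ) (hz : z ≠ 0) (h : |Real.log ‖z‖ - s * a| ≤ ρ) :
    |‖z‖ ^ 2 - Real.exp (2 * u * a)| ≤ sC M * ρ ∧ ‖z‖ ^ 2 ≤ sC M ∧
      Real.exp (2 * u * a) ≤ sC M ∧ ‖z‖ ≤ sC M := by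
  have hM : 0 ≤ M := (abs_nonneg a).trans ha
  have hMa : |M| = M := abs_of_nonneg hM
  have hzp : 0 < ‖z‖ := norm_pos_iff.2 hz
  set N := 2 * |M| * (|M| + 1) + 2 with hN
  have hsa : |s * a| ≤ M * M := by
    rw [abs_mul]
    exact mul_le_mul hs ha (abs_nonneg _) hM
  have hu : |u| ≤ M + 1 := by
    have h2 : |u| ≤ |s| + |s - u| := by
      have := abs_sub_abs_le_abs_sub u s
      rw [abs_sub_comm u s] at this
      linarith
    linarith
  have hua : |u * a| ≤ (M + 1) * M := by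
    rw [abs_mul]
    exact mul_le_mul hu ha (abs_nonneg _) (by linarith)
  have hsua : |(s - u) * a| ≤ ρ * M := by
    rw [abs_mul]
    exact mul_le_mul hsu ha (abs_nonneg _) h0
  have hz2 : ‖z‖ ^ 2 = Real.exp (2 * Real.log ‖z‖) := by
    rw [two_mul, Real.exp_add, Real.exp_log hzp, sq]
  obtain ⟨e1, e2⟩ := abs_le.1 h
  obtain ⟨e3, e4⟩ := abs_le.1 hsa
  obtain ⟨e5, e6⟩ := abs_le.1 hua
  obtain ⟨e7, e8⟩ := abs_le.1 hsua
  have hp : 2 * Real.log ‖z‖ ≤ N := by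
    rw [hN, hMa]
    nlinarith
  have hq : 2 * u * a ≤ N := by
    rw [hN, hMa]
    nlinarith
  have hd : |2 * Real.log ‖z‖ - 2 * u * a| ≤ (2 + 2 * M) * ρ := by
    rw [abs_le]
    constructor <;> nlinarith
  have hexp : 0 < Real.exp N := Real.exp_pos N
  have hsC : sC M = Real.exp N * (3 + 2 * M) := by rw [sC, hN, hMa]
  have hle : Real.exp N ≤ sC M := by
    rw [hsC]
    nlinarith
  have hb : ‖z‖ ^ 2 ≤ sC M := by
    rw [hz2]
    exact (Real.exp_le_exp.2 hp).trans hle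
  refine ⟨?_, hb, (Real.exp_le_exp.2 hq).trans hle, ?_⟩
  · rw [hz2]
    refine (smallEv_exp hp hq hd).trans ?_
    rw [hsC]
    have h3 : 0 ≤ Real.exp N * ρ := by positivity
    nlinarith
  · have h3 := sC_one M
    by_contra hcon
    push Not at hcon
    nlinarith

private theorem smallEv_ne {x y : ℂ} (hx : x ≠ 0) (hx1 : x ≠ 1) (hy : y ≠ 0) (hy1 : y ≠ 1)
    (k : Fin 4) : fo x y k ≠ 0 := by
  fin_cases k
  · exact hx
  · exact sub_ne_zero.2 hx1.symm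
  · exact hy
  · exact sub_ne_zero.2 hy1.symm

/-- The roots of a quadratic polynomial. -/
private theorem smallEv_roots (S Q : ℂ) : ∃ t t' : ℂ, t + t' = S ∧ t * t' = Q := by
  obtain ⟨D, hD⟩ := IsAlgClosed.exists_pow_nat_eq (S ^ 2 - 4 * Q) (n := 2) two_pos
  refine ⟨(S + D) / 2, (S - D) / 2, by ring, ?_⟩
  linear_combination (-1 / 4 : ℂ) * hD

private theorem smallEv_norm (z : ℂ) : z * (starRingEnd ℂ) z = ((‖z‖ ^ 2 : ℝ) : ℂ) := by
  rw [Complex.mul_conj, Complex.normSq_eq_norm_sq]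

/-- A point with nearly the sizes of the roots of a quadratic polynomial is near one of them. -/
private theorem smallEv_near {x t t' : ℂ} {q₁ q₂ η K : ℝ} (hK : ‖x‖ ≤ K) (hη : 0 ≤ η)
    (h1 : |‖x‖ ^ 2 - q₁| ≤ η) (h2 : |‖1 - x‖ ^ 2 - q₂| ≤ η)
    (hs : t + t' = ((1 + q₁ - q₂ : ℝ) : ℂ)) (hp : t * t' = ((q₁ : ℝ) : ℂ)) :
    ‖x - t‖ ≤ √((2 * K + 1) * η) ∨ ‖x - t'‖ ≤ √((2 * K + 1) * η) := by
  have hK0 : 0 ≤ K := (norm_nonneg x).trans hK
  have e1 := smallEv_norm x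
  have e2 := smallEv_norm (1 - x)
  rw [map_sub, map_one] at e2
  have hid : (x - t) * (x - t') = (((‖x‖ ^ 2 - q₁) - (‖1 - x‖ ^ 2 - q₂) : ℝ) : ℂ) * x -
      ((‖x‖ ^ 2 - q₁ : ℝ) : ℂ) := by
    push_cast at *
    linear_combination (-x) * hs + hp + (x - 1) * e1 - x * e2
  have hn : ‖x - t‖ * ‖x - t'‖ ≤ (2 * K + 1) * η := by
    rw [← norm_mul, hid]
    refine (norm_sub_le _ _).trans ?_
    rw [norm_mul, Complex.norm_real, Complex.norm_real, Real.norm_eq_abs, Real.norm_eq_abs]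
    have h3 : |(‖x‖ ^ 2 - q₁) - (‖1 - x‖ ^ 2 - q₂)| ≤ 2 * η := by
      refine (abs_sub _ _).trans ?_
      linarith
    have h4 : |(‖x‖ ^ 2 - q₁) - (‖1 - x‖ ^ 2 - q₂)| * ‖x‖ ≤ 2 * η * K :=
      mul_le_mul h3 hK (norm_nonneg _) (by positivity)
    linarith
  by_contra hcon
  push Not at hcon
  obtain ⟨h3, h4⟩ := hcon
  have h5 : √((2 * K + 1) * η) * √((2 * K + 1) * η) = (2 * K + 1) * η :=
    Real.mul_self_sqrt (by positivity)
  have h6 : 0 ≤ √((2 * K + 1) * η) := Real.sqrt_nonneg _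
  nlinarith

/-- The norm polynomial is small at `s` if there is an approximate solution.
Proof: `G4_spec` over `ℂ` with `x' = conj x`, `y' = conj y`: `G4 r` vanishes at the true values
`q = (|x|², |1-x|², |y|², |1-y|²)` (`aeval_rp`), and `|q_k - exp (2 s A_k)| ≤ C₁ ρ`
(`|log ‖f‖ - s A_k| ≤ ρ ≤ 1`, `|s A_k| ≤ M²`); a polynomial is Lipschitz on bounded sets (induction
on `G`, or by its monomials). -/
theorem small_ev (r : Fin 4 → ℤ) (M : ℝ) : ∃ C : ℝ, 0 < C ∧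
    ∀ (A : Fin 4 → ℝ) (s ρ : ℝ) (x y : ℂ), (∀ k, |A k| ≤ M) → |s| ≤ M → 0 ≤ ρ → ρ ≤ 1 →
      x ≠ 0 → x ≠ 1 → y ≠ 0 → y ≠ 1 → mo x y r = 1 → Near A s ρ x y →
      |Ev (G4 r) A s| ≤ C * ρ := by
  obtain ⟨C, hC, -, hlip⟩ := smallEv_lip (E := ℝ) (G4 r) (sC M)
  refine ⟨C * sC M, mul_pos hC (lt_of_lt_of_le one_pos (sC_one M)), ?_⟩
  intro A s ρ x y hA hs h0 h1 hx hx1 hy hy1 hr hN
  have hq := fun k => smallEv_q (u := s) (hA k) hs h0 h1 (by rw [sub_self, abs_zero]; exact h0)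
    (smallEv_ne hx hx1 hy hy1 k) (hN k)
  have hG : MvPolynomial.aeval (fun k => ‖fo x y k‖ ^ 2) (G4 r) = 0 := by
    have h2 := G4_spec r ℂ x ((starRingEnd ℂ) x) y ((starRingEnd ℂ) y)
    rw [(aeval_rp x y hx hx1 hy hy1 r).2 hr, zero_mul, zero_mul] at h2
    have h3 : ![x * (starRingEnd ℂ) x, (1 - x) * (1 - (starRingEnd ℂ) x),
        y * (starRingEnd ℂ) y, (1 - y) * (1 - (starRingEnd ℂ) y)] =
        (algebraMap ℝ ℂ) ∘ fun k => ‖fo x y k‖ ^ 2 := by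
      have e1 := smallEv_norm (1 - x)
      have e2 := smallEv_norm (1 - y)
      rw [map_sub, map_one] at e1 e2
      funext k
      fin_cases k
      · exact smallEv_norm x
      · exact e1
      · exact smallEv_norm y
      · exact e2
    rw [h3, MvPolynomial.aeval_algebraMap_apply] at h2
    exact (map_eq_zero_iff _ (algebraMap ℝ ℂ).injective).1 h2
  have h2 := hlip (fun k => Real.exp (2 * s * A k)) (fun k => ‖fo x y k‖ ^ 2) (sC M * ρ)
    (mul_nonneg (zero_le_one.trans (sC_one M)) h0)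
    (fun k => by
      rw [Real.norm_of_nonneg (Real.exp_pos _).le]
      exact (hq k).2.2.1)
    (fun k => by
      rw [Real.norm_of_nonneg (by positivity)]
      exact (hq k).2.1)
    (fun k => by
      rw [Real.norm_eq_abs, abs_sub_comm]
      exact (hq k).1)
  rw [hG, sub_zero, Real.norm_eq_abs] at h2
  rw [mul_assoc]
  exact h2

/-- The same for a pair which is nearly a pair of conjugates: `G2_spec` with `x' = conj x`, and
`|P(x, conj x)| = |P(x, conj x) - P(x, y)| ≤ C |conj x - y|` for `P = rp r` (all numbers are bounded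
by `exp (M² + 1)`). -/
theorem small_ev_two (r : Fin 4 → ℤ) (M : ℝ) : ∃ C : ℝ, 0 < C ∧
    ∀ (A : Fin 4 → ℝ) (s ρ : ℝ) (x y : ℂ), (∀ k, |A k| ≤ M) → |s| ≤ M → 0 ≤ ρ → ρ ≤ 1 →
      x ≠ 0 → x ≠ 1 → y ≠ 0 → y ≠ 1 → mo x y r = 1 → Near A s ρ x y →
      ‖y - (starRingEnd ℂ) x‖ ≤ ρ → |Ev (G2 r) ![A 0, A 1] s| ≤ C * ρ := by
  obtain ⟨C, hC, -, hlip⟩ := smallEv_lip (E := ℝ) (G2 r) (sC M)
  obtain ⟨C', hC', hb', hlip'⟩ := smallEv_lip (E := ℂ) (rp r) (sC M)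
  have hs1 := sC_one M
  refine ⟨C' * C' + C * sC M, by positivity, ?_⟩
  intro A s ρ x y hA hs h0 h1 hx hx1 hy hy1 hr hN hyx
  have hq := fun k => smallEv_q (u := s) (hA k) hs h0 h1 (by rw [sub_self, abs_zero]; exact h0)
    (smallEv_ne hx hx1 hy hy1 k) (hN k)
  have hxn : ‖x‖ ≤ sC M := (hq 0).2.2.2
  have hyn : ‖y‖ ≤ sC M := (hq 2).2.2.2
  have hxn' : ‖(starRingEnd ℂ) x‖ ≤ sC M := by rw [Complex.norm_conj]; exact hxn
  set Q : Fin 2 → ℝ := ![‖x‖ ^ 2, ‖1 - x‖ ^ 2] with hQ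
  have hG : |MvPolynomial.aeval Q (G2 r)| ≤ C' * C' * ρ := by
    have h2 := G2_spec r ℂ x ((starRingEnd ℂ) x)
    have h3 : ![x * (starRingEnd ℂ) x, (1 - x) * (1 - (starRingEnd ℂ) x)] =
        (algebraMap ℝ ℂ) ∘ Q := by
      have e1 := smallEv_norm (1 - x)
      rw [map_sub, map_one] at e1
      funext k
      fin_cases k
      · exact smallEv_norm x
      · exact e1
    rw [h3, MvPolynomial.aeval_algebraMap_apply] at h2
    have h4 : ‖MvPolynomial.aeval ![x, (starRingEnd ℂ) x] (rp r)‖ ≤ C' * ρ := by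
      have h5 := hlip' ![x, (starRingEnd ℂ) x] ![x, y] ρ h0
        (fun k => by fin_cases k; exacts [hxn, hxn'])
        (fun k => by fin_cases k; exacts [hxn, hyn])
        (fun k => by
          fin_cases k
          · change ‖x - x‖ ≤ ρ
            rw [sub_self, norm_zero]
            exact h0
          · change ‖(starRingEnd ℂ) x - y‖ ≤ ρ
            rw [norm_sub_rev]
            exact hyx)
      rwa [(aeval_rp x y hx hx1 hy hy1 r).2 hr, sub_zero] at h5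
    have h5 : ‖MvPolynomial.aeval ![(starRingEnd ℂ) x, x] (rp r)‖ ≤ C' :=
      hb' _ fun k => by fin_cases k; exacts [hxn', hxn]
    have h6 := congrArg norm h2
    rw [norm_mul] at h6
    have h7 : ‖algebraMap ℝ ℂ (MvPolynomial.aeval Q (G2 r))‖ =
        |MvPolynomial.aeval Q (G2 r)| := by
      rw [norm_algebraMap', Real.norm_eq_abs]
    rw [h7] at h6
    rw [h6]
    calc _ ≤ C' * ρ * C' := mul_le_mul h4 h5 (norm_nonneg _) (by positivity)
      _ = C' * C' * ρ := by ring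
  have h2 := hlip (fun k => Real.exp (2 * s * ![A 0, A 1] k)) Q (sC M * ρ)
    (mul_nonneg (zero_le_one.trans (sC_one M)) h0)
    (fun k => by
      rw [Real.norm_of_nonneg (Real.exp_pos _).le]
      fin_cases k
      exacts [(hq 0).2.2.1, (hq 1).2.2.1])
    (fun k => by
      fin_cases k
      · change ‖‖x‖ ^ 2‖ ≤ _
        rw [Real.norm_of_nonneg (by positivity)]
        exact (hq 0).2.1
      · change ‖‖1 - x‖ ^ 2‖ ≤ _
        rw [Real.norm_of_nonneg (by positivity)]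
        exact (hq 1).2.1)
    (fun k => by
      rw [Real.norm_eq_abs, abs_sub_comm]
      fin_cases k
      exacts [(hq 0).1, (hq 1).1])
  rw [Real.norm_eq_abs] at h2
  have h3 : |Ev (G2 r) ![A 0, A 1] s| ≤
      |Ev (G2 r) ![A 0, A 1] s - MvPolynomial.aeval Q (G2 r)| +
        |MvPolynomial.aeval Q (G2 r)| := by
    have := abs_add_le (Ev (G2 r) ![A 0, A 1] s - MvPolynomial.aeval Q (G2 r))
      (MvPolynomial.aeval Q (G2 r))
    rwa [sub_add_cancel] at this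
  have h4 : |Ev (G2 r) ![A 0, A 1] s - MvPolynomial.aeval Q (G2 r)| ≤ C * (sC M * ρ) := h2
  linarith

/-- **Clusters of parameters give clusters of points.** `U` = the two complex roots of
`X² - (1 + q₁ - q₂) X + q₁`, `q₁ = exp (2 u A 0)`, `q₂ = exp (2 u A 1)`, for all `u ∈ T`. For `s` near `u`
the number `x` is a root of `X² - (x + x̄) X + x x̄` with `x x̄ = |x|²`, `x + x̄ = 1 + |x|² - |1-x|²`,
so `|(x - t)(x - t')| ≤ C ρ` for the two roots `t, t'`. The same for `y`. -/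
theorem cluster_points (M : ℝ) : ∃ C : ℝ, 0 < C ∧
    ∀ (A : Fin 4 → ℝ) (T : Finset ℝ) (ρ : ℝ), (∀ k, |A k| ≤ M) → 0 ≤ ρ → ρ ≤ 1 →
      ∃ U V : Finset ℂ, U.card ≤ 2 * T.card ∧ V.card ≤ 2 * T.card ∧
        ∀ (s : ℝ) (x y : ℂ), |s| ≤ M → x ≠ 0 → x ≠ 1 → y ≠ 0 → y ≠ 1 →
          (∃ u ∈ T, |s - u| ≤ ρ) → Near A s ρ x y →
          (∃ t ∈ U, ‖x - t‖ ≤ C * √ρ) ∧ ∃ t ∈ V, ‖y - t‖ ≤ C * √ρ := by
  have hs1 := sC_one M
  choose t t' htt htt' using smallEv_roots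
  have key : ∀ (a b s u ρ : ℝ) (z : ℂ), |a| ≤ M → |b| ≤ M → |s| ≤ M → 0 ≤ ρ → ρ ≤ 1 →
      |s - u| ≤ ρ → z ≠ 0 → z ≠ 1 → |Real.log ‖z‖ - s * a| ≤ ρ →
      |Real.log ‖1 - z‖ - s * b| ≤ ρ →
      ‖z - t ((1 + Real.exp (2 * u * a) - Real.exp (2 * u * b) : ℝ) : ℂ)
        ((Real.exp (2 * u * a) : ℝ) : ℂ)‖ ≤ √((2 * sC M + 1) * sC M) * √ρ ∨
      ‖z - t' ((1 + Real.exp (2 * u * a) - Real.exp (2 * u * b) : ℝ) : ℂ)
        ((Real.exp (2 * u * a) : ℝ) : ℂ)‖ ≤ √((2 * sC M + 1) * sC M) * √ρ := by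
    intro a b s u ρ z ha hb hs h0 h1 hsu hz hz1 hza hzb
    have h2 := smallEv_q ha hs h0 h1 hsu hz hza
    have h3 := smallEv_q hb hs h0 h1 hsu (sub_ne_zero.2 hz1.symm) hzb
    have h4 := smallEv_near h2.2.2.2 (by positivity) h2.1 h3.1
      (htt ((1 + Real.exp (2 * u * a) - Real.exp (2 * u * b) : ℝ) : ℂ)
        ((Real.exp (2 * u * a) : ℝ) : ℂ)) (htt' _ _)
    have h5 : √((2 * sC M + 1) * (sC M * ρ)) = √((2 * sC M + 1) * sC M) * √ρ := by
      rw [← mul_assoc, Real.sqrt_mul (by positivity)]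
    rwa [h5] at h4
  refine ⟨√((2 * sC M + 1) * sC M), Real.sqrt_pos.2 (by positivity), ?_⟩
  intro A T ρ hA h0 h1
  have hfin : ∀ a b : ℝ, |a| ≤ M → |b| ≤ M → ∃ U : Finset ℂ, U.card ≤ 2 * T.card ∧
      ∀ (s : ℝ) (z : ℂ), |s| ≤ M → z ≠ 0 → z ≠ 1 → (∃ u ∈ T, |s - u| ≤ ρ) →
        |Real.log ‖z‖ - s * a| ≤ ρ → |Real.log ‖1 - z‖ - s * b| ≤ ρ →
        ∃ t ∈ U, ‖z - t‖ ≤ √((2 * sC M + 1) * sC M) * √ρ := by
    intro a b ha hb
    classical
    let f : ℝ → ℂ := fun u => t ((1 + Real.exp (2 * u * a) - Real.exp (2 * u * b) : ℝ) : ℂ)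
        ((Real.exp (2 * u * a) : ℝ) : ℂ)
    let f' : ℝ → ℂ := fun u => t' ((1 + Real.exp (2 * u * a) - Real.exp (2 * u * b) : ℝ) : ℂ)
        ((Real.exp (2 * u * a) : ℝ) : ℂ)
    refine ⟨T.image f ∪ T.image f', ?_, ?_⟩
    · refine (Finset.card_union_le _ _).trans ?_
      have h2 : (T.image f).card ≤ T.card := Finset.card_image_le
      have h3 : (T.image f').card ≤ T.card := Finset.card_image_le
      omega
    · rintro s z hs hz hz1 ⟨u, huT, hsu⟩ hza hzb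
      rcases key a b s u ρ z ha hb hs h0 h1 hsu hz hz1 hza hzb with h2 | h2
      · exact ⟨f u, Finset.mem_union_left _ (Finset.mem_image_of_mem f huT), h2⟩
      · exact ⟨f' u, Finset.mem_union_right _ (Finset.mem_image_of_mem f' huT), h2⟩
  obtain ⟨U, hU, hU'⟩ := hfin (A 0) (A 1) (hA 0) (hA 1)
  obtain ⟨V, hV, hV'⟩ := hfin (A 2) (A 3) (hA 2) (hA 3)
  refine ⟨U, V, hU, hV, fun s x y hs hx hx1 hy hy1 hT hN => ⟨?_, ?_⟩⟩
  · exact hU' s x hs hx hx1 hT (hN 0) (hN 1)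
  · exact hV' s y hs hy hy1 hT (hN 2) (hN 3)

/-- **Equal sizes.** `(y - x)(y - x̄) = (y + ȳ - x - x̄) y + (x x̄ - y ȳ)` is `O(ρ)`. -/
theorem equal_sizes (M : ℝ) : ∃ C : ℝ, 0 < C ∧
    ∀ (A : Fin 4 → ℝ) (s ρ : ℝ) (x y : ℂ), (∀ k, |A k| ≤ M) → |s| ≤ M → 0 ≤ ρ → ρ ≤ 1 →
      x ≠ 0 → x ≠ 1 → y ≠ 0 → y ≠ 1 → A 0 = A 2 → A 1 = A 3 → Near A s ρ x y →
      ‖y - x‖ ≤ C * √ρ ∨ ‖y - (starRingEnd ℂ) x‖ ≤ C * √ρ := by
  have hs1 := sC_one M
  refine ⟨√((2 * sC M + 1) * (2 * sC M)), Real.sqrt_pos.2 (by positivity), ?_⟩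
  intro A s ρ x y hA hs h0 h1 hx hx1 hy hy1 hA0 hA1 hN
  have hq := fun k => smallEv_q (u := s) (hA k) hs h0 h1 (by rw [sub_self, abs_zero]; exact h0)
    (smallEv_ne hx hx1 hy hy1 k) (hN k)
  have e1 := smallEv_norm x
  have e2 := smallEv_norm (1 - x)
  rw [map_sub, map_one] at e2
  have h2 : |‖y‖ ^ 2 - ‖x‖ ^ 2| ≤ 2 * sC M * ρ := by
    have h3 := (hq 0).1
    have h4 := (hq 2).1
    rw [← hA0] at h4
    have h5 := abs_sub_le (‖y‖ ^ 2) (Real.exp (2 * s * A 0)) (‖x‖ ^ 2)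
    rw [abs_sub_comm (Real.exp (2 * s * A 0))] at h5
    have h6 : |‖x‖ ^ 2 - Real.exp (2 * s * A 0)| ≤ sC M * ρ := h3
    have h7 : |‖y‖ ^ 2 - Real.exp (2 * s * A 0)| ≤ sC M * ρ := h4
    linarith
  have h3 : |‖1 - y‖ ^ 2 - ‖1 - x‖ ^ 2| ≤ 2 * sC M * ρ := by
    have h3 := (hq 1).1
    have h4 := (hq 3).1
    rw [← hA1] at h4
    have h5 := abs_sub_le (‖1 - y‖ ^ 2) (Real.exp (2 * s * A 1)) (‖1 - x‖ ^ 2)
    rw [abs_sub_comm (Real.exp (2 * s * A 1))] at h5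
    have h6 : |‖1 - x‖ ^ 2 - Real.exp (2 * s * A 1)| ≤ sC M * ρ := h3
    have h7 : |‖1 - y‖ ^ 2 - Real.exp (2 * s * A 1)| ≤ sC M * ρ := h4
    linarith
  have h4 := smallEv_near (x := y) (t := x) (t' := (starRingEnd ℂ) x) (hq 2).2.2.2
    (by positivity) h2 h3 (by
      push_cast at *
      linear_combination e1 - e2) e1
  have h5 : √((2 * sC M + 1) * (2 * sC M * ρ)) = √((2 * sC M + 1) * (2 * sC M)) * √ρ := by
    rw [← mul_assoc, Real.sqrt_mul (by positivity)]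
  rwa [h5] at h4

end Pool.Agent.L3S
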