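import Pool.Agent.L3S.Defs
import Pool.Agent.LThreeC.SmallRel

set_option autoImplicit false

/-! Package S4: two small relations modulo constants (Siegel's lemma twice). -/

namespace Pool.Agent.L3S

open Pool.Agent.LThree Pool.Agent.LThreeC

variable {F : Type} [Field F] [CharZero F]

attribute [local instance] Matrix.seminormedAddCommGroup in
private theorem rel_row (z : Fin 3 ⊕ Fin 3 → F) (hz : ∀ s, z s ≠ 0)
    (hord : ∀ f : F, Transcendental ℚ f → ∃ w : F → ℤ, IsOrd w ∧ w f ≠ 0)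
    (hb : ∀ w : F → ℤ, IsOrd w → ∀ s, |w (z s)| ≤ 4)
    (u : Fin 3 → (Fin 3 ⊕ Fin 3 → ℤ)) (hu : LinearIndependent ℤ u)
    (hrel : ∀ j, IsAlgebraic ℚ (mono z (u j))) (g : Fin 3 ⊕ Fin 3 → ℤ) (hg : ∀ s, |g s| ≤ 4) :
    ∃ m : Fin 3 ⊕ Fin 3 → ℤ, m ≠ 0 ∧ nrm m ≤ 576 ∧ ∑ s, g s * m s = 0 ∧
      IsAlgebraic ℚ (mono z m) := by
  classical
  have hmono : ∀ m : Fin 3 ⊕ Fin 3 → ℤ, mono z m ≠ 0 := fun m => by
    unfold Pool.Agent.LThree.mono
    exact Finset.prod_ne_zero_iff.2 fun i _ => zpow_ne_zero _ (hz i)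
  -- the vectors of values
  set S : Set (Fin 3 ⊕ Fin 3 → ℚ) := {v | ∃ w : F → ℤ, IsOrd w ∧ v = fun s => (w (z s) : ℚ)} with hS
  set A : Matrix (Fin 3) (Fin 3 ⊕ Fin 3) ℚ := fun j s => (u j s : ℚ) with hA
  have hAli : LinearIndependent ℚ A.row :=
    (linearIndependent_algebraMap_comp_iff (R := ℤ) (S := ℚ) (v := u)).2 hu
  -- the span has dimension at most three
  have hker : ∀ v ∈ S, A.mulVec v = 0 := by
    rintro v ⟨w, hw, rfl⟩
    funext j
    have h1 := hw.mono z hz (u j)
    rw [hw.algebraic (hmono (u j)) (hrel j)] at h1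
    simp only [Matrix.mulVec, dotProduct, hA, Pi.zero_apply]
    exact_mod_cast h1.symm
  have hle : Submodule.span ℚ S ≤ LinearMap.ker A.mulVecLin := by
    rw [Submodule.span_le]
    intro v hv
    rw [SetLike.mem_coe, LinearMap.mem_ker, Matrix.mulVecLin_apply]
    exact hker v hv
  have hfin : Module.finrank ℚ (Submodule.span ℚ S) ≤ 3 := by
    refine (Submodule.finrank_mono hle).trans ?_
    have h1 := A.mulVecLin.finrank_range_add_finrank_ker
    have h2 : Module.finrank ℚ (LinearMap.range A.mulVecLin) = 3 := by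
      have h3 : A.rank = Fintype.card (Fin 3) := hAli.rank_matrix
      rw [Fintype.card_fin] at h3
      exact h3
    rw [h2, Module.finrank_fintype_fun_eq_card] at h1
    simp only [Fintype.card_sum, Fintype.card_fin] at h1
    omega
  obtain ⟨b, hbS, hspan, hbli⟩ := exists_linearIndependent ℚ S
  have hbfin : b.Finite := hbli.setFinite
  have : Fintype b := hbfin.fintype
  have hcard : Fintype.card b ≤ 3 := by
    have h1 := finrank_span_set_eq_card hbli
    rw [hspan, Set.toFinset_card] at h1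
    rw [← h1]
    exact hfin
  obtain ⟨e⟩ : Nonempty (b ↪ Fin 3) :=
    Function.Embedding.nonempty_of_card_le (by rw [Fintype.card_fin]; exact hcard)
  -- integer vectors
  have hint : ∀ i : Fin 3, ∃ f : Fin 3 ⊕ Fin 3 → ℤ, (∀ s, |f s| ≤ 4) ∧
      ∀ x : b, e x = i → (x : Fin 3 ⊕ Fin 3 → ℚ) = fun s => (f s : ℚ) := by
    intro i
    by_cases h : ∃ x : b, e x = i
    · obtain ⟨x, hx⟩ := h
      obtain ⟨w, hw, hwx⟩ := hbS x.2
      refine ⟨fun s => w (z s), fun s => hb w hw s, fun y hy => ?_⟩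
      rw [e.injective (hy.trans hx.symm), hwx]
    · exact ⟨0, fun s => by simp, fun x hx => absurd ⟨x, hx⟩ h⟩
  choose f hf4 hf using hint
  set G : Fin 3 ⊕ Unit → (Fin 3 ⊕ Fin 3 → ℤ) := Sum.elim f fun _ => g with hG
  obtain ⟨t, ht0, htA, htn⟩ := Int.Matrix.exists_ne_zero_int_vec_norm_le
    (Matrix.of G) (by simp) (by simp)
  have hnorm : ∀ s, |t s| ≤ 576 := by
    have h1 : ‖Matrix.of G‖ ≤ 4 := by
      rw [Matrix.norm_le_iff (by norm_num)]
      intro i j
      rw [Matrix.of_apply, Int.norm_eq_abs]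
      rcases i with i | i
      · exact_mod_cast hf4 i j
      · exact_mod_cast hg j
    have h2 : ‖t‖ ≤ 576 := by
      refine htn.trans ?_
      have h3 : ((Fintype.card (Fin 3 ⊕ Unit) : ℝ) / ((Fintype.card (Fin 3 ⊕ Fin 3) : ℝ) -
          (Fintype.card (Fin 3 ⊕ Unit) : ℝ))) = 2 := by
        simp only [Fintype.card_sum, Fintype.card_fin, Fintype.card_unit]
        norm_num
      rw [h3]
      simp only [Fintype.card_sum, Fintype.card_fin]
      have h4 : max 1 ‖Matrix.of G‖ ≤ 4 := max_le (by norm_num) h1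
      have h5 : 0 ≤ max 1 ‖Matrix.of G‖ := le_trans zero_le_one (le_max_left _ _)
      calc (((3 + 3 : ℕ) : ℝ) * max 1 ‖Matrix.of G‖) ^ (2 : ℝ)
          ≤ (24 : ℝ) ^ (2 : ℝ) := by
            refine Real.rpow_le_rpow (by positivity) ?_ (by norm_num)
            push_cast
            linarith
        _ = 576 := by
            rw [Real.rpow_ofNat]
            norm_num
    intro s
    have h3 := (norm_le_pi_norm t s).trans h2
    rw [Int.norm_eq_abs] at h3
    exact_mod_cast h3
  refine ⟨t, ht0, ?_, ?_, ?_⟩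
  · unfold nrm
    apply Finset.sup_le
    intro s _
    have h5 := hnorm s
    rw [Int.abs_eq_natAbs] at h5
    exact_mod_cast h5
  · have h3 := congrFun htA (Sum.inr ())
    simpa only [Matrix.mulVec, dotProduct, Matrix.of_apply, Pi.zero_apply, hG,
      Sum.elim_inr] using h3
  · by_contra htr
    obtain ⟨w, hw, hwne⟩ := hord _ htr
    apply hwne
    rw [hw.mono z hz]
    -- the functional vanishes on the span
    set L : (Fin 3 ⊕ Fin 3 → ℚ) →ₗ[ℚ] ℚ := ∑ s, (t s : ℚ) • LinearMap.proj s with hL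
    have hLapp : ∀ v : Fin 3 ⊕ Fin 3 → ℚ, L v = ∑ s, (t s : ℚ) * v s := by
      intro v
      simp [hL, LinearMap.sum_apply]
    have h1 : Submodule.span ℚ b ≤ LinearMap.ker L := by
      rw [Submodule.span_le]
      intro v hv
      rw [SetLike.mem_coe, LinearMap.mem_ker, hLapp]
      have h2 := hf (e ⟨v, hv⟩) ⟨v, hv⟩ rfl
      simp only at h2
      rw [h2]
      have h3 := congrFun htA (Sum.inl (e ⟨v, hv⟩))
      simp only [Matrix.mulVec, dotProduct, Matrix.of_apply, Pi.zero_apply, hG,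
        Sum.elim_inl] at h3
      have h4 : ∑ s, t s * f (e ⟨v, hv⟩) s = 0 := by
        rw [← h3]
        exact Finset.sum_congr rfl fun s _ => mul_comm _ _
      change ∑ s, (t s : ℚ) * ((f (e ⟨v, hv⟩) s : ℤ) : ℚ) = 0
      exact_mod_cast h4
    have h2 : (fun s => (w (z s) : ℚ)) ∈ Submodule.span ℚ b := by
      rw [hspan]
      exact Submodule.subset_span ⟨w, hw, rfl⟩
    have h3 := h1 h2
    rw [LinearMap.mem_ker, hLapp] at h3
    exact_mod_cast h3

/-- **Two small relations modulo constants.** As `LThreeC.small_rel` (`LThreeC/SmallRel.lean`). Let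
`m` be from `small_rel` (`nrm m ≤ 24`) and `s` with `m s ≠ 0`. The same proof once more with one
additional row `e_s` of the matrix (at most four rows, six columns, entries at most `4`) gives by
`Int.Matrix.exists_ne_zero_int_vec_norm_le` a vector `m' ≠ 0` with `m' s = 0` and
`|m'|_∞ ≤ (6 * 4) ^ (4 / (6 - 4)) = 24 ^ 2 = 576`, whose monomial is algebraic. As `m s ≠ 0 = m' s` and
`m' ≠ 0`, the two are independent. (Recommended: first generalise the proof of `small_rel` to: for
every finite family of at most one additional linear condition `L s := fun m => m s`.) -/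
theorem small_rel_two (z : Fin 3 ⊕ Fin 3 → F) (hz : ∀ s, z s ≠ 0)
    (hord : ∀ f : F, Transcendental ℚ f → ∃ w : F → ℤ, IsOrd w ∧ w f ≠ 0)
    (hb : ∀ w : F → ℤ, IsOrd w → ∀ s, |w (z s)| ≤ 4)
    (u : Fin 3 → (Fin 3 ⊕ Fin 3 → ℤ)) (hu : LinearIndependent ℤ u)
    (hrel : ∀ j, IsAlgebraic ℚ (mono z (u j))) :
    ∃ m m' : Fin 3 ⊕ Fin 3 → ℤ, LinearIndependent ℤ ![m, m'] ∧ nrm m ≤ 576 ∧ nrm m' ≤ 576 ∧
      IsAlgebraic ℚ (mono z m) ∧ IsAlgebraic ℚ (mono z m') := by
  classical
  obtain ⟨m, hm0, hmn, -, hma⟩ := rel_row z hz hord hb u hu hrel 0 fun s => by simp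
  obtain ⟨s, hs⟩ : ∃ s, m s ≠ 0 := by
    by_contra hcon
    push Not at hcon
    exact hm0 (funext hcon)
  obtain ⟨m', hm'0, hm'n, hm's, hm'a⟩ := rel_row z hz hord hb u hu hrel (Pi.single s 1)
    fun i => by
      by_cases h : i = s
      · rw [h, Pi.single_eq_same]
        norm_num
      · rw [Pi.single_eq_of_ne h]
        norm_num
  have hm's0 : m' s = 0 := by
    rw [Finset.sum_eq_single s] at hm's
    · rwa [Pi.single_eq_same, one_mul] at hm's
    · intro i _ hi
      rw [Pi.single_eq_of_ne hi, zero_mul]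
    · intro h
      exact absurd (Finset.mem_univ s) h
  refine ⟨m, m', ?_, hmn, hm'n, hma, hm'a⟩
  rw [LinearIndependent.pair_iff]
  intro a b hab
  have h1 := congrFun hab s
  simp only [Pi.add_apply, Pi.smul_apply, smul_eq_mul, Pi.zero_apply, hm's0, mul_zero,
    add_zero] at h1
  have ha : a = 0 := (mul_eq_zero.1 h1).resolve_right hs
  refine ⟨ha, ?_⟩
  rw [ha, zero_smul, zero_add] at hab
  by_contra hb0
  apply hm'0
  funext i
  have h2 := congrFun hab i
  simp only [Pi.smul_apply, smul_eq_mul, Pi.zero_apply] at h2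
  exact (mul_eq_zero.1 h2).resolve_left hb0

end Pool.Agent.L3S
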