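import Pool.Agent.L3S.CaseC2
import Pool.Agent.L3S.PairsTwo

set_option autoImplicit false

/-! Package S6: transcendental points of `L^3` with many relations, strong form. -/

namespace Pool.Agent.L3S

open Pool.Agent.LThree Pool.Agent.LThreeC IntermediateField

/-- **Transcendence degree at least two.** As `LThreeC.part_ii` (`LThreeC/Final.lean`): with `k` the
third index, either `x k` is algebraic over `ℚ(x i, x j)` (`surf_spec`) or `x` is algebraically
independent (`LThreeC.three`, contradiction). -/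
theorem transTwoS (F : Type) [Field F] [CharZero F] (x : Fin 3 → F) (h0 : ∀ i, x i ≠ 0)
    (h1 : ∀ i, x i ≠ 1) (h : ∃ i j, AlgebraicIndependent ℚ ![x i, x j])
    (u v : Fin 3 ⊕ Fin 3 → ℤ) (hli : LinearIndependent ℤ ![u, v]) (hu : mono (co x) u = 1)
    (hv : mono (co x) v = 1) : Spec x := by
  obtain ⟨i, j, hind⟩ := h
  have hij := ne_of_indep x i j hind
  obtain ⟨k, hik, hjk⟩ := third i j hij
  by_cases hk : IsAlgebraic (adjoin ℚ ({x i, x j} : Set F)) (x k)
  · exact surf_spec x h0 h1 i j k hij hik hjk hind hk u v hli hu hv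
  · exfalso
    have := three x h0 h1 (indep_three x i j k hij hik hjk hind hk) u hu
    exact hli.ne_zero 0 (by simpa using this)

private theorem ts_part (B : ℕ)
    (hB : ∀ (K : Type) [Field K] [NumberField K] (x : Fin 2 → K), (∀ i, x i ≠ 0) →
      (∀ i, x i ≠ 1) → RankLe 1 (co x) → Two B x)
    {F : Type} [Field F] [CharZero F]
    (x : Fin 3 → F) (h0 : ∀ i, x i ≠ 0) (h1 : ∀ i, x i ≠ 1)
    (hgen : adjoin ℚ (Set.range x) = ⊤) (hna : ¬ ∀ i, IsAlgebraic ℚ (x i))
    (u : Fin 3 → (Fin 3 ⊕ Fin 3 → ℤ)) (hu : LinearIndependent ℤ u)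
    (hrel : ∀ t, mono (co x) (u t) = 1) : Two (max 69120 B) x := by
  by_cases hind : ∃ i j, AlgebraicIndependent ℚ ![x i, x j]
  · exact (two_of_spec x h0 h1 (transTwoS F x h0 h1 hind (u 0) (u 1) (pair_of_three u hu)
      (hrel 0) (hrel 1))).mono_le (le_max_of_le_left (by norm_num))
  push Not at hind hna
  obtain ⟨i, hi⟩ := hna
  obtain ⟨j, hji⟩ := exists_ne i
  have hij : i ≠ j := hji.symm
  obtain ⟨k, hik, hjk⟩ := third i j hij
  by_cases hj : IsAlgebraic ℚ (x j)
  · by_cases hk : IsAlgebraic ℚ (x k)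
    · exact (caseA_two B hB x h0 h1 i j k hij hik hjk hi hj hk u hu hrel).mono_le
        (le_max_right _ _)
    · exact (two_of_spec x h0 h1 (caseB_spec x h0 h1 i k j hik hij hjk.symm hi hk hj u hu
        hrel)).mono_le (le_max_of_le_left (by norm_num))
  · by_cases hk : IsAlgebraic ℚ (x k)
    · exact (two_of_spec x h0 h1 (caseB_spec x h0 h1 i j k hij hik hjk hi hj hk u hu
        hrel)).mono_le (le_max_of_le_left (by norm_num))
    · have htr : ∀ t, Transcendental ℚ (x t) := by
        intro t
        rcases cover i j k hij hik hjk t with rfl | rfl | rfl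
        · exact hi
        · exact hj
        · exact hk
      refine (caseC_two x h0 h1 htr hgen (alg_top x hgen ?_) u hu hrel).mono_le (le_max_left _ _)
      intro t
      by_contra ht
      exact hind 0 t (indep_pair (x 0) (x t) (htr 0) ht)

/-- **Transcendental points with three relations satisfy two independent bounded relations.** As
`LThreeC.part_i` and `LThreeC.trans_relation` (`LThreeC/Final.lean`): algebraically independent pair:
`transTwoS` and `two_of_spec`; one / two / three transcendental coordinates: `caseA_two` (with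
`pairs_two`), `caseB_spec` and `two_of_spec`, `caseC_two`; pass to the field `adjoin ℚ (range x)`. -/
theorem transThreeS : ∃ B : ℕ, ∀ (F : Type) [Field F] [CharZero F] (x : Fin 3 → F),
    (∀ i, x i ≠ 0) → (∀ i, x i ≠ 1) → (¬ ∀ i, IsAlgebraic ℚ (x i)) →
    (∃ u : Fin 3 → (Fin 3 ⊕ Fin 3 → ℤ), LinearIndependent ℤ u ∧ ∀ t, mono (co x) (u t) = 1) →
    Two B x := by
  obtain ⟨B, hB⟩ := pairs_two
  refine ⟨max 69120 B, ?_⟩
  intro F _ _ x h0 h1 hna ⟨u, hu, hrel⟩
  let F0 := adjoin ℚ (Set.range x)
  let y : Fin 3 → F0 := fun i => ⟨x i, subset_adjoin _ _ ⟨i, rfl⟩⟩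
  have hxy : ∀ i, algebraMap F0 F (y i) = x i := fun i => rfl
  have hmon : ∀ m, algebraMap F0 F (mono (co y) m) = mono (co x) m := fun m =>
    map_mono (algebraMap F0 F) y m
  have hmon1 : ∀ m, mono (co x) m = 1 ↔ mono (co y) m = 1 := fun m => by
    rw [← hmon]
    exact ⟨fun h => (algebraMap F0 F).injective (by rw [h, map_one]), fun h => by rw [h, map_one]⟩
  obtain ⟨p, q, hpq, hp, hq, hp1, hq1⟩ := ts_part B hB y
    (fun i h => h0 i (by rw [← hxy i, h, map_zero]))
    (fun i h => h1 i (by rw [← hxy i, h, map_one]))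
    (by
      rw [eq_top_iff]
      rintro z -
      have hz : (z : F) ∈ adjoin ℚ (Set.range x) := z.2
      have himg : (Subtype.val '' Set.range y : Set F) = Set.range x := by
        rw [← Set.range_comp]; rfl
      have : (z : F) ∈ IntermediateField.lift (adjoin ℚ (Set.range y)) := by
        rw [IntermediateField.lift_adjoin, himg]; exact hz
      exact (IntermediateField.mem_lift _).1 this)
    (fun hall => hna fun i => by
      exact (hall i).algHom F0.val) u hu
    (fun t => (hmon1 _).1 (hrel t))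
  exact ⟨p, q, hpq, hp, hq, (hmon1 p).2 hp1, (hmon1 q).2 hq1⟩

end Pool.Agent.L3S
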