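import Pool.Agent.L3S.Uni
import Pool.Agent.L3S.Local
import Pool.Agent.L3S.SmallEv

set_option autoImplicit false

/-! Packages T13, T14: the two degenerate types. -/

namespace Pool.Agent.L3S

open NumberField Height Real Module Pool.Agent.LThree

private theorem ty_exp {M H t : ℝ} (hM : 1 ≤ M) (hH : 16 * M ^ 2 ≤ H)
    (ht : |t| ≤ 2 * M * exp (-(H / (2 * M)))) : |exp t - 1| ≤ exp (-(H / (4 * M))) := by
  have hM0 : 0 < M := by linarith
  have h1 : exp (-(H / (2 * M))) = exp (-(H / (4 * M))) * exp (-(H / (4 * M))) := by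
    rw [← Real.exp_add]
    congr 1
    field_simp
    ring
  have h2 : 4 * M * exp (-(H / (4 * M))) ≤ 1 := by
    rw [Real.exp_neg, ← div_eq_mul_inv, div_le_one (exp_pos _)]
    have h3 := Real.add_one_le_exp (H / (4 * M))
    have h4 : 4 * M ≤ H / (4 * M) := by
      rw [le_div_iff₀ (by positivity)]
      nlinarith
    linarith
  set E := exp (-(H / (4 * M))) with hE
  have hE0 : 0 < E := exp_pos _
  rw [h1] at ht
  have h5 : 4 * M * E * E ≤ 1 * E := mul_le_mul_of_nonneg_right h2 hE0.le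
  have hE1 : E ≤ 1 := by nlinarith
  have h6 : |t| ≤ E / 2 := by nlinarith
  have h7 := Real.abs_exp_sub_one_le (x := t) (by linarith)
  linarith

private theorem ty_place {K : Type} [Field K] (v : InfinitePlace K) (x : K) :
    ‖v.embedding x‖ = v x := InfinitePlace.norm_embedding_eq v x

private theorem ty_fo {K : Type} [Field K] (v : InfinitePlace K) (x y : K) (k : Fin 4) :
    ‖fo (v.embedding x) (v.embedding y) k‖ = v (fo x y k) := by
  rw [← ty_place]
  fin_cases k <;> simp [fo]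

private theorem ty_sub (K : Type) [Field K] [NumberField K] (x y : K) :
    logHeight₁ (x - y) ≤ logHeight₁ x + logHeight₁ y + finrank ℚ K := by
  have h1 := logHeight₁_sub_le x y
  rw [totalWeight_eq_finrank] at h1
  have h2 : Real.log 2 ≤ 1 := by
    have := Real.log_le_sub_one_of_pos (x := 2) (by norm_num)
    linarith
  have h3 : (0 : ℝ) ≤ finrank ℚ K := Nat.cast_nonneg _
  nlinarith

private theorem ty_pow {M H : ℝ} (hM : 1 ≤ M) (hH : 2 ≤ H) : 2 * H ^ M ≤ H ^ (8 * M) := by
  have h1 : H ^ (1 + M) ≤ H ^ (8 * M) :=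
    Real.rpow_le_rpow_of_exponent_le (by linarith) (by linarith)
  rw [Real.rpow_add (by linarith), Real.rpow_one] at h1
  have h2 : 0 < H ^ M := Real.rpow_pos_of_pos (by linarith) _
  nlinarith

private theorem ty_dir {M H : ℝ} {K : Type} [Field K] [NumberField K] {x y z : K} {N : ℕ}
    {a b r : Fin 4 → ℤ} (hc : Cfg M H K x y z N a b r) (hH : 0 ≤ H) (k : Fin 4) :
    |dir H N a k| ≤ M := by
  have hN : (0 : ℝ) < N := by exact_mod_cast hc.N0
  unfold dir
  rw [abs_neg, abs_div, abs_mul, abs_of_nonneg hH, abs_of_pos hN, div_le_iff₀ hN]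
  exact hc.ca k

private theorem ty_mass {M M' D : ℝ} {K : Type} [Field K] [NumberField K]
    {p q : InfinitePlace K → Prop} (hM : 0 ≤ M) (hMM : M ≤ M') (h : D ≤ M * mass K p)
    (hpq : ∀ v, p v → q v) : D ≤ M' * mass K q := by
  have h1 := mass_mono K p q hpq
  have h2 : 0 ≤ mass K q := by
    classical
    unfold mass
    refine Finset.sum_nonneg fun v _ => ?_
    split_ifs
    · exact Nat.cast_nonneg _
    · exact le_rfl
  have h3 : M * mass K p ≤ M * mass K q := mul_le_mul_of_nonneg_left h1 hM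
  have h4 : M * mass K q ≤ M' * mass K q := mul_le_mul_of_nonneg_right hMM h2
  linarith

private theorem ty_exp_mono {M M' H : ℝ} (hM : 0 < M) (hMM : M ≤ M') (hH : 0 ≤ H) :
    exp (-(H / M)) ≤ exp (-(H / M')) := by
  refine Real.exp_le_exp.2 (neg_le_neg ?_)
  exact div_le_div_of_nonneg_left hH hM hMM

private theorem ty_li (u : Fin 3 → Fin 4 → ℤ)
    (h : ∀ c0 c1 c2 : ℤ, (∀ k, c0 * u 0 k + c1 * u 1 k + c2 * u 2 k = 0) →
      c0 = 0 ∧ c1 = 0 ∧ c2 = 0) : LinearIndependent ℤ u := by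
  rw [Fintype.linearIndependent_iff]
  intro g hg
  have h1 := h (g 0) (g 1) (g 2) (fun k => by
    have h2 := congrFun hg k
    simpa [Fin.sum_univ_three] using h2)
  intro i
  fin_cases i
  exacts [h1.1, h1.2.1, h1.2.2]

/-- The relation at a good place, in logarithms. -/
private theorem ty_rel {M H : ℝ} {K : Type} [Field K] [NumberField K] {x y z : K} {N : ℕ}
    {a b r : Fin 4 → ℤ} (hc : Cfg M H K x y z N a b r) (v : InfinitePlace K) :
    v x ^ r 0 * v (1 - x) ^ r 1 * (v y ^ r 2 * v (1 - y) ^ r 3) = 1 := by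
  have h := congrArg v hc.rel
  simpa [mo, map_mul, map_zpow₀] using h

/-- **Type I**: `|x| ≈ |y| ≈ 1` at the good places.

Proof. `r 1 a 1 + r 3 a 3 = 0` (`ra`). First suppose `r 1 + r 3 = 0`: then `a 1 = a 3` and at the good
places (`cfg_near`, `equal_sizes`) `|y - x| ≤ C exp (-(H/(4M)))` or `|y - x̄| ≤ C exp (-(H/(4M)))`; in the
second case `|x y - 1| ≤ C' exp (-(H/(4M)))` as `|x| ≈ 1`. `y - x ≠ 0`, `x y - 1 ≠ 0` (`ne`), contradiction
to `not_small` (for one of the two, with `4 M²` or so instead of `M`).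
Otherwise apply `uni` with `X = x`, `Z = y`, exponents `(r 1, r 3, 0)`, `e = b 0`, `e' = b 2` (from `ex`,
`a 0 = a 2 = 0`): `v (1-x)^(r 1) v (1-y)^(r 3) = v x^(-r 0) v y^(-r 2) = 1 + O(exp (-(H/(3M))))` by `rel` and
`cfg_near`. `x y ≠ 1` by `ne`. If `x^m = y^m = 1` then `(1,0,0,0) m`, `(0,0,1,0) m` and `m r` are three
independent relations, against `rank`. Enlarge `M` for the mass condition. -/
theorem type_one (h1 : TwoLog) (h2 : TorsArc) (M : ℝ) (hM : 1 ≤ M) (r : Fin 4 → ℤ) :
    ∃ H2 : ℝ, ∀ (H : ℝ), H2 ≤ H → ∀ (K : Type) [Field K] [NumberField K] (x y z : K) (N : ℕ)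
      (a b : Fin 4 → ℤ), Cfg M H K x y z N a b r → a 0 = 0 → a 2 = 0 →
      r 1 = -2 * r 0 → r 3 = -2 * r 2 → r 0 ≠ 0 → r 2 ≠ 0 → False := by
  have hM0 : 0 < M := by linarith
  obtain ⟨Hn, hnear⟩ := cfg_near M hM
  obtain ⟨C, hC, heq⟩ := equal_sizes M
  obtain ⟨Hs, hsmall⟩ := not_small (8 * M) (by linarith)
  have hU : ∃ Hu : ℝ, r 1 ≠ 0 → r 3 ≠ 0 → r 1 + r 3 ≠ 0 → ∀ (H : ℝ), Hu ≤ H →
      ∀ (K : Type) [Field K] [NumberField K] (X Z z : K) (N : ℕ)
      (e e' : ℤ), X ≠ 0 → Z ≠ 0 → X ≠ 1 → Z ≠ 1 → X * Z ≠ 1 → z ≠ 0 → z ≠ 1 → 0 < N →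
      (N : ℝ) ≤ H ^ (8 * M) → |(e : ℝ)| ≤ H ^ (8 * M) → |(e' : ℝ)| ≤ H ^ (8 * M) →
      X ^ N = (1 - z) ^ e → Z ^ N = (1 - z) ^ e' →
      logHeight₁ X ≤ 8 * M * finrank ℚ K → logHeight₁ Z ≤ 8 * M * finrank ℚ K →
      (finrank ℚ K : ℝ) ≤ 8 * M * mass K (UPl (8 * M) H (r 1) (r 3) 0 X Z z) →
      IntermediateField.adjoin ℚ {X, Z} = ⊤ →
      (¬ ∃ m : ℕ, 0 < m ∧ X ^ m = 1 ∧ Z ^ m = 1) → False := by
    by_cases h : r 1 ≠ 0 ∧ r 3 ≠ 0 ∧ r 1 + r 3 ≠ 0
    · obtain ⟨Hu, hu⟩ := uni h1 h2 (8 * M) (by linarith) (r 1) (r 3) 0 (Or.inl ⟨rfl, h⟩)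
      exact ⟨Hu, fun _ _ _ => hu⟩
    · exact ⟨0, fun ha hb hc => absurd ⟨ha, hb, hc⟩ h⟩
  obtain ⟨Hu, hu⟩ := hU
  refine ⟨max (max Hn Hs) (max Hu (16 * M ^ 2 + 8 * M * (2 * C + 8))), ?_⟩
  intro H hH K _ _ x y z N a b hc ha0 ha2 hr1 hr3 hr0 hr2
  have hHn : Hn ≤ H := (le_max_left _ _).trans ((le_max_left _ _).trans hH)
  have hHs : Hs ≤ H := (le_max_right _ _).trans ((le_max_left _ _).trans hH)
  have hHu : Hu ≤ H := (le_max_left _ _).trans ((le_max_right _ _).trans hH)
  have hHC : 16 * M ^ 2 + 8 * M * (2 * C + 8) ≤ H :=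
    (le_max_right _ _).trans ((le_max_right _ _).trans hH)
  have hCM : 0 < 8 * M * (2 * C + 8) := by positivity
  have hHM : 16 * M ^ 2 ≤ H := by linarith
  have hH16 : 16 ≤ H := by nlinarith
  have hH0 : 0 < H := by linarith
  have hD0 : (0 : ℝ) < finrank ℚ K := by exact_mod_cast (finrank_pos : 0 < finrank ℚ K)
  have hr1' : r 1 ≠ 0 := by omega
  have hr3' : r 3 ≠ 0 := by omega
  have hxy : y ≠ x := fun h => hc.ne (Or.inl h)
  have hxy1 : x * y ≠ 1 := fun h =>
    hc.ne (Or.inr (Or.inr (Or.inl (eq_inv_of_mul_eq_one_right h))))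
  have hra : r 1 * a 1 + r 3 * a 3 = 0 := by
    have h := hc.ra
    rw [Fin.sum_univ_four, ha0, ha2] at h
    linarith
  have hA0 : dir H N a 0 = 0 := by unfold dir; rw [ha0]; simp
  have hA2 : dir H N a 2 = 0 := by unfold dir; rw [ha2]; simp
  have hlog : ∀ v, Pl M H z v → |log (v x)| ≤ exp (-(H / (2 * M))) ∧
      |log (v y)| ≤ exp (-(H / (2 * M))) := by
    intro v hv
    obtain ⟨-, -, h3⟩ := hnear H hHn K x y z N a b r hc v hv
    have e0 := h3 0
    have e2 := h3 2
    rw [ty_fo, hA0, mul_zero, sub_zero] at e0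
    rw [ty_fo, hA2, mul_zero, sub_zero] at e2
    exact ⟨e0, e2⟩
  by_cases h13 : r 1 + r 3 = 0
  · -- the two sizes are equal
    have ha13 : a 1 = a 3 := by
      have h3 : r 3 = -r 1 := by omega
      rw [h3] at hra
      have h4 : r 1 * (a 1 - a 3) = 0 := by linarith
      rcases mul_eq_zero.1 h4 with h5 | h5
      · exact absurd h5 hr1'
      · omega
    have hA13 : dir H N a 1 = dir H N a 3 := by unfold dir; rw [ha13]
    have hE8 : (2 * C + 8) * exp (-(H / (4 * M))) ≤ exp (-(H / (8 * M))) := by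
      have h3 : exp (-(H / (4 * M))) = exp (-(H / (8 * M))) * exp (-(H / (8 * M))) := by
        rw [← Real.exp_add]
        congr 1
        field_simp
        ring
      have h4 : (2 * C + 8) * exp (-(H / (8 * M))) ≤ 1 := by
        rw [Real.exp_neg, ← div_eq_mul_inv, div_le_one (exp_pos _)]
        have h5 := Real.add_one_le_exp (H / (8 * M))
        have h6 : 2 * C + 8 ≤ H / (8 * M) := by
          rw [le_div_iff₀ (by positivity)]
          nlinarith
        linarith
      rw [h3, ← mul_assoc]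
      calc _ ≤ 1 * exp (-(H / (8 * M))) := mul_le_mul_of_nonneg_right h4 (exp_pos _).le
        _ = _ := one_mul _
    have hcase : ∀ v, Pl M H z v →
        v (y - x) ≤ exp (-(H / (8 * M))) ∨ v (x * y - 1) ≤ exp (-(H / (8 * M))) := by
      intro v hv
      obtain ⟨hs1, hs2, h3⟩ := hnear H hHn K x y z N a b r hc v hv
      have hs : |sv H z v| ≤ M := by
        rw [abs_le]
        have : 0 < 1 / M := by positivity
        constructor <;> linarith
      have hρ1 : exp (-(H / (2 * M))) ≤ 1 := by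
        rw [Real.exp_le_one_iff]
        have : 0 < H / (2 * M) := by positivity
        linarith
      have hsq : √(exp (-(H / (2 * M)))) = exp (-(H / (4 * M))) := by
        rw [← Real.exp_half]
        congr 1
        field_simp
        ring
      have hin := v.embedding.injective
      have hx0 : v.embedding x ≠ 0 := fun h => hc.x0 (by simpa using h)
      have hx1 : v.embedding x ≠ 1 := fun h => hc.x1 (hin (by rw [h, map_one]))
      have hy0 : v.embedding y ≠ 0 := fun h => hc.y0 (by simpa using h)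
      have hy1 : v.embedding y ≠ 1 := fun h => hc.y1 (hin (by rw [h, map_one]))
      have h4 := heq (dir H N a) (sv H z v) (exp (-(H / (2 * M)))) (v.embedding x)
        (v.embedding y) (ty_dir hc hH0.le) hs (exp_pos _).le hρ1 hx0 hx1 hy0 hy1
        (by rw [hA0, hA2]) hA13 h3
      rw [hsq] at h4
      have hEp : 0 < exp (-(H / (4 * M))) := exp_pos _
      rcases h4 with h4 | h4
      · left
        rw [← ty_place, map_sub]
        refine h4.trans (le_trans ?_ hE8)
        nlinarith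
      · right
        obtain ⟨hl, -⟩ := hlog v hv
        have hvx : 0 < v x := v.pos_iff.2 hc.x0
        have hm1 : 1 * exp (-(H / (2 * M))) ≤ M * exp (-(H / (2 * M))) :=
          mul_le_mul_of_nonneg_right hM (exp_pos _).le
        have hm0 : 0 < exp (-(H / (2 * M))) := exp_pos _
        have g1 : |exp (2 * log (v x)) - 1| ≤ exp (-(H / (4 * M))) := by
          refine ty_exp hM hHM ?_
          rw [abs_mul, abs_two]
          linarith
        have g2 : |exp (log (v x)) - 1| ≤ exp (-(H / (4 * M))) := by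
          refine ty_exp hM hHM ?_
          linarith
        have g3 : exp (2 * log (v x)) = v x ^ 2 := by
          rw [two_mul, Real.exp_add, Real.exp_log hvx, sq]
        rw [g3] at g1
        rw [Real.exp_log hvx] at g2
        have hE1 : exp (-(H / (4 * M))) ≤ 1 := by
          rw [Real.exp_le_one_iff]
          have : 0 < H / (4 * M) := by positivity
          linarith
        have g4 : v x ≤ 2 := by
          have := (abs_le.1 g2).2
          linarith
        have g5 : v.embedding x * (starRingEnd ℂ) (v.embedding x) = ((v x ^ 2 : ℝ) : ℂ) := by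
          rw [Complex.mul_conj, Complex.normSq_eq_norm_sq, ty_place]
        have g6 : v.embedding (x * y - 1) =
            v.embedding x * (v.embedding y - (starRingEnd ℂ) (v.embedding x)) +
              ((v x ^ 2 - 1 : ℝ) : ℂ) := by
          rw [map_sub, map_mul, map_one, mul_sub, g5]
          push_cast
          ring
        rw [← ty_place, g6]
        refine (norm_add_le _ _).trans ?_
        rw [norm_mul, ty_place, Complex.norm_real, Real.norm_eq_abs]
        have g7 : v x * ‖v.embedding y - (starRingEnd ℂ) (v.embedding x)‖ ≤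
            2 * (C * exp (-(H / (4 * M)))) :=
          mul_le_mul g4 h4 (norm_nonneg _) (by norm_num)
        refine le_trans ?_ hE8
        nlinarith
    have hm := ty_mass hM0.le le_rfl hc.pl hcase
    have hm2 := mass_or_le K (fun v => v (y - x) ≤ exp (-(H / (8 * M))))
      (fun v => v (x * y - 1) ≤ exp (-(H / (8 * M))))
    have hhyx : logHeight₁ (y - x) ≤ 8 * M * finrank ℚ K := by
      have := ty_sub K y x
      have := hc.hx
      have := hc.hy
      nlinarith
    have hhxy : logHeight₁ (x * y - 1) ≤ 8 * M * finrank ℚ K := by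
      have := ty_sub K (x * y) 1
      have := logHeight₁_mul_le x y
      have := hc.hx
      have := hc.hy
      rw [logHeight₁_one] at *
      nlinarith
    by_contra
    rcases le_total (mass K (fun v => v (y - x) ≤ exp (-(H / (8 * M)))))
        (mass K (fun v => v (x * y - 1) ≤ exp (-(H / (8 * M))))) with h | h
    · refine hsmall H hHs K (x * y - 1) (sub_ne_zero.2 hxy1) hhxy ?_
      nlinarith
    · refine hsmall H hHs K (y - x) (sub_ne_zero.2 hxy) hhyx ?_
      nlinarith
  · -- two numbers which are nearly roots of unity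
    have hHM' : H ^ M ≤ H ^ (8 * M) :=
      Real.rpow_le_rpow_of_exponent_le (by linarith) (by linarith)
    refine hu hr1' hr3' h13 H hHu K x y z N (b 0) (b 2) hc.x0 hc.y0 hc.x1 hc.y1 hxy1 hc.z0 hc.z1
      hc.N0 (hc.NH.trans hHM') ((hc.bH 0).trans hHM') ((hc.bH 2).trans hHM') ?_ ?_ ?_ ?_ ?_
      hc.gen ?_
    · have h3 := hc.ex 0
      rw [ha0, zpow_zero, one_mul] at h3
      exact h3
    · have h3 := hc.ex 2
      rw [ha2, zpow_zero, one_mul] at h3
      exact h3
    · have := hc.hx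
      nlinarith
    · have := hc.hy
      nlinarith
    · refine ty_mass hM0.le (by linarith) hc.pl fun v hv => ⟨?_, ?_⟩
      · exact hv.2.trans (ty_exp_mono hM0 (by linarith) hH0.le)
      · obtain ⟨hlx, hly⟩ := hlog v hv
        have hvx : 0 < v x := v.pos_iff.2 hc.x0
        have hvy : 0 < v y := v.pos_iff.2 hc.y0
        have h3 := ty_rel hc v
        have h4 : v (1 - x) ^ r 1 * v (1 - y) ^ r 3 * v (1 - x * y) ^ (0 : ℤ) =
            exp (-(r 0 * log (v x) + r 2 * log (v y))) := by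
          have e0 : exp (r 0 * log (v x)) = v x ^ r 0 := by
            rw [← Real.log_zpow, Real.exp_log (zpow_pos hvx _)]
          have e2 : exp (r 2 * log (v y)) = v y ^ r 2 := by
            rw [← Real.log_zpow, Real.exp_log (zpow_pos hvy _)]
          rw [Real.exp_neg, Real.exp_add, e0, e2, zpow_zero, mul_one]
          refine eq_inv_of_mul_eq_one_right ?_
          rw [← h3]
          ring
        rw [h4]
        refine (ty_exp hM hHM ?_).trans (by
          exact ty_exp_mono (by linarith) (by linarith) hH0.le)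
        rw [abs_neg]
        refine (abs_add_le _ _).trans ?_
        rw [abs_mul, abs_mul]
        have h5 : |(r 0 : ℝ)| * |log (v x)| ≤ M * exp (-(H / (2 * M))) :=
          mul_le_mul (hc.rM 0) hlx (abs_nonneg _) hM0.le
        have h6 : |(r 2 : ℝ)| * |log (v y)| ≤ M * exp (-(H / (2 * M))) :=
          mul_le_mul (hc.rM 2) hly (abs_nonneg _) hM0.le
        linarith
    · rintro ⟨m, hm, hxm, hym⟩
      have hm' : (m : ℤ) ≠ 0 := by exact_mod_cast hm.ne'
      refine hc.rank ![![(m : ℤ), 0, 0, 0], ![0, 0, (m : ℤ), 0], r] (ty_li _ ?_) ?_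
      · intro c0 c1 c2 h
        have e0 := h 0
        have e1 := h 1
        have e2 := h 2
        simp at e0 e1 e2
        have hc2 : c2 = 0 := by
          rcases e1 with e1 | e1
          · exact e1
          · exact absurd e1 hr1'
        rw [hc2] at e0 e2
        simp at e0 e2
        refine ⟨?_, ?_, hc2⟩
        · rcases e0 with e0 | e0
          · exact e0
          · omega
        · rcases e2 with e2 | e2
          · exact e2
          · omega
      · intro t
        fin_cases t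
        · simp [mo, hxm]
        · simp [mo, hym]
        · exact hc.rel

/-- **Type II**: `y ≈ x̄` at places of large mass and `x^(r 0) (1-x)^(r 1) y^(r 0) (1-y)^(r 1) = 1`.

Proof. `uni` with `X = x / y`, `Z = (1 - y) / (1 - x)`, exponents `(r 1, r 0, -(r 0 + r 1))`: identities
`(1 - Z) / (1 - X Z) = y`, `(1 - X) / (1 - X Z) = 1 - x` (where `X Z ≠ 1`, `x ≠ y`: `X Z = 1` means
`x (1 - y) = y (1 - x)`, `x = y`), so `x, y ∈ ℚ(X, Z)` and
`v (1-X)^(r 1) v (1-Z)^(r 0) v (1-XZ)^(-(r 0 + r 1)) = v (1-x)^(r 1) v y^(r 0)`, and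
`v y ≈ v x ≈ exp (s A 0)`, `v (1-x) ≈ exp (s A 1)` with `r 0 A 0 + r 1 A 1 = 0`: it is
`1 + O(exp (-(H/(3M))))`. `X^N = z^(a 0 - a 2) (1-z)^(b 0 - b 2) = (1-z)^(b 0 - b 2)`,
`Z^N = (1-z)^(b 3 - b 1)`. `X ≠ 1`, `Z ≠ 1` as `x ≠ y`. If `X^m = Z^m = 1` then `(1,0,-1,0) m`,
`(0,-1,0,1) m` and `m r` are three independent relations, `r = (r 0, r 1, r 0, r 1) ≠ 0`.
(The conjugates are not needed any more in this step: only the mass of the good places.) -/
theorem type_two (h1 : TwoLog) (h2 : TorsArc) (M : ℝ) (hM : 1 ≤ M) (r : Fin 4 → ℤ) :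
    ∃ H2 : ℝ, ∀ (H : ℝ), H2 ≤ H → ∀ (K : Type) [Field K] [NumberField K] (x y z : K) (N : ℕ)
      (a b : Fin 4 → ℤ), Cfg M H K x y z N a b r → a 0 = a 2 → a 1 = a 3 →
      r 2 = r 0 → r 3 = r 1 → r 0 * a 0 + r 1 * a 1 = 0 →
      r 0 ≠ 0 → r 1 ≠ 0 → r 0 + r 1 ≠ 0 → False := by
  have hM0 : 0 < M := by linarith
  by_cases hr0 : r 0 = 0
  · exact ⟨0, fun H _ K _ _ x y z N a b _ _ _ _ _ _ h _ _ => h hr0⟩
  by_cases hr1 : r 1 = 0
  · exact ⟨0, fun H _ K _ _ x y z N a b _ _ _ _ _ _ _ h _ => h hr1⟩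
  by_cases hr01 : r 0 + r 1 = 0
  · exact ⟨0, fun H _ K _ _ x y z N a b _ _ _ _ _ _ _ _ h => h hr01⟩
  obtain ⟨Hn, hnear⟩ := cfg_near M hM
  obtain ⟨Hu, hu⟩ := uni h1 h2 (8 * M) (by linarith) (r 1) (r 0) (-(r 0 + r 1))
    (Or.inr ⟨by ring, hr1, hr0, neg_ne_zero.2 hr01⟩)
  refine ⟨max Hn (max Hu (16 * M ^ 2)), ?_⟩
  intro H hH K _ _ x y z N a b hc ha02 ha13 hr2 hr3 hra _ _ _
  have hHn : Hn ≤ H := (le_max_left _ _).trans hH
  have hHu : Hu ≤ H := (le_max_left _ _).trans ((le_max_right _ _).trans hH)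
  have hHM : 16 * M ^ 2 ≤ H := (le_max_right _ _).trans ((le_max_right _ _).trans hH)
  have hH16 : 16 ≤ H := by nlinarith
  have hH0 : 0 < H := by linarith
  have hD0 : (0 : ℝ) < finrank ℚ K := by exact_mod_cast (finrank_pos : 0 < finrank ℚ K)
  have hxy : y ≠ x := fun h => hc.ne (Or.inl h)
  have hyx : y - x ≠ 0 := sub_ne_zero.2 hxy
  have hx1 : 1 - x ≠ 0 := sub_ne_zero.2 (Ne.symm hc.x1)
  have hy1 : 1 - y ≠ 0 := sub_ne_zero.2 (Ne.symm hc.y1)
  have hz1 : 1 - z ≠ 0 := sub_ne_zero.2 (Ne.symm hc.z1)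
  have hx0 := hc.x0
  have hy0 := hc.y0
  have eX : 1 - x / y = (y - x) / y := by field_simp
  have eZ : 1 - (1 - y) / (1 - x) = (y - x) / (1 - x) := by
    field_simp
    ring
  have eXZ : 1 - x / y * ((1 - y) / (1 - x)) = (y - x) / (y * (1 - x)) := by
    field_simp
    ring
  have hHM' : 2 * H ^ M ≤ H ^ (8 * M) := ty_pow hM (by linarith)
  have hHp : 0 < H ^ M := Real.rpow_pos_of_pos hH0 _
  refine hu H hHu K (x / y) ((1 - y) / (1 - x)) z N (b 0 - b 2) (b 3 - b 1)
    (div_ne_zero hx0 hy0) (div_ne_zero hy1 hx1) ?_ ?_ ?_ hc.z0 hc.z1 hc.N0 ?_ ?_ ?_ ?_ ?_ ?_ ?_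
    ?_ ?_ ?_
  · intro h
    rw [div_eq_one_iff_eq hy0] at h
    exact hxy h.symm
  · intro h
    rw [div_eq_one_iff_eq hx1] at h
    exact hxy (by linear_combination -h)
  · intro h
    rw [h, sub_self] at eXZ
    exact (div_ne_zero hyx (mul_ne_zero hy0 hx1)) eXZ.symm
  · have := hc.NH
    linarith
  · push_cast
    refine (abs_sub _ _).trans ?_
    have := hc.bH 0
    have := hc.bH 2
    linarith
  · push_cast
    refine (abs_sub _ _).trans ?_
    have := hc.bH 3
    have := hc.bH 1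
    linarith
  · have e0 : x ^ N = z ^ a 0 * (1 - z) ^ b 0 := hc.ex 0
    have e2 : y ^ N = z ^ a 2 * (1 - z) ^ b 2 := hc.ex 2
    rw [div_pow, e0, e2, ha02, zpow_sub₀ hz1]
    have := zpow_ne_zero (a 2) hc.z0
    have := zpow_ne_zero (b 2) hz1
    field_simp
  · have e0 : (1 - y) ^ N = z ^ a 3 * (1 - z) ^ b 3 := hc.ex 3
    have e2 : (1 - x) ^ N = z ^ a 1 * (1 - z) ^ b 1 := hc.ex 1
    rw [div_pow, e0, e2, ha13, zpow_sub₀ hz1]
    have := zpow_ne_zero (a 3) hc.z0
    have := zpow_ne_zero (b 1) hz1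
    field_simp
  · have h3 := logHeight₁_mul_le x y⁻¹
    rw [logHeight₁_inv] at h3
    have := hc.hx
    have := hc.hy
    rw [div_eq_mul_inv]
    nlinarith
  · have h3 := logHeight₁_mul_le (1 - y) (1 - x)⁻¹
    rw [logHeight₁_inv] at h3
    have h4 := ty_sub K 1 y
    have h5 := ty_sub K 1 x
    rw [logHeight₁_one] at h4 h5
    have := hc.hx
    have := hc.hy
    rw [div_eq_mul_inv]
    nlinarith
  · refine ty_mass hM0.le (by linarith) hc.pl fun v hv => ⟨?_, ?_⟩
    · exact hv.2.trans (ty_exp_mono hM0 (by linarith) hH0.le)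
    · obtain ⟨-, -, h3⟩ := hnear H hHn K x y z N a b r hc v hv
      have l1 := h3 1
      have l2 := h3 2
      rw [ty_fo] at l1 l2
      have l1' : |log (v (1 - x)) - sv H z v * dir H N a 1| ≤ exp (-(H / (2 * M))) := l1
      have l2' : |log (v y) - sv H z v * dir H N a 2| ≤ exp (-(H / (2 * M))) := l2
      have hvy : 0 < v y := v.pos_iff.2 hy0
      have hvx : 0 < v (1 - x) := v.pos_iff.2 hx1
      have hvd : 0 < v (y - x) := v.pos_iff.2 hyx
      have hN : (0 : ℝ) < N := by exact_mod_cast hc.N0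
      have hrad : (r 1 : ℝ) * dir H N a 1 + r 0 * dir H N a 2 = 0 := by
        unfold dir
        have h4 : (r 0 : ℝ) * a 2 + r 1 * a 1 = 0 := by
          rw [ha02] at hra
          exact_mod_cast hra
        have h5 : (r 1 : ℝ) * (-(a 1 * H / N)) + r 0 * (-(a 2 * H / N)) =
            -(r 0 * a 2 + r 1 * a 1) * H / N := by ring
        rw [h5, h4]
        simp
      have h4 : v (1 - x / y) ^ r 1 * v (1 - (1 - y) / (1 - x)) ^ r 0 *
          v (1 - x / y * ((1 - y) / (1 - x))) ^ (-(r 0 + r 1)) =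
          exp (r 1 * log (v (1 - x)) + r 0 * log (v y)) := by
        have e1 : exp (r 1 * log (v (1 - x))) = v (1 - x) ^ r 1 := by
          rw [← Real.log_zpow, Real.exp_log (zpow_pos hvx _)]
        have e0 : exp (r 0 * log (v y)) = v y ^ r 0 := by
          rw [← Real.log_zpow, Real.exp_log (zpow_pos hvy _)]
        rw [Real.exp_add, e0, e1, eX, eZ, eXZ, map_div₀, map_div₀, map_div₀, map_mul, div_zpow,
          div_zpow, div_zpow, mul_zpow, zpow_neg, zpow_neg, zpow_neg, zpow_add₀ hvd.ne',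
          zpow_add₀ hvy.ne', zpow_add₀ hvx.ne']
        have := zpow_ne_zero (r 0) hvd.ne'
        have := zpow_ne_zero (r 1) hvd.ne'
        have := zpow_ne_zero (r 0) hvy.ne'
        have := zpow_ne_zero (r 1) hvy.ne'
        have := zpow_ne_zero (r 0) hvx.ne'
        have := zpow_ne_zero (r 1) hvx.ne'
        field_simp
      rw [h4]
      refine (ty_exp hM hHM ?_).trans (ty_exp_mono (by linarith) (by linarith) hH0.le)
      have h5 : (r 1 : ℝ) * log (v (1 - x)) + r 0 * log (v y) =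
          r 1 * (log (v (1 - x)) - sv H z v * dir H N a 1) +
            r 0 * (log (v y) - sv H z v * dir H N a 2) := by
        linear_combination (sv H z v) * hrad
      rw [h5]
      refine (abs_add_le _ _).trans ?_
      rw [abs_mul, abs_mul]
      have h6 : |(r 1 : ℝ)| * |log (v (1 - x)) - sv H z v * dir H N a 1| ≤
          M * exp (-(H / (2 * M))) := mul_le_mul (hc.rM 1) l1' (abs_nonneg _) hM0.le
      have h7 : |(r 0 : ℝ)| * |log (v y) - sv H z v * dir H N a 2| ≤
          M * exp (-(H / (2 * M))) := mul_le_mul (hc.rM 0) l2' (abs_nonneg _) hM0.le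
      linarith
  · rw [eq_top_iff, ← hc.gen, IntermediateField.adjoin_le_iff]
    set F := IntermediateField.adjoin ℚ ({x / y, (1 - y) / (1 - x)} : Set K) with hF
    have hX : x / y ∈ F := IntermediateField.subset_adjoin ℚ _ (Or.inl rfl)
    have hZ : (1 - y) / (1 - x) ∈ F := IntermediateField.subset_adjoin ℚ _ (Or.inr rfl)
    have hXZ : 1 - x / y * ((1 - y) / (1 - x)) ∈ F := F.sub_mem F.one_mem (F.mul_mem hX hZ)
    have hy : y ∈ F := by
      have h3 : y = (1 - (1 - y) / (1 - x)) / (1 - x / y * ((1 - y) / (1 - x))) := by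
        rw [eZ, eXZ]
        field_simp
      rw [h3]
      exact F.div_mem (F.sub_mem F.one_mem hZ) hXZ
    have hx : x ∈ F := by
      have h3 : x = x / y * y := by field_simp
      rw [h3]
      exact F.mul_mem hX hy
    rintro t (ht | ht)
    · rw [ht]
      exact hx
    · rw [Set.mem_singleton_iff.1 ht]
      exact hy
  · rintro ⟨m, hm, hXm, hZm⟩
    have hm' : (m : ℤ) ≠ 0 := by exact_mod_cast hm.ne'
    refine hc.rank ![![(m : ℤ), 0, -(m : ℤ), 0], ![0, -(m : ℤ), 0, (m : ℤ)], r] (ty_li _ ?_) ?_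
    · intro c0 c1 c2 h
      have e0 := h 0
      have e1 := h 1
      have e2 := h 2
      simp at e0 e1 e2
      rw [hr2] at e2
      have hc2 : c2 = 0 := by
        have h3 : c2 * r 0 = 0 := by linarith
        rcases mul_eq_zero.1 h3 with h4 | h4
        · exact h4
        · exact absurd h4 hr0
      rw [hc2] at e0 e1
      simp at e0 e1
      refine ⟨?_, ?_, hc2⟩
      · rcases e0 with e0 | e0
        · exact e0
        · omega
      · rcases e1 with e1 | e1
        · exact e1
        · omega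
    · intro t
      fin_cases t
      · have h3 : x ^ m = y ^ m := by
          rw [div_pow, div_eq_one_iff_eq (pow_ne_zero _ hy0)] at hXm
          exact hXm
        simp [mo, h3, pow_ne_zero m hy0]
      · have h3 : (1 - y) ^ m = (1 - x) ^ m := by
          rw [div_pow, div_eq_one_iff_eq (pow_ne_zero _ hx1)] at hZm
          exact hZm
        simp [mo, h3, pow_ne_zero m hx1]
      · exact hc.rel

end Pool.Agent.L3S
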