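import Pool.Agent.L3S.Degree

set_option autoImplicit false

/-! Package T12: two numbers which are nearly roots of unity on a fixed curve. -/

namespace Pool.Agent.L3S

open NumberField Height Real Module Pool.Agent.LThree

/-- The lower bound for `g ^ n - 1` (package of helper95). -/
def TwoLog : Prop := ∀ H0 : ℝ, ∃ C : ℝ, 0 < C ∧
  ∀ (K : Type) [Field K] [NumberField K] (g : K), logHeight₁ g ≤ H0 * finrank ℚ K →
    (¬ ∃ m : ℕ, 0 < m ∧ g ^ m = 1) → ∀ (v : InfinitePlace K) (n : ℕ), 2 ≤ n →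
    exp (-(C * (finrank ℚ K * log (n + 1)) ^ C)) ≤ v (g ^ n - 1)

/-- The admissible exponents of the curve `|1 - X| ^ a |1 - Z| ^ b |1 - X Z| ^ c = 1`. -/
def Adm (a b c : ℤ) : Prop :=
  (c = 0 ∧ a ≠ 0 ∧ b ≠ 0 ∧ a + b ≠ 0) ∨ (c = -(a + b) ∧ a ≠ 0 ∧ b ≠ 0 ∧ c ≠ 0)

/-- The primitive `N`-th root of unity `exp (2 π i / N)` to the power `k`. -/
noncomputable def rt (N k : ℕ) : ℂ := Complex.exp (2 * π * Complex.I / N) ^ k

/-- Few pairs of `N`-th roots of unity near a fixed curve (package of helper95,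
`Pool.Agent.Flat3.tors_arc`). -/
def TorsArc : Prop := ∀ a b c : ℤ, Adm a b c → ∀ δ ε : ℝ, 0 < δ → 0 < ε →
  ∃ C : ℝ, 0 < C ∧ ∀ N : ℕ, 1 ≤ N → ∀ P : Finset (ℕ × ℕ),
    (∀ p ∈ P, p.1 < N ∧ p.2 < N ∧ δ ≤ ‖1 - rt N p.1‖ ∧ δ ≤ ‖1 - rt N p.2‖ ∧
      δ ≤ ‖1 - rt N (p.1 + p.2)‖ ∧
      |‖1 - rt N p.1‖ ^ a * ‖1 - rt N p.2‖ ^ b * ‖1 - rt N (p.1 + p.2)‖ ^ c - 1| * C *
        (N : ℝ) ^ C ≤ 1) →
    (P.card : ℝ) ≤ C * (N : ℝ) ^ ε

/-- The places used for the pair `X, Z`. -/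
def UPl {K : Type} [Field K] (M H : ℝ) (a b c : ℤ) (X Z z : K) (v : InfinitePlace K) : Prop :=
  v z ≤ exp (-(H / M)) ∧
    |v (1 - X) ^ a * v (1 - Z) ^ b * v (1 - X * Z) ^ c - 1| ≤ exp (-(H / M))

private theorem un_exp (z : ℂ) (hz : ‖z‖ ≤ 1 / 2) (e : ℤ) :
    ∃ w : ℂ, (1 - z) ^ e = Complex.exp w ∧ ‖w‖ ≤ 2 * |(e : ℝ)| * ‖z‖ := by
  refine ⟨e * Complex.log (1 - z), ?_, ?_⟩
  · rw [Complex.exp_int_mul, Complex.exp_log]
    intro h
    have h1 : z = 1 := (sub_eq_zero.1 h).symm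
    rw [h1] at hz
    norm_num at hz
  · rw [norm_mul]
    have h1 := Complex.norm_log_one_add_half_le_self (z := -z) (by rwa [norm_neg])
    rw [← sub_eq_add_neg, norm_neg] at h1
    have h2 : ‖((e : ℤ) : ℂ)‖ = |(e : ℝ)| := Complex.norm_intCast e
    rw [h2]
    have h3 := abs_nonneg (e : ℝ)
    have h4 := norm_nonneg z
    nlinarith [mul_nonneg h3 h4]

private theorem norm_rt (N k : ℕ) : ‖rt N k‖ = 1 := by
  unfold rt
  rw [norm_pow]
  have h1 : (2 * π * Complex.I / N : ℂ) = ((2 * π / N : ℝ) : ℂ) * Complex.I := by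
    push_cast
    ring
  rw [h1, Complex.norm_exp_ofReal_mul_I, one_pow]

private theorem rt_add (N k l : ℕ) : rt N (k + l) = rt N k * rt N l := pow_add _ _ _

private theorem un_root (ξ z : ℂ) (hz : ‖z‖ ≤ 1 / 2) (N : ℕ) (hN : 0 < N) (e : ℤ)
    (he : 2 * |(e : ℝ)| * ‖z‖ ≤ 1) (h : ξ ^ N = (1 - z) ^ e) :
    ∃ k < N, ‖ξ - rt N k‖ ≤ 4 * |(e : ℝ)| * ‖z‖ := by
  obtain ⟨w, hw, hw1⟩ := un_exp z hz e
  have hN0 : (N : ℂ) ≠ 0 := Nat.cast_ne_zero.2 hN.ne'
  have hu : Complex.exp (w / N) ^ N = Complex.exp w := by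
    rw [← Complex.exp_nat_mul, mul_div_cancel₀ _ hN0]
  have hu0 : Complex.exp (w / N) ≠ 0 := Complex.exp_ne_zero _
  have h1 : (ξ / Complex.exp (w / N)) ^ N = 1 := by
    rw [div_pow, h, hw, hu, div_self (Complex.exp_ne_zero _)]
  have : NeZero N := ⟨hN.ne'⟩
  obtain ⟨k, hk, hk1⟩ := (Complex.isPrimitiveRoot_exp N hN.ne').eq_pow_of_pow_eq_one h1
  refine ⟨k, hk, ?_⟩
  have h2 : ξ - rt N k = rt N k * (Complex.exp (w / N) - 1) := by
    have h3 : rt N k = ξ / Complex.exp (w / N) := hk1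
    rw [h3]
    field_simp
  rw [h2, norm_mul, norm_rt, one_mul]
  have h4 : ‖w / N‖ ≤ ‖w‖ := by
    rw [norm_div, Complex.norm_natCast]
    exact div_le_self (norm_nonneg _) (by exact_mod_cast hN)
  have h5 := Complex.norm_exp_sub_one_le (x := w / N) (by linarith)
  linarith

private theorem un_pow (z : ℂ) (hz : ‖z‖ ≤ 1 / 2) (e : ℤ) (he : 2 * |(e : ℝ)| * ‖z‖ ≤ 1) :
    ‖(1 - z) ^ e - 1‖ ≤ 4 * |(e : ℝ)| * ‖z‖ := by
  obtain ⟨w, hw, hw1⟩ := un_exp z hz e
  rw [hw]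
  have h5 := Complex.norm_exp_sub_one_le (x := w) (by linarith)
  linarith

private theorem un_log (δ A A' : ℝ) (hδ : 0 < δ) (h : δ ≤ A) (h' : δ ≤ A') :
    |log A - log A'| ≤ |A - A'| / δ := by
  have hA : 0 < A := hδ.trans_le h
  have hA' : 0 < A' := hδ.trans_le h'
  have key : ∀ x y : ℝ, δ ≤ x → δ ≤ y → log x - log y ≤ |x - y| / δ := by
    intro x y hx hy
    have hx0 : 0 < x := hδ.trans_le hx
    have hy0 : 0 < y := hδ.trans_le hy
    rw [← Real.log_div hx0.ne' hy0.ne']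
    refine (Real.log_le_sub_one_of_pos (div_pos hx0 hy0)).trans ?_
    have h1 : x / y - 1 = (x - y) / y := by field_simp
    rw [h1]
    refine (div_le_div_of_nonneg_right (le_abs_self _) hy0.le).trans ?_
    exact div_le_div_of_nonneg_left (abs_nonneg _) hδ hy
  rw [abs_le]
  constructor
  · have h2 := key A' A h' h
    rw [abs_sub_comm] at h2
    linarith
  · exact key A A' h h'

/-- The three powers at two near points. -/
private theorem un_prod (δ η : ℝ) (hδ : 0 < δ) (hη1 : η ≤ 1) (a b c : ℤ)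
    (A A' B B' C C' : ℝ)
    (hA : δ ≤ A) (hA' : δ ≤ A') (hB : δ ≤ B) (hB' : δ ≤ B') (hC : δ ≤ C) (hC' : δ ≤ C')
    (dA : |A - A'| ≤ 3 * η) (dB : |B - B'| ≤ 3 * η) (dC : |C - C'| ≤ 3 * η)
    (hs : (|(a : ℝ)| + |(b : ℝ)| + |(c : ℝ)|) * (3 * η / δ) ≤ 1)
    (h : |A' ^ a * B' ^ b * C' ^ c - 1| ≤ η) :
    |A ^ a * B ^ b * C ^ c - 1| ≤ η + 4 * ((|(a : ℝ)| + |(b : ℝ)| + |(c : ℝ)|) * (3 * η / δ)) := by
  have pA : 0 < A := hδ.trans_le hA
  have pA' : 0 < A' := hδ.trans_le hA'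
  have pB : 0 < B := hδ.trans_le hB
  have pB' : 0 < B' := hδ.trans_le hB'
  have pC : 0 < C := hδ.trans_le hC
  have pC' : 0 < C' := hδ.trans_le hC'
  have lA : |log A - log A'| ≤ 3 * η / δ :=
    (un_log δ A A' hδ hA hA').trans (div_le_div_of_nonneg_right dA hδ.le)
  have lB : |log B - log B'| ≤ 3 * η / δ :=
    (un_log δ B B' hδ hB hB').trans (div_le_div_of_nonneg_right dB hδ.le)
  have lC : |log C - log C'| ≤ 3 * η / δ :=
    (un_log δ C C' hδ hC hC').trans (div_le_div_of_nonneg_right dC hδ.le)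
  set w : ℝ := a * (log A - log A') + b * (log B - log B') + c * (log C - log C') with hw
  have hw1 : |w| ≤ (|(a : ℝ)| + |(b : ℝ)| + |(c : ℝ)|) * (3 * η / δ) := by
    have h1 := abs_add_le (a * (log A - log A') + b * (log B - log B')) (c * (log C - log C'))
    have h2 := abs_add_le (a * (log A - log A')) (b * (log B - log B'))
    rw [abs_mul, abs_mul (b : ℝ)] at h2
    rw [abs_mul (c : ℝ)] at h1
    have h3 := mul_le_mul_of_nonneg_left lA (abs_nonneg (a : ℝ))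
    have h4 := mul_le_mul_of_nonneg_left lB (abs_nonneg (b : ℝ))
    have h5 := mul_le_mul_of_nonneg_left lC (abs_nonneg (c : ℝ))
    rw [hw]
    linarith
  have hP : A ^ a * B ^ b * C ^ c = A' ^ a * B' ^ b * C' ^ c * exp w := by
    have e1 : ∀ (x : ℝ) (n : ℤ), 0 < x → x ^ n = exp (n * log x) := by
      intro x n hx
      rw [← Real.rpow_intCast, Real.rpow_def_of_pos hx, mul_comm]
    rw [e1 A a pA, e1 B b pB, e1 C c pC, e1 A' a pA', e1 B' b pB', e1 C' c pC', ← exp_add,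
      ← exp_add, ← exp_add, ← exp_add, ← exp_add, hw]
    congr 1
    ring
  have h6 := Real.abs_exp_sub_one_le (x := w) (hw1.trans hs)
  have h7 : |A' ^ a * B' ^ b * C' ^ c| ≤ 2 := by
    rw [abs_le] at h ⊢
    constructor <;> linarith [h.1, h.2]
  rw [hP]
  have h8 : A' ^ a * B' ^ b * C' ^ c * exp w - 1 = (A' ^ a * B' ^ b * C' ^ c - 1) +
      A' ^ a * B' ^ b * C' ^ c * (exp w - 1) := by ring
  rw [h8]
  refine (abs_add_le _ _).trans ?_
  rw [abs_mul]
  have h9 : |A' ^ a * B' ^ b * C' ^ c| * |exp w - 1| ≤ 2 * (2 * |w|) :=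
    mul_le_mul h7 h6 (abs_nonneg _) (by norm_num)
  linarith

/-- The threshold. -/
private theorem un_ev (M δ S C₁ C₂ C s : ℝ) (hM : 1 ≤ M) (hδ : 0 < δ) (hs : 0 < s) (hC₂ : 0 < C₂)
    (hs1 : s ≤ 1 / 2) (hs2 : 3 * s * C₂ ≤ 1 / 2) (hC : 0 ≤ C) (hC₁ : 0 ≤ C₁) (hS : 0 ≤ S) :
    ∃ H2 : ℝ, ∀ H, H2 ≤ H → 1 ≤ H ∧ exp (-(H / M)) ≤ 1 / 2 ∧
      16 * H ^ M * exp (-(H / M)) ≤ exp (-(H / (2 * M))) ∧ 3 * exp (-(H / (2 * M))) ≤ δ ∧
      S * (3 * exp (-(H / (2 * M))) / δ) ≤ 1 ∧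
      (exp (-(H / (2 * M))) + 4 * (S * (3 * exp (-(H / (2 * M))) / δ))) * C₁ * (H ^ M) ^ C₁ ≤ 1 ∧
      C * (C₁ * H ^ s + 1) ≤ H / (2 * M) ∧ log (2 * H ^ M + 1) ≤ H ^ s ∧
      C₂ * ((C * (C₁ * H ^ s + 1)) ^ 2 * H ^ s) ^ C₂ < H / (2 * M) := by
  have hM0 : 0 < M := by linarith
  have hb : 0 < 1 / (2 * M) := by positivity
  have hex : ∀ H : ℝ, exp (-(1 / (2 * M)) * H) = exp (-(H / (2 * M))) := by
    intro H
    congr 1
    ring
  have T : ∀ (r κ : ℝ), 0 < κ → ∀ᶠ H in Filter.atTop, H ^ r * exp (-(H / (2 * M))) ≤ κ := by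
    intro r κ hκ
    have h := tendsto_rpow_mul_exp_neg_mul_atTop_nhds_zero r (1 / (2 * M)) hb
    have h1 := h.eventually (Iic_mem_nhds hκ)
    filter_upwards [h1] with H hH
    rw [hex] at hH
    exact hH
  have T' : ∀ (r κ : ℝ), 0 < r → ∀ᶠ H : ℝ in Filter.atTop, κ < H ^ r := by
    intro r κ hr
    exact (tendsto_rpow_atTop hr).eventually (Filter.eventually_gt_atTop κ)
  have key : ∀ᶠ H : ℝ in Filter.atTop, 1 ≤ H ∧ exp (-(H / M)) ≤ 1 / 2 ∧
      16 * H ^ M * exp (-(H / M)) ≤ exp (-(H / (2 * M))) ∧ 3 * exp (-(H / (2 * M))) ≤ δ ∧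
      S * (3 * exp (-(H / (2 * M))) / δ) ≤ 1 ∧
      (exp (-(H / (2 * M))) + 4 * (S * (3 * exp (-(H / (2 * M))) / δ))) * C₁ * (H ^ M) ^ C₁ ≤ 1 ∧
      C * (C₁ * H ^ s + 1) ≤ H / (2 * M) ∧ log (2 * H ^ M + 1) ≤ H ^ s ∧
      C₂ * ((C * (C₁ * H ^ s + 1)) ^ 2 * H ^ s) ^ C₂ < H / (2 * M) := by
    have hL : 0 < (1 + 4 * (S * (3 / δ))) * (C₁ + 1) := by positivity
    filter_upwards [Filter.eventually_ge_atTop (1 : ℝ), T 0 (1 / 2) (by norm_num),
      T M (1 / 16) (by norm_num), T 0 (δ / 3) (by positivity),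
      T 0 (1 / (S * (3 / δ) + 1)) (by positivity),
      T (M * C₁) (1 / ((1 + 4 * (S * (3 / δ))) * (C₁ + 1))) (by positivity),
      T' (1 / 2) (2 * M * (C * (C₁ + 1))) (by norm_num),
      T' (s / 2) (2 + 2 * M / s) (by positivity),
      T' (1 / 2) (2 * M * (C₂ * ((C * (C₁ + 1)) ^ 2) ^ C₂)) (by norm_num)]
      with H e1 e2 e3 e4 e5 e6 e7 e8 e9
    have hH0 : 0 < H := by linarith
    set η : ℝ := exp (-(H / (2 * M))) with hη
    have hη0 : 0 < η := exp_pos _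
    have hη2 : exp (-(H / M)) = η * η := by
      rw [hη, ← exp_add]
      congr 1
      field_simp
      ring
    rw [Real.rpow_zero, one_mul] at e2 e4 e5
    have hHs : 1 ≤ H ^ s := Real.one_le_rpow e1 hs.le
    have hK : C * (C₁ * H ^ s + 1) ≤ C * (C₁ + 1) * H ^ s := by
      have : C₁ * H ^ s + 1 ≤ (C₁ + 1) * H ^ s := by linarith
      calc C * (C₁ * H ^ s + 1) ≤ C * ((C₁ + 1) * H ^ s) := mul_le_mul_of_nonneg_left this hC
        _ = _ := by ring
    have hHh : H ^ s ≤ H ^ (1 / 2 : ℝ) := Real.rpow_le_rpow_of_exponent_le e1 hs1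
    have hHH : H ^ (1 / 2 : ℝ) * H ^ (1 / 2 : ℝ) = H := by
      rw [← Real.rpow_add hH0]
      norm_num
    have hHp : 0 < H ^ (1 / 2 : ℝ) := Real.rpow_pos_of_pos hH0 _
    refine ⟨e1, ?_, ?_, by linarith, ?_, ?_, ?_, ?_, ?_⟩
    · rw [hη2]
      calc η * η ≤ 1 / 2 * (1 / 2) := mul_le_mul e2 e2 hη0.le (by norm_num)
        _ ≤ 1 / 2 := by norm_num
    · rw [hη2]
      have : H ^ M * η * η ≤ 1 / 16 * η := mul_le_mul_of_nonneg_right e3 hη0.le
      linarith
    · have h1 : 0 < S * (3 / δ) + 1 := by positivity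
      rw [le_div_iff₀ h1] at e5
      have h2 : S * (3 * η / δ) = η * (S * (3 / δ)) := by ring
      rw [h2]
      linarith
    · rw [← Real.rpow_mul hH0.le]
      have h3 : η + 4 * (S * (3 * η / δ)) = (1 + 4 * (S * (3 / δ))) * η := by ring
      rw [h3]
      rw [le_div_iff₀ hL] at e6
      have h5 : 0 ≤ H ^ (M * C₁) * η * (1 + 4 * (S * (3 / δ))) := by positivity
      calc (1 + 4 * (S * (3 / δ))) * η * C₁ * H ^ (M * C₁) =
            H ^ (M * C₁) * η * (1 + 4 * (S * (3 / δ))) * C₁ := by ring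
        _ ≤ H ^ (M * C₁) * η * (1 + 4 * (S * (3 / δ))) * (C₁ + 1) :=
            mul_le_mul_of_nonneg_left (by linarith) h5
        _ = H ^ (M * C₁) * η * ((1 + 4 * (S * (3 / δ))) * (C₁ + 1)) := by ring
        _ ≤ 1 := e6
    · refine hK.trans ?_
      rw [le_div_iff₀ (by positivity)]
      have h6 : 0 ≤ C * (C₁ + 1) := by positivity
      calc C * (C₁ + 1) * H ^ s * (2 * M) = 2 * M * (C * (C₁ + 1)) * H ^ s := by ring
        _ ≤ H ^ (1 / 2 : ℝ) * H ^ (1 / 2 : ℝ) := mul_le_mul e7.le hHh (by positivity) hHp.le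
        _ = H := hHH
    · have h7 : log (2 * H ^ M + 1) ≤ log (3 * H ^ M) := by
        apply Real.log_le_log (by positivity)
        have := Real.one_le_rpow e1 hM0.le
        linarith
      have h8 : log (3 * H ^ M) = log 3 + M * log H := by
        rw [Real.log_mul (by norm_num) (by positivity), Real.log_rpow hH0]
      have h9 : log (3 : ℝ) ≤ 2 := by
        have := Real.log_le_sub_one_of_pos (x := 3) (by norm_num)
        linarith
      have h10 : log H ≤ H ^ (s / 2) / (s / 2) := Real.log_le_rpow_div hH0.le (by positivity)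
      have h11 : H ^ (s / 2) * H ^ (s / 2) = H ^ s := by
        rw [← Real.rpow_add hH0]
        congr 1
        ring
      have h12 : 1 ≤ H ^ (s / 2) := Real.one_le_rpow e1 (by positivity)
      have h13 : M * log H ≤ 2 * M / s * H ^ (s / 2) := by
        calc M * log H ≤ M * (H ^ (s / 2) / (s / 2)) := mul_le_mul_of_nonneg_left h10 hM0.le
          _ = 2 * M / s * H ^ (s / 2) := by field_simp
      rw [h8] at h7
      have h18 : (2 + 2 * M / s) * H ^ (s / 2) ≤ H ^ (s / 2) * H ^ (s / 2) :=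
        mul_le_mul_of_nonneg_right e8.le (by linarith)
      rw [h11] at h18
      linarith
    · have h14 : (C * (C₁ * H ^ s + 1)) ^ 2 * H ^ s ≤ (C * (C₁ + 1)) ^ 2 * H ^ (3 * s) := by
        have h15 : H ^ (3 * s) = H ^ s * H ^ s * H ^ s := by
          rw [← Real.rpow_add hH0, ← Real.rpow_add hH0]
          congr 1
          ring
        have h16 : (C * (C₁ * H ^ s + 1)) ^ 2 ≤ (C * (C₁ + 1) * H ^ s) ^ 2 :=
          pow_le_pow_left₀ (by positivity) hK 2
        rw [h15]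
        calc (C * (C₁ * H ^ s + 1)) ^ 2 * H ^ s ≤ (C * (C₁ + 1) * H ^ s) ^ 2 * H ^ s :=
              mul_le_mul_of_nonneg_right h16 (by positivity)
          _ = _ := by ring
      have h17 : ((C * (C₁ * H ^ s + 1)) ^ 2 * H ^ s) ^ C₂ ≤
          ((C * (C₁ + 1)) ^ 2) ^ C₂ * H ^ (1 / 2 : ℝ) := by
        refine (Real.rpow_le_rpow (by positivity) h14 hC₂.le).trans ?_
        rw [Real.mul_rpow (by positivity) (by positivity), ← Real.rpow_mul hH0.le]
        exact mul_le_mul_of_nonneg_left (Real.rpow_le_rpow_of_exponent_le e1 hs2) (by positivity)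
      rw [lt_div_iff₀ (by positivity)]
      calc C₂ * ((C * (C₁ * H ^ s + 1)) ^ 2 * H ^ s) ^ C₂ * (2 * M) ≤
            C₂ * (((C * (C₁ + 1)) ^ 2) ^ C₂ * H ^ (1 / 2 : ℝ)) * (2 * M) := by gcongr
        _ = 2 * M * (C₂ * ((C * (C₁ + 1)) ^ 2) ^ C₂) * H ^ (1 / 2 : ℝ) := by ring
        _ < H ^ (1 / 2 : ℝ) * H ^ (1 / 2 : ℝ) := mul_lt_mul_of_pos_right e9 hHp
        _ = H := hHH
  exact Filter.eventually_atTop.1 key

/-- **No such pair of large height.**

Proof. Enlarge `M`. (1) `δ`: by `height_ge_mass` for `1 - X`, `1 - Z`, `1 - X Z` (nonzero, heights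
`≤ (2 M + 1) D`) there is `δ = δ(M) ∈ (0, 1)` such that the places where one of them is `< 2 δ` have
total mass `≤ D / (2 M)`; also delete the places where `|log (v (1 - X))|` etc. are large
(`mass_large`). Remaining good places: mass `≥ D / (4 M)`. (2) At a good place `v` let `X_v, Z_v` be the
images under `v.embedding`. `X_v ^ N = (1 - z_v)^e = 1 + O(H^M exp (-(H/M)))`, so there is `k < N` with
`|X_v - rt N k| ≤ exp (-(H/(2M)))`, in the same way `|Z_v - rt N l| ≤ exp (-(H/(2M)))` (for a complex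
number `ξ` with `|ξ^N - 1| ≤ η ≤ 1/2` put `u = exp (log (ξ^N) / N)`: `|u - 1| ≤ 4 η` and `(ξ / u)^N = 1`,
so `ξ = u * rt N k` for some `k < N`).
For `H ≥ H2` then `|1 - rt N k| ≥ δ`, etc., and the product of the three powers at `rt N k, rt N l` differs
from `1` by at most `C exp (-(H/(3M)))`, so the condition of `TorsArc` holds since `N ≤ H ^ M`. (3) `TorsArc` with `ε`:
at most `C₁ N ^ ε ≤ C₁ H ^ (M ε)` pairs `(k, l)`: so `X_v` lies in at most `k₀ = ⌈C₁ H ^ (M ε)⌉` discs of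
radius `exp (-(H/(2M))) ≤ exp (-(C k₀))` (`M ε < 1/2`), and the same for `Z_v`. `deg_of_clusters` (with
`4 M`): the degrees of `X` and `Z` are at most `C k₀`, so `D ≤ (C k₀)^2` (`finrank_le_mul`).
(4) `g = X` or `g = Z` is not a root of unity, say `X`. `TwoLog` with `n = 2 N`:
`exp (-(C (D log (2 N + 1))^C)) ≤ v (X^(2 N) - 1) = |(1 - z_v)^(2 e) - 1| ≤ exp (-(H/(2M)))` at a good
place (there is one). But `C (D log (2N+1))^C ≤ C' (H^(2 M ε) log H)^C < H/(2M)` for `ε` small, `H ≥ H2`. -/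
theorem uni (h1 : TwoLog) (h2 : TorsArc) (M : ℝ) (hM : 1 ≤ M) (a b c : ℤ) (habc : Adm a b c) :
    ∃ H2 : ℝ, ∀ (H : ℝ), H2 ≤ H → ∀ (K : Type) [Field K] [NumberField K] (X Z z : K) (N : ℕ)
      (e e' : ℤ), X ≠ 0 → Z ≠ 0 → X ≠ 1 → Z ≠ 1 → X * Z ≠ 1 → z ≠ 0 → z ≠ 1 → 0 < N →
      (N : ℝ) ≤ H ^ M → |(e : ℝ)| ≤ H ^ M → |(e' : ℝ)| ≤ H ^ M →
      X ^ N = (1 - z) ^ e → Z ^ N = (1 - z) ^ e' →
      logHeight₁ X ≤ M * finrank ℚ K → logHeight₁ Z ≤ M * finrank ℚ K →
      (finrank ℚ K : ℝ) ≤ M * mass K (UPl M H a b c X Z z) →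
      IntermediateField.adjoin ℚ {X, Z} = ⊤ →
      (¬ ∃ m : ℕ, 0 < m ∧ X ^ m = 1 ∧ Z ^ m = 1) → False := by
  classical
  obtain ⟨C₂, hC₂, hlow⟩ := h1 M
  have hM0 : 0 < M := by linarith
  set B : ℝ := 24 * M * (2 * M + 1) with hB
  have hB0 : 0 < B := by positivity
  set δ : ℝ := exp (-B) / 2 with hδ
  have hδ0 : 0 < δ := by positivity
  set s : ℝ := 1 / (6 * (C₂ + 1)) with hs
  have hs0 : 0 < s := by positivity
  have hs1 : s ≤ 1 / 2 := by
    rw [hs, div_le_div_iff₀ (by positivity) (by norm_num)]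
    linarith
  have hs2 : 3 * s * C₂ ≤ 1 / 2 := by
    have h : 3 * s * C₂ = (3 * C₂) / (6 * (C₂ + 1)) := by rw [hs]; ring
    rw [h, div_le_div_iff₀ (by positivity) (by norm_num)]
    linarith
  obtain ⟨C₁, hC₁, htors⟩ := h2 a b c habc δ (s / M) hδ0 (by positivity)
  obtain ⟨C, hC, hdeg⟩ := deg_of_clusters (2 * M) (by linarith)
  obtain ⟨H2, hH2⟩ := un_ev M δ (|(a : ℝ)| + |(b : ℝ)| + |(c : ℝ)|) C₁ C₂ C s hM hδ0 hs0 hC₂
    hs1 hs2 (by linarith) hC₁.le (by positivity)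
  refine ⟨H2, ?_⟩
  intro H hH K _ _ X Z z N e e' hX0 hZ0 hX1 hZ1 hXZ hz0 hz1 hN hNH he he' hXe hZe hhX hhZ
    hmass hgen htor
  obtain ⟨g1, g2, g3, g4, g5, g6, g7, g8, g9⟩ := hH2 H hH
  set η : ℝ := exp (-(H / (2 * M))) with hη
  have hη0 : 0 < η := exp_pos _
  have hη1 : η ≤ 1 := by
    rw [hη]
    exact Real.exp_le_one_iff.2 (by
      have : 0 < H / (2 * M) := by positivity
      linarith)
  set D : ℝ := (finrank ℚ K : ℝ) with hD
  have hD1 : 1 ≤ D := by
    rw [hD]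
    exact_mod_cast (finrank_pos : 0 < finrank ℚ K)
  -- heights
  have hlog2 : log (2 : ℝ) ≤ 1 := by
    have := Real.log_le_sub_one_of_pos (x := 2) (by norm_num)
    linarith
  have hone : ∀ w : K, logHeight₁ (1 - w) ≤ logHeight₁ w + D := by
    intro w
    have h := Pool.Agent.CITNF.height_one_sub_le w
    have h' : D * log 2 ≤ D * 1 := mul_le_mul_of_nonneg_left hlog2 (by linarith)
    linarith
  have hMD : 0 ≤ M * D := mul_nonneg hM0.le (by linarith)
  have hh1 : logHeight₁ (1 - X) ≤ (2 * M + 1) * D := by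
    have := hone X
    linarith
  have hh2 : logHeight₁ (1 - Z) ≤ (2 * M + 1) * D := by
    have := hone Z
    linarith
  have hh3 : logHeight₁ (1 - X * Z) ≤ (2 * M + 1) * D := by
    have h := hone (X * Z)
    have h' := logHeight₁_mul_le X Z
    linarith
  -- the good places
  have hbad : ∀ w : K, w ≠ 0 → logHeight₁ w ≤ (2 * M + 1) * D →
      mass K (fun v => B ≤ |log (v w)|) ≤ D / (12 * M) := by
    intro w hw hh
    have h := mass_large K w hw B hB0
    have h' : mass K (fun v => B ≤ |log (v w)|) ≤ 2 * ((2 * M + 1) * D) / B := by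
      rw [le_div_iff₀ hB0]
      linarith
    refine h'.trans (le_of_eq ?_)
    rw [hB]
    field_simp
    ring
  let good : InfinitePlace K → Prop := fun v => UPl M H a b c X Z z v ∧
    |log (v (1 - X))| < B ∧ |log (v (1 - Z))| < B ∧ |log (v (1 - X * Z))| < B
  have hgood : D ≤ 2 * M * mass K good := by
    have k1 := hbad (1 - X) (sub_ne_zero.2 hX1.symm) hh1
    have k2 := hbad (1 - Z) (sub_ne_zero.2 hZ1.symm) hh2
    have k3 := hbad (1 - X * Z) (sub_ne_zero.2 hXZ.symm) hh3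
    have k4 : mass K (UPl M H a b c X Z z) ≤ mass K (fun v => good v ∨
        (B ≤ |log (v (1 - X))| ∨ (B ≤ |log (v (1 - Z))| ∨ B ≤ |log (v (1 - X * Z))|))) := by
      apply mass_mono
      intro v hv
      by_cases c1 : B ≤ |log (v (1 - X))|
      · exact Or.inr (Or.inl c1)
      by_cases c2 : B ≤ |log (v (1 - Z))|
      · exact Or.inr (Or.inr (Or.inl c2))
      by_cases c3 : B ≤ |log (v (1 - X * Z))|
      · exact Or.inr (Or.inr (Or.inr c3))
      exact Or.inl ⟨hv, not_le.1 c1, not_le.1 c2, not_le.1 c3⟩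
    have k5 := mass_or_le K good (fun v => B ≤ |log (v (1 - X))| ∨
      (B ≤ |log (v (1 - Z))| ∨ B ≤ |log (v (1 - X * Z))|))
    have k6 := mass_or_le K (fun v => B ≤ |log (v (1 - X))|)
      (fun v => B ≤ |log (v (1 - Z))| ∨ B ≤ |log (v (1 - X * Z))|)
    have k7 := mass_or_le K (fun v => B ≤ |log (v (1 - Z))|)
      (fun v => B ≤ |log (v (1 - X * Z))|)
    have k8 : mass K (UPl M H a b c X Z z) ≤ mass K good + 3 * (D / (12 * M)) := by linarith
    have k9 : M * (3 * (D / (12 * M))) = D / 4 := by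
      field_simp
      ring
    have k10 := mul_le_mul_of_nonneg_left k8 hM0.le
    rw [mul_add, k9] at k10
    have k11 : 0 ≤ mass K good := by
      unfold mass
      exact Finset.sum_nonneg fun v _ => by split_ifs <;> positivity
    have k12 := mul_nonneg hM0.le k11
    linarith
  -- the size of the error
  have hsmall : ∀ v, good v → ‖v.embedding z‖ ≤ exp (-(H / M)) := fun v hv => by
    rw [InfinitePlace.norm_embedding_eq]
    exact hv.1.1
  have hHM : 0 ≤ H ^ M := Real.rpow_nonneg (by linarith) _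
  have herr : ∀ (f : ℤ) (v : InfinitePlace K), |(f : ℝ)| ≤ 2 * H ^ M → good v →
      4 * |(f : ℝ)| * ‖v.embedding z‖ ≤ η / 2 := by
    intro f v hf hv
    have h := hsmall v hv
    calc 4 * |(f : ℝ)| * ‖v.embedding z‖ ≤ 4 * (2 * H ^ M) * exp (-(H / M)) := by
          gcongr
      _ = 16 * H ^ M * exp (-(H / M)) / 2 := by ring
      _ ≤ η / 2 := by linarith
  have hroot : ∀ (g : K) (f : ℤ), g ^ N = (1 - z) ^ f → |(f : ℝ)| ≤ H ^ M →
      ∀ v, good v → ∃ k < N, ‖v.embedding g - rt N k‖ ≤ η := by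
    intro g f hgf hf v hv
    have k1 : (v.embedding g) ^ N = (1 - v.embedding z) ^ f := by
      rw [← map_pow, hgf, map_zpow₀, map_sub, map_one]
    have k2 := herr f v (by linarith) hv
    obtain ⟨k, hk, hk1⟩ := un_root _ _ ((hsmall v hv).trans g2) N hN f (by linarith) k1
    exact ⟨k, hk, by linarith⟩
  have hpair : ∀ v : InfinitePlace K, ∃ p : ℕ × ℕ, good v → p.1 < N ∧ p.2 < N ∧
      ‖v.embedding X - rt N p.1‖ ≤ η ∧ ‖v.embedding Z - rt N p.2‖ ≤ η := by
    intro v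
    by_cases hv : good v
    · obtain ⟨k, hk, hk1⟩ := hroot X e hXe he v hv
      obtain ⟨l, hl, hl1⟩ := hroot Z e' hZe he' v hv
      exact ⟨(k, l), fun _ => ⟨hk, hl, hk1, hl1⟩⟩
    · exact ⟨(0, 0), fun h => absurd h hv⟩
  choose pr hpr using hpair
  set P : Finset (ℕ × ℕ) := (Finset.univ.filter good).image pr with hP
  have hcard := htors N hN P (by
    intro p hp
    obtain ⟨v, hv, rfl⟩ := Finset.mem_image.1 hp
    have hv' : good v := (Finset.mem_filter.1 hv).2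
    obtain ⟨q1, q2, q3, q4⟩ := hpr v hv'
    obtain ⟨⟨u1, u2⟩, u3, u4, u5⟩ := hv'
    have low : ∀ w : K, w ≠ 0 → |log (v w)| < B → 2 * δ ≤ ‖v.embedding w‖ := by
      intro w hw hl
      rw [InfinitePlace.norm_embedding_eq, hδ]
      have h0 : 0 < v w := v.pos_iff.2 hw
      have h3 := (abs_lt.1 hl).1
      have h4 : exp (-B) ≤ v w := by
        rw [← Real.le_log_iff_exp_le h0]
        exact h3.le
      linarith
    have l1 := low (1 - X) (sub_ne_zero.2 hX1.symm) u3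
    have l2 := low (1 - Z) (sub_ne_zero.2 hZ1.symm) u4
    have l3 := low (1 - X * Z) (sub_ne_zero.2 hXZ.symm) u5
    rw [map_sub, map_one] at l1 l2 l3
    rw [map_mul] at l3
    have d1 : |‖1 - rt N (pr v).1‖ - ‖1 - v.embedding X‖| ≤ 3 * η := by
      refine (abs_norm_sub_norm_le _ _).trans ?_
      have : 1 - rt N (pr v).1 - (1 - v.embedding X) = v.embedding X - rt N (pr v).1 := by ring
      rw [this]
      linarith
    have d2 : |‖1 - rt N (pr v).2‖ - ‖1 - v.embedding Z‖| ≤ 3 * η := by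
      refine (abs_norm_sub_norm_le _ _).trans ?_
      have : 1 - rt N (pr v).2 - (1 - v.embedding Z) = v.embedding Z - rt N (pr v).2 := by ring
      rw [this]
      linarith
    have d3 : |‖1 - rt N ((pr v).1 + (pr v).2)‖ - ‖1 - v.embedding X * v.embedding Z‖| ≤
        3 * η := by
      refine (abs_norm_sub_norm_le _ _).trans ?_
      have : 1 - rt N ((pr v).1 + (pr v).2) - (1 - v.embedding X * v.embedding Z) =
          (v.embedding X - rt N (pr v).1) * (v.embedding Z - rt N (pr v).2) +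
          (v.embedding X - rt N (pr v).1) * rt N (pr v).2 +
          rt N (pr v).1 * (v.embedding Z - rt N (pr v).2) := by
        rw [rt_add]
        ring
      rw [this]
      refine (norm_add₃_le).trans ?_
      rw [norm_mul, norm_mul, norm_mul, norm_rt, norm_rt]
      have : ‖v.embedding X - rt N (pr v).1‖ * ‖v.embedding Z - rt N (pr v).2‖ ≤ η * 1 :=
        mul_le_mul q3 (q4.trans hη1) (norm_nonneg _) hη0.le
      linarith
    have m1 : δ ≤ ‖1 - rt N (pr v).1‖ := by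
      have := (abs_le.1 d1).1
      linarith
    have m2 : δ ≤ ‖1 - rt N (pr v).2‖ := by
      have := (abs_le.1 d2).1
      linarith
    have m3 : δ ≤ ‖1 - rt N ((pr v).1 + (pr v).2)‖ := by
      have := (abs_le.1 d3).1
      linarith
    refine ⟨q1, q2, m1, m2, m3, ?_⟩
    have hτ : exp (-(H / M)) ≤ η := by
      rw [hη]
      apply Real.exp_le_exp.2
      have : H / (2 * M) ≤ H / M := by
        apply div_le_div_of_nonneg_left (by linarith) hM0
        linarith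
      linarith
    have u2' : |‖1 - v.embedding X‖ ^ a * ‖1 - v.embedding Z‖ ^ b *
        ‖1 - v.embedding X * v.embedding Z‖ ^ c - 1| ≤ η := by
      have i1 : v (1 - X) = ‖1 - v.embedding X‖ := by
        rw [← InfinitePlace.norm_embedding_eq, map_sub, map_one]
      have i2 : v (1 - Z) = ‖1 - v.embedding Z‖ := by
        rw [← InfinitePlace.norm_embedding_eq, map_sub, map_one]
      have i3 : v (1 - X * Z) = ‖1 - v.embedding X * v.embedding Z‖ := by
        rw [← InfinitePlace.norm_embedding_eq, map_sub, map_one, map_mul]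
      rw [i1, i2, i3] at u2
      exact u2.trans hτ
    have hprod := un_prod δ η hδ0 hη1 a b c _ _ _ _ _ _ m1 (by linarith) m2 (by linarith) m3
      (by linarith) d1 d2 d3 g5 u2'
    have hN1 : (N : ℝ) ^ C₁ ≤ (H ^ M) ^ C₁ := Real.rpow_le_rpow (Nat.cast_nonneg _) hNH hC₁.le
    refine le_trans ?_ g6
    gcongr)
  set k₀ : ℕ := max P.card 1 with hk₀
  have hk₀1 : 1 ≤ k₀ := le_max_right _ _
  have hPc : (P.card : ℝ) ≤ C₁ * H ^ s := by
    refine hcard.trans ?_
    have k1 : (N : ℝ) ^ (s / M) ≤ (H ^ M) ^ (s / M) :=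
      Real.rpow_le_rpow (Nat.cast_nonneg _) hNH (by positivity)
    rw [← Real.rpow_mul (by linarith)] at k1
    have k2 : M * (s / M) = s := by field_simp
    rw [k2] at k1
    exact mul_le_mul_of_nonneg_left k1 hC₁.le
  have hHs0 : 0 ≤ H ^ s := Real.rpow_nonneg (by linarith) _
  have hk₀R : (k₀ : ℝ) ≤ C₁ * H ^ s + 1 := by
    rw [hk₀, Nat.cast_max, Nat.cast_one]
    have h0 : 0 ≤ C₁ * H ^ s := mul_nonneg hC₁.le hHs0
    exact max_le (by linarith) (by linarith)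
  have hCk : C * k₀ ≤ C * (C₁ * H ^ s + 1) := mul_le_mul_of_nonneg_left hk₀R (by linarith)
  have hηk : η ≤ exp (-(C * k₀)) := by
    rw [hη]
    exact Real.exp_le_exp.2 (by linarith)
  have hmon : ∀ q : InfinitePlace K → Prop, (∀ v, good v → q v) → D ≤ 2 * M * mass K q := by
    intro q hq
    exact hgood.trans (mul_le_mul_of_nonneg_left (mass_mono K good q hq) (by linarith))
  have hdX : ((minpoly ℚ X).natDegree : ℝ) ≤ C * k₀ := by
    refine hdeg K X k₀ (P.image fun p => rt N p.1) hk₀1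
      (Finset.card_image_le.trans (le_max_left _ _)) (by linarith) (hmon _ ?_)
    intro v hv
    obtain ⟨q1, q2, q3, q4⟩ := hpr v hv
    refine ⟨rt N (pr v).1, ?_, q3.trans hηk⟩
    exact Finset.mem_image.2 ⟨pr v, Finset.mem_image.2 ⟨v, by simp [hv], rfl⟩, rfl⟩
  have hdZ : ((minpoly ℚ Z).natDegree : ℝ) ≤ C * k₀ := by
    refine hdeg K Z k₀ (P.image fun p => rt N p.2) hk₀1
      (Finset.card_image_le.trans (le_max_left _ _)) (by linarith) (hmon _ ?_)
    intro v hv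
    obtain ⟨q1, q2, q3, q4⟩ := hpr v hv
    refine ⟨rt N (pr v).2, ?_, q4.trans hηk⟩
    exact Finset.mem_image.2 ⟨pr v, Finset.mem_image.2 ⟨v, by simp [hv], rfl⟩, rfl⟩
  have hDk : D ≤ (C * (C₁ * H ^ s + 1)) ^ 2 := by
    have k1 : D ≤ ((minpoly ℚ X).natDegree : ℝ) * ((minpoly ℚ Z).natDegree : ℝ) := by
      rw [hD]
      exact_mod_cast finrank_le_mul K X Z hgen
    refine k1.trans ?_
    rw [sq]
    exact mul_le_mul (hdX.trans hCk) (hdZ.trans hCk) (Nat.cast_nonneg _)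
      (by positivity)
  -- one of the two is not a root of unity
  have hnr : (¬ ∃ m : ℕ, 0 < m ∧ X ^ m = 1) ∨ (¬ ∃ m : ℕ, 0 < m ∧ Z ^ m = 1) := by
    by_contra hcon
    push Not at hcon
    obtain ⟨⟨m, hm, hm1⟩, ⟨n, hn, hn1⟩⟩ := hcon
    exact htor ⟨m * n, Nat.mul_pos hm hn, by rw [pow_mul, hm1, one_pow],
      by rw [mul_comm, pow_mul, hn1, one_pow]⟩
  have hex : ∃ v, good v := by
    by_contra hcon
    push Not at hcon
    have k1 : mass K good = 0 := by
      unfold mass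
      exact Finset.sum_eq_zero fun v _ => if_neg (hcon v)
    rw [k1] at hgood
    linarith
  obtain ⟨v, hv⟩ := hex
  have hfin : ∀ (g : K) (f : ℤ), g ^ N = (1 - z) ^ f → |(f : ℝ)| ≤ H ^ M →
      logHeight₁ g ≤ M * D → (¬ ∃ m : ℕ, 0 < m ∧ g ^ m = 1) → False := by
    intro g f hgf hf hg hnot
    have k1 := hlow K g hg hnot v (2 * N) (by omega)
    have k2 : v (g ^ (2 * N) - 1) ≤ η := by
      have q1 : (v.embedding g) ^ (2 * N) = (1 - v.embedding z) ^ (f * 2) := by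
        rw [mul_comm 2 N, pow_mul, ← map_pow, hgf, map_zpow₀, map_sub, map_one, zpow_mul,
          zpow_ofNat]
      have k3 : |((f * 2 : ℤ) : ℝ)| ≤ 2 * H ^ M := by
        push_cast
        rw [abs_mul, abs_two]
        linarith
      rw [← InfinitePlace.norm_embedding_eq, map_sub, map_one, map_pow, q1]
      generalize f * 2 = F at k3
      have k4 := herr F v k3 hv
      have k5 := un_pow (v.embedding z) ((hsmall v hv).trans g2) F (by linarith)
      linarith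
    have k6 := k1.trans k2
    rw [hη, Real.exp_le_exp, neg_le_neg_iff] at k6
    have hNr : (1 : ℝ) ≤ N := by exact_mod_cast hN
    have k7 : log (((2 * N : ℕ) : ℝ) + 1) ≤ H ^ s := by
      refine le_trans (Real.log_le_log (by positivity) ?_) g8
      push_cast
      linarith
    have k8 : D * log (((2 * N : ℕ) : ℝ) + 1) ≤ (C * (C₁ * H ^ s + 1)) ^ 2 * H ^ s := by
      refine mul_le_mul hDk k7 (Real.log_nonneg ?_) (by positivity)
      push_cast
      linarith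
    have k9 : 0 ≤ D * log (((2 * N : ℕ) : ℝ) + 1) := by
      refine mul_nonneg (by linarith) (Real.log_nonneg ?_)
      push_cast
      linarith
    have k10 := Real.rpow_le_rpow k9 k8 hC₂.le
    have k11 := mul_le_mul_of_nonneg_left k10 hC₂.le
    linarith
  rcases hnr with h | h
  · exact hfin X e hXe he hhX h
  · exact hfin Z e' hZe he' hhZ h

end Pool.Agent.L3S
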